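import Mathlib

/-!
# SC.Comp : components of a polynomial

`cmp F α f` = the sum of the terms of `f` whose exponent agrees with `α` on `F` (`α` is supported in `F`).

PROOF. `sum_cmp`: group the monomials (`Finset.sum_fiberwise_of_maps_to`, `as_sum`). `cmp_van`: for `z ∈ Z` let `Q = ∑ α, (aeval z (cmp F α f)) • monomial α 1`, the sum over the finitely many occurring `α`. For every `l : Fin N → K` the value
`aeval l Q` equals `aeval (fun i => if i ∈ F then l i * z i else z i) f = 0`: compare the terms of `f`: the monomial `m` has the value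
`coeff m f * ∏ z i ^ m i * ∏ i ∈ F, l i ^ m i`. So `Q = 0` (`MvPolynomial.funext`, `K` infinite) and its coefficient at `α` is `0`.
-/

set_option autoImplicit false

open MvPolynomial

namespace Pool.Agent.H6.SC

universe u

open scoped Classical

variable {K : Type u} [Field K] {N : ℕ}

noncomputable def cmp (F : Set (Fin N)) (α : Fin N →₀ ℕ) (f : MvPolynomial (Fin N) K) : MvPolynomial (Fin N) K :=
  ∑ m ∈ f.support.filter (fun m => m.filter (· ∈ F) = α), monomial m (coeff m f)

theorem coeff_cmp (F : Set (Fin N)) (α : Fin N →₀ ℕ) (f : MvPolynomial (Fin N) K) (m : Fin N →₀ ℕ) :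
    coeff m (cmp F α f) = if m.filter (· ∈ F) = α then coeff m f else 0 := by
  unfold cmp
  rw [coeff_sum]
  simp only [coeff_monomial]
  rw [Finset.sum_ite_eq']
  by_cases h1 : m.filter (· ∈ F) = α
  · rw [if_pos h1]
    by_cases h2 : coeff m f = 0
    · rw [h2, ite_self]
    · rw [if_pos (Finset.mem_filter.2 ⟨mem_support_iff.2 h2, h1⟩)]
  · have h3 : m ∉ f.support.filter (fun m => m.filter (· ∈ F) = α) :=
      fun h => h1 (Finset.mem_filter.1 h).2
    rw [if_neg h1, if_neg h3]

theorem sum_cmp (F : Set (Fin N)) (f : MvPolynomial (Fin N) K) :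
    ∑ α ∈ f.support.image (fun m => m.filter (· ∈ F)), cmp F α f = f := by
  ext m
  rw [coeff_sum]
  simp only [coeff_cmp]
  rw [Finset.sum_ite_eq]
  by_cases h : coeff m f = 0
  · rw [h, ite_self]
  · rw [if_pos]
    exact Finset.mem_image.2 ⟨m, mem_support_iff.2 h, rfl⟩

/-- the value of one component at a scaled point -/
private theorem aeval_cmp_scale (F : Set (Fin N)) (α : Fin N →₀ ℕ) (f : MvPolynomial (Fin N) K)
    (z l : Fin N → K) :
    aeval (fun i => if i ∈ F then l i * z i else z i) (cmp F α f) =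
      aeval z (cmp F α f) * ∏ i, l i ^ α i := by
  unfold cmp
  rw [map_sum, map_sum, Finset.sum_mul]
  refine Finset.sum_congr rfl fun m hm => ?_
  have hα : m.filter (· ∈ F) = α := (Finset.mem_filter.1 hm).2
  rw [aeval_monomial, aeval_monomial, mul_assoc]
  congr 1
  rw [Finsupp.prod_fintype _ _ (fun i => pow_zero _), Finsupp.prod_fintype _ _ (fun i => pow_zero _),
    ← Finset.prod_mul_distrib]
  refine Finset.prod_congr rfl fun i _ => ?_
  rw [← hα]
  by_cases hi : i ∈ F
  · rw [if_pos hi, Finsupp.filter_apply_pos _ _ hi, mul_pow, mul_comm]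
  · rw [if_neg hi, Finsupp.filter_apply_neg _ _ hi, pow_zero, mul_one]

theorem cmp_van [Infinite K] (F : Set (Fin N)) (Z : Set (Fin N → K))
    (hZ : ∀ z ∈ Z, ∀ l : Fin N → K, (fun i => if i ∈ F then l i * z i else z i) ∈ Z) {f : MvPolynomial (Fin N) K}
    (hf : ∀ z ∈ Z, aeval z f = 0) (α : Fin N →₀ ℕ) : ∀ z ∈ Z, aeval z (cmp F α f) = 0 := by
  intro z hz
  set A : Finset (Fin N →₀ ℕ) := f.support.image (fun m => m.filter (· ∈ F)) with hA
  set Q : MvPolynomial (Fin N) K := ∑ β ∈ A, monomial β (aeval z (cmp F β f)) with hQ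
  have hQ0 : Q = 0 := by
    refine MvPolynomial.funext fun l => ?_
    rw [map_zero]
    have h1 : aeval (fun i => if i ∈ F then l i * z i else z i) f = 0 := hf _ (hZ z hz l)
    rw [← h1]
    conv_rhs => rw [← sum_cmp F f, map_sum]
    rw [hQ, map_sum]
    refine Finset.sum_congr rfl fun β _ => ?_
    rw [aeval_cmp_scale, eval_monomial, Finsupp.prod_fintype _ _ (fun i => pow_zero _)]
  by_cases hα : α ∈ A
  · have h1 : coeff α Q = aeval z (cmp F α f) := by
      rw [hQ, coeff_sum]
      simp only [coeff_monomial]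
      rw [Finset.sum_ite_eq', if_pos hα]
    rw [← h1, hQ0, coeff_zero]
  · have h1 : cmp F α f = 0 := by
      ext m
      rw [coeff_cmp, coeff_zero]
      by_cases h2 : m.filter (· ∈ F) = α
      · rw [if_pos h2]
        by_contra h3
        exact hα (Finset.mem_image.2 ⟨m, mem_support_iff.2 h3, h2⟩)
      · rw [if_neg h2]
    rw [h1, map_zero]

end Pool.Agent.H6.SC
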