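import Pool.Agent.H6.SC.DLin

/-!
# SC.DForm : the linear forms

`aeval_pf`: `aeval z (pf s x) = ∑ j, pp x j * z (cj s j)`, so it depends on the block of `z` at `s` and vanishes when the block is in
`span {nu x}`; `pp x · nu y = 0 ↔ x = y`.

PROOF. `lin_hom`: clear. `lin_nod`: star: `pp x · nu x = 0`. Not a star: `oc v u` is the coordinate of another end `w ≠ u` of `v` or the loop coordinate;
`nod v u` vanishes there: the supports of the ends of `v` are disjoint (free coordinates: `fr_inj`, `s(v, u) = s(v, w)` only if `u = w`; star coordinates: `far2`, `fr_cj`).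
`lin_ne`: star: `nu y`, `y ≠ x` (`nod v (arm v y)`). Not a star: `nod v w` for the chosen `w` has the coordinate `ec v w` equal to `1` (`nu 0 = (1, 0)`, `nu 1 = (0, 1)`,
`nu 2 = (1, 1)`), or the loop vector. `lin_L` (zero on `L u`): star `v`, `z ∈ L u`: by `mem_L` the block at `v` is in
`W {u} v = span {nu x}`, `x = dir v u` (`u ≠ v`; `arm v y = u` only for `y = x`). Not a star: the coordinate `oc v u` of `z ∈ L u` is zero. If it is
`ec v w` with `w` a star: the block at `w` is in `W {u} w`, which is `0` unless `u = w` (excluded) or `u` is a neighbour of `w`; but `u ~ v ~ w ~ u` is a triangle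
(`tri`). If it is `fr v w` (`w` not a star, `Fre v w`) and `z (fr v w) ≠ 0` then by `mem_L` `fr v w = fr u x` with `Fre u x` (or a star coordinate:
`fr_cj`), so `s(v, w) = s(u, x)`, `u = w` or `u = v`: excluded. Loop coordinate `fr v v`: `Fre v v` holds since all neighbours of `v` are `u`
(and `v` has one); `s(v, v) = s(u, x)` gives `u = v`: excluded.
-/

set_option autoImplicit false

open MvPolynomial

namespace Pool.Agent.H6.SC

universe u

open scoped Classical

variable {V : Type} [Fintype V] {G : SimpleGraph V} {N : ℕ} (D : Dat G N) (K : Type u) [Field K]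

theorem aeval_pf (s : V) (x : Fin 3) (z : Fin N → K) :
    aeval z (D.pf K s x) = ∑ j, pp K x j * z (D.cj s j) := by
  unfold Dat.pf
  rw [map_sum]
  refine Finset.sum_congr rfl fun j _ => ?_
  rw [map_mul, aeval_C, aeval_X]
  rfl

theorem pp_nu (x y : Fin 3) : ∑ j, pp K x j * nu K y j = 0 ↔ x = y := by
  rw [Fin.sum_univ_two]
  fin_cases x <;> fin_cases y <;> simp [pp, nu]

theorem pf_hom (s : V) (x : Fin 3) : (D.pf K s x).IsHomogeneous 1 := by
  unfold Dat.pf
  refine IsHomogeneous.sum _ _ _ fun j _ => ?_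
  have h := (isHomogeneous_C (Fin N) (pp K x j)).mul (isHomogeneous_X K (D.cj s j))
  rwa [zero_add] at h

private theorem dform_span (x : Fin 3) (p : Fin 2 → K) :
    ∑ j, pp K x j * p j = 0 ↔ p ∈ Submodule.span K {nu K x} := by
  rw [Fin.sum_univ_two, Submodule.mem_span_singleton]
  have hx : x = 0 ∨ x = 1 ∨ x = 2 := by
    fin_cases x <;> simp
  rcases hx with rfl | rfl | rfl
  · constructor
    · intro h
      refine ⟨p 0, ?_⟩
      have h1 : p 1 = 0 := by simpa [pp] using h
      funext j
      fin_cases j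
      · simp [nu]
      · simp [nu, h1]
    · rintro ⟨a, rfl⟩
      simp [pp, nu]
  · constructor
    · intro h
      refine ⟨p 1, ?_⟩
      have h1 : p 0 = 0 := by simpa [pp] using h
      funext j
      fin_cases j
      · simp [nu, h1]
      · simp [nu]
    · rintro ⟨a, rfl⟩
      simp [pp, nu]
  · constructor
    · intro h
      refine ⟨p 0, ?_⟩
      have h0 : p 0 + -p 1 = 0 := by simpa [pp] using h
      have h1 : p 1 = p 0 := by
        rw [← sub_eq_add_neg, sub_eq_zero] at h0
        exact h0.symm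
      funext j
      fin_cases j
      · simp [nu]
      · simp [nu, h1]
    · rintro ⟨a, rfl⟩
      simp [pp, nu]

/-- the form `pf s x` vanishes iff the block is a multiple of `nu x` -/
theorem pf_zero_iff (s : V) (x : Fin 3) (z : Fin N → K) :
    aeval z (D.pf K s x) = 0 ↔ (fun j => z (D.cj s j)) ∈ Submodule.span K {nu K x} := by
  rw [aeval_pf]
  exact dform_span K x (fun j => z (D.cj s j))

theorem nod_ec {v w : V} (hv : ¬ D.st v) (h : G.Adj v w) : D.nod K v w (D.ec v w) = 1 := by
  have _ := h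
  unfold Dat.nod Dat.ec
  rw [if_neg hv]
  by_cases hw : D.st w
  · rw [if_pos hw, if_pos hw, sv_cj D K hw]
    generalize D.dir w v = x
    fin_cases x <;> simp [nu]
  · rw [if_neg hw, if_neg hw, Pi.single_eq_same]

theorem dlin_hom (u v : V) : (D.lin K u v).IsHomogeneous 1 := by
  unfold Dat.lin
  split_ifs
  · exact pf_hom D K u _
  · exact isHomogeneous_X K _

private theorem dform_fre {v u : V} (hv : ¬ D.st v) (h : ¬ ∃ w, G.Adj v w ∧ w ≠ u) :
    Fre G D.st v v := by
  refine Or.inr ⟨rfl, hv, fun w x hw hx => ?_⟩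
  push Not at h
  rw [h w hw, h x hx]

private theorem dform_oc (v u : V) : (∃ w, G.Adj v w ∧ w ≠ u ∧ D.oc v u = D.ec v w) ∨
    ((¬ ∃ w, G.Adj v w ∧ w ≠ u) ∧ D.oc v u = D.fr v v) := by
  by_cases h : ∃ w, G.Adj v w ∧ w ≠ u
  · refine Or.inl ⟨h.choose, h.choose_spec.1, h.choose_spec.2, ?_⟩
    unfold Dat.oc
    rw [dif_pos h]
  · refine Or.inr ⟨h, ?_⟩
    unfold Dat.oc
    rw [dif_neg h]

theorem dlin_nod {u v : V} (h : G.Adj u v) : aeval (D.nod K u v) (D.lin K u v) = 0 := by
  by_cases hu : D.st u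
  · have e1 : D.lin K u v = D.pf K u (D.dir u v) := by unfold Dat.lin; rw [if_pos hu]
    have e2 : D.nod K u v = D.sv K u (nu K (D.dir u v)) := by unfold Dat.nod; rw [if_pos hu]
    rw [e1, aeval_pf, e2]
    simp only [sv_cj D K hu]
    exact (pp_nu K _ _).2 rfl
  · have e1 : D.lin K u v = X (D.oc u v) := by unfold Dat.lin; rw [if_neg hu]
    rw [e1, aeval_X]
    by_cases hv : D.st v
    · have e2 : D.nod K u v = D.sv K v (nu K (D.dir v u)) := by
        unfold Dat.nod; rw [if_neg hu, if_pos hv]
      rw [e2]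
      rcases dform_oc D u v with ⟨w, hw, hwv, ho⟩ | ⟨hn, ho⟩
      · have hws : ¬ D.st w := fun hs => hwv (D.far2 w v u hs hv hw.symm h.symm)
        rw [ho]
        unfold Dat.ec
        rw [if_neg hws]
        exact sv_ne D K _ fun j => D.fr_cj u w v j (Or.inl ⟨hw, hu, hws⟩) hv
      · rw [ho]
        exact sv_ne D K _ fun j => D.fr_cj u u v j (dform_fre D hu hn) hv
    · have e2 : D.nod K u v = Pi.single (D.fr u v) 1 := by
        unfold Dat.nod; rw [if_neg hu, if_neg hv]
      rw [e2]
      have hF : Fre G D.st u v := Or.inl ⟨h, hu, hv⟩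
      rcases dform_oc D u v with ⟨w, hw, hwv, ho⟩ | ⟨hn, ho⟩
      · rw [ho]
        unfold Dat.ec
        by_cases hws : D.st w
        · rw [if_pos hws]
          exact Pi.single_eq_of_ne (fun he => D.fr_cj u v w _ hF hws he.symm) _
        · rw [if_neg hws]
          refine Pi.single_eq_of_ne (fun he => hwv ?_) _
          have h1 := D.fr_inj u w u v (Or.inl ⟨hw, hu, hws⟩) hF he
          rcases Sym2.eq_iff.1 h1 with ⟨-, h2⟩ | ⟨h2, h3⟩
          · exact h2
          · exact h3.trans h2
      · rw [ho]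
        refine Pi.single_eq_of_ne (fun he => h.ne ?_) _
        have h1 := D.fr_inj u u u v (dform_fre D hu hn) hF he
        rcases Sym2.eq_iff.1 h1 with ⟨-, h2⟩ | ⟨h2, -⟩
        · exact h2
        · exact h2

theorem dlin_ne {u v : V} (h : G.Adj u v) : ∃ z ∈ D.L K u, aeval z (D.lin K u v) ≠ 0 := by
  have _ := h
  by_cases hu : D.st u
  · have e1 : D.lin K u v = D.pf K u (D.dir u v) := by unfold Dat.lin; rw [if_pos hu]
    obtain ⟨y, hy⟩ : ∃ y : Fin 3, D.dir u v ≠ y := by
      generalize D.dir u v = x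
      fin_cases x
      · exact ⟨1, by decide⟩
      · exact ⟨0, by decide⟩
      · exact ⟨0, by decide⟩
    refine ⟨D.nod K u (D.arm u y), dnod_mem D K (D.adj_arm' hu y), ?_⟩
    have e2 : D.nod K u (D.arm u y) = D.sv K u (nu K y) := by
      unfold Dat.nod; rw [if_pos hu, D.dir_arm hu]
    rw [e1, aeval_pf, e2]
    simp only [sv_cj D K hu]
    exact fun h0 => hy ((pp_nu K _ _).1 h0)
  · have e1 : D.lin K u v = X (D.oc u v) := by unfold Dat.lin; rw [if_neg hu]
    rw [e1]
    rcases dform_oc D u v with ⟨w, hw, hwv, ho⟩ | ⟨hn, ho⟩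
    · refine ⟨D.nod K u w, dnod_mem D K hw, ?_⟩
      rw [aeval_X, ho, nod_ec D K hu hw]
      exact one_ne_zero
    · refine ⟨Pi.single (D.fr u u) 1, ?_, ?_⟩
      · unfold Dat.L
        exact Submodule.subset_span (Or.inr ⟨dform_fre D hu hn, rfl⟩)
      · rw [aeval_X, ho, Pi.single_eq_same]
        exact one_ne_zero

theorem dlin_L {u v : V} (h : G.Adj u v) {z : Fin N → K} (hz : z ∈ D.L K v) : aeval z (D.lin K u v) = 0 := by
  obtain ⟨hz1, hz2⟩ := (mem_L D K v z).1 hz
  by_cases hu : D.st u
  · have e1 : D.lin K u v = D.pf K u (D.dir u v) := by unfold Dat.lin; rw [if_pos hu]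
    rw [e1, pf_zero_iff]
    have h1 := hz2 u hu
    unfold Dat.W at h1
    rw [if_neg (by rw [Finset.mem_singleton]; exact h.ne)] at h1
    refine Submodule.span_mono ?_ h1
    rintro p ⟨x, hx, rfl⟩
    rw [Finset.mem_singleton] at hx
    have e2 : D.dir u v = x := by rw [← hx, D.dir_arm hu]
    rw [e2]
    exact Set.mem_singleton _
  · have e1 : D.lin K u v = X (D.oc u v) := by unfold Dat.lin; rw [if_neg hu]
    rw [e1, aeval_X]
    have key : ∀ w, Fre G D.st u w → w ≠ v → z (D.fr u w) = 0 := by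
      intro w hF hwv
      by_contra h0
      rcases hz1 _ h0 with ⟨s, j, hs, he⟩ | ⟨x, hx, he⟩
      · exact D.fr_cj u w s j hF hs he
      · have h2 := D.fr_inj u w v x hF hx he
        rcases Sym2.eq_iff.1 h2 with ⟨h3, -⟩ | ⟨-, h3⟩
        · exact h.ne h3
        · exact hwv h3
    rcases dform_oc D u v with ⟨w, hw, hwv, ho⟩ | ⟨hn, ho⟩
    · rw [ho]
      unfold Dat.ec
      by_cases hws : D.st w
      · rw [if_pos hws]
        have h1 := hz2 w hws
        have h2 : D.W K {v} w = ⊥ := by
          unfold Dat.W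
          rw [if_neg (by rw [Finset.mem_singleton]; exact hwv), Submodule.span_eq_bot]
          rintro p ⟨x, hx, rfl⟩
          rw [Finset.mem_singleton] at hx
          exact absurd (hx ▸ D.adj_arm' hws x) (D.tri w u v hw.symm h)
        rw [h2, Submodule.mem_bot] at h1
        exact congrFun h1 _
      · rw [if_neg hws]
        exact key w (Or.inl ⟨hw, hu, hws⟩) hwv
    · rw [ho]
      exact key u (dform_fre D hu hn) h.ne

end Pool.Agent.H6.SC
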