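import Mathlib

/-!
# SC.Hyp : polynomials on subspaces and hyperplanes

PROOF. `irr`: choose a basis `e_1, ..., e_m` of `M`; the substitution `X i ↦ ∑ j, C (e_j i) * X j` is an algebra map `φ` to `MvPolynomial (Fin m) K` with
`aeval c (φ p) = aeval (∑ c_j e_j) p`; `φ p * φ q = 0` by `MvPolynomial.funext`, so `φ p = 0` or `φ q = 0`. `irr_list`: induction.
`dvd_of_hyp`: `l = ∑ c_i X_i` with `c_j ≠ 0`; let `φ X_j = - c_j⁻¹ ∑_{i ≠ j} c_i X_i`, `φ X_i = X_i` otherwise. `X_i - φ X_i ∈ (l)` for all `i`, so `p - φ p ∈ (l)` (`Ideal.Quotient`, or induction on `p`), and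
`φ p = 0`: `aeval z (φ p) = aeval z' p` with `aeval z' l = 0`. `prod_dvd`: induction on `s`: `p = (∏ x ∈ s, l x) * q`; on the hyperplane `M` of `l y` the product `(∏ l x) * q` vanishes; by `irr` (for a finite product, induction) one of the
`l x` vanishes on `M`, excluded by `hsep`, or `q` does, so `l y ∣ q`.
-/

set_option autoImplicit false

open MvPolynomial

namespace Pool.Agent.H6.SC

universe u

open scoped Classical

variable {K : Type u} [Field K] {N : ℕ}

theorem irr [Infinite K] (M : Submodule K (Fin N → K)) {p q : MvPolynomial (Fin N) K}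
    (h : ∀ z ∈ M, aeval z (p * q) = (0 : K)) : (∀ z ∈ M, aeval z p = (0 : K)) ∨ ∀ z ∈ M, aeval z q = (0 : K) := by
  let b := Module.finBasis K M
  let φ : MvPolynomial (Fin N) K →ₐ[K] MvPolynomial (Fin (Module.finrank K M)) K :=
    aeval (fun i => ∑ j, C ((b j : Fin N → K) i) * X j)
  have key : ∀ (c : Fin (Module.finrank K M) → K) (r : MvPolynomial (Fin N) K),
      eval c (φ r) = aeval ((∑ j, c j • b j : M) : Fin N → K) r := by
    intro c r
    have h1 : ((aeval c : MvPolynomial (Fin (Module.finrank K M)) K →ₐ[K] K).comp φ)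
        = aeval ((∑ j, c j • b j : M) : Fin N → K) := by
      apply MvPolynomial.algHom_ext
      intro i
      simp only [φ, AlgHom.comp_apply, aeval_X, map_sum, map_mul, aeval_C, Algebra.algebraMap_self,
        RingHom.id_apply, Submodule.coe_sum, Submodule.coe_smul, Finset.sum_apply, Pi.smul_apply,
        smul_eq_mul]
      exact Finset.sum_congr rfl (fun j _ => mul_comm _ _)
    have h2 := DFunLike.congr_fun h1 r
    rw [AlgHom.comp_apply] at h2
    rw [← h2]
    rfl
  have hpq : φ p * φ q = 0 := by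
    rw [← map_mul]
    apply MvPolynomial.funext
    intro c
    rw [key, map_zero]
    exact h _ (Subtype.prop _)
  have hfin : ∀ r : MvPolynomial (Fin N) K, φ r = 0 → ∀ z ∈ M, aeval z r = (0 : K) := by
    intro r hr z hz
    have h1 := key (b.repr ⟨z, hz⟩) r
    rw [hr, map_zero, b.sum_repr] at h1
    exact h1.symm
  rcases mul_eq_zero.mp hpq with h1 | h1
  · exact Or.inl (hfin p h1)
  · exact Or.inr (hfin q h1)

theorem irr_list [Infinite K] (M : Submodule K (Fin N → K)) (l : List (MvPolynomial (Fin N) K))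
    (h : ∀ z ∈ M, aeval z l.prod = (0 : K)) : ∃ p ∈ l, ∀ z ∈ M, aeval z p = (0 : K) := by
  induction l with
  | nil =>
    have := h 0 M.zero_mem
    rw [List.prod_nil, map_one] at this
    exact absurd this one_ne_zero
  | cons a l ih =>
    rw [List.prod_cons] at h
    rcases irr M h with h1 | h1
    · exact ⟨a, List.mem_cons_self, h1⟩
    · obtain ⟨p, hp, hp'⟩ := ih h1
      exact ⟨p, List.mem_cons_of_mem _ hp, hp'⟩

private lemma linear_form {l : MvPolynomial (Fin N) K} (hl : l.IsHomogeneous 1) :
    ∃ c : Fin N → K, ∑ i, c i • (X i : MvPolynomial (Fin N) K) = l := by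
  have h1 : l ∈ homogeneousSubmodule (Fin N) K 1 := hl
  rw [homogeneousSubmodule_one_eq_span_X] at h1
  exact (Submodule.mem_span_range_iff_exists_fun K).mp h1

private lemma linear_eval {l : MvPolynomial (Fin N) K} {c : Fin N → K}
    (hc : ∑ i, c i • (X i : MvPolynomial (Fin N) K) = l) (z : Fin N → K) :
    aeval z l = ∑ i, c i * z i := by
  rw [← hc]
  simp only [map_sum, map_smul, aeval_X, smul_eq_mul]

theorem dvd_of_hyp [Infinite K] {l p : MvPolynomial (Fin N) K} (hl : l.IsHomogeneous 1) (hne : l ≠ 0)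
    (h : ∀ z : Fin N → K, aeval z l = (0 : K) → aeval z p = (0 : K)) : l ∣ p := by
  obtain ⟨c, hc⟩ := linear_form hl
  have hj : ∃ j, c j ≠ 0 := by
    by_contra hcon
    push Not at hcon
    apply hne
    rw [← hc]
    exact Finset.sum_eq_zero (fun i _ => by rw [hcon i, zero_smul])
  obtain ⟨j, hj⟩ := hj
  let φ : MvPolynomial (Fin N) K →ₐ[K] MvPolynomial (Fin N) K :=
    aeval (fun i => X i - (if i = j then C (c j)⁻¹ * l else 0))
  have h1 : ∀ z : Fin N → K, ∀ r, eval z (φ r)
      = aeval (fun i => z i - (if i = j then (c j)⁻¹ * aeval z l else 0)) r := by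
    intro z r
    have h1 : ((aeval z : MvPolynomial (Fin N) K →ₐ[K] K).comp φ)
        = aeval (fun i => z i - (if i = j then (c j)⁻¹ * aeval z l else 0)) := by
      apply MvPolynomial.algHom_ext
      intro i
      rw [AlgHom.comp_apply]
      simp only [φ, aeval_X, map_sub]
      split_ifs
      · rw [map_mul, aeval_C]
        rfl
      · rw [map_zero]
    have h2 := DFunLike.congr_fun h1 r
    rw [AlgHom.comp_apply] at h2
    rw [← h2]
    rfl
  have h2 : φ p = 0 := by
    apply MvPolynomial.funext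
    intro z
    rw [h1, map_zero]
    apply h
    rw [linear_eval hc]
    simp only [mul_sub, Finset.sum_sub_distrib, mul_ite, mul_zero, Finset.sum_ite_eq',
      Finset.mem_univ, if_true]
    rw [linear_eval hc, mul_inv_cancel_left₀ hj, sub_self]
  have h3 : (Ideal.Quotient.mkₐ K (Ideal.span {l})).comp φ
      = Ideal.Quotient.mkₐ K (Ideal.span {l}) := by
    apply MvPolynomial.algHom_ext
    intro i
    rw [AlgHom.comp_apply]
    simp only [φ, aeval_X, map_sub]
    split_ifs
    · rw [map_mul]
      have : Ideal.Quotient.mkₐ K (Ideal.span {l}) l = 0 :=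
        Ideal.Quotient.eq_zero_iff_mem.mpr (Ideal.mem_span_singleton_self l)
      rw [this, mul_zero, sub_zero]
    · rw [map_zero, sub_zero]
  have h4 := DFunLike.congr_fun h3 p
  rw [AlgHom.comp_apply, h2, map_zero] at h4
  have h5 : p ∈ Ideal.span {l} := Ideal.Quotient.eq_zero_iff_mem.mp h4.symm
  exact Ideal.mem_span_singleton.mp h5

theorem prod_dvd [Infinite K] {ι : Type} (s : Finset ι) (l : ι → MvPolynomial (Fin N) K)
    (hl : ∀ x ∈ s, (l x).IsHomogeneous 1) (hne : ∀ x ∈ s, l x ≠ 0)
    (hsep : ∀ x ∈ s, ∀ y ∈ s, x ≠ y → ∃ z : Fin N → K, aeval z (l y) = (0 : K) ∧ aeval z (l x) ≠ (0 : K))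
    {p : MvPolynomial (Fin N) K} (h : ∀ x ∈ s, ∀ z : Fin N → K, aeval z (l x) = (0 : K) → aeval z p = (0 : K)) :
    ∏ x ∈ s, l x ∣ p := by
  induction s using Finset.induction_on with
  | empty => rw [Finset.prod_empty]; exact one_dvd p
  | insert y s hy ih =>
    have ih' := ih (fun x hx => hl x (Finset.mem_insert_of_mem hx))
      (fun x hx => hne x (Finset.mem_insert_of_mem hx))
      (fun x hx x' hx' => hsep x (Finset.mem_insert_of_mem hx) x' (Finset.mem_insert_of_mem hx'))
      (fun x hx => h x (Finset.mem_insert_of_mem hx))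
    obtain ⟨q, hq⟩ := ih'
    have hyl := hl y (Finset.mem_insert_self y s)
    obtain ⟨c, hc⟩ := linear_form hyl
    let f : (Fin N → K) →ₗ[K] K := ∑ i, c i • LinearMap.proj i
    have hf : ∀ z, f z = aeval z (l y) := by
      intro z
      rw [linear_eval hc]
      simp only [f, LinearMap.sum_apply, LinearMap.smul_apply, LinearMap.proj_apply, smul_eq_mul]
    have hM : ∀ z ∈ LinearMap.ker f, aeval z (q :: (s.toList.map l)).prod = (0 : K) := by
      intro z hz
      have hz' : aeval z (l y) = (0 : K) := by rw [← hf]; exact hz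
      have h1 := h y (Finset.mem_insert_self y s) z hz'
      rw [List.prod_cons, Finset.prod_map_toList, mul_comm, ← hq]
      exact h1
    obtain ⟨r, hr, hr'⟩ := irr_list (LinearMap.ker f) _ hM
    rw [Finset.prod_insert hy, hq, mul_comm (l y)]
    apply mul_dvd_mul_left
    rcases List.mem_cons.mp hr with h1 | h1
    · subst h1
      apply dvd_of_hyp hyl (hne y (Finset.mem_insert_self y s))
      intro z hz
      exact hr' z (by rw [LinearMap.mem_ker, hf]; exact hz)
    · exfalso
      obtain ⟨x, hx, hxr⟩ := List.mem_map.mp h1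
      have hxs : x ∈ s := Finset.mem_toList.mp hx
      obtain ⟨z, hz1, hz2⟩ := hsep x (Finset.mem_insert_of_mem hxs) y (Finset.mem_insert_self y s)
        (fun e => hy (e ▸ hxs))
      apply hz2
      rw [hxr]
      exact hr' z (by rw [LinearMap.mem_ker, hf]; exact hz1)

end Pool.Agent.H6.SC
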