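import Pool.Agent.H6.SC.Prod
import Pool.Agent.H6.SC.Comp
import Pool.Agent.H6.SC.Hyp
import Pool.Agent.H6.SC.DForm

/-!
# SC.AbsA : ideals of coordinate subspaces times subspaces of one plane, one exponent

`MZ b Z W` : the points with `z i = 0` for `i ∈ Z` (not one of the two coordinates `b 0 ≠ b 1`) and block `(z (b 0), z (b 1))` in `W`.
`ell K b x` : the linear form in the block that vanishes at `nu x`. `PZ b Z W` : the ideal generated by the products of linear forms that vanish on
all `MZ b (Z a) (W a)`.

PROOF of `abs_one`. All monomials of `g` agree with `β` outside the block (`F = {i | ∀ j, i ≠ b j}`). Call `a` relevant if `β i = 0` for all `i ∈ Z a ∩ F`.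
(R) If `a` is relevant and `z` has its block in `W a` then `aeval z g = 0`: let `z' i = 0` for `i ∈ Z a ∩ F`, `z' i = z i` otherwise; `z' ∈ MZ`, and no monomial
of `g` contains a variable of `Z a ∩ F`, so `g z = g z'` (`aeval_def`, `eval₂_eq` / `MvPolynomial.eval₂Hom_congr'`, vars).
(1) If some relevant `a` has `W a = ⊤` then `g = 0` (`MvPolynomial.funext`).
(2) Otherwise let `X = {x | some relevant a has W a = span {nu x}}`. If `X ≠ ∅` or no `a` is relevant: `P = (∏ i ∈ β.support, X i) * ∏ x ∈ X, ell x` divides `g` by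
`prod_dvd` (index type `Fin N ⊕ Fin 3`: `g` vanishes where `z i = 0`, `i ∈ β.support` (every monomial of `g` contains `X i`), and where `ell x = 0` by (R) (`ell x` vanishes iff the block is in `span {nu x}`, as
`pf_zero_iff`); `hsep`: different coordinates; a coordinate and `ell x`; `ell x` and `ell y`: `pp_nu`). `P` vanishes on all `MZ`: `a` not relevant: a factor `X i` with `i ∈ Z a`, `β i ≠ 0`; `a` relevant: `W a = span {nu x}`, `x ∈ X`, or
`W a = ⊥`: the block is zero and there is at least one factor `ell x`. (`β.support ⊆ F` if `g ≠ 0`.)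
(3) `X = ∅` and some relevant `a₀` exists: all relevant `a` have `W a = ⊥`. The coefficient of `g` at `β` is zero: `aeval z g` for `z i = 1` (`i ∈ F`), block `0`, is this coefficient and it is zero by (R). So every monomial `m` of `g` has
`m (b j) ≠ 0` for some `j`; then the monomial (a product of variables, `C c` times it is in the ideal) vanishes on all `MZ`: for relevant `a` the block is zero, otherwise a factor `X i`. `g = ∑` of its monomials (`as_sum`).
A monomial `monomial m c = C c * ∏ i, X i ^ m i` is `C c` times a product of linear forms (`monomial_eq`; the list of the variables: `IsProductOfLinearForms` is closed under products, `isprod_mul`, `isprod_pow`, `isprod_prod`).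
-/

set_option autoImplicit false

open MvPolynomial Pool.Agent.H74.Secant

namespace Pool.Agent.H6.SC

universe u

open scoped Classical

variable {K : Type u} [Field K] {N : ℕ}

/-- coordinate subspaces times a subspace of the block -/
def MZ (b : Fin 2 → Fin N) (Z : Set (Fin N)) (W : Submodule K (Fin 2 → K)) : Set (Fin N → K) :=
  {z | (∀ i ∈ Z, (∀ j, i ≠ b j) → z i = 0) ∧ (fun j => z (b j)) ∈ W}

private theorem ae_sum (z : Fin N → K) (g : MvPolynomial (Fin N) K) :
    aeval z g = ∑ m ∈ g.support, coeff m g * ∏ i, z i ^ m i := by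
  rw [aeval_def, eval₂_eq']
  rfl

private theorem pp_zero (x : Fin 3) (p : Fin 2 → K) :
    ∑ j, pp K x j * p j = 0 ↔ p ∈ Submodule.span K {nu K x} := by
  rw [Submodule.mem_span_singleton]
  constructor
  · intro h
    rw [Fin.sum_univ_two] at h
    fin_cases x
    · refine ⟨p 0, ?_⟩
      simp [pp] at h
      ext j
      fin_cases j
      · simp [nu]
      · simp [nu, h]
    · refine ⟨p 1, ?_⟩
      simp [pp] at h
      ext j
      fin_cases j
      · simp [nu, h]
      · simp [nu]
    · refine ⟨p 0, ?_⟩
      simp [pp] at h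
      have h2 : p 0 = p 1 := by linear_combination h
      ext j
      fin_cases j
      · simp [nu]
      · simp [nu, h2]
  · rintro ⟨c, rfl⟩
    have h := (pp_nu K x x).2 rfl
    rw [Fin.sum_univ_two] at h ⊢
    simp only [Pi.smul_apply, smul_eq_mul]
    linear_combination c * h

/-- the linear form of direction `x` in the block -/
private noncomputable def ell (K : Type u) [Field K] (b : Fin 2 → Fin N) (x : Fin 3) : MvPolynomial (Fin N) K :=
  ∑ j, C (pp K x j) * X (b j)

private theorem ell_hom (b : Fin 2 → Fin N) (x : Fin 3) : (ell K b x).IsHomogeneous 1 := by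
  unfold ell
  refine IsHomogeneous.sum _ _ _ fun j _ => ?_
  have := (isHomogeneous_C (Fin N) (pp K x j)).mul (isHomogeneous_X K (b j))
  simpa using this

private theorem ell_ev (b : Fin 2 → Fin N) (x : Fin 3) (z : Fin N → K) :
    aeval z (ell K b x) = ∑ j, pp K x j * z (b j) := by
  unfold ell
  simp

/-- a vector supported on the block -/
private def zb (b : Fin 2 → Fin N) (p : Fin 2 → K) : Fin N → K :=
  fun i => if i = b 0 then p 0 else if i = b 1 then p 1 else 0

private theorem zb_b {b : Fin 2 → Fin N} (hb : b 0 ≠ b 1) (p : Fin 2 → K) (j : Fin 2) : zb b p (b j) = p j := by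
  unfold zb
  fin_cases j
  · simp
  · simp [hb.symm]

private theorem zb_ne {b : Fin 2 → Fin N} (p : Fin 2 → K) {i : Fin N} (hi : ∀ j, i ≠ b j) : zb b p i = 0 := by
  unfold zb
  rw [if_neg (hi 0), if_neg (hi 1)]

private theorem exists_ne3 (x : Fin 3) : ∃ y : Fin 3, x ≠ y := by
  fin_cases x
  · exact ⟨1, by decide⟩
  · exact ⟨0, by decide⟩
  · exact ⟨0, by decide⟩

theorem abs_one [Infinite K] {b : Fin 2 → Fin N} (hb : b 0 ≠ b 1) {ι : Type} (Z : ι → Set (Fin N))
    (W : ι → Submodule K (Fin 2 → K)) (hW : ∀ a, W a = ⊤ ∨ W a = ⊥ ∨ ∃ x, W a = Submodule.span K {nu K x})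
    (β : Fin N →₀ ℕ) {g : MvPolynomial (Fin N) K} (hβ : ∀ m ∈ g.support, m.filter (fun i => ∀ j, i ≠ b j) = β)
    (hg : ∀ a, ∀ z ∈ MZ b (Z a) (W a), aeval z g = (0 : K)) : g ∈ PQ (⋃ a, MZ b (Z a) (W a)) := by
  by_cases hg0 : g = 0
  · rw [hg0]
    exact Ideal.zero_mem _
  have hβ1 : ∀ m ∈ g.support, ∀ i, (∀ j, i ≠ b j) → m i = β i := by
    intro m hm i hi
    rw [← hβ m hm, Finsupp.filter_apply_pos _ _ hi]
  have hβ0 : ∀ i, β i ≠ 0 → ∀ j, i ≠ b j := by
    obtain ⟨m, hm⟩ := Finset.nonempty_iff_ne_empty.2 (fun h => hg0 (support_eq_empty.1 h))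
    intro i hi
    by_contra hcon
    apply hi
    rw [← hβ m hm]
    exact Finsupp.filter_apply_neg _ _ hcon
  let Rel : ι → Prop := fun a => ∀ i ∈ Z a, (∀ j, i ≠ b j) → β i = 0
  have hR : ∀ a, Rel a → ∀ z : Fin N → K, (fun j => z (b j)) ∈ W a → aeval z g = (0 : K) := by
    intro a ha z hz
    let z' : Fin N → K := fun i => if i ∈ Z a ∧ ∀ j, i ≠ b j then 0 else z i
    have h1 : aeval z' g = (0 : K) := by
      apply hg a
      refine ⟨fun i hi hi' => ?_, ?_⟩
      · show (if i ∈ Z a ∧ ∀ j, i ≠ b j then 0 else z i) = 0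
        rw [if_pos ⟨hi, hi'⟩]
      · have h2 : (fun j => z' (b j)) = fun j => z (b j) := by
          funext j
          show (if b j ∈ Z a ∧ ∀ j', b j ≠ b j' then 0 else z (b j)) = z (b j)
          rw [if_neg]
          rintro ⟨-, h⟩
          exact h j rfl
        rw [h2]
        exact hz
    rw [← h1, ae_sum, ae_sum]
    refine Finset.sum_congr rfl fun m hm => ?_
    congr 1
    refine Finset.prod_congr rfl fun i _ => ?_
    by_cases hi : i ∈ Z a ∧ ∀ j, i ≠ b j
    · have h3 : m i = 0 := by rw [hβ1 m hm i hi.2]; exact ha i hi.1 hi.2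
      rw [h3, pow_zero, pow_zero]
    · show z i ^ m i = (if i ∈ Z a ∧ ∀ j, i ≠ b j then 0 else z i) ^ m i
      rw [if_neg hi]
  have hz0 : ∀ i, β i ≠ 0 → ∀ z : Fin N → K, z i = 0 → aeval z g = (0 : K) := by
    intro i hi z hz
    rw [ae_sum]
    refine Finset.sum_eq_zero fun m hm => ?_
    rw [Finset.prod_eq_zero (Finset.mem_univ i), mul_zero]
    rw [hz, hβ1 m hm i (hβ0 i hi)]
    exact zero_pow hi
  have htop : ∀ a, Rel a → W a ≠ ⊤ := by
    intro a ha hWa
    apply hg0
    refine MvPolynomial.funext fun z => ?_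
    have h1 := hR a ha z (by rw [hWa]; exact Submodule.mem_top)
    rw [map_zero]
    exact h1
  let X' : Finset (Fin 3) := Finset.univ.filter (fun x => ∃ a, Rel a ∧ W a = Submodule.span K {nu K x})
  by_cases hcase : X'.Nonempty ∨ ∀ a, ¬ Rel a
  · -- the product of the coordinates and of the forms divides `g`
    let l : Fin N ⊕ Fin 3 → MvPolynomial (Fin N) K := Sum.elim (fun i => X i) (ell K b)
    let s : Finset (Fin N ⊕ Fin 3) := β.support.disjSum X'
    have hl : ∀ x ∈ s, (l x).IsHomogeneous 1 := by
      intro x _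
      rcases x with i | x
      · exact isHomogeneous_X K i
      · exact ell_hom b x
    have mem_inl : ∀ i, Sum.inl i ∈ s → β i ≠ 0 := by
      intro i hi
      exact Finsupp.mem_support_iff.1 (Finset.inl_mem_disjSum.1 hi)
    have mem_inr : ∀ x, Sum.inr x ∈ s → ∃ a, Rel a ∧ W a = Submodule.span K {nu K x} := by
      intro x hx
      exact (Finset.mem_filter.1 (Finset.inr_mem_disjSum.1 hx)).2
    have evnu : ∀ x y : Fin 3, x ≠ y → aeval (zb b (nu K y)) (ell K b x) ≠ 0 := by
      intro x y hxy
      rw [ell_ev]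
      simp only [zb_b hb]
      intro h
      exact hxy ((pp_nu K x y).1 h)
    have hne : ∀ x ∈ s, l x ≠ 0 := by
      intro x _
      rcases x with i | x
      · exact X_ne_zero i
      · obtain ⟨y, hy⟩ := exists_ne3 x
        intro h
        have h2 := evnu x y hy
        have h3 : ell K b x = 0 := h
        rw [h3] at h2
        exact h2 (map_zero _)
    have hsep : ∀ x ∈ s, ∀ y ∈ s, x ≠ y → ∃ z : Fin N → K, aeval z (l y) = (0 : K) ∧ aeval z (l x) ≠ (0 : K) := by
      intro x hx y hy hxy
      rcases x with i | x <;> rcases y with i' | y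
      · refine ⟨Pi.single i 1, ?_, ?_⟩
        · show aeval (Pi.single i (1 : K)) (X i' : MvPolynomial (Fin N) K) = 0
          rw [aeval_X, Pi.single_eq_of_ne]
          rintro rfl
          exact hxy rfl
        · show aeval (Pi.single i (1 : K)) (X i : MvPolynomial (Fin N) K) ≠ 0
          rw [aeval_X, Pi.single_eq_same]
          exact one_ne_zero
      · refine ⟨Pi.single i 1, ?_, ?_⟩
        · show aeval (Pi.single i (1 : K)) (ell K b y) = 0
          rw [ell_ev]
          refine Finset.sum_eq_zero fun j _ => ?_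
          rw [Pi.single_eq_of_ne (hβ0 i (mem_inl i hx) j).symm, mul_zero]
        · show aeval (Pi.single i (1 : K)) (X i : MvPolynomial (Fin N) K) ≠ 0
          rw [aeval_X, Pi.single_eq_same]
          exact one_ne_zero
      · obtain ⟨y, hy'⟩ := exists_ne3 x
        refine ⟨zb b (nu K y), ?_, evnu x y hy'⟩
        show aeval (zb b (nu K y)) (X i' : MvPolynomial (Fin N) K) = 0
        rw [aeval_X]
        exact zb_ne _ (hβ0 i' (mem_inl i' hy))
      · refine ⟨zb b (nu K y), ?_, evnu x y fun h => hxy (by rw [h])⟩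
        show aeval (zb b (nu K y)) (ell K b y) = 0
        rw [ell_ev]
        simp only [zb_b hb]
        exact (pp_nu K y y).2 rfl
    have hvan : ∀ x ∈ s, ∀ z : Fin N → K, aeval z (l x) = (0 : K) → aeval z g = (0 : K) := by
      intro x hx z hz
      rcases x with i | x
      · have hz' : aeval z (X i : MvPolynomial (Fin N) K) = 0 := hz
        rw [aeval_X] at hz'
        exact hz0 i (mem_inl i hx) z hz'
      · obtain ⟨a, ha, hWa⟩ := mem_inr x hx
        refine hR a ha z ?_
        have hz' : aeval z (ell K b x) = 0 := hz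
        rw [ell_ev] at hz'
        rw [hWa]
        exact (pp_zero x fun j => z (b j)).1 hz'
    obtain ⟨q, hq⟩ := prod_dvd s l hl hne hsep hvan
    rw [hq]
    refine Ideal.mul_mem_right _ _ (pq_mem (isprod_prod s l fun x hx => isprod_lin (hl x hx)) ?_)
    intro z hz
    obtain ⟨a, hza⟩ := Set.mem_iUnion.1 hz
    rw [map_prod]
    by_cases ha : Rel a
    · rcases hW a with h | h | ⟨x, h⟩
      · exact absurd h (htop a ha)
      · rcases hcase with ⟨x, hx⟩ | hno
        · refine Finset.prod_eq_zero (Finset.inr_mem_disjSum.2 hx) ?_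
          show aeval z (ell K b x) = 0
          rw [ell_ev]
          have h2 := hza.2
          rw [h, Submodule.mem_bot] at h2
          refine Finset.sum_eq_zero fun j _ => ?_
          have h3 : z (b j) = 0 := congrFun h2 j
          rw [h3, mul_zero]
        · exact absurd ha (hno a)
      · have hx : x ∈ X' := Finset.mem_filter.2 ⟨Finset.mem_univ _, a, ha, h⟩
        refine Finset.prod_eq_zero (Finset.inr_mem_disjSum.2 hx) ?_
        show aeval z (ell K b x) = 0
        rw [ell_ev]
        have h2 := hza.2
        rw [h] at h2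
        exact (pp_zero x _).2 h2
    · have ha' : ¬ ∀ i ∈ Z a, (∀ j, i ≠ b j) → β i = 0 := ha
      push Not at ha'
      obtain ⟨i, hi, hi', hi0⟩ := ha'
      refine Finset.prod_eq_zero (Finset.inl_mem_disjSum.2 (Finsupp.mem_support_iff.2 hi0)) ?_
      show aeval z (X i : MvPolynomial (Fin N) K) = 0
      rw [aeval_X]
      exact hza.1 i hi hi'
  · push Not at hcase
    obtain ⟨hX, a₀, ha₀⟩ := hcase
    have hbot : ∀ a, Rel a → W a = ⊥ := by
      intro a ha
      rcases hW a with h | h | ⟨x, h⟩
      · exact absurd h (htop a ha)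
      · exact h
      · exfalso
        have hx : x ∈ X' := Finset.mem_filter.2 ⟨Finset.mem_univ _, a, ha, h⟩
        rw [hX] at hx
        exact Finset.notMem_empty _ hx
    -- the coefficient at `β` is zero
    let z1 : Fin N → K := fun i => if ∀ j, i ≠ b j then 1 else 0
    have hz1 : aeval z1 g = (0 : K) := by
      refine hR a₀ ha₀ z1 ?_
      rw [hbot a₀ ha₀, Submodule.mem_bot]
      funext j
      show (if ∀ j', b j ≠ b j' then (1 : K) else 0) = 0
      rw [if_neg]
      intro h
      exact h j rfl
    have hdiff : ∀ m ∈ g.support, m ≠ β → ∃ j, m (b j) ≠ 0 := by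
      intro m hm hmβ
      by_contra hcon
      push Not at hcon
      apply hmβ
      ext i
      by_cases hi : ∀ j, i ≠ b j
      · exact hβ1 m hm i hi
      · push Not at hi
        obtain ⟨j, rfl⟩ := hi
        rw [hcon j]
        by_contra h0
        exact hβ0 (b j) (Ne.symm h0) j rfl
    have hcβ : coeff β g = 0 := by
      rw [ae_sum] at hz1
      by_contra hc
      have hβm : β ∈ g.support := mem_support_iff.2 hc
      rw [Finset.sum_eq_single_of_mem β hβm] at hz1
      · rw [Finset.prod_eq_one, mul_one] at hz1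
        · exact hc hz1
        · intro i _
          by_cases hi : ∀ j, i ≠ b j
          · show (if ∀ j, i ≠ b j then (1 : K) else 0) ^ β i = 1
            rw [if_pos hi, one_pow]
          · have h0 : β i = 0 := by
              by_contra h0
              exact hi (hβ0 i h0)
            rw [h0, pow_zero]
      · intro m hm hmβ
        obtain ⟨j, hj⟩ := hdiff m hm hmβ
        rw [Finset.prod_eq_zero (Finset.mem_univ (b j)), mul_zero]
        show (if ∀ j', b j ≠ b j' then (1 : K) else 0) ^ m (b j) = 0
        rw [if_neg (fun h => h j rfl)]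
        exact zero_pow hj
    have hsum : g = ∑ m ∈ g.support, monomial m (coeff m g) := (support_sum_monomial_coeff g).symm
    rw [hsum]
    refine Ideal.sum_mem _ fun m hm => pq_monomial m _ ?_
    intro z hz
    obtain ⟨a, hza⟩ := Set.mem_iUnion.1 hz
    rw [aeval_monomial, map_one, one_mul, Finsupp.prod_fintype _ _ (fun i => pow_zero _)]
    by_cases ha : Rel a
    · have hmβ : m ≠ β := by
        rintro rfl
        exact (mem_support_iff.1 hm) hcβ
      obtain ⟨j, hj⟩ := hdiff m hm hmβ
      refine Finset.prod_eq_zero (Finset.mem_univ (b j)) ?_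
      have h2 := hza.2
      rw [hbot a ha, Submodule.mem_bot] at h2
      have h3 : z (b j) = 0 := congrFun h2 j
      rw [h3]
      exact zero_pow hj
    · have ha' : ¬ ∀ i ∈ Z a, (∀ j, i ≠ b j) → β i = 0 := ha
      push Not at ha'
      obtain ⟨i, hi, hi', hi0⟩ := ha'
      refine Finset.prod_eq_zero (Finset.mem_univ i) ?_
      rw [hza.1 i hi hi', hβ1 m hm i hi']
      exact zero_pow hi0

end Pool.Agent.H6.SC
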