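import Pool.Agent.H6.SC.AbsA

/-!
# SC.AbsB : ideals of coordinate subspaces times subspaces of one plane

PROOF. `f = ∑ β, cmp F β f` (`sum_cmp`), `F = {i | ∀ j, i ≠ b j}`; every component vanishes on every `MZ b (Z a) (W a)` (`cmp_van` with `Z := MZ ..`; the scaling of coordinates in `F` preserves `MZ`), and its monomials
agree with `β` on `F` (`coeff_cmp`), so it is in the ideal by `abs_one`.
-/

set_option autoImplicit false

open MvPolynomial Pool.Agent.H74.Secant

namespace Pool.Agent.H6.SC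

universe u

variable {K : Type u} [Field K] {N : ℕ}

theorem abs_pos [Infinite K] {b : Fin 2 → Fin N} (hb : b 0 ≠ b 1) {ι : Type} (Z : ι → Set (Fin N))
    (W : ι → Submodule K (Fin 2 → K)) (hW : ∀ a, W a = ⊤ ∨ W a = ⊥ ∨ ∃ x, W a = Submodule.span K {nu K x})
    {f : MvPolynomial (Fin N) K} (hf : ∀ a, ∀ z ∈ MZ b (Z a) (W a), aeval z f = (0 : K)) :
    f ∈ PQ (⋃ a, MZ b (Z a) (W a)) := by
  classical
  rw [← sum_cmp {i | ∀ j, i ≠ b j} f]
  refine Ideal.sum_mem _ fun β _ => ?_
  refine abs_one hb Z W hW β ?_ ?_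
  · intro m hm
    rw [mem_support_iff, coeff_cmp] at hm
    by_contra hne
    apply hm
    rw [if_neg]
    intro h
    apply hne
    rw [← h]
    ext i
    simp only [Finsupp.filter_apply]
    by_cases hi : ∀ j, i ≠ b j
    · rw [if_pos hi, if_pos (show i ∈ {i | ∀ j, i ≠ b j} from hi)]
    · rw [if_neg hi, if_neg (show i ∉ {i | ∀ j, i ≠ b j} from hi)]
  · intro a
    refine cmp_van _ (MZ b (Z a) (W a)) ?_ (hf a) β
    rintro z ⟨h1, h2⟩ l
    refine ⟨fun i hi hij => ?_, ?_⟩
    · refine (if_pos (show i ∈ {i | ∀ j, i ≠ b j} from hij)).trans ?_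
      rw [h1 i hi hij, mul_zero]
    · convert h2 using 2 with j
      exact if_neg (fun h => h j rfl)

end Pool.Agent.H6.SC
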