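import Pool.Agent.H6.SC.Count

/-!
# SC.Meet : planes without nodes

PROOF. Let no node lie in `Λ`. Then no line `L v` lies in `Λ` (`nb`, `nod_mem`), and for every injective `o` (exists, `V` is finite)
`Tn = ∅`, `T2 = ∅`, so `hilb_le` gives the upper bound `|act|` in all degrees `T + 1 ≥ 4`; `act` is the set of all `v` with `L v ⊓ Λ ≠ ⊥`.
Lower bound in degree `t = T + 1 ≥ 4`: for `v ∈ act` let `q v ≠ 0` in `L v ⊓ Λ` (not a multiple of a node). The evaluations at the `q v`
vanish on the ideal, and for every `v ∈ act` there is a form `F v = bmp v * X j ^ (t - β)` of degree `t` (`q v j ≠ 0`) with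
`aeval (q v) (F v) ≠ 0` (`bmp_ne`) and `aeval (q w) (F v) = 0` for `w ≠ v` (`bump`). So the map `S_t / piece → (act → K)` is surjective, and
`|act| ≤ finrank` (`LinearMap.finrank_le_finrank_of_surjective` or as `points_hilb` in H74/Secant/Poly.lean).
-/

set_option autoImplicit false

open MvPolynomial Pool.Agent.H74.Secant

namespace Pool.Agent.H6.SC

universe u

open scoped Classical

variable {K : Type u} [Field K] {N : ℕ} {V : Type} [Fintype V] {G : SimpleGraph V} (a : Arr K N G)

/-- the lower bound: the points `q v` impose independent conditions -/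
private theorem meet_lower {Λ : Submodule K (Fin N → K)} (h : ∀ u v, G.Adj u v → a.nod u v ∉ Λ) {t : ℕ}
    (ht : 3 ≤ t) :
    (Finset.univ.filter (fun v => a.L v ⊓ Λ ≠ ⊥)).card ≤
      hilbertFn (vanishingIdeal K a.crv ⊔ vanishingIdeal K (Λ : Set (Fin N → K))) t := by
  set A : Finset V := Finset.univ.filter (fun v => a.L v ⊓ Λ ≠ ⊥) with hA
  set J := vanishingIdeal K a.crv ⊔ vanishingIdeal K (Λ : Set (Fin N → K)) with hJ
  have hex : ∀ v : A, ∃ q : Fin N → K, q ∈ a.L v ∧ q ∈ Λ ∧ q ≠ 0 := by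
    intro v
    have hv : a.L (v : V) ⊓ Λ ≠ ⊥ := (Finset.mem_filter.1 v.2).2
    obtain ⟨q, hq, hq0⟩ := Submodule.exists_mem_ne_zero_of_ne_bot hv
    exact ⟨q, hq.1, hq.2, hq0⟩
  choose q hqL hqΛ hq0 using hex
  have hj : ∀ v : A, ∃ j, q v j ≠ 0 := fun v => Function.ne_iff.1 (hq0 v)
  choose j hj using hj
  let F : A → homogeneousSubmodule (Fin N) K t := fun v =>
    ⟨a.bmp v * X (j v) ^ (t - (nbs G (v : V)).card), by
      have h1 := (bmp_hom a (v : V)).mul (isHomogeneous_X_pow (R := K) (j v) (t - (nbs G (v : V)).card))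
      have h2 : (nbs G (v : V)).card + (t - (nbs G (v : V)).card) = t := by
        have := nbs_le a (v : V)
        omega
      rw [h2] at h1
      exact h1⟩
  have hFv : ∀ v : A, aeval (q v) (F v : MvPolynomial (Fin N) K) ≠ 0 := by
    intro v
    show aeval (q v) (a.bmp v * X (j v) ^ (t - (nbs G (v : V)).card)) ≠ 0
    rw [map_mul, map_pow, aeval_X]
    refine mul_ne_zero (bmp_ne a (hqL v) ?_) (pow_ne_zero _ (hj v))
    intro u hu hmem
    obtain ⟨c, hc⟩ := Submodule.mem_span_singleton.1 hmem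
    have hc0 : c ≠ 0 := by
      intro hc0
      apply hq0 v
      rw [← hc, hc0, zero_smul]
    apply h (v : V) u hu
    have h3 : a.nod (v : V) u = c⁻¹ • q v := by
      rw [← hc, smul_smul, inv_mul_cancel₀ hc0, one_smul]
    rw [h3]
    exact Λ.smul_mem _ (hqΛ v)
  have hFw : ∀ v w : A, w ≠ v → aeval (q w) (F v : MvPolynomial (Fin N) K) = 0 := by
    intro v w hne
    show aeval (q w) (a.bmp v * X (j v) ^ (t - (nbs G (v : V)).card)) = 0
    rw [map_mul]
    have h1 := a.bump (v : V) (w : V) (fun e => hne (Subtype.ext e)) (q w) (hqL w)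
    have h2 : aeval (q w) (a.bmp v) = 0 := h1
    rw [h2, zero_mul]
  let ev : homogeneousSubmodule (Fin N) K t →ₗ[K] (A → K) :=
    LinearMap.pi fun v => (aeval (q v)).toLinearMap.comp (Submodule.subtype _)
  have hker : piece J t ≤ LinearMap.ker ev := by
    intro f hf
    rw [mem_piece] at hf
    rw [LinearMap.mem_ker]
    funext v
    show aeval (q v) (f : MvPolynomial (Fin N) K) = 0
    obtain ⟨f1, h1, f2, h2, h3⟩ := Submodule.mem_sup.1 hf
    rw [mem_vanishingIdeal_iff] at h1 h2
    rw [← h3, map_add, h1 _ (Set.mem_iUnion.2 ⟨v, hqL v⟩), h2 _ (hqΛ v), add_zero]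
  have hsurj : Function.Surjective ((piece J t).liftQ ev hker) := by
    intro y
    refine ⟨(piece J t).mkQ (∑ v, (y v / aeval (q v) (F v : MvPolynomial (Fin N) K)) • F v), ?_⟩
    rw [Submodule.mkQ_apply, Submodule.liftQ_apply]
    funext w
    rw [map_sum, Finset.sum_apply, Finset.sum_eq_single w]
    · rw [map_smul]
      show y w / aeval (q w) (F w : MvPolynomial (Fin N) K) * aeval (q w) (F w : MvPolynomial (Fin N) K) = y w
      exact div_mul_cancel₀ _ (hFv w)
    · intro v _ hne
      rw [map_smul]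
      show y v / aeval (q v) (F v : MvPolynomial (Fin N) K) * aeval (q w) (F v : MvPolynomial (Fin N) K) = 0
      rw [hFw v w hne.symm, mul_zero]
    · intro hw
      exact absurd (Finset.mem_univ w) hw
  have h1 := LinearMap.finrank_le_finrank_of_surjective hsurj
  rw [Module.finrank_fintype_fun_eq_card, Fintype.card_coe] at h1
  rw [hilbertFn_eq]
  exact h1

theorem meets_of_no_node {Λ : Submodule K (Fin N → K)} (h : ∀ u v, G.Adj u v → a.nod u v ∉ Λ) :
    MeetsInLength a.crv Λ (Finset.univ.filter (fun v => a.L v ⊓ Λ ≠ ⊥)).card := by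
  have hΛ : ∀ v, ¬ a.L v ≤ Λ := by
    intro v hle
    obtain ⟨u, hu⟩ := a.nb v
    exact h v u hu (hle (a.nod_mem v u hu))
  obtain ⟨o, ho⟩ : ∃ o : V → ℕ, Function.Injective o :=
    ⟨fun v => (Fintype.equivFin V v : ℕ), fun x y hxy => (Fintype.equivFin V).injective (Fin.ext hxy)⟩
  have hTn : Tn a Λ o = ∅ := by
    unfold Tn
    rw [Finset.filter_eq_empty_iff]
    rintro p _ ⟨h1, _, h2⟩
    exact h _ _ h1 h2
  have hT2 : T2 a Λ o = ∅ := by
    unfold T2
    rw [hTn, Finset.filter_empty]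
  have hact : act a Λ = Finset.univ.filter (fun v => a.L v ⊓ Λ ≠ ⊥) := by
    unfold act
    refine Finset.filter_congr ?_
    intro v _
    exact ⟨fun h1 => h1.1, fun h1 => ⟨h1, fun u hu => h v u hu⟩⟩
  unfold MeetsInLength
  rw [Filter.eventually_atTop]
  refine ⟨4, fun t ht => ?_⟩
  apply le_antisymm
  · obtain ⟨T, rfl⟩ : ∃ T, t = T + 1 := ⟨t - 1, by omega⟩
    have h1 := hilb_le a hΛ o ho (T := T) (by omega)
    rw [hTn, hT2, hact] at h1
    simpa using h1
  · exact meet_lower a h (by omega)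

end Pool.Agent.H6.SC
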