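import Pool.Agent.H6.SC.Gen
import Pool.Agent.H6.SC.Meet

/-!
# SC.Clos : a polynomial that vanishes on the secant union vanishes on the sum of `k + 1` lines

PROOF. Let `z ∈ spn L A`, `|A| = k + 1`, `z = ∑ v ∈ A, z v` with `z v ∈ L v` (`Submodule.mem_iSup_finset_iff_exists_sum` or
`Submodule.mem_biSup...`). Let `q` be as in `exists_gen`, `w v τ = z v + τ • (q v - z v) ∈ L v`, `w v 1 = q v`. For all but finitely many
`τ` the families `(w v τ)_v` and `(nod u u', (w v τ)_v)` (all adjacent `u, u'`, finitely many) are linearly independent (`li_line`;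
constant direction `d = 0` for the node). For such `τ` let `Λ = span of the w v τ`: `finrank Λ = k + 1`, no node lies in `Λ`, and
`L v ⊓ Λ ≠ ⊥` for the `k + 1` vertices `v ∈ A` (`w v τ ≠ 0`), so `MeetsInLength` with a length `≥ k + 1` (`meets_of_no_node`), and
`∑ v, w v τ ∈ Λ` lies in `secantUnion k`. So the polynomial `P(τ) = f (∑ v, w v τ)` in `τ`
(`aeval (fun i => C (z i) + X * C (d i)) f : K[X]`) vanishes at all but finitely many `τ`, so `P = 0` (`Polynomial.eq_zero_of_infinite_isRoot`),
and `f z = P(0) = 0`.
-/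

set_option autoImplicit false

open MvPolynomial Pool.Agent.H74.Secant

namespace Pool.Agent.H6.SC

universe u

open scoped Classical

variable {K : Type u} [Field K] {N : ℕ} {V : Type} [Fintype V] {G : SimpleGraph V} (a : Arr K N G)

theorem van_spn [Infinite K] {k : ℕ} (hE : Expos G (k + 1)) {f : MvPolynomial (Fin N) K}
    (hf : f ∈ vanishingIdeal K (secantUnion k a.crv)) {A : Finset V} (hA : A.card = k + 1) {z : Fin N → K}
    (hz : z ∈ spn a.L A) : aeval z f = 0 := by
  obtain ⟨m, hm⟩ := (Submodule.mem_iSup_finset_iff_exists_sum (s := A) (fun v => a.L v) z).1 hz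
  obtain ⟨q, hq, hli, hnd⟩ := exists_gen a hE A hA.le
  set c : V → (Fin N → K) := fun v => (m v : Fin N → K) with hc
  set d : V → (Fin N → K) := fun v => q v - c v with hd
  have hw1 : ∀ v, c v + (1 : K) • d v = q v := by
    intro v
    rw [hd, one_smul]
    exact add_sub_cancel (c v) (q v)
  have hwL : ∀ v ∈ A, ∀ τ : K, c v + τ • d v ∈ a.L v := fun v hv τ =>
    (a.L v).add_mem (m v).2 ((a.L v).smul_mem τ ((a.L v).sub_mem (hq v hv) (m v).2))
  have f0 : {τ : K | ¬ LinearIndependent K (fun v : A => c v + τ • d v)}.Finite := by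
    refine li_line (fun v : A => c v) (fun v : A => d v) ?_
    simp only [hw1]
    exact hli
  have f1 : ∀ u u' : V, G.Adj u u' → {τ : K | ¬ LinearIndependent K
      (fun x : Option A => x.elim (a.nod u u') (fun v => c v) + τ • x.elim 0 (fun v => d v))}.Finite := by
    intro u u' h
    refine li_line (fun x : Option A => x.elim (a.nod u u') (fun v => c v)) (fun x : Option A => x.elim 0 (fun v => d v)) ?_
    have h2 : (fun x : Option A => x.elim (a.nod u u') (fun v => c v) + (1 : K) • x.elim 0 (fun v => d v)) =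
        fun x : Option A => x.elim (a.nod u u') (fun v => q v) := by
      funext x
      cases x with
      | none => simp
      | some v => exact hw1 v
    rw [h2]
    exact hnd u u' h
  have fB : ({τ : K | ¬ LinearIndependent K (fun v : A => c v + τ • d v)} ∪
      ⋃ (u : V) (u' : V) (_ : G.Adj u u'), {τ : K | ¬ LinearIndependent K
        (fun x : Option A => x.elim (a.nod u u') (fun v => c v) + τ • x.elim 0 (fun v => d v))}).Finite :=
    f0.union (Set.finite_iUnion fun u => Set.finite_iUnion fun u' => Set.finite_iUnion fun h => f1 u u' h)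
  set D : Fin N → K := ∑ v ∈ A, d v with hD
  have hroot : ∀ τ : K, τ ∉ ({τ : K | ¬ LinearIndependent K (fun v : A => c v + τ • d v)} ∪
      ⋃ (u : V) (u' : V) (_ : G.Adj u u'), {τ : K | ¬ LinearIndependent K
        (fun x : Option A => x.elim (a.nod u u') (fun v => c v) + τ • x.elim 0 (fun v => d v))}) →
      aeval (z + τ • D) f = 0 := by
    intro τ hτ
    rw [Set.mem_union, not_or] at hτ
    obtain ⟨h0, h1⟩ := hτ
    have h0 : LinearIndependent K (fun v : A => c v + τ • d v) := not_not.1 h0
    have h1 : ∀ u u' : V, G.Adj u u' → LinearIndependent K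
        (fun x : Option A => x.elim (a.nod u u') (fun v => c v) + τ • x.elim 0 (fun v => d v)) := by
      intro u u' h
      by_contra hcon
      exact h1 (Set.mem_iUnion.2 ⟨u, Set.mem_iUnion.2 ⟨u', Set.mem_iUnion.2 ⟨h, hcon⟩⟩⟩)
    set Λ : Submodule K (Fin N → K) := Submodule.span K (Set.range (fun v : A => c v + τ • d v)) with hΛ
    have hfin : Module.finrank K Λ = k + 1 := by
      rw [hΛ, finrank_span_eq_card h0, Fintype.card_coe, hA]
    have hmem : ∀ v ∈ A, c v + τ • d v ∈ Λ := fun v hv => Submodule.subset_span ⟨⟨v, hv⟩, rfl⟩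
    have hno : ∀ u u', G.Adj u u' → a.nod u u' ∉ Λ := by
      intro u u' h
      have h2 := h1 u u' h
      have h3 : (fun x : Option A => x.elim (a.nod u u') (fun v => c v) + τ • x.elim 0 (fun v => d v)) =
          fun x : Option A => x.casesOn' (a.nod u u') (fun v : A => c v + τ • d v) := by
        funext x
        cases x with
        | none => simp
        | some v => rfl
      rw [h3, linearIndependent_option'] at h2
      exact h2.2
    have hmeet := meets_of_no_node a hno
    have hcard : k + 1 ≤ (Finset.univ.filter (fun v => a.L v ⊓ Λ ≠ ⊥)).card := by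
      rw [← hA]
      refine Finset.card_le_card fun v hv => ?_
      rw [Finset.mem_filter]
      refine ⟨Finset.mem_univ v, fun hbot => ?_⟩
      have h4 : c v + τ • d v ∈ a.L v ⊓ Λ := ⟨hwL v hv τ, hmem v hv⟩
      rw [hbot, Submodule.mem_bot] at h4
      exact h0.ne_zero (⟨v, hv⟩ : A) h4
    have hsum : z + τ • D = ∑ v ∈ A, (c v + τ • d v) := by
      rw [Finset.sum_add_distrib, ← Finset.smul_sum, hD, ← hm]
    rw [mem_vanishingIdeal_iff] at hf
    refine hf _ ⟨Λ, hfin, ⟨_, hcard, hmeet⟩, ?_⟩
    rw [hsum]
    exact Λ.sum_mem hmem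
  set P : Polynomial K := aeval (fun i => Polynomial.C (z i) + Polynomial.X * Polynomial.C (D i)) f with hP
  have hev : ∀ τ : K, P.eval τ = aeval (z + τ • D) f := by
    intro τ
    rw [← Polynomial.coe_aeval_eq_eval, hP]
    show (Polynomial.aeval τ) (aeval (fun i => Polynomial.C (z i) + Polynomial.X * Polynomial.C (D i)) f) = _
    rw [comp_aeval_apply]
    congr 2
    funext i
    simp only [map_add, map_mul, Polynomial.aeval_C, Polynomial.aeval_X, Pi.add_apply, Pi.smul_apply, smul_eq_mul,
      Algebra.algebraMap_self, RingHom.id_apply]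
  have hP0 : P = 0 := by
    refine Polynomial.eq_zero_of_infinite_isRoot P (Set.Infinite.mono ?_ fB.infinite_compl)
    intro τ hτ
    show P.eval τ = 0
    rw [hev τ]
    exact hroot τ hτ
  have := hev 0
  rw [hP0, Polynomial.eval_zero, zero_smul, add_zero] at this
  exact this.symm

end Pool.Agent.H6.SC
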