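import Pool.Agent.H6.SC.Nrm

/-!
# SC.Cnt : two stars with all arms in normal sets, `k ≤ 2`

PROOF. FACTS. (F1) `fx s x ≠ fx s y` for `x ≠ y`: by `fx_spec` a common value is `fr (arm s x) v = fr (arm s y) w` (`Fre`), so by `fr_inj` `s(arm s x, v) = s(arm s y, w)`, hence `v = arm s y` is adjacent to `arm s x`: a triangle with `s` (`tri`). (F2) If `u` covers `i` and `i'` and
`u = arm s x` then `i = i' = fx s x` (`fx_spec`). (F3) A star covers nothing (`Fre` needs `¬ st`). (F4) A vertex covers at most two coordinates: `Fre u v` holds for at most two `v` (`two`; if `Fre u u` then `u` has only one neighbour). (F5) `fx s x = fx t y`, `s ≠ t`: the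
coordinate is covered only by the two vertices `arm s x`, `arm t y` (which are different by `far2`; `fr_inj`).
Let `F = {fx s x}`, `F' = {fx t y}`, `|F| = |F'| = 3`, `F ∪ F' ⊆ S` (some normal set contains the arm). Let `c = |F ∩ F'|`. For every normal `A`: `|A| ≤ 3`, it covers `F ∪ F'` (`6 - c` elements).
* `c = 3`: there is a permutation `π` with `fx t (π x) = fx s x`. Every normal `A` contains one of `arm s x`, `arm t (π x)` for every `x` (F5); these are at least three different vertices (`far2`, `arm_inj`), `|A| ≤ k + 1 ≤ 3`, so `k = 2` and `A` consists of exactly these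
three vertices; they cover only `F` (F2), so `S = F`.
* `c ≤ 2`: choose `x` with `fx s x ∉ F'`; let `A` be normal with `arm s x ∈ A`. `arm s x` covers exactly one element of `F ∪ F'`. If `c = 0`: the other two vertices cover at most four of the remaining five. If `c = 1`: `fx s y = fx t y'` for one pair; it is covered by an arm (F5), different from `arm s x` (`y ≠ x`), which
covers nothing else; the third vertex covers at most two of the remaining three elements (`5 - 1 - 1 = 3`). If `c = 2`: two common coordinates are covered by two different arms, both different from `arm s x`, so `A` consists of `arm s x` and these two; together they cover three elements, but `|F ∪ F'| = 4`.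
It may be convenient to work with `∑ v ∈ A, (number of elements of F ∪ F' covered by v) ≥ 6 - c`.
-/

set_option autoImplicit false

open MvPolynomial Pool.Agent.H74.Secant

namespace Pool.Agent.H6.SC

universe u

open scoped Classical

variable {V : Type} [Fintype V] {G : SimpleGraph V} {N : ℕ} (D : Dat G N)

/-- the vertex `v` covers the coordinate `i` -/
private def Cv (v : V) (i : Fin N) : Prop := ∃ w, Fre G D.st v w ∧ i = D.fr v w

private theorem cv_arm {s : V} (hs : D.st s) {x : Fin 3} {i : Fin N} (h : Cv D (D.arm s x) i) :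
    i = D.fx s x := by
  obtain ⟨w, hw, rfl⟩ := h
  exact (fx_spec D hs x).2 w hw

private theorem arm_ne {s t : V} (hs : D.st s) (ht : D.st t) (hst : s ≠ t) (x y : Fin 3) :
    D.arm s x ≠ D.arm t y := by
  intro h
  apply hst
  apply D.far2 s t (D.arm s x) hs ht (D.adj_arm' hs x)
  rw [h]
  exact D.adj_arm' ht y

private theorem fx_inj {s : V} (hs : D.st s) : Function.Injective (D.fx s) := by
  intro x y h
  by_contra hxy
  obtain ⟨v, hv, hv'⟩ := (fx_spec D hs x).1
  obtain ⟨w, hw, hw'⟩ := (fx_spec D hs y).1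
  have h1 := D.fr_inj _ _ _ _ hv hw (by rw [← hv', ← hw']; exact h)
  have hne : D.arm s x ≠ D.arm s y := fun h' => hxy (D.arm_inj s hs h')
  rcases Sym2.eq_iff.1 h1 with ⟨h2, _⟩ | ⟨h2, h3⟩
  · exact hne h2
  · rcases hv with ⟨h4, _⟩ | ⟨h4, _⟩
    · rw [h3] at h4
      exact D.tri s (D.arm s x) (D.arm s y) (D.adj_arm' hs x) h4 (D.adj_arm' hs y)
    · rw [h3] at h4
      exact hne h4

private theorem cv_common {s t : V} (hs : D.st s) (ht : D.st t) (hst : s ≠ t) {x y : Fin 3}
    (h : D.fx t y = D.fx s x) {u : V} (hu : Cv D u (D.fx s x)) : u = D.arm s x ∨ u = D.arm t y := by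
  obtain ⟨v, hv, hv'⟩ := (fx_spec D hs x).1
  obtain ⟨w, hw, hw'⟩ := (fx_spec D ht y).1
  obtain ⟨z, hz, hz'⟩ := hu
  have h1 := D.fr_inj _ _ _ _ hv hw (by rw [← hv', ← hw', h])
  have hne := arm_ne D hs ht hst x y
  have h2 : v = D.arm t y := by
    rcases Sym2.eq_iff.1 h1 with ⟨h2, _⟩ | ⟨_, h3⟩
    · exact absurd h2 hne
    · exact h3
  have h4 := D.fr_inj _ _ _ _ hz hv (by rw [← hz', ← hv'])
  rcases Sym2.eq_iff.1 h4 with ⟨h5, _⟩ | ⟨h5, _⟩
  · left
    exact h5
  · right
    rw [h5, h2]

private theorem cv_two (v : V) (U : Finset (Fin N)) : (U.filter (fun i => Cv D v i)).card ≤ 2 := by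
  have h1 : U.filter (fun i => Cv D v i) ⊆
      (Finset.univ.filter (fun w => Fre G D.st v w)).image (fun w => D.fr v w) := by
    intro i hi
    obtain ⟨w, hw, hi'⟩ := (Finset.mem_filter.1 hi).2
    exact Finset.mem_image.2 ⟨w, Finset.mem_filter.2 ⟨Finset.mem_univ _, hw⟩, hi'.symm⟩
  refine (Finset.card_le_card h1).trans (Finset.card_image_le.trans ?_)
  by_contra hlt
  rw [not_le, Finset.two_lt_card] at hlt
  obtain ⟨x, hx, y, hy, z, hz, hxy, hxz, hyz⟩ := hlt
  have fx := (Finset.mem_filter.1 hx).2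
  have fy := (Finset.mem_filter.1 hy).2
  have fz := (Finset.mem_filter.1 hz).2
  have key : ∀ p q r : V, p ≠ q → Fre G D.st v p → Fre G D.st v q → Fre G D.st v r → v = r → p ≠ r → q ≠ r →
      False := by
    rintro p q r hpq hp hq hr hvr hpr hqr
    have hp' : G.Adj v p := by
      rcases hp with ⟨h, _⟩ | ⟨h, _⟩
      · exact h
      · exact absurd (h.symm.trans hvr) hpr
    have hq' : G.Adj v q := by
      rcases hq with ⟨h, _⟩ | ⟨h, _⟩
      · exact h
      · exact absurd (h.symm.trans hvr) hqr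
    rcases hr with ⟨h, _⟩ | ⟨_, _, h⟩
    · rw [← hvr] at h
      exact G.irrefl h
    · rw [← hvr] at h
      exact hpq (h p q hp' hq')
  by_cases h1 : v = x
  · exact key y z x hyz fy fz fx h1 (Ne.symm hxy) (Ne.symm hxz)
  by_cases h2 : v = y
  · exact key x z y hxz fx fz fy h2 hxy (Ne.symm hyz)
  by_cases h3 : v = z
  · exact key x y z hxy fx fy fz h3 hxz hyz
  have ax : G.Adj v x ∧ ¬ D.st v := by
    rcases fx with ⟨h, h', _⟩ | ⟨h, _⟩
    · exact ⟨h, h'⟩
    · exact absurd h h1
  have ay : G.Adj v y := by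
    rcases fy with ⟨h, _⟩ | ⟨h, _⟩
    · exact h
    · exact absurd h h2
  have az : G.Adj v z := by
    rcases fz with ⟨h, _⟩ | ⟨h, _⟩
    · exact h
    · exact absurd h h3
  rcases D.two v ax.2 x y z ax.1 ay az with h | h | h
  · exact hxy h
  · exact hxz h
  · exact hyz h

/-- all free coordinates of `s` are free coordinates of `t` -/
private theorem common {k : ℕ} (hk : k ≤ 2) {S : Finset (Fin N)} {s t : V} (hs : D.st s) (ht : D.st t)
    (hst : s ≠ t) (h1 : ∀ x, ∃ A, D.Nm k S A ∧ D.arm s x ∈ A) (h2 : ∀ x, ∃ A, D.Nm k S A ∧ D.arm t x ∈ A)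
    (x : Fin 3) : ∃ y, D.fx t y = D.fx s x := by
  by_contra hx
  set F : Finset (Fin N) := Finset.univ.image (D.fx s) with hF
  set F' : Finset (Fin N) := Finset.univ.image (D.fx t) with hF'
  have cF : F.card = 3 := by
    rw [hF, Finset.card_image_of_injective _ (fx_inj D hs)]
    simp
  have cF' : F'.card = 3 := by
    rw [hF', Finset.card_image_of_injective _ (fx_inj D ht)]
    simp
  have hU := Finset.card_union_add_card_inter F F'
  have hxF' : D.fx s x ∉ F' := by
    intro h
    obtain ⟨y, -, hy⟩ := Finset.mem_image.1 h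
    exact hx ⟨y, hy⟩
  have hxF : D.fx s x ∈ F := Finset.mem_image_of_mem _ (Finset.mem_univ _)
  have hsub : F ∪ F' ⊆ S := by
    intro i hi
    rcases Finset.mem_union.1 hi with h | h
    · obtain ⟨y, -, rfl⟩ := Finset.mem_image.1 h
      obtain ⟨A, hA, hyA⟩ := h1 y
      exact hA.2.2 s y hs hyA
    · obtain ⟨y, -, rfl⟩ := Finset.mem_image.1 h
      obtain ⟨A, hA, hyA⟩ := h2 y
      exact hA.2.2 t y ht hyA
  obtain ⟨A, hA, hxA⟩ := h1 x
  have hcov : ∀ i ∈ F ∪ F', ∃ u ∈ A, Cv D u i := by
    intro i hi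
    obtain ⟨u, v, huv, hu, hi'⟩ := hA.2.1 i (hsub hi)
    exact ⟨u, hu, v, huv, hi'⟩
  -- the sum of the numbers of covered coordinates
  have hsum : (F ∪ F').card ≤ ∑ v ∈ A, ((F ∪ F').filter (fun i => Cv D v i)).card := by
    refine le_trans (Finset.card_le_card ?_) Finset.card_biUnion_le
    intro i hi
    obtain ⟨u, hu, hui⟩ := hcov i hi
    exact Finset.mem_biUnion.2 ⟨u, hu, Finset.mem_filter.2 ⟨hi, hui⟩⟩
  -- vertices covering exactly one coordinate
  set P : Finset V := A.filter (fun v => ((F ∪ F').filter (fun i => Cv D v i)).card ≤ 1) with hP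
  have hg : ∀ i ∈ insert (D.fx s x) (F ∩ F'), ∃ u ∈ P, Cv D u i ∧ ∀ j, Cv D u j → j = i := by
    have hP1 : ∀ u ∈ A, ∀ i, (∀ j, Cv D u j → j = i) → u ∈ P := by
      intro u hu i h
      rw [hP]
      refine Finset.mem_filter.2 ⟨hu, ?_⟩
      rw [Finset.card_le_one]
      intro p hp q hq
      rw [h p (Finset.mem_filter.1 hp).2, h q (Finset.mem_filter.1 hq).2]
    intro i hi
    rcases Finset.mem_insert.1 hi with rfl | hi
    · refine ⟨D.arm s x, hP1 _ hxA (D.fx s x) (fun j hj => cv_arm D hs hj), ?_, fun j hj => cv_arm D hs hj⟩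
      exact (fx_spec D hs x).1
    · obtain ⟨hi1, hi2⟩ := Finset.mem_inter.1 hi
      obtain ⟨y, -, hy⟩ := Finset.mem_image.1 hi1
      obtain ⟨y', -, hy'⟩ := Finset.mem_image.1 hi2
      obtain ⟨u, hu, hui⟩ := hcov i (Finset.mem_union_left _ hi1)
      rw [← hy] at hui
      have h3 : ∀ j, Cv D u j → j = i := by
        intro j hj
        rcases cv_common D hs ht hst (hy'.trans hy.symm) hui with h | h
        · rw [h] at hj
          rw [← hy]
          exact cv_arm D hs hj
        · rw [h] at hj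
          rw [← hy']
          exact cv_arm D ht hj
      exact ⟨u, hP1 u hu i h3, hy ▸ hui, h3⟩
  have hPc : (F ∩ F').card + 1 ≤ P.card := by
    rw [← Finset.card_insert_of_notMem (fun h => hxF' (Finset.mem_inter.1 h).2)]
    have hg' : ∀ i, ∃ u, i ∈ insert (D.fx s x) (F ∩ F') → u ∈ P ∧ Cv D u i ∧ ∀ j, Cv D u j → j = i := by
      intro i
      by_cases hi : i ∈ insert (D.fx s x) (F ∩ F')
      · obtain ⟨u, hu, hu'⟩ := hg i hi
        exact ⟨u, fun _ => ⟨hu, hu'⟩⟩
      · exact ⟨s, fun h => absurd h hi⟩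
    choose g hg' using hg'
    refine Finset.card_le_card_of_injOn g (fun i hi => (hg' i hi).1) ?_
    intro i hi j hj hij
    have h3 := (hg' i hi).2.1
    rw [hij] at h3
    exact (hg' j hj).2.2 i h3
  have hle : ∑ v ∈ A, ((F ∪ F').filter (fun i => Cv D v i)).card ≤ 2 * A.card - P.card := by
    have hsplit := Finset.sum_filter_add_sum_filter_not A
      (fun v => ((F ∪ F').filter (fun i => Cv D v i)).card ≤ 1)
      (fun v => ((F ∪ F').filter (fun i => Cv D v i)).card)
    have hc := Finset.card_filter_add_card_filter_not (s := A)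
      (fun v => ((F ∪ F').filter (fun i => Cv D v i)).card ≤ 1)
    have e1 : ∑ v ∈ A.filter (fun v => ((F ∪ F').filter (fun i => Cv D v i)).card ≤ 1),
        ((F ∪ F').filter (fun i => Cv D v i)).card ≤ P.card * 1 := by
      rw [← smul_eq_mul]
      exact Finset.sum_le_card_nsmul _ _ _ (fun v hv => (Finset.mem_filter.1 hv).2)
    have e2 : ∑ v ∈ A.filter (fun v => ¬ ((F ∪ F').filter (fun i => Cv D v i)).card ≤ 1),
        ((F ∪ F').filter (fun i => Cv D v i)).card ≤
          (A.filter (fun v => ¬ ((F ∪ F').filter (fun i => Cv D v i)).card ≤ 1)).card * 2 := by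
      rw [← smul_eq_mul]
      exact Finset.sum_le_card_nsmul _ _ _ (fun v _ => cv_two D v _)
    rw [← hP] at hc
    omega
  have hA3 := hA.1
  have hPA : P.card ≤ A.card := Finset.card_le_card (Finset.filter_subset _ _)
  omega

theorem cnt {k : ℕ} (hk : k ≤ 2) {S : Finset (Fin N)} {s t : V} (hs : D.st s) (ht : D.st t) (hst : s ≠ t)
    (h1 : ∀ x, ∃ A, D.Nm k S A ∧ D.arm s x ∈ A) (h2 : ∀ x, ∃ A, D.Nm k S A ∧ D.arm t x ∈ A) :
    k = 2 ∧ ∃ π : Equiv.Perm (Fin 3), (∀ x, D.fx t (π x) = D.fx s x) ∧ S = Finset.univ.image (D.fx s) ∧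
      ∀ A, D.Nm k S A → (∀ v ∈ A, ∃ x, v = D.arm s x ∨ v = D.arm t (π x)) ∧
        ∀ x, ¬ (D.arm s x ∈ A ∧ D.arm t (π x) ∈ A) := by
  have hcom := common D hk hs ht hst h1 h2
  choose f hf using hcom
  have hfi : Function.Injective f := by
    intro x y h
    apply fx_inj D hs
    rw [← hf x, ← hf y, h]
  have hfb : Function.Bijective f := Finite.injective_iff_bijective.1 hfi
  have hS1 : ∀ x, D.fx s x ∈ S := by
    intro x
    obtain ⟨A, hA, hxA⟩ := h1 x
    exact hA.2.2 s x hs hxA
  -- the vertices of a normal set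
  have hg : ∀ A, D.Nm k S A → ∃ g : Fin 3 → V, (∀ x, g x = D.arm s x ∨ g x = D.arm t (f x)) ∧
      Function.Injective g ∧ A = Finset.univ.image g ∧ k = 2 := by
    intro A hA
    have hx : ∀ x, ∃ u ∈ A, u = D.arm s x ∨ u = D.arm t (f x) := by
      intro x
      obtain ⟨u, v, huv, hu, hi'⟩ := hA.2.1 (D.fx s x) (hS1 x)
      exact ⟨u, hu, cv_common D hs ht hst (hf x) ⟨v, huv, hi'⟩⟩
    choose g hgA hg using hx
    have hginj : Function.Injective g := by
      intro x y h
      rcases hg x with hx | hx <;> rcases hg y with hy | hy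
      · exact D.arm_inj s hs (hx.symm.trans (h.trans hy))
      · exact absurd (hx.symm.trans (h.trans hy)) (arm_ne D hs ht hst _ _)
      · exact absurd (hy.symm.trans (h.symm.trans hx)) (arm_ne D hs ht hst _ _)
      · exact hfi (D.arm_inj t ht (hx.symm.trans (h.trans hy)))
    have hsub : Finset.univ.image g ⊆ A := by
      intro u hu
      obtain ⟨x, -, rfl⟩ := Finset.mem_image.1 hu
      exact hgA x
    have hc3 : (Finset.univ.image g).card = 3 := by
      rw [Finset.card_image_of_injective _ hginj]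
      simp
    have hc4 := Finset.card_le_card hsub
    have hc5 := hA.1
    refine ⟨g, hg, hginj, ?_, by omega⟩
    exact (Finset.eq_of_subset_of_card_le hsub (by omega)).symm
  obtain ⟨A₀, hA₀, -⟩ := h1 0
  obtain ⟨g₀, hg₀, -, hAg₀, hk2⟩ := hg A₀ hA₀
  refine ⟨hk2, Equiv.ofBijective f hfb, hf, ?_, ?_⟩
  · ext i
    constructor
    · intro hi
      obtain ⟨u, v, huv, hu, hi'⟩ := hA₀.2.1 i hi
      rw [hAg₀] at hu
      obtain ⟨x, -, hx⟩ := Finset.mem_image.1 hu
      refine Finset.mem_image.2 ⟨x, Finset.mem_univ _, ?_⟩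
      rcases hg₀ x with h | h
      · have h3 : Cv D (D.arm s x) i := by
          rw [← h, hx]
          exact ⟨v, huv, hi'⟩
        exact (cv_arm D hs h3).symm
      · have h3 : Cv D (D.arm t (f x)) i := by
          rw [← h, hx]
          exact ⟨v, huv, hi'⟩
        rw [← hf x]
        exact (cv_arm D ht h3).symm
    · intro hi
      obtain ⟨x, -, rfl⟩ := Finset.mem_image.1 hi
      exact hS1 x
  · intro A hA
    obtain ⟨g, hgg, hgi, hAg, -⟩ := hg A hA
    constructor
    · intro v hv
      rw [hAg] at hv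
      obtain ⟨x, -, rfl⟩ := Finset.mem_image.1 hv
      exact ⟨x, hgg x⟩
    · rintro x ⟨hx1, hx2⟩
      rw [hAg] at hx1 hx2
      obtain ⟨y, -, hy⟩ := Finset.mem_image.1 hx1
      obtain ⟨z, -, hz⟩ := Finset.mem_image.1 hx2
      have hz : g z = D.arm t (f x) := hz
      have hyx : y = x := by
        rcases hgg y with h | h
        · exact D.arm_inj s hs (h.symm.trans hy)
        · exact absurd (hy.symm.trans h) (arm_ne D hs ht hst _ _)
      have hzx : z = x := by
        rcases hgg z with h | h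
        · exact absurd (h.symm.trans hz) (arm_ne D hs ht hst _ _)
        · exact hfi (D.arm_inj t ht (h.symm.trans hz))
      rw [hyx] at hy
      rw [hzx] at hz
      exact arm_ne D hs ht hst _ _ (hy.symm.trans hz)

end Pool.Agent.H6.SC
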