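import Pool.Agent.H6.SC.Dat

/-!
# SC.Compat : the data `D` belong to the labelling `lab`
-/

set_option autoImplicit false

open MvPolynomial Pool.Agent.H74.Secant

namespace Pool.Agent.H6.SC

structure Compat {V : Type} [Fintype V] {G : SimpleGraph V} [DecidableRel G.Adj] {N : ℕ} (D : Dat G N)
    (lab : Sym2 V → Label N) : Prop where
  st_iff : ∀ v, D.st v ↔ G.degree v = 3
  l0 : ∀ s, D.st s → lab s(s, D.arm s 0) = .single (D.cj s 0)
  l1 : ∀ s, D.st s → lab s(s, D.arm s 1) = .single (D.cj s 1)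
  l2 : ∀ s, D.st s → lab s(s, D.arm s 2) = .diff (D.cj s 0) (D.cj s 1)
  lf : ∀ u v, Fre G D.st u v → lab s(u, v) = .single (D.fr u v)

end Pool.Agent.H6.SC
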