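import Pool.Agent.H6.SC.Vec

/-!
# SC.Fex : existence of functionals

PROOF. `exists_fnl` is the theorem of the same name in H74/Secant/Bound.lean with `Fin 10` replaced by `Fin N` (copy the
proof, it does not use `10`). `fnl_of`: `hX` by `Arr.van_iff` and `Ideal.mem_sup_left`; `hL` by `vec_mem_of` and
`Ideal.mem_sup_right`, `mul_mem_right` (a form `ξ` that vanishes on `Λ` lies in the vanishing ideal of `Λ`). `no_line`: if
`L v ≤ Λ` choose `i, j` and `p, q ∈ L v` with `p i = 1, p j = 0, q i = 0, q j = 1` (`dim`: take `z ∈ L v` with `z i ≠ 0`, the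
kernel of the coordinate `i` on `L v` has dimension one, choose `q` in it with `q j ≠ 0`, normalise, subtract) and use
`line_bound` (H74/Secant/Poly.lean) with `J` the sum of the two ideals: `t + 1 ≤ hilbertFn J t` for all `t`, but it is
eventually `ℓ`.
-/

set_option autoImplicit false

open MvPolynomial Pool.Agent.H74.Secant

namespace Pool.Agent.H6.SC

universe u

variable {K : Type u} [Field K] {N : ℕ}

theorem exists_fnl (J : Ideal (MvPolynomial (Fin N) K)) (t : ℕ) {A : Type} [Fintype A]
    (F : A → MvPolynomial (Fin N) K) (hF : ∀ x, (F x).IsHomogeneous t) (hcard : Fintype.card A < hilbertFn J t) :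
    ∃ ω : MvPolynomial (Fin N) K →ₗ[K] K, (∀ f ∈ J, f.IsHomogeneous t → ω f = 0) ∧ (∀ x, ω (F x) = 0) ∧
      ∃ f : MvPolynomial (Fin N) K, f.IsHomogeneous t ∧ ω f ≠ 0 := by
  rw [hilbertFn_eq] at hcard
  let F' : A → homogeneousSubmodule (Fin N) K t := fun x => ⟨F x, hF x⟩
  let ev : Module.Dual K (homogeneousSubmodule (Fin N) K t ⧸ piece J t) →ₗ[K] (A → K) :=
    LinearMap.pi fun a => Module.Dual.eval K _ ((piece J t).mkQ (F' a))
  have hker : LinearMap.ker ev ≠ ⊥ := by
    apply LinearMap.ker_ne_bot_of_finrank_lt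
    rw [Subspace.dual_finrank_eq, Module.finrank_fintype_fun_eq_card]
    exact hcard
  obtain ⟨φ, hφ, hφ0⟩ := Submodule.exists_mem_ne_zero_of_ne_bot hker
  rw [LinearMap.mem_ker] at hφ
  let π : MvPolynomial (Fin N) K →ₗ[K] homogeneousSubmodule (Fin N) K t :=
    LinearMap.codRestrict _ (homogeneousComponent t)
      (fun f => homogeneousComponent_mem t f)
  have hπ : ∀ f : homogeneousSubmodule (Fin N) K t, π (f : MvPolynomial (Fin N) K) = f := by
    intro f
    apply Subtype.ext
    exact homogeneousComponent_eq_self f.2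
  refine ⟨φ.comp ((piece J t).mkQ.comp π), ?_, ?_, ?_⟩
  · intro f hf hfh
    have h1 : π f = ⟨f, hfh⟩ := hπ ⟨f, hfh⟩
    have h2 : (piece J t).mkQ (π f) = 0 := by
      rw [h1, Submodule.mkQ_apply, Submodule.Quotient.mk_eq_zero, mem_piece]
      exact hf
    simp only [LinearMap.comp_apply, h2, map_zero]
  · intro a
    have h1 := congrFun hφ a
    simp only [ev, LinearMap.pi_apply, Module.Dual.eval_apply, Pi.zero_apply] at h1
    have h2 : π (F a) = F' a := hπ (F' a)
    simp only [LinearMap.comp_apply, h2]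
    exact h1
  · by_contra hcon
    push Not at hcon
    apply hφ0
    refine LinearMap.ext fun q => ?_
    obtain ⟨f, rfl⟩ := (piece J t).mkQ_surjective q
    have := hcon f f.2
    simp only [LinearMap.comp_apply, hπ] at this
    simpa using this

variable {V : Type} [Fintype V] {G : SimpleGraph V} (a : Arr K N G)

theorem fnl_of (Λ : Submodule K (Fin N → K)) (T : ℕ) (ω : MvPolynomial (Fin N) K →ₗ[K] K)
    (h : ∀ f ∈ vanishingIdeal K a.crv ⊔ vanishingIdeal K (Λ : Set (Fin N → K)), f.IsHomogeneous (T + 1) → ω f = 0) :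
    Fnl a Λ T ω := by
  refine ⟨fun f hf hv => h f (Ideal.mem_sup_left (a.van_iff.1 hv)) hf, fun g hg => ?_⟩
  refine vec_mem_of Λ ω g fun ξ hξ hv => ?_
  refine h _ (Ideal.mem_sup_right (Ideal.mul_mem_right _ _ ?_)) ?_
  · rw [mem_vanishingIdeal_iff]
    exact hv
  · have h1 := hξ.mul hg
    rwa [add_comm] at h1

/-- two vectors with a nonzero minor -/
private theorem exists_minor {x y : Fin N → K} (h : LinearIndependent K ![x, y]) :
    ∃ i j, x i * y j - x j * y i ≠ 0 := by
  by_contra hcon
  push Not at hcon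
  rw [LinearIndependent.pair_iff] at h
  have hx : x ≠ 0 := by
    intro hx
    have h1 := h 1 0 (by rw [hx]; simp)
    exact one_ne_zero h1.1
  obtain ⟨i, hi⟩ := Function.ne_iff.1 hx
  have h1 := h (y i) (-(x i)) (by
    funext j
    have h2 := hcon i j
    simp only [Pi.add_apply, Pi.smul_apply, smul_eq_mul, Pi.zero_apply]
    linear_combination -h2)
  exact hi (neg_eq_zero.1 h1.2)

theorem no_line [Infinite K] {Λ : Submodule K (Fin N → K)} {ℓ : ℕ} (h : MeetsInLength a.crv Λ ℓ) (v : V) :
    ¬ a.L v ≤ Λ := by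
  intro hle
  have hfin : Module.Finite K (a.L v) := Module.finite_of_finrank_eq_succ (a.dim v)
  have bs := Module.finBasisOfFinrankEq K (a.L v) (a.dim v)
  have hli : LinearIndependent K ![((bs 0 : a.L v) : Fin N → K), ((bs 1 : a.L v) : Fin N → K)] := by
    have h1 := bs.linearIndependent.map' (a.L v).subtype (Submodule.ker_subtype _)
    have h2 : ((a.L v).subtype ∘ bs : Fin 2 → (Fin N → K)) =
        ![((bs 0 : a.L v) : Fin N → K), ((bs 1 : a.L v) : Fin N → K)] := by
      funext i
      fin_cases i <;> rfl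
    rw [h2] at h1
    exact h1
  obtain ⟨i, j, hD⟩ := exists_minor hli
  set x : Fin N → K := ((bs 0 : a.L v) : Fin N → K) with hx
  set y : Fin N → K := ((bs 1 : a.L v) : Fin N → K) with hy
  have hxm : x ∈ a.L v := (bs 0).2
  have hym : y ∈ a.L v := (bs 1).2
  set D : K := x i * y j - x j * y i with hDd
  set p : Fin N → K := (D⁻¹ * y j) • x - (D⁻¹ * x j) • y with hp
  set q : Fin N → K := (D⁻¹ * x i) • y - (D⁻¹ * y i) • x with hq
  have hpm : p ∈ a.L v := Submodule.sub_mem _ (Submodule.smul_mem _ _ hxm) (Submodule.smul_mem _ _ hym)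
  have hqm : q ∈ a.L v := Submodule.sub_mem _ (Submodule.smul_mem _ _ hym) (Submodule.smul_mem _ _ hxm)
  have hinv : D⁻¹ * D = 1 := inv_mul_cancel₀ hD
  have key := line_bound (vanishingIdeal K a.crv ⊔ vanishingIdeal K (Λ : Set (Fin N → K))) p q
    (fun f hf s => by
      obtain ⟨f1, h1, f2, h2, rfl⟩ := Submodule.mem_sup.1 hf
      rw [mem_vanishingIdeal_iff] at h1 h2
      have hm : p + s • q ∈ a.L v := Submodule.add_mem _ hpm (Submodule.smul_mem _ _ hqm)
      rw [map_add, h1 _ (Set.mem_iUnion.2 ⟨v, hm⟩), h2 _ (hle hm), add_zero]) i j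
    (by
      simp only [hp, Pi.sub_apply, Pi.smul_apply, smul_eq_mul]
      rw [hDd] at hinv ⊢
      linear_combination hinv)
    (by
      simp only [hp, Pi.sub_apply, Pi.smul_apply, smul_eq_mul]
      ring)
    (by
      simp only [hq, Pi.sub_apply, Pi.smul_apply, smul_eq_mul]
      ring)
    (by
      simp only [hq, Pi.sub_apply, Pi.smul_apply, smul_eq_mul]
      rw [hDd] at hinv ⊢
      linear_combination hinv)
  obtain ⟨t0, ht0⟩ := Filter.eventually_atTop.1 h
  have h1 := ht0 (max t0 ℓ) (le_max_left _ _)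
  have h2 := key (max t0 ℓ)
  have h3 := le_max_right t0 ℓ
  omega

end Pool.Agent.H6.SC
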