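import Pool.Agent.H6.SC.Zero
import Pool.Agent.H6.SC.Fex

/-!
# SC.Count : the length of the intersection with `Λ` is at most the number of units

`act a Λ` = the vertices `v` with `L v ⊓ Λ ≠ ⊥` and no node of `L v` in `Λ`; `Tn a Λ o` = the ordered pairs `(u, v)`, `u ~ v`,
`o u < o v`, with `nod u v ∈ Λ`; `T2 a Λ o` = those for which `(L u ⊔ L v) ⊓ Λ` has dimension at least two.

PROOF of `hilb_le`. Suppose the Hilbert function in degree `T + 1` is larger. For `v ∈ act` let `q v ≠ 0` span `L v ⊓ Λ`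
(dimension one since `L v` is not contained in `Λ`), `j v` with `q v (j v) ≠ 0`; for `(u, v) ∈ Tn` let `i u v` be a coordinate with
`nod u v i ≠ 0` and, for `(u, v) ∈ T2`, `i' u v` a second coordinate such that no nonzero vector of `(L u ⊔ L v) ⊓ Λ` has both
coordinates zero (this space has dimension two: `dim (L u ⊔ L v) ≤ 3` as `nod u v` lies in both, and it is not contained in `Λ`, so the
dimension is at most two; the kernel of the coordinate `i` on it has dimension one). `exists_fnl` with the index type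
`act ⊕ Tn ⊕ T2` and the forms `bmp v * X (j v) ^ (T + 1 - β)`, `X i * hp`, `X i' * hp` of degree `T + 1`
gives `ω` (restricted: `Fnl` by `fnl_of`). For `v ∈ act`: `theta_zero`. For `v` with `L v ⊓ Λ = ⊥`: `theta_zero` with `q = 0`, `g₀ = 0`.
For `(u, v) ∈ Tn`: `vec ω hp ∈ (L u ⊔ L v) ⊓ Λ` (`vec_mem_sup`, `cut_L`) has coordinate(s) zero, hence it is `0` (if `(u, v) ∉ T2` the
space is spanned by `nod u v`); `theta_cut` for both orders gives `theta = 0` at `u` and `v`. So `ω = 0` in degree `T + 1`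
(`fnl_zero`), a contradiction. (For `v` with a node `nod v u ∈ Λ` the pair `(u, v)` or `(v, u)` is in `Tn`.)
-/

set_option autoImplicit false

open MvPolynomial Pool.Agent.H74.Secant

namespace Pool.Agent.H6.SC

universe u

open scoped Classical

variable {K : Type u} [Field K] {N : ℕ} {V : Type} [Fintype V] {G : SimpleGraph V} (a : Arr K N G)

noncomputable def act (Λ : Submodule K (Fin N → K)) : Finset V :=
  Finset.univ.filter (fun v => a.L v ⊓ Λ ≠ ⊥ ∧ ∀ u, G.Adj v u → a.nod v u ∉ Λ)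

noncomputable def Tn (Λ : Submodule K (Fin N → K)) (o : V → ℕ) : Finset (V × V) :=
  Finset.univ.filter (fun p => G.Adj p.1 p.2 ∧ o p.1 < o p.2 ∧ a.nod p.1 p.2 ∈ Λ)

noncomputable def T2 (Λ : Submodule K (Fin N → K)) (o : V → ℕ) : Finset (V × V) :=
  (Tn a Λ o).filter (fun p => 2 ≤ Module.finrank K ((a.L p.1 ⊔ a.L p.2) ⊓ Λ : Submodule K (Fin N → K)))

variable {Λ : Submodule K (Fin N → K)}

private theorem ker_coord {M : Submodule K (Fin N → K)} (i : Fin N) (h : Module.finrank K M ≤ 1) :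
    ∃ i', ∀ z ∈ M, z i' = 0 → z = 0 := by
  obtain ⟨⟨v, hv⟩, hw⟩ := finrank_le_one_iff.1 h
  by_cases h0 : v = 0
  · refine ⟨i, fun z hz _ => ?_⟩
    obtain ⟨c, hc⟩ := hw ⟨z, hz⟩
    have h1 : c • v = z := congrArg Subtype.val hc
    rw [← h1, h0, smul_zero]
  · obtain ⟨i', hi'⟩ := Function.ne_iff.1 h0
    refine ⟨i', fun z hz hz0 => ?_⟩
    obtain ⟨c, hc⟩ := hw ⟨z, hz⟩
    have h1 : c • v = z := congrArg Subtype.val hc
    rw [← h1] at hz0 ⊢
    have h3 : c * v i' = 0 := hz0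
    rcases mul_eq_zero.1 h3 with h2 | h2
    · rw [h2, zero_smul]
    · exact absurd h2 hi'

private theorem finrank_ker_lt {M : Submodule K (Fin N → K)} {n : Fin N → K} (hn : n ∈ M) {i : Fin N}
    (hi : n i ≠ 0) :
    Module.finrank K (M ⊓ LinearMap.ker (LinearMap.proj i : (Fin N → K) →ₗ[K] K) : Submodule K (Fin N → K)) <
      Module.finrank K M := by
  apply Submodule.finrank_lt_finrank_of_lt
  refine lt_of_le_of_ne inf_le_left ?_
  intro h
  have h1 : n ∈ M ⊓ LinearMap.ker (LinearMap.proj i : (Fin N → K) →ₗ[K] K) := by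
    rw [h]
    exact hn
  exact hi (LinearMap.mem_ker.1 h1.2)

/-- a second coordinate -/
private theorem second_coord {M : Submodule K (Fin N → K)} {n : Fin N → K} (hn : n ∈ M) {i : Fin N}
    (hi : n i ≠ 0) (h : Module.finrank K M ≤ 2) :
    ∃ i', ∀ z ∈ M, z i = 0 → z i' = 0 → z = 0 := by
  have h1 := finrank_ker_lt hn hi
  obtain ⟨i', hi'⟩ := ker_coord (M := M ⊓ LinearMap.ker (LinearMap.proj i : (Fin N → K) →ₗ[K] K)) i (by omega)
  exact ⟨i', fun z hz hz0 hz1 => hi' z ⟨hz, LinearMap.mem_ker.2 hz0⟩ hz1⟩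

private theorem first_coord {M : Submodule K (Fin N → K)} {n : Fin N → K} (hn : n ∈ M) {i : Fin N}
    (hi : n i ≠ 0) (h : ¬ 2 ≤ Module.finrank K M) {z : Fin N → K} (hz : z ∈ M) (hz0 : z i = 0) : z = 0 := by
  have h1 := finrank_ker_lt hn hi
  have h2 : M ⊓ LinearMap.ker (LinearMap.proj i : (Fin N → K) →ₗ[K] K) = ⊥ := by
    rw [← Submodule.finrank_eq_zero (R := K)]
    omega
  have h3 : z ∈ M ⊓ LinearMap.ker (LinearMap.proj i : (Fin N → K) →ₗ[K] K) := ⟨hz, LinearMap.mem_ker.2 hz0⟩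
  rw [h2] at h3
  exact (Submodule.mem_bot K).1 h3

/-- `(L u ⊔ L v) ⊓ Λ` has dimension at most two -/
theorem finrank_pair (hΛ : ∀ v, ¬ a.L v ≤ Λ) {u v : V} (h : G.Adj u v) :
    Module.finrank K ((a.L u ⊔ a.L v) ⊓ Λ : Submodule K (Fin N → K)) ≤ 2 := by
  have h1 := Submodule.finrank_sup_add_finrank_inf_eq (a.L u) (a.L v)
  rw [a.dim, a.dim] at h1
  have h2 : Module.finrank K (a.L u ⊓ a.L v : Submodule K (Fin N → K)) ≠ 0 := by
    intro h0
    rw [Submodule.finrank_eq_zero] at h0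
    have h3 : a.nod u v ∈ a.L u ⊓ a.L v := by
      refine ⟨a.nod_mem u v h, ?_⟩
      rw [a.nod_symm u v h]
      exact a.nod_mem v u h.symm
    rw [h0] at h3
    exact a.nod_ne u v h ((Submodule.mem_bot K).1 h3)
  have h4 : Module.finrank K ((a.L u ⊔ a.L v) ⊓ Λ : Submodule K (Fin N → K)) <
      Module.finrank K (a.L u ⊔ a.L v : Submodule K (Fin N → K)) := by
    apply Submodule.finrank_lt_finrank_of_lt
    refine lt_of_le_of_ne inf_le_left ?_
    intro h5
    apply hΛ u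
    have h6 : a.L u ≤ (a.L u ⊔ a.L v) ⊓ Λ := by
      rw [h5]
      exact le_sup_left
    exact h6.trans inf_le_right
  omega

theorem hilb_le (hΛ : ∀ v, ¬ a.L v ≤ Λ) (o : V → ℕ) (ho : Function.Injective o) {T : ℕ} (hT : 3 ≤ T) :
    hilbertFn (vanishingIdeal K a.crv ⊔ vanishingIdeal K (Λ : Set (Fin N → K))) (T + 1) ≤
      (act a Λ).card + (Tn a Λ o).card + (T2 a Λ o).card := by
  classical
  by_contra hlt
  rw [not_le] at hlt
  -- the coordinates
  have hN : Nonempty (Fin N) := by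
    by_contra hN
    rw [not_nonempty_iff] at hN
    obtain ⟨ω, -, -, f, hf, hωf⟩ := exists_fnl
      (vanishingIdeal K a.crv ⊔ vanishingIdeal K (Λ : Set (Fin N → K))) (T + 1) (A := Empty) (fun x => x.elim)
      (fun x => x.elim) (by simpa using lt_of_le_of_lt (Nat.zero_le _) hlt)
    have hf0 : f = 0 := by
      by_contra hne
      obtain ⟨m, hm⟩ := MvPolynomial.ne_zero_iff.1 hne
      have h1 := hf hm
      have h2 : m = 0 := Subsingleton.elim _ _
      rw [h2] at h1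
      simp at h1
    rw [hf0, map_zero] at hωf
    exact hωf rfl
  obtain ⟨i₀⟩ := hN
  have hi : ∀ u v : V, ∃ i : Fin N, G.Adj u v → a.nod u v i ≠ 0 := by
    intro u v
    by_cases h : G.Adj u v
    · obtain ⟨i, hi⟩ := Function.ne_iff.1 (a.nod_ne u v h)
      exact ⟨i, fun _ => hi⟩
    · exact ⟨i₀, fun h' => absurd h' h⟩
  choose i hi using hi
  have hq : ∀ v : V, ∃ (q : Fin N → K) (j : Fin N), v ∈ act a Λ → q ∈ a.L v ⊓ Λ ∧ q j ≠ 0 := by
    intro v
    by_cases h : v ∈ act a Λ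
    · have h1 := h
      unfold act at h1
      obtain ⟨q, hq, hq0⟩ := Submodule.exists_mem_ne_zero_of_ne_bot (Finset.mem_filter.1 h1).2.1
      obtain ⟨j, hj⟩ := Function.ne_iff.1 hq0
      exact ⟨q, j, fun _ => ⟨hq, hj⟩⟩
    · exact ⟨0, i₀, fun h' => absurd h' h⟩
  choose q j hq using hq
  have hTn : ∀ p ∈ Tn a Λ o, G.Adj p.1 p.2 ∧ o p.1 < o p.2 ∧ a.nod p.1 p.2 ∈ Λ := by
    intro p hp
    unfold Tn at hp
    exact (Finset.mem_filter.1 hp).2
  have hnM : ∀ p : V × V, G.Adj p.1 p.2 → a.nod p.1 p.2 ∈ Λ → a.nod p.1 p.2 ∈ (a.L p.1 ⊔ a.L p.2) ⊓ Λ :=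
    fun p h1 h2 => ⟨Submodule.mem_sup_left (a.nod_mem _ _ h1), h2⟩
  have hi' : ∀ p : V × V, ∃ i' : Fin N, p ∈ Tn a Λ o →
      ∀ z ∈ (a.L p.1 ⊔ a.L p.2) ⊓ Λ, z (i p.1 p.2) = 0 → z i' = 0 → z = 0 := by
    intro p
    by_cases h : p ∈ Tn a Λ o
    · obtain ⟨h1, h2, h3⟩ := hTn p h
      obtain ⟨i', hi'⟩ := second_coord (hnM p h1 h3) (hi p.1 p.2 h1) (finrank_pair a hΛ h1)
      exact ⟨i', fun _ => hi'⟩
    · exact ⟨i₀, fun h' => absurd h' h⟩
  choose i' hi' using hi'
  let hp : V × V → MvPolynomial (Fin N) K := fun p => a.cut p.1 p.2 * X (i p.1 p.2) ^ (T - a.cdeg p.1 p.2)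
  have hphom : ∀ p : V × V, G.Adj p.1 p.2 → (hp p).IsHomogeneous T :=
    fun p h => hp_hom a h (by omega) _
  let F : ({v // v ∈ act a Λ} ⊕ ({p // p ∈ Tn a Λ o} ⊕ {p // p ∈ T2 a Λ o})) → MvPolynomial (Fin N) K :=
    Sum.elim (fun v => a.bmp v.1 * X (j v.1) ^ (T + 1 - (nbs G v.1).card))
      (Sum.elim (fun p => X (i p.1.1 p.1.2) * hp p.1) (fun p => X (i' p.1) * hp p.1))
  have hT2sub : ∀ p ∈ T2 a Λ o, p ∈ Tn a Λ o := by
    intro p hp
    unfold T2 at hp
    exact (Finset.mem_filter.1 hp).1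
  have hXhom : ∀ (k : Fin N) (g : MvPolynomial (Fin N) K), g.IsHomogeneous T → (X k * g).IsHomogeneous (T + 1) := by
    intro k g hg
    have := (isHomogeneous_X K k).mul hg
    rwa [add_comm] at this
  have hpow : ∀ (k : Fin N) (n : ℕ), (X k ^ n : MvPolynomial (Fin N) K).IsHomogeneous n := by
    intro k n
    have := (isHomogeneous_X K k).pow n
    rwa [one_mul] at this
  have hF : ∀ x, (F x).IsHomogeneous (T + 1) := by
    rintro (v | (p | p))
    · have h1 := (bmp_hom a v.1).mul (hpow (j v.1) (T + 1 - (nbs G v.1).card))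
      have h2 := nbs_le a v.1
      have h3 : (nbs G v.1).card + (T + 1 - (nbs G v.1).card) = T + 1 := by omega
      rw [h3] at h1
      exact h1
    · exact hXhom _ _ (hphom p.1 (hTn p.1 p.2).1)
    · exact hXhom _ _ (hphom p.1 (hTn p.1 (hT2sub p.1 p.2)).1)
  obtain ⟨ω, hωJ, hωF, f, hf, hωf⟩ := exists_fnl
    (vanishingIdeal K a.crv ⊔ vanishingIdeal K (Λ : Set (Fin N → K))) (T + 1) F hF (by
      simp only [Fintype.card_sum, Fintype.card_coe]
      omega)
  have hω : Fnl a Λ T ω := fnl_of a Λ T ω hωJ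
  have hzero : ∀ p ∈ Tn a Λ o, vec ω (hp p) = 0 := by
    intro p hpT
    obtain ⟨h1, h2, h3⟩ := hTn p hpT
    have h4 : vec ω (hp p) ∈ (a.L p.1 ⊔ a.L p.2) ⊓ Λ := by
      refine ⟨vec_mem_sup a hω (hphom p h1) p.1 p.2 ?_, hω.hL _ (hphom p h1)⟩
      intro w hw1 hw2 z hz
      simp only [hp, map_mul]
      rw [a.cut_L p.1 p.2 h1 w hw1 hw2 z hz, zero_mul]
    have h5 : vec ω (hp p) (i p.1 p.2) = 0 := hωF (Sum.inr (Sum.inl ⟨p, hpT⟩))
    by_cases hT2p : p ∈ T2 a Λ o
    · have h6 : vec ω (hp p) (i' p) = 0 := hωF (Sum.inr (Sum.inr ⟨p, hT2p⟩))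
      exact hi' p hpT _ h4 h5 h6
    · apply first_coord (hnM p h1 h3) (hi p.1 p.2 h1) ?_ h4 h5
      intro h7
      apply hT2p
      unfold T2
      exact Finset.mem_filter.2 ⟨hpT, h7⟩
  have hmemTn : ∀ u v, G.Adj u v → o u < o v → a.nod u v ∈ Λ → (u, v) ∈ Tn a Λ o := by
    intro u v h1 h2 h3
    unfold Tn
    exact Finset.mem_filter.2 ⟨Finset.mem_univ _, h1, h2, h3⟩
  apply hωf
  refine fnl_zero a hω hT ?_ o ho i (fun u v h _ => hi u v h) ?_ f hf
  · intro v
    by_cases hv : v ∈ act a Λ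
    · obtain ⟨h1, h2⟩ := hq v hv
      refine theta_zero a hω hT v (q := q v) ?_ (g₀ := X (j v) ^ (T + 1 - (nbs G v).card)) (hpow _ _) (Or.inr ?_)
        (hωF (Sum.inl ⟨v, hv⟩))
      · have h3 : Module.finrank K (a.L v ⊓ Λ : Submodule K (Fin N → K)) < Module.finrank K (a.L v) := by
          apply Submodule.finrank_lt_finrank_of_lt
          refine lt_of_le_of_ne inf_le_left ?_
          intro h4
          exact hΛ v (inf_eq_left.1 h4)
        rw [a.dim] at h3
        intro z hz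
        obtain ⟨c, hc⟩ : ∃ c : K, (z - c • q v) (j v) = 0 := by
          refine ⟨z (j v) / q v (j v), ?_⟩
          simp only [Pi.sub_apply, Pi.smul_apply, smul_eq_mul]
          rw [div_mul_cancel₀ _ h2, sub_self]
        have h5 := first_coord h1 h2 (by omega) (Submodule.sub_mem _ hz (Submodule.smul_mem _ c h1)) hc
        rw [Submodule.mem_span_singleton]
        exact ⟨c, (sub_eq_zero.1 h5).symm⟩
      · rw [map_pow, aeval_X]
        exact pow_ne_zero _ h2
    · by_cases h0 : a.L v ⊓ Λ = ⊥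
      · refine theta_zero a hω hT v (q := 0) ?_ (g₀ := 0) (isHomogeneous_zero _ _ _) (Or.inl rfl) ?_
        · rw [h0]
          exact bot_le
        · rw [mul_zero, map_zero]
      · have h1 : ∃ u, G.Adj v u ∧ a.nod v u ∈ Λ := by
          by_contra h2
          apply hv
          unfold act
          refine Finset.mem_filter.2 ⟨Finset.mem_univ _, h0, ?_⟩
          intro u hu hn
          exact h2 ⟨u, hu, hn⟩
        obtain ⟨u, hu, hn⟩ := h1
        rcases lt_or_gt_of_ne (fun h => hu.ne (ho h) : o v ≠ o u) with h2 | h2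
        · exact theta_cut a hω hT hu hn (hΛ v) (hi v u hu) (hzero (v, u) (hmemTn v u hu h2 hn))
        · have hn' : a.nod u v ∈ Λ := by
            rw [← a.nod_symm v u hu]
            exact hn
          refine theta_cut a hω hT hu hn (hΛ v) (i := i u v) ?_ ?_
          · rw [a.nod_symm v u hu]
            exact hi u v hu.symm
          · rw [a.cut_symm v u hu, a.cdeg_symm v u hu]
            exact hzero (u, v) (hmemTn u v hu.symm h2 hn')
  · intro u v h1 h2 h3
    exact hzero (u, v) (hmemTn u v h1 h2 h3)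

end Pool.Agent.H6.SC
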