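import Pool.Agent.H6.SC.DForm

/-!
# SC.DExpo : exposure

`v ∈ B`, `E = B.erase v`. KEY CLAIM `key`: let `v` be not a star, `v' ~ v` and `v'` not a `dn`-neighbour of `v`. If `z ∈ L v ⊓ spn L E` then `z (ec v v') = 0`.
PROOF of the claim. If `v'` is not a star: `v' ∉ B`. `ec v v' = fr v v'`; if `z (fr v v') ≠ 0` then `mem_spn` gives `fr v v' = fr a b` with `a ∈ E` or `b ∈ E`, and
`s(a, b) = s(v, v')`, but `v ∉ E`, `v' ∉ B`. If `v'` is a star (so `(nbs G v').card = 3`, `card_nbs_star`): `v' ∉ B` and not all neighbours of `v'` are in `B`; since `v ∈ B` at most one other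
neighbour `arm v' y` of `v'` lies in `E`. So the block of `z` at `v'` lies in `W E v' ≤ span {nu y}` (or `0`) with `y ≠ x = dir v' v`; it also lies in
`W {v} v' = span {nu x}` (`mem_L`). So it is `0` (`pf_zero_iff`, `pp_nu`, or directly), and `ec v v'` is a coordinate of `v'`.

`dexpo`: (`u ~ v`, every `dn`-neighbour of `v` is `u`), `z ∈ L v ⊓ spn L E`. Star `v`: no neighbour `arm v y ≠ u` is in `B` (they are neighbours, so `dn` if in `B`), `v ∉ E`, so the
block of `z` at `v` is in `W E v ≤ span {nu x}`, `x = dir v u`; `z ∈ L v` has no other coordinates (`mem_L` for a star `v`: free coordinates need `Fre v _`, other stars `s` have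
`W {v} s = 0` by `far1`), so `z = sv v (t • nu x) = t • nod v u`. Not a star, two neighbours `u ≠ v'`: `z = α nod v u + β nod v v'`
(`mem_L` / the span, as in `DLin`), `v'` is not a `dn`-neighbour, so `z (ec v v') = 0`, i.e. `β = 0` (`nod_ec`, and `nod v u (ec v v') = 0`: disjoint supports). One neighbour
`u` and the loop: `z (fr v v) = 0` since `mem_spn` would give `s(a, b) = s(v, v)` with `a ∈ E` or `b ∈ E`; so `z ∈ span {nod v u}`.
`dexpo0`: no `dn`-neighbour. Star: no neighbour in `B`, the block at `v` is `0`, `z = 0`. Not a star: all coordinates `ec v v'` (all neighbours) and the loop coordinate vanish,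
so `z = 0`.
-/

set_option autoImplicit false

open MvPolynomial

namespace Pool.Agent.H6.SC

universe u

open scoped Classical

variable {V : Type} [Fintype V] {G : SimpleGraph V} {N : ℕ} (D : Dat G N) (K : Type u) [Field K]

private theorem ker_span' {W : Type*} [AddCommGroup W] [Module K W] [FiniteDimensional K W]
    {L : Submodule K W} (hL : Module.finrank K L = 2) {φ : W →ₗ[K] K} {n : W} (hn : n ∈ L)
    (hn0 : n ≠ 0) (hφn : φ n = 0) (hne : ∃ z ∈ L, φ z ≠ 0) {z : W} (hz : z ∈ L) (hφz : φ z = 0) :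
    z ∈ Submodule.span K {n} := by
  by_contra hcon
  have hind : LinearIndependent K ![n, z] := by
    rw [LinearIndependent.pair_iff' hn0]
    intro c hc
    exact hcon (Submodule.mem_span_singleton.2 ⟨c, hc⟩)
  have hfr : Module.finrank K (Submodule.span K (Set.range ![n, z])) = 2 := by
    rw [finrank_span_eq_card hind]
    simp
  have hle : Submodule.span K (Set.range ![n, z]) ≤ L := by
    rw [Submodule.span_le]
    rintro _ ⟨i, rfl⟩
    fin_cases i
    · exact hn
    · exact hz
  have heq := Submodule.eq_of_le_of_finrank_eq hle (by rw [hfr, hL])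
  have hker : Submodule.span K (Set.range ![n, z]) ≤ LinearMap.ker φ := by
    rw [Submodule.span_le]
    rintro _ ⟨i, rfl⟩
    fin_cases i
    · exact hφn
    · exact hφz
  obtain ⟨y, hy, hy0⟩ := hne
  rw [← heq] at hy
  exact hy0 (LinearMap.mem_ker.1 (hker hy))

private theorem nu_zero {x y : Fin 3} (hxy : x ≠ y) {p : Fin 2 → K}
    (h1 : p ∈ Submodule.span K {nu K x}) (h2 : p ∈ Submodule.span K {nu K y}) : p = 0 := by
  obtain ⟨a, ha⟩ := Submodule.mem_span_singleton.1 h1
  obtain ⟨b, hb⟩ := Submodule.mem_span_singleton.1 h2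
  have h3 : ∑ j, pp K x j * p j = 0 := by
    rw [← ha]
    have : ∑ j, pp K x j * (a • nu K x) j = a * ∑ j, pp K x j * nu K x j := by
      rw [Finset.mul_sum]
      exact Finset.sum_congr rfl fun j _ => by rw [Pi.smul_apply, smul_eq_mul]; ring
    rw [this, (pp_nu K x x).2 rfl, mul_zero]
  have h4 : b * ∑ j, pp K x j * nu K y j = 0 := by
    rw [← h3, ← hb, Finset.mul_sum]
    exact Finset.sum_congr rfl fun j _ => by rw [Pi.smul_apply, smul_eq_mul]; ring
  have h5 : ∑ j, pp K x j * nu K y j ≠ 0 := fun h => hxy ((pp_nu K x y).1 h)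
  have h6 : b = 0 := (mul_eq_zero.1 h4).resolve_right h5
  rw [← hb, h6, zero_smul]

private theorem third : ∀ x y₁ : Fin 3, x ≠ y₁ → ∃ y₂ : Fin 3, x ≠ y₂ ∧
    ∀ y, y ≠ x → y ≠ y₁ → y = y₂ := by decide

private theorem W_le {A : Finset V} {s : V} (hs : s ∉ A) {y : Fin 3}
    (h : ∀ x, D.arm s x ∈ A → x = y) : D.W K A s ≤ Submodule.span K {nu K y} := by
  unfold Dat.W
  rw [if_neg hs]
  refine Submodule.span_mono ?_
  rintro p ⟨x, hx, rfl⟩
  rw [h x hx]
  exact Set.mem_singleton _

private theorem key {B : Finset V} {v v' : V} (hvB : v ∈ B) (hv : ¬ D.st v) (h : G.Adj v v')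
    (hnd : ¬ dn G B v v') {z : Fin N → K} (hz : z ∈ D.L K v)
    (hz' : z ∈ spn (D.L K) (B.erase v)) : z (D.ec v v') = 0 := by
  have hv'B : v' ∉ B := fun h1 => hnd ⟨h, Or.inl h1⟩
  by_cases hst : D.st v'
  · have harm : D.arm v' (D.dir v' v) = v := D.arm_dir hst h.symm
    have hne : v' ≠ v := h.ne'
    obtain ⟨w, hw, hwB⟩ : ∃ w, G.Adj v' w ∧ w ∉ B := by
      by_contra hcon
      push Not at hcon
      exact hnd ⟨h, Or.inr ⟨card_nbs_star D hst, hcon⟩⟩
    obtain ⟨y₁, hy₁⟩ := (D.adj_arm v' hst w).1 hw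
    have hxy₁ : D.dir v' v ≠ y₁ := by
      intro e
      rw [← e, harm] at hy₁
      exact hwB (hy₁ ▸ hvB)
    obtain ⟨y₂, hy₂, h3⟩ := third _ _ hxy₁
    have h1 := ((mem_spn D K (B.erase v) z).1 hz').2 v' hst
    have h2 := ((mem_L D K v z).1 hz).2 v' hst
    have h1' := W_le D K (y := y₂) (fun h4 => hv'B (Finset.mem_of_mem_erase h4)) (fun x hx => by
      apply h3
      · rintro rfl
        rw [harm] at hx
        exact Finset.notMem_erase v B hx
      · rintro rfl
        rw [hy₁] at hx
        exact hwB (Finset.mem_of_mem_erase hx)) h1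
    have h2' := W_le D K (y := D.dir v' v) (fun h4 => hne (Finset.mem_singleton.1 h4))
      (fun x hx => by
        rw [Finset.mem_singleton] at hx
        exact D.arm_inj v' hst (hx.trans harm.symm)) h2
    have h5 := nu_zero K hy₂ h2' h1'
    unfold Dat.ec
    rw [if_pos hst]
    exact congrFun h5 _
  · unfold Dat.ec
    rw [if_neg hst]
    by_contra hcon
    have hF : Fre G D.st v v' := Or.inl ⟨h, hv, hst⟩
    rcases ((mem_spn D K (B.erase v) z).1 hz').1 _ hcon with ⟨s, j, hs, h1⟩ | ⟨a, b, hab, h1, h2⟩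
    · exact D.fr_cj v v' s j hF hs h1
    · have h3 := D.fr_inj v v' a b hF hab h2
      rw [Sym2.eq_iff] at h3
      rcases h3 with ⟨rfl, rfl⟩ | ⟨rfl, rfl⟩
      · rcases h1 with h1 | h1
        · exact Finset.notMem_erase v B h1
        · exact hv'B (Finset.mem_of_mem_erase h1)
      · rcases h1 with h1 | h1
        · exact hv'B (Finset.mem_of_mem_erase h1)
        · exact Finset.notMem_erase v B h1

theorem dexpo {B : Finset V} {v u : V} (hv : v ∈ B) (h : G.Adj v u) (hd : ∀ w, dn G B v w → w = u) :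
    D.L K v ⊓ spn (D.L K) (B.erase v) ≤ Submodule.span K {D.nod K v u} := by
  rintro z ⟨hz, hz'⟩
  by_cases hst : D.st v
  · have harm : D.arm v (D.dir v u) = u := D.arm_dir hst h
    have h1 := ((mem_spn D K (B.erase v) z).1 hz').2 v hst
    have h2 := W_le D K (y := D.dir v u) (Finset.notMem_erase v B) (fun x hx => by
      have h3 := hd (D.arm v x) ⟨D.adj_arm' hst x, Or.inl (Finset.mem_of_mem_erase hx)⟩
      exact D.arm_inj v hst (h3.trans harm.symm)) h1
    let φ : (Fin N → K) →ₗ[K] K := ∑ j, pp K (D.dir v u) j • LinearMap.proj (D.cj v j)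
    have hφ : ∀ y : Fin N → K, aeval y (D.lin K v u) = φ y := by
      intro y
      unfold Dat.lin
      rw [if_pos hst, aeval_pf]
      simp [φ]
    obtain ⟨y, hy, hy0⟩ := dlin_ne D K h
    refine ker_span' K (finrank_L D K v) (φ := φ) (dnod_mem D K h) (dnod_ne D K h) ?_
      ⟨y, hy, by rw [← hφ]; exact hy0⟩ hz ?_
    · rw [← hφ]
      exact dlin_nod D K h
    · rw [← hφ]
      unfold Dat.lin
      rw [if_pos hst]
      exact (pf_zero_iff D K v _ z).2 h2
  · let φ : (Fin N → K) →ₗ[K] K := LinearMap.proj (D.oc v u)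
    have hφ : ∀ y : Fin N → K, aeval y (D.lin K v u) = φ y := by
      intro y
      unfold Dat.lin
      rw [if_neg hst, aeval_X]
      rfl
    obtain ⟨y, hy, hy0⟩ := dlin_ne D K h
    refine ker_span' K (finrank_L D K v) (φ := φ) (dnod_mem D K h) (dnod_ne D K h) ?_
      ⟨y, hy, by rw [← hφ]; exact hy0⟩ hz ?_
    · rw [← hφ]
      exact dlin_nod D K h
    · change z (D.oc v u) = 0
      unfold Dat.oc
      split_ifs with hw
      · obtain ⟨h1, h2⟩ := hw.choose_spec
        exact key D K hv hst h1 (fun h3 => h2 (hd _ h3)) hz hz'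
      · by_contra hcon
        push Not at hw
        have hF : Fre G D.st v v := Or.inr ⟨rfl, hst, fun a b ha hb => (hw a ha).trans (hw b hb).symm⟩
        rcases ((mem_spn D K (B.erase v) z).1 hz').1 _ hcon with ⟨s, j, hs, h1⟩ | ⟨a, b, hab, h1, h2⟩
        · exact D.fr_cj v v s j hF hs h1
        · have h3 := D.fr_inj v v a b hF hab h2
          rw [Sym2.eq_iff] at h3
          rcases h3 with ⟨rfl, rfl⟩ | ⟨rfl, rfl⟩
          · rcases h1 with h1 | h1 <;> exact Finset.notMem_erase v B h1
          · rcases h1 with h1 | h1 <;> exact Finset.notMem_erase v B h1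

theorem dexpo0 {B : Finset V} {v : V} (hv : v ∈ B) (hd : ∀ w, ¬ dn G B v w) :
    D.L K v ⊓ spn (D.L K) (B.erase v) = ⊥ := by
  rw [eq_bot_iff]
  rintro z ⟨hz, hz'⟩
  rw [Submodule.mem_bot]
  obtain ⟨u, h⟩ := D.ex v
  obtain ⟨t, ht⟩ := Submodule.mem_span_singleton.1
    (dexpo D K hv h (fun w hw => absurd hw (hd w)) ⟨hz, hz'⟩)
  by_cases hst : D.st v
  · have h1 := ((mem_spn D K (B.erase v) z).1 hz').2 v hst
    have h2 : ∀ y : Fin 3, (fun j => z (D.cj v j)) ∈ Submodule.span K {nu K y} := fun y =>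
      W_le D K (y := y) (Finset.notMem_erase v B) (fun x hx =>
        absurd ⟨D.adj_arm' hst x, Or.inl (Finset.mem_of_mem_erase hx)⟩ (hd (D.arm v x))) h1
    have h3 := nu_zero K (show (0 : Fin 3) ≠ 1 by decide) (h2 0) (h2 1)
    obtain ⟨y, hy, hy0⟩ := dlin_ne D K h
    have h4 : t • nu K (D.dir v u) = 0 := by
      have h5 : (fun j => z (D.cj v j)) = t • nu K (D.dir v u) := by
        funext j
        rw [← ht]
        unfold Dat.nod
        rw [if_pos hst, Pi.smul_apply, sv_cj D K hst, Pi.smul_apply]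
      rw [← h5, h3]
    have h6 : nu K (D.dir v u) ≠ 0 := by
      intro h7
      have h8 : ∀ x : Fin 3, nu K x ≠ 0 := by
        intro x hx
        have h0 := congrFun hx 0
        have h1 := congrFun hx 1
        fin_cases x
        · simp [nu] at h0
        · simp [nu] at h1
        · simp [nu] at h0
      exact h8 _ h7
    rw [← ht, (smul_eq_zero.1 h4).resolve_right h6, zero_smul]
  · have h1 := key D K hv hst h (hd u) hz hz'
    rw [← ht, Pi.smul_apply, nod_ec D K hst h, smul_eq_mul, mul_one] at h1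
    rw [← ht, h1, zero_smul]

end Pool.Agent.H6.SC
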