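import Pool.Agent.H6.SC.Ind
import Pool.Agent.H6.SC.Count

/-!
# SC.Sel : a plane with many units lies in a sum of `k + 1` lines

PROOF. Let `α = |act|`, `τ = |Tn|`, `τ₂ = |T2|`, `k + 1 ≤ α + τ + τ₂`, `T2 ⊆ Tn`. Choose `D ⊆ T2`, `D ⊆ S ⊆ Tn`, `A₁ ⊆ act` with
`|A₁| + |S| + |D| = k + 1`: if `k + 1 ≤ τ` take `D = ∅`, `|S| = k + 1`, `A₁ = ∅`; if `τ < k + 1 ≤ τ + τ₂` take `S = Tn`, `|D| = k + 1 - τ`; otherwise `S = Tn`,
`D = T2`, `|A₁| = k + 1 - τ - τ₂` (`Finset.exists_subset_card_eq`). Put `T₂ = D`, `T₁ = S \ D`; `|A₁| + |T₁| + 2 |T₂| = k + 1`. The family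
of vectors `q v` (`v ∈ A₁`, nonzero in `L v ⊓ Λ`), `nod p` (`p ∈ T₁`), `nod p` and `w p` (`p ∈ T₂`, `w p ∈ (L p.1 ⊔ L p.2) ⊓ Λ` not in `span (nod p)`)
has `k + 1` members (index type `A₁ ⊕ T₁ ⊕ T₂ ⊕ T₂`) and is linearly independent by `indep` (`y₁ v = c v • q v`,
`y₂ p = c p • nod p`, `y₃ p = c p • nod p + c' p • w p`). It lies in `Λ`, which has dimension `k + 1`, so it spans `Λ`
(`LinearIndependent.span_eq_top_of_card_eq_finrank` in `Λ`, or `Submodule.eq_of_le_of_finrank_eq`). All its members lie in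
`spn L B`, `B = A₁ ∪ {p.1 : p ∈ T₁} ∪ {p.1, p.2 : p ∈ T₂}`, `|B| ≤ k + 1`. The hypothesis `k + 1 ≤ |V|` allows one to enlarge `B` to
`k + 1` elements (`Finset.exists_superset_card_eq`); if `|V| < k + 1`: the members are in number `k + 1` and their vertices are different (`nod_unique`:
`|B| = k + 1`), so `k + 1 ≤ |V|` anyway. (It is simplest to show `|B| = k + 1` always: the union is disjoint by `nod_unique` and the maps are injective.)
`hor` : `o` puts the vertices of degree three first, so `p.2` is never of degree three (`st_adj`).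
-/

set_option autoImplicit false

open MvPolynomial Pool.Agent.H74.Secant

namespace Pool.Agent.H6.SC

universe u

open scoped Classical

variable {K : Type u} [Field K] {N : ℕ} {V : Type} [Fintype V] {G : SimpleGraph V} (a : Arr K N G)
  {Λ : Submodule K (Fin N → K)}

/-- an injective numbering that puts the vertices of degree three first -/
theorem exists_order (G : SimpleGraph V) :
    ∃ o : V → ℕ, Function.Injective o ∧ ∀ u v, (nbs G v).card = 3 → (nbs G u).card ≠ 3 → o v < o u := by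
  classical
  let e := Fintype.equivFin V
  refine ⟨fun v => (if (nbs G v).card = 3 then 0 else Fintype.card V) + (e v : ℕ), ?_, ?_⟩
  · intro u v h
    have hu := (e u).isLt
    have hv := (e v).isLt
    simp only at h
    apply e.injective
    apply Fin.ext
    split_ifs at h <;> omega
  · intro u v hv hu
    simp only [hv, hu, if_true, if_false]
    have := (e v).isLt
    omega

private theorem choose_units {V : Type} {n : ℕ} (A : Finset V) (T S : Finset (V × V)) (hST : S ⊆ T)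
    (hc : n ≤ A.card + T.card + S.card) :
    ∃ (A₁ : Finset V) (T₁ T₂ : Finset (V × V)), A₁ ⊆ A ∧ T₁ ∪ T₂ ⊆ T ∧ T₂ ⊆ S ∧ Disjoint T₁ T₂ ∧
      A₁.card + T₁.card + 2 * T₂.card = n := by
  classical
  have key : ∃ (A₁ : Finset V) (R D : Finset (V × V)), A₁ ⊆ A ∧ R ⊆ T ∧ D ⊆ S ∧ D ⊆ R ∧
      A₁.card + R.card + D.card = n := by
    by_cases h1 : n ≤ T.card
    · obtain ⟨R, hR, hRc⟩ := Finset.exists_subset_card_eq h1
      exact ⟨∅, R, ∅, Finset.empty_subset _, hR, Finset.empty_subset _, Finset.empty_subset _, by simp [hRc]⟩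
    · by_cases h2 : n ≤ T.card + S.card
      · obtain ⟨D, hD, hDc⟩ := Finset.exists_subset_card_eq (s := S) (n := n - T.card) (by omega)
        exact ⟨∅, T, D, Finset.empty_subset _, Finset.Subset.refl _, hD, hD.trans hST, by
          rw [Finset.card_empty]; omega⟩
      · obtain ⟨A₁, hA, hAc⟩ := Finset.exists_subset_card_eq (s := A) (n := n - T.card - S.card) (by omega)
        exact ⟨A₁, T, S, hA, Finset.Subset.refl _, Finset.Subset.refl _, hST, by omega⟩
  obtain ⟨A₁, R, D, hA, hR, hD, hDR, hcard⟩ := key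
  refine ⟨A₁, R \ D, D, hA, ?_, hD, Finset.sdiff_disjoint, ?_⟩
  · rw [Finset.sdiff_union_of_subset hDR]
    exact hR
  · have := Finset.card_sdiff_add_card_eq_card hDR
    omega

theorem le_spn {k : ℕ} (hE : Expos G (k + 1)) (hΛ : ∀ v, ¬ a.L v ≤ Λ) (hk : Module.finrank K Λ = k + 1) (o : V → ℕ)
    (ho : Function.Injective o) (hor : ∀ u v, (nbs G v).card = 3 → (nbs G u).card ≠ 3 → o v < o u)
    (hc : k + 1 ≤ (act a Λ).card + (Tn a Λ o).card + (T2 a Λ o).card) :
    ∃ B : Finset V, B.card = k + 1 ∧ Λ ≤ spn a.L B := by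
  classical
  obtain ⟨A₁, T₁, T₂, hA₁, hT, hT₂, hd, hcard⟩ := choose_units (act a Λ) (Tn a Λ o) (T2 a Λ o)
    (Finset.filter_subset _ _) hc
  have hact : ∀ v ∈ A₁, a.L v ⊓ Λ ≠ ⊥ ∧ ∀ u, G.Adj v u → a.nod v u ∉ Λ := by
    intro v hv
    have := hA₁ hv
    unfold act at this
    exact (Finset.mem_filter.1 this).2
  have hTn : ∀ p ∈ T₁ ∪ T₂, G.Adj p.1 p.2 ∧ o p.1 < o p.2 ∧ a.nod p.1 p.2 ∈ Λ := by
    intro p hp
    have := hT hp
    unfold Tn at this
    exact (Finset.mem_filter.1 this).2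
  have hT1 : ∀ p ∈ T₁, G.Adj p.1 p.2 ∧ o p.1 < o p.2 ∧ a.nod p.1 p.2 ∈ Λ :=
    fun p hp => hTn p (Finset.mem_union_left _ hp)
  have hT2 : ∀ p ∈ T₂, G.Adj p.1 p.2 ∧ o p.1 < o p.2 ∧ a.nod p.1 p.2 ∈ Λ :=
    fun p hp => hTn p (Finset.mem_union_right _ hp)
  -- the vectors
  have hq : ∀ v, ∃ q : Fin N → K, v ∈ A₁ → q ≠ 0 ∧ q ∈ a.L v ⊓ Λ := by
    intro v
    by_cases hv : v ∈ A₁
    · obtain ⟨q, hq, hq0⟩ := Submodule.exists_mem_ne_zero_of_ne_bot (hact v hv).1
      exact ⟨q, fun _ => ⟨hq0, hq⟩⟩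
    · exact ⟨0, fun h => absurd h hv⟩
  choose q hq using hq
  have hw : ∀ p : V × V, ∃ w : Fin N → K, p ∈ T₂ → w ∈ (a.L p.1 ⊔ a.L p.2) ⊓ Λ ∧
      w ∉ Submodule.span K {a.nod p.1 p.2} := by
    intro p
    by_cases hp : p ∈ T₂
    · have h2 := hT₂ hp
      unfold T2 at h2
      have h3 := (Finset.mem_filter.1 h2).2
      have hlt : ¬ ((a.L p.1 ⊔ a.L p.2) ⊓ Λ : Submodule K (Fin N → K)) ≤ Submodule.span K {a.nod p.1 p.2} := by
        intro hle
        have h4 := Submodule.finrank_mono hle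
        have h5 : Module.finrank K (Submodule.span K {a.nod p.1 p.2}) ≤ 1 := by
          have := finrank_span_le_card (R := K) ({a.nod p.1 p.2} : Set (Fin N → K))
          simpa using this
        omega
      obtain ⟨w, hw1, hw2⟩ := Set.not_subset.1 hlt
      exact ⟨w, fun _ => ⟨hw1, hw2⟩⟩
    · exact ⟨0, fun h => absurd h hp⟩
  choose w hw using hw
  let b : (A₁ ⊕ (T₁ ⊕ (T₂ ⊕ T₂))) → (Fin N → K) :=
    Sum.elim (fun v => q v.1) (Sum.elim (fun p => a.nod p.1.1 p.1.2)
      (Sum.elim (fun p => a.nod p.1.1 p.1.2) (fun p => w p.1)))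
  have hli : LinearIndependent K b := by
    rw [Fintype.linearIndependent_iff]
    intro g hg
    rw [Fintype.sum_sum_type, Fintype.sum_sum_type, Fintype.sum_sum_type] at hg
    simp only [b, Sum.elim_inl, Sum.elim_inr] at hg
    let y₁ : V → (Fin N → K) := fun v => if h : v ∈ A₁ then g (Sum.inl ⟨v, h⟩) • q v else 0
    let y₂ : V × V → (Fin N → K) := fun p =>
      if h : p ∈ T₁ then g (Sum.inr (Sum.inl ⟨p, h⟩)) • a.nod p.1 p.2 else 0
    let y₃ : V × V → (Fin N → K) := fun p =>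
      if h : p ∈ T₂ then g (Sum.inr (Sum.inr (Sum.inl ⟨p, h⟩))) • a.nod p.1 p.2 +
        g (Sum.inr (Sum.inr (Sum.inr ⟨p, h⟩))) • w p else 0
    have e1 : ∑ v ∈ A₁, y₁ v = ∑ v : A₁, g (Sum.inl v) • q v.1 := by
      rw [← Finset.sum_coe_sort A₁ y₁]
      refine Finset.sum_congr rfl (fun v _ => ?_)
      simp only [y₁]
      rw [dif_pos v.2]
    have e2 : ∑ p ∈ T₁, y₂ p = ∑ p : T₁, g (Sum.inr (Sum.inl p)) • a.nod p.1.1 p.1.2 := by
      rw [← Finset.sum_coe_sort T₁ y₂]
      refine Finset.sum_congr rfl (fun p _ => ?_)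
      simp only [y₂]
      rw [dif_pos p.2]
    have e3 : ∑ p ∈ T₂, y₃ p = ∑ p : T₂, g (Sum.inr (Sum.inr (Sum.inl p))) • a.nod p.1.1 p.1.2 +
        ∑ p : T₂, g (Sum.inr (Sum.inr (Sum.inr p))) • w p.1 := by
      rw [← Finset.sum_coe_sort T₂ y₃, ← Finset.sum_add_distrib]
      refine Finset.sum_congr rfl (fun p _ => ?_)
      simp only [y₃]
      rw [dif_pos p.2]
    have hall := indep a hE hΛ o A₁ (fun v hv => (hact v hv).2) T₁ T₂ hd ?_ hcard.le y₁ y₂ y₃ ?_ ?_ ?_ ?_
    · obtain ⟨z1, z2, z3⟩ := hall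
      have z3' : ∀ (p : V × V) (h : p ∈ T₂), g (Sum.inr (Sum.inr (Sum.inl ⟨p, h⟩))) = 0 ∧
          g (Sum.inr (Sum.inr (Sum.inr ⟨p, h⟩))) = 0 := by
        intro p h
        have h0 := z3 p h
        simp only [y₃] at h0
        rw [dif_pos h] at h0
        have hc' : g (Sum.inr (Sum.inr (Sum.inr ⟨p, h⟩))) = 0 := by
          by_contra hne
          apply (hw p h).2
          rw [Submodule.mem_span_singleton]
          refine ⟨-(g (Sum.inr (Sum.inr (Sum.inr ⟨p, h⟩))))⁻¹ * g (Sum.inr (Sum.inr (Sum.inl ⟨p, h⟩))), ?_⟩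
          have h1 : g (Sum.inr (Sum.inr (Sum.inl ⟨p, h⟩))) • a.nod p.1 p.2 =
              -(g (Sum.inr (Sum.inr (Sum.inr ⟨p, h⟩))) • w p) := eq_neg_of_add_eq_zero_left h0
          rw [mul_smul, h1, neg_smul, smul_neg, neg_neg, smul_smul, inv_mul_cancel₀ hne, one_smul]
        rw [hc', zero_smul, add_zero] at h0
        refine ⟨?_, hc'⟩
        rcases smul_eq_zero.1 h0 with h1 | h1
        · exact h1
        · exact absurd h1 (a.nod_ne _ _ (hT2 p h).1)
      rintro (v | (p | (p | p)))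
      · have h0 := z1 v.1 v.2
        simp only [y₁] at h0
        rw [dif_pos v.2] at h0
        rcases smul_eq_zero.1 h0 with h1 | h1
        · exact h1
        · exact absurd h1 (hq v.1 v.2).1
      · have h0 := z2 p.1 p.2
        simp only [y₂] at h0
        rw [dif_pos p.2] at h0
        rcases smul_eq_zero.1 h0 with h1 | h1
        · exact h1
        · exact absurd h1 (a.nod_ne _ _ (hT1 p.1 p.2).1)
      · exact (z3' p.1 p.2).1
      · exact (z3' p.1 p.2).2
    · intro p hp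
      obtain ⟨h1, h2, h3⟩ := hTn p hp
      refine ⟨h1, h2, h3, ?_⟩
      intro h4
      have h5 := a.st_adj p.2 p.1 h1.symm h4
      have h6 := hor p.1 p.2 h4 h5
      omega
    · intro v hv
      simp only [y₁]
      rw [dif_pos hv]
      exact Submodule.smul_mem _ _ (hq v hv).2
    · intro p hp
      simp only [y₂]
      rw [dif_pos hp]
      exact Submodule.smul_mem _ _ (Submodule.mem_span_singleton_self _)
    · intro p hp
      simp only [y₃]
      rw [dif_pos hp]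
      refine Submodule.add_mem _ (Submodule.smul_mem _ _ ?_) (Submodule.smul_mem _ _ (hw p hp).1)
      exact ⟨Submodule.mem_sup_left (a.nod_mem _ _ (hT2 p hp).1), (hT2 p hp).2.2⟩
    · rw [e1, e2, e3, ← hg]
      abel
  have hcardι : Fintype.card (A₁ ⊕ (T₁ ⊕ (T₂ ⊕ T₂))) = k + 1 := by
    simp only [Fintype.card_sum, Fintype.card_coe]
    omega
  have hbΛ : Submodule.span K (Set.range b) ≤ Λ := by
    rw [Submodule.span_le]
    rintro _ ⟨(v | (p | (p | p))), rfl⟩
    · exact (hq v.1 v.2).2.2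
    · exact (hT1 p.1 p.2).2.2
    · exact (hT2 p.1 p.2).2.2
    · exact (hw p.1 p.2).1.2
  have hspan : Submodule.span K (Set.range b) = Λ := by
    apply Submodule.eq_of_le_of_finrank_eq hbΛ
    rw [finrank_span_eq_card hli, hcardι, hk]
  have hnod2 : ∀ p ∈ T₁ ∪ T₂, a.nod p.2 p.1 ∈ Λ := by
    intro p hp
    rw [← a.nod_symm _ _ (hTn p hp).1]
    exact (hTn p hp).2.2
  have hinj1 : Set.InjOn Prod.fst ((T₁ ∪ T₂ : Finset (V × V)) : Set (V × V)) := by
    intro p hp p' hp' h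
    have h1 := hTn p hp
    have h2 := hTn p' hp'
    have h3 : p.2 = p'.2 := by
      apply nod_unique a hΛ (v := p.1) h1.1 (by rw [h]; exact h2.1) h1.2.2
      rw [h]
      exact h2.2.2
    exact Prod.ext h h3
  have hinj2 : Set.InjOn Prod.snd ((T₂ : Finset (V × V)) : Set (V × V)) := by
    intro p hp p' hp' h
    have h1 := hT2 p hp
    have h2 := hT2 p' hp'
    have h3 : p.1 = p'.1 := by
      apply nod_unique a hΛ (v := p.2) h1.1.symm (by rw [h]; exact h2.1.symm)
        (hnod2 p (Finset.mem_union_right _ hp))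
      rw [h]
      exact hnod2 p' (Finset.mem_union_right _ hp')
    exact Prod.ext h3 h
  refine ⟨(A₁ ∪ (T₁ ∪ T₂).image Prod.fst) ∪ T₂.image Prod.snd, ?_, ?_⟩
  · rw [Finset.card_union_of_disjoint, Finset.card_union_of_disjoint, Finset.card_image_of_injOn hinj1,
      Finset.card_image_of_injOn hinj2, Finset.card_union_of_disjoint hd]
    · omega
    · rw [Finset.disjoint_left]
      intro v hv hv'
      obtain ⟨p, hp, rfl⟩ := Finset.mem_image.1 hv'
      exact (hact _ hv).2 p.2 (hTn p hp).1 (hTn p hp).2.2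
    · rw [Finset.disjoint_left]
      intro v hv hv'
      obtain ⟨p', hp', rfl⟩ := Finset.mem_image.1 hv'
      rcases Finset.mem_union.1 hv with hv | hv
      · exact (hact _ hv).2 p'.1 (hT2 p' hp').1.symm (hnod2 p' (Finset.mem_union_right _ hp'))
      · obtain ⟨p, hp, hpp⟩ := Finset.mem_image.1 hv
        have h1 := hTn p hp
        have h2 := hT2 p' hp'
        have h3 : p.2 = p'.1 := by
          apply nod_unique a hΛ (v := p.1) h1.1 (by rw [hpp]; exact h2.1.symm) h1.2.2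
          rw [hpp]
          exact hnod2 p' (Finset.mem_union_right _ hp')
        have h4 := h1.2.1
        have h5 := h2.2.1
        rw [← hpp, ← h3] at h5
        omega
  · have hmem : ∀ v ∈ (A₁ ∪ (T₁ ∪ T₂).image Prod.fst) ∪ T₂.image Prod.snd,
        a.L v ≤ spn a.L ((A₁ ∪ (T₁ ∪ T₂).image Prod.fst) ∪ T₂.image Prod.snd) := by
      intro v hv
      unfold spn
      exact le_iSup₂_of_le v hv le_rfl
    have hf : ∀ p ∈ T₁ ∪ T₂, p.1 ∈ (A₁ ∪ (T₁ ∪ T₂).image Prod.fst) ∪ T₂.image Prod.snd := by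
      intro p hp
      exact Finset.mem_union_left _ (Finset.mem_union_right _ (Finset.mem_image_of_mem _ hp))
    rw [← hspan, Submodule.span_le]
    rintro _ ⟨(v | (p | (p | p))), rfl⟩
    · exact hmem v.1 (Finset.mem_union_left _ (Finset.mem_union_left _ v.2)) (hq v.1 v.2).2.1
    · exact hmem _ (hf p.1 (Finset.mem_union_left _ p.2)) (a.nod_mem _ _ (hT1 p.1 p.2).1)
    · exact hmem _ (hf p.1 (Finset.mem_union_right _ p.2)) (a.nod_mem _ _ (hT2 p.1 p.2).1)
    · exact (sup_le (hmem _ (hf p.1 (Finset.mem_union_right _ p.2)))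
        (hmem _ (Finset.mem_union_right _ (Finset.mem_image_of_mem _ p.2)))) (hw p.1 p.2).1.1

/-- a point of the secant union lies in the span of `k + 1` lines -/
theorem secant_sub [Infinite K] {k : ℕ} (hE : Expos G (k + 1)) {z : Fin N → K} (hz : z ∈ secantUnion k a.crv) :
    ∃ B : Finset V, B.card = k + 1 ∧ z ∈ spn a.L B := by
  obtain ⟨Λ, hΛk, ⟨ℓ, hℓ, hm⟩, hzΛ⟩ := hz
  have hΛ : ∀ v, ¬ a.L v ≤ Λ := fun v => no_line a hm v
  obtain ⟨o, ho, hor⟩ := exists_order G
  obtain ⟨T, hT⟩ := Filter.eventually_atTop.1 hm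
  have h1 := hT (max T 3 + 1) (by omega)
  have h2 := hilb_le a hΛ o ho (T := max T 3) (by omega)
  rw [h1] at h2
  obtain ⟨B, hB, hle⟩ := le_spn a hE hΛ hΛk o ho hor (hℓ.trans h2)
  exact ⟨B, hB, hle hzΛ⟩

end Pool.Agent.H6.SC
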