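import Pool.Agent.H6.SC.Clos
import Pool.Agent.H6.SC.Sel

/-!
# SC.Struct : the ideal of the secant variety of a nodal arrangement

`f ∈ I(Σ_k)` iff `f` vanishes on the sum of every `k + 1` lines.
-/

set_option autoImplicit false

open MvPolynomial Pool.Agent.H74.Secant

namespace Pool.Agent.H6.SC

universe u

variable {K : Type u} [Field K] {N : ℕ} {V : Type} [Fintype V] {G : SimpleGraph V} (a : Arr K N G)

theorem mem_secant_ideal [Infinite K] {k : ℕ} (hE : Expos G (k + 1)) (f : MvPolynomial (Fin N) K) :
    f ∈ vanishingIdeal K (secantVariety k a.crv) ↔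
      ∀ A : Finset V, A.card = k + 1 → ∀ z ∈ spn a.L A, aeval z f = 0 := by
  constructor
  · intro hf A hA z hz
    have hsub : secantUnion k a.crv ⊆ secantVariety k a.crv := zeroLocus_vanishingIdeal_le _
    exact van_spn a hE (vanishingIdeal_anti_mono hsub hf) hA hz
  · intro h
    apply le_vanishingIdeal_zeroLocus
    rw [mem_vanishingIdeal_iff]
    intro z hz
    obtain ⟨B, hB, hzB⟩ := secant_sub a hE hz
    exact h B hB z hzB

end Pool.Agent.H6.SC
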