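import Pool.Agent.H6.SC.DCutD
import Pool.Agent.H6.SC.DExpo
import Pool.Agent.H6.SC.Struct

/-!
# SC.DArr : the nodal arrangement of the data `D` and its secant ideals
-/

set_option autoImplicit false

open MvPolynomial Pool.Agent.H74.Secant

namespace Pool.Agent.H6.SC

universe u

open scoped Classical

variable {V : Type} [Fintype V] {G : SimpleGraph V} {N : ℕ} (D : Dat G N) (K : Type u) [Field K]

noncomputable def Dat.arr : Arr K N G where
  L := D.L K
  nod := D.nod K
  lin := D.lin K
  cut := D.cut K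
  cdeg := D.cdeg
  nb := D.ex
  dim := finrank_L D K
  nod_symm := fun _ _ h => dnod_symm D K h
  nod_mem := fun _ _ h => dnod_mem D K h
  nod_ne := fun _ _ h => dnod_ne D K h
  nod_ind := fun _ _ _ hv hw hne => dnod_ind D K hv hw hne
  lin_hom := fun u v _ => dlin_hom D K u v
  lin_nod := fun _ _ h => dlin_nod D K h
  lin_ne := fun _ _ h => dlin_ne D K h
  lin_L := fun _ _ h _ hz => dlin_L D K h hz
  bump := fun _ _ hw _ hz => dbump D K hw hz
  cut_symm := fun _ _ h => dcut_symm D K h
  cdeg_symm := fun u v _ => dcdeg_symm D u v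
  cut_hom := fun u v _ => dcut_hom D K u v
  cdeg_le := fun u v _ => dcdeg_le D u v
  cut_L := fun _ _ h _ hu hv _ hz => dcut_L D K h hu hv hz
  cut_nod := fun _ _ h _ hw hne => dcut_nod D K h hw hne
  cut_ne := fun _ _ h => dcut_ne D K h
  card_le := fun _ _ h => dcard_le D h
  cut_div := fun _ _ h => dcut_div D K h
  st_adj := fun u v h hu hv => D.far1 u v ((card_nbs_iff D u).1 hu) ((card_nbs_iff D v).1 hv) h
  expo := fun _ _ _ hv h hd => dexpo D K hv h hd
  expo0 := fun _ _ hv hd => dexpo0 D K hv hd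

/-- the curve -/
noncomputable def Dat.crv : Set (Fin N → K) := ⋃ v, (D.L K v : Set (Fin N → K))

theorem mem_sec [Infinite K] {k : ℕ} (hE : Expos G (k + 1)) (f : MvPolynomial (Fin N) K) :
    f ∈ vanishingIdeal K (secantVariety k (D.crv K)) ↔
      ∀ A : Finset V, A.card = k + 1 → ∀ z ∈ spn (D.L K) A, aeval z f = 0 :=
  mem_secant_ideal (D.arr K) hE f

end Pool.Agent.H6.SC
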