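import Pool.Agent.H6.SC.DForm

/-!
# SC.DBump : the product of the linear forms at `u` vanishes on all other lines

PROOF. Let `w ≠ u`, `z ∈ L w`. If `w ~ u`: the factor `lin u w` vanishes (`dlin_L`). So assume `w` is not a neighbour of `u`.
Star `u`: the block at `u` is in `W {w} u = span {nu x : arm u x = w} = 0` (no neighbour), so every factor `pf u x` vanishes; there is a neighbour.
Not a star: (a) `u` has one neighbour `v` (and the loop): `lin u v = X (fr u u)` and `z (fr u u) ≠ 0` would give `s(u, u) = s(w, x)`, `w = u`.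
(b) `u` has two neighbours `v ≠ v'`: `lin u v = X (ec u v')`, `lin u v' = X (ec u v)` (the chosen neighbour is the other one by `two`). Suppose both coordinates of `z` are
nonzero. If `v` is not a star then `ec u v = fr u v` and `z (fr u v) ≠ 0` gives `s(u, v) = s(w, x)`, so `w = v` or `w = u`: excluded (`w` is not a neighbour). The same for `v'`.
So both are stars and both are neighbours of `u`: `far2` gives `v = v'`, a contradiction.
-/

set_option autoImplicit false

open MvPolynomial

namespace Pool.Agent.H6.SC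

universe u

open scoped Classical

variable {V : Type} [Fintype V] {G : SimpleGraph V} {N : ℕ} (D : Dat G N) (K : Type u) [Field K]

/-- the block at `c` of a vector of the line of `w`, `c ≠ w` not adjacent to `w`, is zero -/
private theorem block_zero {c w : V} (hc : D.st c) (hne : c ≠ w) (hadj : ¬ G.Adj c w) {z : Fin N → K}
    (hz : z ∈ D.L K w) (j : Fin 2) : z (D.cj c j) = 0 := by
  have h1 := ((mem_L D K w z).1 hz).2 c hc
  unfold Dat.W at h1
  rw [if_neg (by rw [Finset.mem_singleton]; exact hne)] at h1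
  have h2 : {p | ∃ x, D.arm c x ∈ ({w} : Finset V) ∧ p = nu K x} = ∅ := by
    rw [Set.eq_empty_iff_forall_notMem]
    rintro p ⟨x, hx, -⟩
    rw [Finset.mem_singleton] at hx
    exact hadj (hx ▸ D.adj_arm' hc x)
  rw [h2, Submodule.span_empty, Submodule.mem_bot] at h1
  exact congrFun h1 j

/-- a coordinate of an end of `u` which does not vanish -/
private theorem end_ne {u c w : V} (hu : ¬ D.st u) (huc : G.Adj u c) (hwu : w ≠ u)
    (hadj : ¬ G.Adj u w) {z : Fin N → K} (hz : z ∈ D.L K w) (h : z (D.ec u c) ≠ 0) :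
    D.st c ∧ G.Adj c w := by
  by_cases hc : D.st c
  · refine ⟨hc, ?_⟩
    by_contra hcw
    have hne : c ≠ w := by
      rintro rfl
      exact hadj huc
    apply h
    unfold Dat.ec
    rw [if_pos hc]
    exact block_zero D K hc hne hcw hz _
  · exfalso
    unfold Dat.ec at h
    rw [if_neg hc] at h
    have hf : Fre G D.st u c := Or.inl ⟨huc, hu, hc⟩
    rcases ((mem_L D K w z).1 hz).1 _ h with ⟨s, j, hs, he⟩ | ⟨x, hx, he⟩
    · exact D.fr_cj u c s j hf hs he
    · have h1 := D.fr_inj u c w x hf hx he
      rw [Sym2.eq_iff] at h1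
      rcases h1 with ⟨h2, -⟩ | ⟨-, h2⟩
      · exact hwu h2.symm
      · exact hadj (h2 ▸ huc)

private theorem oc_eq {u v v' : V} (hu : ¬ D.st u) (hv : G.Adj u v) (hv' : G.Adj u v') (hne : v' ≠ v) :
    D.oc u v = D.ec u v' := by
  have h : ∃ w, G.Adj u w ∧ w ≠ v := ⟨v', hv', hne⟩
  unfold Dat.oc
  rw [dif_pos h]
  congr 1
  obtain ⟨h1, h2⟩ := h.choose_spec
  rcases D.two u hu v v' h.choose hv hv' h1 with h3 | h3 | h3
  · exact absurd h3.symm hne
  · exact absurd h3.symm h2
  · exact h3.symm

theorem dbump {u w : V} (hw : w ≠ u) {z : Fin N → K} (hz : z ∈ D.L K w) :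
    aeval z (∏ v ∈ nbs G u, D.lin K u v) = 0 := by
  rw [map_prod]
  by_cases hadj : G.Adj u w
  · exact Finset.prod_eq_zero ((mem_nbs G).2 hadj) (dlin_L D K hadj hz)
  obtain ⟨v, hv⟩ := D.ex u
  by_cases hu : D.st u
  · refine Finset.prod_eq_zero ((mem_nbs G).2 hv) ?_
    unfold Dat.lin
    rw [if_pos hu, aeval_pf]
    refine Finset.sum_eq_zero fun j _ => ?_
    rw [block_zero D K hu hw.symm hadj hz j, mul_zero]
  · by_cases hall : ∃ v', G.Adj u v' ∧ v' ≠ v
    · obtain ⟨v', hv', hne⟩ := hall
      by_cases h1 : z (D.ec u v') = 0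
      · refine Finset.prod_eq_zero ((mem_nbs G).2 hv) ?_
        unfold Dat.lin
        rw [if_neg hu, aeval_X, oc_eq D hu hv hv' hne]
        exact h1
      · by_cases h2 : z (D.ec u v) = 0
        · refine Finset.prod_eq_zero ((mem_nbs G).2 hv') ?_
          unfold Dat.lin
          rw [if_neg hu, aeval_X, oc_eq D hu hv' hv hne.symm]
          exact h2
        · exfalso
          obtain ⟨h3, h4⟩ := end_ne D K hu hv' hw hadj hz h1
          obtain ⟨h5, h6⟩ := end_ne D K hu hv hw hadj hz h2
          exact hne (D.far2 v' v w h3 h5 h4 h6)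
    · refine Finset.prod_eq_zero ((mem_nbs G).2 hv) ?_
      unfold Dat.lin
      rw [if_neg hu, aeval_X]
      unfold Dat.oc
      rw [dif_neg hall]
      have hf : Fre G D.st u u := by
        refine Or.inr ⟨rfl, hu, fun a b ha hb => ?_⟩
        have h1 : a = v := by
          by_contra hne
          exact hall ⟨a, ha, hne⟩
        have h2 : b = v := by
          by_contra hne
          exact hall ⟨b, hb, hne⟩
        rw [h1, h2]
      by_contra h
      rcases ((mem_L D K w z).1 hz).1 _ h with ⟨s, j, hs, he⟩ | ⟨x, hx, he⟩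
      · exact D.fr_cj u u s j hf hs he
      · have h1 := D.fr_inj u u w x hf hx he
        rw [Sym2.eq_iff] at h1
        rcases h1 with ⟨h2, -⟩ | ⟨-, h2⟩
        · exact hw h2.symm
        · exact hw h2.symm

end Pool.Agent.H6.SC
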