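import Pool.Agent.H6.SC.DForm

/-!
# SC.DCut : the cutting forms

PROOF. `cut_symm`, `cdeg_symm`: not both ends are stars (`far1`), `fr_symm`. `cut_hom`: product of two linear forms, or a variable.
`cut_L`: `w ≠ u, v`, `z ∈ L w`. If `u` is a star: the block of `z` at `u` is in `W {w} u`, which is `0` or `span {nu y}` with `arm u y = w`, `y ≠ dir u v` as `w ≠ v`; the factor
`pf u y` (or any factor) vanishes (`pf_zero_iff`). If `v` is a star: the same with `v`. If none is a star: `z (fr u v) ≠ 0` gives `s(u, v) = s(w, x)`: excluded.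
`cut_nod` (`G.Adj u w`, `w ≠ v`, value at `nod u w`): `u` star: the factor `pf u (dir u w)` vanishes. `v` star, `u` not: `nod u w` has the block `0` at `v` (`w` is not a star by `far2`
or, if it is, it is not `v`; the free vectors have zero blocks), all factors vanish. None a star: `nod u w (fr u v) = 0`: if `w` is a star by `sv_ne`, `fr_cj`; if not by `fr_inj`.
`cut_ne`: `pp x · nu (dir) ≠ 0` for `x ≠ dir` (`pp_nu`), or `Pi.single (fr u v) 1 (fr u v) = 1`. `card_le`: `card_nbs_star`, `card_nbs_le`.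
-/

set_option autoImplicit false

open MvPolynomial

namespace Pool.Agent.H6.SC

universe u

open scoped Classical

variable {V : Type} [Fintype V] {G : SimpleGraph V} {N : ℕ} (D : Dat G N) (K : Type u) [Field K]

theorem dcut_symm {u v : V} (h : G.Adj u v) : D.cut K u v = D.cut K v u := by
  unfold Dat.cut
  by_cases hu : D.st u
  · have hv : ¬ D.st v := fun hv => D.far1 u v hu hv h
    rw [if_pos hu, if_neg hv, if_pos hu]
  · by_cases hv : D.st v
    · rw [if_neg hu, if_pos hv, if_pos hv]
    · rw [if_neg hu, if_neg hv, if_neg hv, if_neg hu, D.fr_symm]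

theorem dcdeg_symm (u v : V) : D.cdeg u v = D.cdeg v u := by
  unfold Dat.cdeg
  by_cases h : D.st u ∨ D.st v
  · rw [if_pos h, if_pos h.symm]
  · rw [if_neg h, if_neg (fun h' => h h'.symm)]

private theorem prod_hom (s : V) (a : Fin 3) :
    (∏ x ∈ Finset.univ.erase a, D.pf K s x).IsHomogeneous 2 := by
  have h1 := IsHomogeneous.prod (Finset.univ.erase a) (fun x => D.pf K s x) (fun _ => 1)
    (fun x _ => pf_hom D K s x)
  have h2 : ∑ _x ∈ (Finset.univ : Finset (Fin 3)).erase a, 1 = 2 := by
    rw [Finset.sum_const, Finset.card_erase_of_mem (Finset.mem_univ a)]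
    simp
  rwa [h2] at h1

theorem dcut_hom (u v : V) : (D.cut K u v).IsHomogeneous (D.cdeg u v) := by
  unfold Dat.cut Dat.cdeg
  by_cases hu : D.st u
  · rw [if_pos hu, if_pos (Or.inl hu)]
    exact prod_hom D K u _
  · by_cases hv : D.st v
    · rw [if_neg hu, if_pos hv, if_pos (Or.inr hv)]
      exact prod_hom D K v _
    · rw [if_neg hu, if_neg hv, if_neg (not_or.2 ⟨hu, hv⟩)]
      exact isHomogeneous_X K _

theorem dcdeg_le (u v : V) : D.cdeg u v ≤ 2 := by
  unfold Dat.cdeg
  split_ifs <;> omega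

/-- the block of a vector of the line `w` at a star -/
private theorem blk {s t w : V} (hs : D.st s) (ht : G.Adj s t) (h1 : w ≠ s) (h2 : w ≠ t)
    {z : Fin N → K} (hz : z ∈ D.L K w) :
    ∃ y, y ≠ D.dir s t ∧ (fun j => z (D.cj s j)) ∈ Submodule.span K {nu K y} := by
  have h3 := ((mem_L D K w z).1 hz).2 s hs
  unfold Dat.W at h3
  rw [if_neg (fun h => h1 (Finset.mem_singleton.1 h).symm)] at h3
  by_cases hw : ∃ y, D.arm s y = w
  · obtain ⟨y, hy⟩ := hw
    refine ⟨y, ?_, ?_⟩
    · intro h4
      rw [h4, D.arm_dir hs ht] at hy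
      exact h2 hy.symm
    · refine Submodule.span_mono ?_ h3
      rintro p ⟨x, hx, rfl⟩
      rw [Finset.mem_singleton, ← hy] at hx
      rw [D.arm_inj s hs hx]
      exact Set.mem_singleton _
  · obtain ⟨y, hy⟩ := exists_ne (D.dir s t)
    refine ⟨y, hy, Submodule.span_mono ?_ h3⟩
    rintro p ⟨x, hx, rfl⟩
    exact absurd ⟨x, Finset.mem_singleton.1 hx⟩ hw

private theorem prod_zero' {s : V} {a y : Fin 3} (hy : y ≠ a) {z : Fin N → K}
    (h : (fun j => z (D.cj s j)) ∈ Submodule.span K {nu K y}) :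
    aeval z (∏ x ∈ Finset.univ.erase a, D.pf K s x) = 0 := by
  rw [map_prod]
  exact Finset.prod_eq_zero (Finset.mem_erase.2 ⟨hy, Finset.mem_univ y⟩)
    ((pf_zero_iff D K s y z).2 h)

theorem dcut_L {u v : V} (h : G.Adj u v) {w : V} (hu : w ≠ u) (hv : w ≠ v) {z : Fin N → K} (hz : z ∈ D.L K w) :
    aeval z (D.cut K u v) = 0 := by
  unfold Dat.cut
  by_cases su : D.st u
  · rw [if_pos su]
    obtain ⟨y, hy, h1⟩ := blk D K su h hu hv hz
    exact prod_zero' D K hy h1
  · by_cases sv' : D.st v
    · rw [if_neg su, if_pos sv']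
      obtain ⟨y, hy, h1⟩ := blk D K sv' h.symm hv hu hz
      exact prod_zero' D K hy h1
    · rw [if_neg su, if_neg sv', aeval_X]
      by_contra h0
      have hf : Fre G D.st u v := Or.inl ⟨h, su, sv'⟩
      rcases ((mem_L D K w z).1 hz).1 _ h0 with ⟨s, j, hs, h1⟩ | ⟨x, hx, h1⟩
      · exact D.fr_cj u v s j hf hs h1
      · have h2 := D.fr_inj u v w x hf hx h1
        rw [Sym2.eq_iff] at h2
        rcases h2 with h2 | h2
        · exact hu h2.1.symm
        · exact hv h2.2.symm

theorem dcut_nod {u v : V} (h : G.Adj u v) {w : V} (hw : G.Adj u w) (hne : w ≠ v) :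
    aeval (D.nod K u w) (D.cut K u v) = 0 := by
  unfold Dat.cut
  by_cases su : D.st u
  · rw [if_pos su]
    refine prod_zero' D K (y := D.dir u w) ?_ ?_
    · intro h1
      have h2 := D.arm_dir su hw
      rw [h1, D.arm_dir su h] at h2
      exact hne h2.symm
    · have h1 : (fun j => D.nod K u w (D.cj u j)) = nu K (D.dir u w) := by
        funext j
        unfold Dat.nod
        rw [if_pos su, sv_cj D K su]
      rw [h1]
      exact Submodule.mem_span_singleton_self _
  · by_cases sv' : D.st v
    · have sw : ¬ D.st w := fun sw => hne (D.far2 w v u sw sv' hw.symm h.symm)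
      have hf : Fre G D.st u w := Or.inl ⟨hw, su, sw⟩
      rw [if_neg su, if_pos sv']
      obtain ⟨y, hy⟩ := exists_ne (D.dir v u)
      refine prod_zero' D K hy ?_
      have h1 : (fun j => D.nod K u w (D.cj v j)) = 0 := by
        funext j
        unfold Dat.nod
        rw [if_neg su, if_neg sw, Pi.single_apply, if_neg (Ne.symm (D.fr_cj u w v j hf sv'))]
        rfl
      rw [h1]
      exact zero_mem _
    · rw [if_neg su, if_neg sv', aeval_X]
      have hf : Fre G D.st u v := Or.inl ⟨h, su, sv'⟩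
      unfold Dat.nod
      rw [if_neg su]
      by_cases sw : D.st w
      · rw [if_pos sw]
        exact sv_ne D K _ fun j => D.fr_cj u v w j hf sw
      · rw [if_neg sw, Pi.single_apply, if_neg]
        intro h1
        have h2 := D.fr_inj u v u w hf (Or.inl ⟨hw, su, sw⟩) h1
        rw [Sym2.eq_iff] at h2
        rcases h2 with h2 | h2
        · exact hne h2.2.symm
        · exact h.ne h2.2.symm

private theorem prod_ne' {s : V} (hs : D.st s) (a : Fin 3) :
    aeval (D.sv K s (nu K a)) (∏ x ∈ Finset.univ.erase a, D.pf K s x) ≠ 0 := by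
  rw [map_prod, Finset.prod_ne_zero_iff]
  intro x hx
  rw [aeval_pf]
  simp only [sv_cj D K hs]
  rw [Ne, pp_nu]
  exact (Finset.mem_erase.1 hx).1

theorem dcut_ne {u v : V} (h : G.Adj u v) : aeval (D.nod K u v) (D.cut K u v) ≠ 0 := by
  unfold Dat.cut Dat.nod
  by_cases su : D.st u
  · rw [if_pos su, if_pos su]
    exact prod_ne' D K su _
  · by_cases sv' : D.st v
    · rw [if_neg su, if_pos sv', if_neg su, if_pos sv']
      exact prod_ne' D K sv' _
    · rw [if_neg su, if_neg sv', if_neg su, if_neg sv', aeval_X, Pi.single_eq_same]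
      exact one_ne_zero

theorem dcard_le {u v : V} (h : G.Adj u v) : (nbs G u).card ≤ D.cdeg u v + 1 := by
  unfold Dat.cdeg
  by_cases su : D.st u
  · rw [if_pos (Or.inl su), card_nbs_star D su]
  · have h1 := card_nbs_le D su
    split_ifs <;> omega

end Pool.Agent.H6.SC
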