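import Pool.Agent.H6.SC.DBump
import Pool.Agent.H6.SC.DCut

/-!
# SC.DCutD : `lin u v * cut u v = (product of the lin u) * g` on all lines

PROOF. Cases. (A) `u` is a star: `lin u v = pf u (dir u v)`, `cut u v` = product of the two other `pf`, so
`lin u v * cut u v = ∏ x, pf u x = ∏ v ∈ nbs G u, lin u v` (reindex by `arm u`); `g = 1`, degree `2 + 1 - 3 = 0`.
(B) `u` is not a star. It is enough to have `g` homogeneous of the right degree with `g (nod u v) ≠ 0` and
`aeval z (lin u v * cut u v) = aeval z (∏ * g)` for `z ∈ L u`, because on the other lines both sides vanish: the right side by `dbump`, the left side by `dcut_L` for `w ≠ u, v` and by `dlin_L` for `w = v`.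
(B1) `u` has one neighbour `v` and the loop: `∏ = lin u v`, `g = cut u v`, degree `cdeg + 1 - 1`.
(B2) `u` has two neighbours `v ≠ v'`: `∏ = lin u v * lin u v'`, `lin u v' = X (ec u v)` (the only neighbour different from `v'` is `v`, `two`).
  - `v` not a star: `cut u v = X (fr u v) = X (ec u v)`, `g = 1`, degree `1 + 1 - 2`.
  - `v` a star, `x = dir v u`: on `L u` the block at `v` is `t • nu x` (`mem_L`, `W {u} v = span {nu x}`), `t = z (ec u v)`, so
    `aeval z (cut u v) = κ t ^ 2` with `κ = ∏ over y ≠ x of pp y · nu x ≠ 0` (`pp_nu`), and `aeval z (lin u v') = t`; take `g = C κ * X (ec u v)`,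
    degree `2 + 1 - 2 = 1`, `g (nod u v) = κ` (`nod_ec`).
-/

set_option autoImplicit false

open MvPolynomial

namespace Pool.Agent.H6.SC

universe u

open scoped Classical

variable {V : Type} [Fintype V] {G : SimpleGraph V} {N : ℕ} (D : Dat G N) (K : Type u) [Field K]

private theorem oc_eq' {u v v' : V} (hu : ¬ D.st u) (hv : G.Adj u v) (hv' : G.Adj u v') (hne : v' ≠ v) :
    D.oc u v = D.ec u v' := by
  have h : ∃ w, G.Adj u w ∧ w ≠ v := ⟨v', hv', hne⟩
  unfold Dat.oc
  rw [dif_pos h]
  congr 1
  obtain ⟨h1, h2⟩ := h.choose_spec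
  rcases D.two u hu v v' h.choose hv hv' h1 with h3 | h3 | h3
  · exact absurd h3.symm hne
  · exact absurd h3.symm h2
  · exact h3.symm

private theorem nu_ec (x : Fin 3) : nu K x (if x = 1 then 1 else 0) = 1 := by
  fin_cases x <;> simp [nu]

/-- on the line of `u` the block at the star `v ~ u` is a multiple of the node -/
private theorem block_L {u v : V} (h : G.Adj u v) (hv : D.st v) {z : Fin N → K} (hz : z ∈ D.L K u) :
    ∀ j, z (D.cj v j) = z (D.ec u v) * nu K (D.dir v u) j := by
  have h1 := ((mem_L D K u z).1 hz).2 v hv
  unfold Dat.W at h1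
  rw [if_neg (by rw [Finset.mem_singleton]; exact h.ne')] at h1
  have h2 : {p | ∃ x, D.arm v x ∈ ({u} : Finset V) ∧ p = nu K x} = {nu K (D.dir v u)} := by
    ext p
    constructor
    · rintro ⟨x, hx, rfl⟩
      rw [Finset.mem_singleton] at hx
      rw [← hx, D.dir_arm hv]
      exact Set.mem_singleton _
    · intro hp
      rw [Set.mem_singleton_iff] at hp
      refine ⟨D.dir v u, ?_, hp⟩
      rw [Finset.mem_singleton]
      exact D.arm_dir hv h.symm
  rw [h2, Submodule.mem_span_singleton] at h1
  obtain ⟨t, ht⟩ := h1
  have h3 : ∀ j, z (D.cj v j) = t * nu K (D.dir v u) j := fun j => (congrFun ht j).symm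
  have h4 : z (D.ec u v) = t := by
    unfold Dat.ec
    rw [if_pos hv, h3, nu_ec, mul_one]
  intro j
  rw [h3, h4]

theorem dcut_div {u v : V} (h : G.Adj u v) : ∃ g : MvPolynomial (Fin N) K,
    g.IsHomogeneous (D.cdeg u v + 1 - (nbs G u).card) ∧ aeval (D.nod K u v) g ≠ 0 ∧
      ∀ w, ∀ z ∈ D.L K w, aeval z (D.lin K u v * D.cut K u v) = aeval z ((∏ v ∈ nbs G u, D.lin K u v) * g) := by
  by_cases hu : D.st u
  · refine ⟨1, ?_, ?_, ?_⟩
    · have h1 : D.cdeg u v = 2 := by unfold Dat.cdeg; rw [if_pos (Or.inl hu)]
      rw [h1, card_nbs_star D hu]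
      exact isHomogeneous_one _ _
    · rw [map_one]
      exact one_ne_zero
    · intro w z _
      have h1 : D.lin K u v * D.cut K u v = ∏ x, D.pf K u x := by
        unfold Dat.lin Dat.cut
        rw [if_pos hu, if_pos hu]
        exact Finset.mul_prod_erase _ _ (Finset.mem_univ _)
      have h2 : nbs G u = Finset.univ.image (D.arm u) := by
        ext x
        rw [mem_nbs, D.adj_arm u hu, Finset.mem_image]
        simp
      have h3 : ∏ v ∈ nbs G u, D.lin K u v = ∏ x, D.pf K u x := by
        rw [h2, Finset.prod_image (fun x _ y _ hxy => D.arm_inj u hu hxy)]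
        refine Finset.prod_congr rfl fun x _ => ?_
        unfold Dat.lin
        rw [if_pos hu, D.dir_arm hu]
      rw [h1, h3, mul_one]
  · suffices hs : ∃ g : MvPolynomial (Fin N) K,
        g.IsHomogeneous (D.cdeg u v + 1 - (nbs G u).card) ∧ aeval (D.nod K u v) g ≠ 0 ∧
        ∀ z ∈ D.L K u, aeval z (D.lin K u v * D.cut K u v) =
          aeval z ((∏ v ∈ nbs G u, D.lin K u v) * g) by
      obtain ⟨g, h1, h2, h3⟩ := hs
      refine ⟨g, h1, h2, fun w z hz => ?_⟩
      by_cases hw : w = u
      · subst hw
        exact h3 z hz
      · rw [map_mul, map_mul, dbump D K hw hz, zero_mul]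
        by_cases hwv : w = v
        · subst hwv
          rw [dlin_L D K h hz, zero_mul]
        · rw [dcut_L D K h hw hwv hz, mul_zero]
    by_cases hall : ∃ v', G.Adj u v' ∧ v' ≠ v
    · obtain ⟨v', hv', hne⟩ := hall
      have hn : nbs G u = {v, v'} := by
        ext x
        rw [mem_nbs, Finset.mem_insert, Finset.mem_singleton]
        constructor
        · intro hx
          rcases D.two u hu v v' x h hv' hx with h3 | h3 | h3
          · exact absurd h3.symm hne
          · exact Or.inl h3.symm
          · exact Or.inr h3.symm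
        · rintro (rfl | rfl)
          · exact h
          · exact hv'
      have hp : ∏ v ∈ nbs G u, D.lin K u v = D.lin K u v * D.lin K u v' := by
        rw [hn, Finset.prod_pair hne.symm]
      have hc : (nbs G u).card = 2 := by
        rw [hn, Finset.card_pair hne.symm]
      have hl : D.lin K u v' = X (D.ec u v) := by
        unfold Dat.lin
        rw [if_neg hu, oc_eq' D hu hv' h hne.symm]
      by_cases hv : D.st v
      · set κ : K := aeval (D.nod K u v) (D.cut K u v) with hκ
        have hκ0 : κ ≠ 0 := dcut_ne D K h
        have hcut : D.cut K u v = ∏ x ∈ Finset.univ.erase (D.dir v u), D.pf K v x := by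
          unfold Dat.cut
          rw [if_neg hu, if_pos hv]
        refine ⟨C κ * X (D.ec u v), ?_, ?_, ?_⟩
        · have h1 : D.cdeg u v = 2 := by unfold Dat.cdeg; rw [if_pos (Or.inr hv)]
          rw [h1, hc]
          have h4 := (isHomogeneous_C (Fin N) κ).mul (isHomogeneous_X K (D.ec u v))
          rwa [zero_add] at h4
        · rw [map_mul, aeval_C, aeval_X, nod_ec D K hu h, mul_one]
          exact hκ0
        · intro z hz
          have hb := block_L D K h hv hz
          have hb' := block_L D K h hv (dnod_mem D K h)
          rw [nod_ec D K hu h] at hb'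
          have h5 : aeval z (D.cut K u v) = z (D.ec u v) ^ 2 * κ := by
            rw [hκ, hcut, map_prod, map_prod]
            have h6 : ∀ x, aeval z (D.pf K v x) = z (D.ec u v) * aeval (D.nod K u v) (D.pf K v x) := by
              intro x
              rw [aeval_pf, aeval_pf, Finset.mul_sum]
              refine Finset.sum_congr rfl fun j _ => ?_
              rw [hb j, hb' j]
              ring
            rw [Finset.prod_congr rfl fun x _ => h6 x, Finset.prod_mul_distrib, Finset.prod_const,
              Finset.card_erase_of_mem (Finset.mem_univ _), Finset.card_univ, Fintype.card_fin]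
          rw [map_mul, map_mul, h5, hp, map_mul, hl, map_mul, aeval_X, aeval_C]
          show aeval z (D.lin K u v) * (z (D.ec u v) ^ 2 * κ) =
            aeval z (D.lin K u v) * z (D.ec u v) * (κ * z (D.ec u v))
          ring
      · refine ⟨1, ?_, ?_, ?_⟩
        · have h1 : D.cdeg u v = 1 := by
            unfold Dat.cdeg
            rw [if_neg (by rintro (h2 | h2); exacts [hu h2, hv h2])]
          rw [h1, hc]
          exact isHomogeneous_one _ _
        · rw [map_one]
          exact one_ne_zero
        · intro z _
          have h1 : D.cut K u v = X (D.ec u v) := by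
            unfold Dat.cut Dat.ec
            rw [if_neg hu, if_neg hv, if_neg hv]
          rw [hp, hl, h1, mul_one]
    · have hn : nbs G u = {v} := by
        ext x
        rw [mem_nbs, Finset.mem_singleton]
        constructor
        · intro hx
          by_contra hne
          exact hall ⟨x, hx, hne⟩
        · rintro rfl
          exact h
      refine ⟨D.cut K u v, ?_, dcut_ne D K h, ?_⟩
      · rw [hn, Finset.card_singleton, Nat.add_sub_cancel]
        exact dcut_hom D K u v
      · intro z _
        rw [hn, Finset.prod_singleton]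

end Pool.Agent.H6.SC
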