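import Pool.Agent.H6.SC.DSup

/-!
# SC.DLin : dimensions and nodes

PROOF. `card_nbs`: for a star `nbs G s = image (arm s) univ` has three elements; a vertex which is not a star has at most two neighbours (`two`).
`nod_symm`: `u`, `v` adjacent are not both stars (`far1`). `nod_mem`: generator of the span. `nod_ne`: `nu x ≠ 0` (`sv_cj`), `Pi.single ≠ 0`.
`nod_ind`: (nodes `nod u v`, `nod u w`, `v ≠ w`) if `u` is a star: `nu x`, `nu y` with `x ≠ y` are not proportional; if `u` is not a star then
at most one of `v`, `w` is a star (`far2`); if none, two different free coordinates (`fr_inj`); if one, use `fr_cj`, `sv_ne`: the supports are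
disjoint. `finrank_L`: star: `L s` is the image of `K²` under the injective linear map `sv s`
(or: span of `sv s (nu 0)`, `sv s (nu 1)`, independent). Not a star: if there are two neighbours `u ≠ w`: `L v = span {nod v u, nod v w}` (no loop since
`Fre v v` would need `u = w`; every neighbour is `u` or `w` by `two`), independent by `nod_ind`. If there is only one neighbour `u`: `L v = span {nod v u, Pi.single (fr v v) 1}`, independent:
`nod v u (fr v v) = 0` (`fr_inj`, `fr_cj`). Use `finrank_span_pair`-type lemmas or `LinearIndependent.pair_iff` with `finrank_span_eq_card`.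
-/

set_option autoImplicit false

open MvPolynomial

namespace Pool.Agent.H6.SC

universe u

open scoped Classical

variable {V : Type} [Fintype V] {G : SimpleGraph V} {N : ℕ} (D : Dat G N) (K : Type u) [Field K]

theorem card_nbs_star {s : V} (hs : D.st s) : (nbs G s).card = 3 := by
  have e : nbs G s = Finset.univ.image (D.arm s) := by
    ext v
    rw [mem_nbs, D.adj_arm s hs v]
    simp
  rw [e, Finset.card_image_of_injective _ (D.arm_inj s hs)]
  simp

theorem card_nbs_le {v : V} (hv : ¬ D.st v) : (nbs G v).card ≤ 2 := by
  by_contra hc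
  push Not at hc
  obtain ⟨a, b, c, ha, hb, hcc, h1, h2, h3⟩ := Finset.two_lt_card_iff.1 hc
  rw [mem_nbs] at ha hb hcc
  rcases D.two v hv a b c ha hb hcc with h | h | h
  · exact h1 h
  · exact h2 h
  · exact h3 h

theorem card_nbs_iff (v : V) : (nbs G v).card = 3 ↔ D.st v := by
  constructor
  · intro h
    by_contra hv
    have := card_nbs_le D hv
    omega
  · intro h
    exact card_nbs_star D h

theorem dnod_symm {u v : V} (h : G.Adj u v) : D.nod K u v = D.nod K v u := by
  unfold Dat.nod
  by_cases hu : D.st u
  · have hv : ¬ D.st v := fun hv => D.far1 u v hu hv h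
    rw [if_pos hu, if_neg hv, if_pos hu]
  · by_cases hv : D.st v
    · rw [if_neg hu, if_pos hv, if_pos hv]
    · rw [if_neg hu, if_neg hv, if_neg hv, if_neg hu, D.fr_symm u v]

theorem dnod_mem {u v : V} (h : G.Adj u v) : D.nod K u v ∈ D.L K u :=
  Submodule.subset_span (Or.inl ⟨v, h, rfl⟩)

private theorem nu_ne (x : Fin 3) : ∃ j, nu K x j ≠ 0 := by
  fin_cases x
  · exact ⟨0, by simp [nu]⟩
  · exact ⟨1, by simp [nu]⟩
  · exact ⟨1, by simp [nu]⟩

private theorem nu_ind {x y : Fin 3} (h : x ≠ y) (a : K) : a • nu K x ≠ nu K y := by
  intro e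
  have e0 := congrFun e 0
  have e1 := congrFun e 1
  revert h e0 e1
  clear e
  fin_cases x <;> fin_cases y <;> simp [nu] <;> intro h1 <;> simp [h1]

/-- for a vertex which is not a star there is a coordinate at which only one node is not zero -/
private theorem nod_coord {u w : V} (hu : ¬ D.st u) (hw : G.Adj u w) :
    ∃ i, D.nod K u w i ≠ 0 ∧ ∀ v, G.Adj u v → v ≠ w → D.nod K u v i = 0 := by
  by_cases hsw : D.st w
  · obtain ⟨j, hj⟩ := nu_ne K (D.dir w u)
    refine ⟨D.cj w j, ?_, ?_⟩
    · unfold Dat.nod
      rw [if_neg hu, if_pos hsw, sv_cj D K hsw]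
      exact hj
    · intro v hv hne
      unfold Dat.nod
      by_cases hsv : D.st v
      · rw [if_neg hu, if_pos hsv]
        apply sv_ne
        intro j' he
        exact hne (D.cj_inj w v j j' hsw hsv he).1.symm
      · rw [if_neg hu, if_neg hsv]
        apply Pi.single_eq_of_ne
        intro he
        exact D.fr_cj u v w j (Or.inl ⟨hv, hu, hsv⟩) hsw he.symm
  · refine ⟨D.fr u w, ?_, ?_⟩
    · unfold Dat.nod
      rw [if_neg hu, if_neg hsw, Pi.single_eq_same]
      exact one_ne_zero
    · intro v hv hne
      unfold Dat.nod
      by_cases hsv : D.st v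
      · rw [if_neg hu, if_pos hsv]
        apply sv_ne
        intro j'
        exact D.fr_cj u w v j' (Or.inl ⟨hw, hu, hsw⟩) hsv
      · rw [if_neg hu, if_neg hsv]
        apply Pi.single_eq_of_ne
        intro he
        have h1 := D.fr_inj u w u v (Or.inl ⟨hw, hu, hsw⟩) (Or.inl ⟨hv, hu, hsv⟩) he
        rw [Sym2.congr_right] at h1
        exact hne h1.symm

private noncomputable def svl (s : V) : (Fin 2 → K) →ₗ[K] (Fin N → K) where
  toFun := D.sv K s
  map_add' p q := by
    unfold Dat.sv
    rw [← Finset.sum_add_distrib]
    refine Finset.sum_congr rfl fun j _ => ?_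
    rw [Pi.add_apply, add_smul]
  map_smul' a p := by
    unfold Dat.sv
    rw [RingHom.id_apply, Finset.smul_sum]
    refine Finset.sum_congr rfl fun j _ => ?_
    rw [Pi.smul_apply, smul_assoc]

private theorem svl_apply (s : V) (p : Fin 2 → K) : svl D K s p = D.sv K s p := rfl

private theorem svl_inj {s : V} (hs : D.st s) : Function.Injective (svl D K s) := by
  intro p q h
  rw [svl_apply, svl_apply] at h
  ext j
  rw [← sv_cj D K hs p j, h, sv_cj D K hs q j]

theorem dnod_ne {u v : V} (h : G.Adj u v) : D.nod K u v ≠ 0 := by
  by_cases hu : D.st u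
  · intro h0
    unfold Dat.nod at h0
    rw [if_pos hu] at h0
    obtain ⟨j, hj⟩ := nu_ne K (D.dir u v)
    apply hj
    rw [← sv_cj D K hu (nu K (D.dir u v)) j, h0, Pi.zero_apply]
  · intro h0
    obtain ⟨i, hi, _⟩ := nod_coord D K hu h
    apply hi
    rw [h0, Pi.zero_apply]

theorem dnod_ind {u v w : V} (hv : G.Adj u v) (hw : G.Adj u w) (hne : v ≠ w) :
    D.nod K u w ∉ Submodule.span K {D.nod K u v} := by
  intro hmem
  obtain ⟨a, ha⟩ := Submodule.mem_span_singleton.1 hmem
  by_cases hu : D.st u
  · unfold Dat.nod at ha
    rw [if_pos hu, if_pos hu, ← svl_apply, ← svl_apply, ← map_smul] at ha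
    have h1 := svl_inj D K hu ha
    refine nu_ind K ?_ a h1
    intro he
    apply hne
    rw [← D.arm_dir hu hv, he, D.arm_dir hu hw]
  · obtain ⟨i, hi, h2⟩ := nod_coord D K hu hw
    apply hi
    rw [← ha, Pi.smul_apply, h2 v hv hne, smul_zero]

private theorem finrank_pair {E : Type u} [AddCommGroup E] [Module K E] {x y : E} (hx : x ≠ 0)
    (h : y ∉ Submodule.span K {x}) : Module.finrank K (Submodule.span K {x, y} : Submodule K E) = 2 := by
  have h1 : LinearIndependent K ![x, y] := by
    rw [LinearIndependent.pair_iff' hx]
    intro a ha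
    apply h
    rw [← ha]
    exact Submodule.smul_mem _ _ (Submodule.mem_span_singleton_self x)
  have h2 := finrank_span_eq_card h1
  have h3 : Set.range ![x, y] = {x, y} := by
    simp [Matrix.range_cons, Set.pair_comm]
  rw [h3] at h2
  simpa using h2

theorem finrank_L (v : V) : Module.finrank K (D.L K v) = 2 := by
  by_cases hv : D.st v
  · have e : D.L K v = LinearMap.range (svl D K v) := by
      apply le_antisymm
      · unfold Dat.L
        rw [Submodule.span_le]
        rintro z (⟨u, hu, rfl⟩ | ⟨hF, rfl⟩)
        · refine ⟨nu K (D.dir v u), ?_⟩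
          unfold Dat.nod
          rw [if_pos hv, svl_apply]
        · exfalso
          rcases hF with ⟨_, h1, _⟩ | ⟨_, h1, _⟩
          · exact h1 hv
          · exact h1 hv
      · rintro z ⟨p, rfl⟩
        have hx : ∀ x, svl D K v (nu K x) ∈ D.L K v := by
          intro x
          have h1 : svl D K v (nu K x) = D.nod K v (D.arm v x) := by
            unfold Dat.nod
            rw [if_pos hv, svl_apply, D.dir_arm hv]
          rw [h1]
          exact dnod_mem D K (D.adj_arm' hv x)
        have hp : p = p 0 • nu K 0 + p 1 • nu K 1 := by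
          ext j
          fin_cases j
          · simp [nu]
          · simp [nu]
        rw [hp, map_add, map_smul, map_smul]
        exact Submodule.add_mem _ (Submodule.smul_mem _ _ (hx 0)) (Submodule.smul_mem _ _ (hx 1))
    rw [e, LinearMap.finrank_range_of_inj (svl_inj D K hv)]
    simp
  · obtain ⟨u, hu⟩ := D.ex v
    by_cases hw : ∃ w, G.Adj v w ∧ w ≠ u
    · obtain ⟨w, hw, hne⟩ := hw
      have e : D.L K v = Submodule.span K {D.nod K v u, D.nod K v w} := by
        apply le_antisymm
        · unfold Dat.L
          rw [Submodule.span_le]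
          rintro z (⟨x, hx, rfl⟩ | ⟨hF, rfl⟩)
          · rcases D.two v hv u w x hu hw hx with h | h | h
            · exact absurd h.symm hne
            · subst h
              exact Submodule.subset_span (by simp)
            · subst h
              exact Submodule.subset_span (by simp)
          · exfalso
            rcases hF with ⟨h1, _⟩ | ⟨_, _, h1⟩
            · exact G.loopless.irrefl v h1
            · exact hne (h1 w u hw hu)
        · rw [Submodule.span_le]
          rintro z (rfl | rfl)
          · exact dnod_mem D K hu
          · exact dnod_mem D K hw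
      rw [e]
      exact finrank_pair K (dnod_ne D K hu) (dnod_ind D K hu hw hne.symm)
    · push Not at hw
      have hF : Fre G D.st v v := by
        refine Or.inr ⟨rfl, hv, ?_⟩
        intro w x h1 h2
        rw [hw w h1, hw x h2]
      have e : D.L K v = Submodule.span K {D.nod K v u, Pi.single (D.fr v v) 1} := by
        apply le_antisymm
        · unfold Dat.L
          rw [Submodule.span_le]
          rintro z (⟨x, hx, rfl⟩ | ⟨_, rfl⟩)
          · rw [hw x hx]
            exact Submodule.subset_span (by simp)
          · exact Submodule.subset_span (by simp)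
        · rw [Submodule.span_le]
          rintro z (rfl | rfl)
          · exact dnod_mem D K hu
          · exact Submodule.subset_span (Or.inr ⟨hF, rfl⟩)
      rw [e]
      refine finrank_pair K (dnod_ne D K hu) ?_
      intro hmem
      obtain ⟨a, ha⟩ := Submodule.mem_span_singleton.1 hmem
      have h1 : D.nod K v u (D.fr v v) = 0 := by
        unfold Dat.nod
        by_cases hsu : D.st u
        · rw [if_neg hv, if_pos hsu]
          apply sv_ne
          intro j
          exact D.fr_cj v v u j hF hsu
        · rw [if_neg hv, if_neg hsu]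
          apply Pi.single_eq_of_ne
          intro he
          have h2 := D.fr_inj v v v u hF (Or.inl ⟨hu, hv, hsu⟩) he
          rw [Sym2.congr_right] at h2
          subst h2
          exact G.loopless.irrefl v hu
      have h2 := congrFun ha (D.fr v v)
      rw [Pi.smul_apply, h1, smul_zero, Pi.single_eq_same] at h2
      exact zero_ne_one h2

end Pool.Agent.H6.SC
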