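import Pool.Agent.H6.SC.Dat

/-!
# SC.DSup : coordinates of the sum of lines

PROOF of `mem_spn`. `sv_apply`: `(sv s p) (cj s j) = p j`, and `(sv s p) i = 0` if `i` is not a coordinate of `s` (`cj_inj`).
(→) The right-hand side is closed under addition and multiplication by scalars (in the first condition the sum of two vectors is nonzero at `i` only if
one of them is), so it is enough to check the generators of `L v`, `v ∈ A` (`iSup₂_le`, `Submodule.span_le` for the submodule defined by
the right-hand side). If `v` is a star the generators are `sv v (nu _)` (there is no loop: `Fre` needs `¬ st v`): the block at `v` is in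
`W A v = ⊤`, all other blocks are `0`. If `v` is not a star and `u` is a star: `sv u (nu x)`, `x = dir u v`, `arm u x = v ∈ A`: the block at `u` is
`nu x ∈ W A u`. If neither is a star: `Pi.single (fr v u) 1`, `Fre v u`, all blocks are zero (`fr_cj`). The loop vector: the same.
(←) `z = ∑ over the free coordinates i (z i ≠ 0) of z i • Pi.single i 1 + ∑ over the stars s of sv s (block of z at s)` (compare
coordinates: `cj_inj`, `fr_cj`). A free coordinate `i = fr u v` with `u ∈ A`, `Fre u v`: if `u ~ v` then `Pi.single i 1 = nod u v ∈ L u`; if `u = v` it is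
the loop vector. (For `v ∈ A` use `fr_symm`.) A block `p ∈ W A s`: if `s ∈ A` then `p = p 0 • nu 0 + p 1 • nu 1` and `sv s (nu x) = nod s (arm s x) ∈ L s`
(`dir_arm`); if `s ∉ A`, `p` is a combination of `nu x` with `arm s x ∈ A` and `sv s (nu x) = nod (arm s x) s ∈ L (arm s x)` (`arm s x` is
not a star, `far1`); `sv s` is linear (`Submodule.span_induction`).
-/

set_option autoImplicit false

open MvPolynomial

namespace Pool.Agent.H6.SC

universe u

open scoped Classical

variable {V : Type} [Fintype V] {G : SimpleGraph V} {N : ℕ} (D : Dat G N) (K : Type u) [Field K]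

omit [Fintype V] in
private theorem sv_apply' {V : Type} [Fintype V] {G : SimpleGraph V} {N : ℕ} (D : Dat G N) (s : V)
    (p : Fin 2 → K) (i : Fin N) :
    D.sv K s p i = ∑ j, if i = D.cj s j then p j else 0 := by
  unfold Dat.sv
  rw [Finset.sum_apply]
  refine Finset.sum_congr rfl fun j _ => ?_
  rw [Pi.smul_apply, Pi.single_apply, smul_eq_mul]
  split_ifs <;> simp

theorem sv_cj {s : V} (hs : D.st s) (p : Fin 2 → K) (j : Fin 2) : D.sv K s p (D.cj s j) = p j := by
  rw [sv_apply', Finset.sum_eq_single j]
  · rw [if_pos rfl]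
  · intro j' _ hne
    rw [if_neg]
    intro h
    exact hne (D.cj_inj s s j j' hs hs h).2.symm
  · intro h
    exact absurd (Finset.mem_univ j) h

theorem sv_ne {s : V} (p : Fin 2 → K) {i : Fin N} (hi : ∀ j, i ≠ D.cj s j) : D.sv K s p i = 0 := by
  rw [sv_apply']
  exact Finset.sum_eq_zero fun j _ => if_neg (hi j)

private theorem sv_add (s : V) (p q : Fin 2 → K) : D.sv K s (p + q) = D.sv K s p + D.sv K s q := by
  unfold Dat.sv
  rw [← Finset.sum_add_distrib]
  exact Finset.sum_congr rfl fun j _ => by rw [Pi.add_apply, add_smul]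

private theorem sv_smul (s : V) (c : K) (p : Fin 2 → K) : D.sv K s (c • p) = c • D.sv K s p := by
  unfold Dat.sv
  rw [Finset.smul_sum]
  exact Finset.sum_congr rfl fun j _ => by rw [Pi.smul_apply, smul_assoc]

private theorem sv_zero (s : V) : D.sv K s 0 = 0 := by
  unfold Dat.sv
  exact Finset.sum_eq_zero fun j _ => by rw [Pi.zero_apply, zero_smul]

private theorem le_spn {L : V → Submodule K (Fin N → K)} {A : Finset V} {v : V} (hv : v ∈ A) :
    L v ≤ spn L A := le_iSup₂_of_le v hv (le_refl _)

private theorem nod_mem {v u : V} (h : G.Adj v u) : D.nod K v u ∈ D.L K v :=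
  Submodule.subset_span (Or.inl ⟨u, h, rfl⟩)

private theorem single_mem {u v : V} (h : Fre G D.st u v) :
    (Pi.single (D.fr u v) 1 : Fin N → K) ∈ D.L K u := by
  rcases h with ⟨h1, h2, h3⟩ | ⟨h1, h2, h3⟩
  · have h4 : D.nod K u v = Pi.single (D.fr u v) 1 := by
      unfold Dat.nod
      rw [if_neg h2, if_neg h3]
    rw [← h4]
    exact nod_mem D K h1
  · subst h1
    exact Submodule.subset_span (Or.inr ⟨Or.inr ⟨rfl, h2, h3⟩, rfl⟩)

private theorem fre_symm {u v : V} (h : Fre G D.st u v) : Fre G D.st v u := by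
  rcases h with ⟨h3, h4, h5⟩ | ⟨h3, h4, h5⟩
  · exact Or.inl ⟨h3.symm, h5, h4⟩
  · subst h3
    exact Or.inr ⟨rfl, h4, h5⟩

/-- the right-hand side as a submodule -/
private def rhs (A : Finset V) : Submodule K (Fin N → K) where
  carrier := {z | (∀ i, z i ≠ 0 → (∃ s j, D.st s ∧ i = D.cj s j) ∨
      ∃ u v, Fre G D.st u v ∧ (u ∈ A ∨ v ∈ A) ∧ i = D.fr u v) ∧
        ∀ s, D.st s → (fun j => z (D.cj s j)) ∈ D.W K A s}
  add_mem' := by
    rintro x y ⟨h1, h2⟩ ⟨h3, h4⟩
    refine ⟨fun i hi => ?_, fun s hs => ?_⟩
    · by_cases hx : x i = 0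
      · apply h3
        intro hy
        apply hi
        rw [Pi.add_apply, hx, hy, add_zero]
      · exact h1 i hx
    · exact Submodule.add_mem _ (h2 s hs) (h4 s hs)
  zero_mem' := ⟨fun i hi => absurd rfl hi, fun s _ => Submodule.zero_mem _⟩
  smul_mem' := by
    rintro c x ⟨h1, h2⟩
    refine ⟨fun i hi => ?_, fun s hs => ?_⟩
    · apply h1
      intro hx
      apply hi
      rw [Pi.smul_apply, hx, smul_zero]
    · exact Submodule.smul_mem _ c (h2 s hs)

private theorem sv_mem_rhs {A : Finset V} {t : V} (ht : D.st t) {p : Fin 2 → K}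
    (hp : p ∈ D.W K A t) : D.sv K t p ∈ rhs D K A := by
  refine ⟨fun i hi => ?_, fun s hs => ?_⟩
  · left
    by_contra hcon
    push Not at hcon
    exact hi (sv_ne D K p fun j => hcon t j ht)
  · by_cases hst : s = t
    · subst hst
      have h1 : (fun j => D.sv K s p (D.cj s j)) = p := by
        funext j
        exact sv_cj D K hs p j
      rw [h1]
      exact hp
    · have h1 : (fun j => D.sv K t p (D.cj s j)) = 0 := by
        funext j
        exact sv_ne D K p fun j' h => hst (D.cj_inj s t j j' hs ht h).1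
      rw [h1]
      exact Submodule.zero_mem _

private theorem single_mem_rhs {A : Finset V} {u v : V} (h : Fre G D.st u v) (hA : u ∈ A ∨ v ∈ A) :
    (Pi.single (D.fr u v) 1 : Fin N → K) ∈ rhs D K A := by
  refine ⟨fun i hi => ?_, fun s hs => ?_⟩
  · right
    refine ⟨u, v, h, hA, ?_⟩
    by_contra hne
    apply hi
    rw [Pi.single_apply, if_neg hne]
  · have h1 : (fun j => (Pi.single (D.fr u v) 1 : Fin N → K) (D.cj s j)) = 0 := by
      funext j
      rw [Pi.single_apply, if_neg (D.fr_cj u v s j h hs).symm]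
      rfl
    rw [h1]
    exact Submodule.zero_mem _

private theorem le_rhs (A : Finset V) : spn (D.L K) A ≤ rhs D K A := by
  unfold spn
  refine iSup₂_le fun v hv => ?_
  unfold Dat.L
  rw [Submodule.span_le]
  rintro z (⟨u, hu, rfl⟩ | ⟨hf, rfl⟩)
  · unfold Dat.nod
    split_ifs with h1 h2
    · refine sv_mem_rhs D K h1 ?_
      unfold Dat.W
      rw [if_pos hv]
      exact Submodule.mem_top
    · refine sv_mem_rhs D K h2 ?_
      unfold Dat.W
      split_ifs
      · exact Submodule.mem_top
      · refine Submodule.subset_span ⟨D.dir u v, ?_, rfl⟩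
        rw [D.arm_dir h2 hu.symm]
        exact hv
    · exact single_mem_rhs D K (Or.inl ⟨hu, h1, h2⟩) (Or.inl hv)
  · exact single_mem_rhs D K hf (Or.inl hv)

private theorem sv_mem_spn {A : Finset V} {s : V} (hs : D.st s) {p : Fin 2 → K}
    (hp : p ∈ D.W K A s) : D.sv K s p ∈ spn (D.L K) A := by
  unfold Dat.W at hp
  split_ifs at hp with h1
  · have h2 : ∀ x, D.sv K s (nu K x) ∈ D.L K s := by
      intro x
      have h3 : D.nod K s (D.arm s x) = D.sv K s (nu K x) := by
        unfold Dat.nod
        rw [if_pos hs, D.dir_arm hs]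
      rw [← h3]
      exact nod_mem D K (D.adj_arm' hs x)
    have h3 : p = p 0 • nu K 0 + p 1 • nu K 1 := by
      funext j
      fin_cases j <;> simp [nu]
    rw [h3, sv_add, sv_smul, sv_smul]
    exact le_spn K h1 (Submodule.add_mem _ (Submodule.smul_mem _ _ (h2 0))
      (Submodule.smul_mem _ _ (h2 1)))
  · induction hp using Submodule.span_induction with
    | mem x hx =>
      obtain ⟨x, hx1, rfl⟩ := hx
      have h4 : ¬ D.st (D.arm s x) := fun h5 => D.far1 s _ hs h5 (D.adj_arm' hs x)
      have h3 : D.nod K (D.arm s x) s = D.sv K s (nu K x) := by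
        unfold Dat.nod
        rw [if_neg h4, if_pos hs, D.dir_arm hs]
      rw [← h3]
      exact le_spn K hx1 (nod_mem D K (D.adj_arm' hs x).symm)
    | zero =>
      rw [sv_zero]
      exact Submodule.zero_mem _
    | add x y _ _ hx hy =>
      rw [sv_add]
      exact Submodule.add_mem _ hx hy
    | smul c x _ hx =>
      rw [sv_smul]
      exact Submodule.smul_mem _ _ hx

theorem mem_spn (A : Finset V) (z : Fin N → K) :
    z ∈ spn (D.L K) A ↔
      (∀ i, z i ≠ 0 → (∃ s j, D.st s ∧ i = D.cj s j) ∨ ∃ u v, Fre G D.st u v ∧ (u ∈ A ∨ v ∈ A) ∧ i = D.fr u v) ∧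
        ∀ s, D.st s → (fun j => z (D.cj s j)) ∈ D.W K A s := by
  constructor
  · intro h
    exact le_rhs D K A h
  · rintro ⟨h1, h2⟩
    set S : Finset V := Finset.univ.filter D.st with hS
    set y : Fin N → K := ∑ s ∈ S, D.sv K s (fun j => z (D.cj s j)) with hy
    have hym : y ∈ spn (D.L K) A := by
      refine Submodule.sum_mem _ fun s hs => ?_
      have hs' : D.st s := (Finset.mem_filter.1 hs).2
      exact sv_mem_spn D K hs' (h2 s hs')
    have hy1 : ∀ t j, D.st t → y (D.cj t j) = z (D.cj t j) := by
      intro t j ht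
      rw [hy, Finset.sum_apply, Finset.sum_eq_single t]
      · exact sv_cj D K ht _ j
      · intro s hs hne
        have hs' : D.st s := (Finset.mem_filter.1 hs).2
        exact sv_ne D K _ fun j' h => hne (D.cj_inj t s j j' ht hs' h).1.symm
      · intro h
        exact absurd (Finset.mem_filter.2 ⟨Finset.mem_univ t, ht⟩) h
    have hy2 : ∀ i, (∀ t j, D.st t → i ≠ D.cj t j) → y i = 0 := by
      intro i hi
      rw [hy, Finset.sum_apply]
      refine Finset.sum_eq_zero fun s hs => ?_
      have hs' : D.st s := (Finset.mem_filter.1 hs).2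
      exact sv_ne D K _ fun j => hi s j hs'
    have hzm : z - y ∈ spn (D.L K) A := by
      rw [← Finset.univ_sum_single (z - y)]
      refine Submodule.sum_mem _ fun i _ => ?_
      by_cases h0 : (z - y) i = 0
      · rw [h0, Pi.single_zero]
        exact Submodule.zero_mem _
      · have h3 : ¬ ∃ s j, D.st s ∧ i = D.cj s j := by
          rintro ⟨s, j, hs, rfl⟩
          apply h0
          rw [Pi.sub_apply, hy1 s j hs, sub_self]
        have h4 : y i = 0 := hy2 i fun t j ht h => h3 ⟨t, j, ht, h⟩
        have h5 : z i ≠ 0 := by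
          intro h6
          apply h0
          rw [Pi.sub_apply, h6, h4, sub_zero]
        rcases h1 i h5 with h6 | ⟨u, v, hf, hA, rfl⟩
        · exact absurd h6 h3
        · have h7 : (Pi.single (D.fr u v) ((z - y) (D.fr u v)) : Fin N → K) =
              (z - y) (D.fr u v) • Pi.single (D.fr u v) 1 := by
            rw [← Pi.single_smul, smul_eq_mul, mul_one]
          rw [h7]
          refine Submodule.smul_mem _ _ ?_
          rcases hA with hA | hA
          · exact le_spn K hA (single_mem D K hf)
          · rw [D.fr_symm]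
            exact le_spn K hA (single_mem D K (fre_symm D hf))
    have h8 : z = (z - y) + y := by rw [sub_add_cancel]
    rw [h8]
    exact Submodule.add_mem _ hzm hym

/-- one line -/
theorem mem_L (v : V) (z : Fin N → K) :
    z ∈ D.L K v ↔
      (∀ i, z i ≠ 0 → (∃ s j, D.st s ∧ i = D.cj s j) ∨ ∃ u, Fre G D.st v u ∧ i = D.fr v u) ∧
        ∀ s, D.st s → (fun j => z (D.cj s j)) ∈ D.W K {v} s := by
  have h : D.L K v = spn (D.L K) {v} := by
    unfold spn
    simp
  rw [h, mem_spn]
  refine and_congr_left fun _ => forall_congr' fun i => imp_congr_right fun _ => or_congr_right ?_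
  constructor
  · rintro ⟨u, w, hf, h1 | h1, h2⟩
    · rw [Finset.mem_singleton] at h1
      subst h1
      exact ⟨w, hf, h2⟩
    · rw [Finset.mem_singleton] at h1
      subst h1
      refine ⟨u, ?_, by rw [h2, D.fr_symm]⟩
      rcases hf with ⟨h3, h4, h5⟩ | ⟨h3, h4, h5⟩
      · exact Or.inl ⟨h3.symm, h5, h4⟩
      · subst h3
        exact Or.inr ⟨rfl, h4, h5⟩
  · rintro ⟨u, hf, h2⟩
    exact ⟨v, u, hf, Or.inl (Finset.mem_singleton_self v), h2⟩

end Pool.Agent.H6.SC
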