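import Pool.Agent.H6.SC.Defs

/-!
# SC.Dat : combinatorial data of a labelled graph

`Dat G N` : `st` the vertices of degree three (stars); `cj s 0`, `cj s 1` the two coordinates of the star `s`; `arm s x`
(`x = 0, 1, 2`) its neighbours; `fr u v` the coordinate of the edge `{u, v}` when it is free (no end is a star), `fr v v` the coordinate of
the loop at a vertex of degree one. `nu x` = `(1, 0)`, `(0, 1)`, `(1, 1)` the node in direction `x`, `pp x` the coefficients of the linear form
that vanishes at `nu x`. `D.L K v` the line of the vertex `v` = span of its nodes (and of the loop vector for a vertex of degree one).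
-/

set_option autoImplicit false

open MvPolynomial

namespace Pool.Agent.H6.SC

universe u

open scoped Classical

/-- the edge or loop `{u, v}` is free -/
def Fre {V : Type} (G : SimpleGraph V) (st : V → Prop) (u v : V) : Prop :=
  (G.Adj u v ∧ ¬ st u ∧ ¬ st v) ∨ (u = v ∧ ¬ st v ∧ ∀ w x, G.Adj v w → G.Adj v x → w = x)

structure Dat {V : Type} [Fintype V] (G : SimpleGraph V) (N : ℕ) where
  st : V → Prop
  cj : V → Fin 2 → Fin N
  arm : V → Fin 3 → V
  fr : V → V → Fin N
  adj_arm : ∀ s, st s → ∀ v, G.Adj s v ↔ ∃ x, arm s x = v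
  arm_inj : ∀ s, st s → Function.Injective (arm s)
  far1 : ∀ s t, st s → st t → ¬ G.Adj s t
  far2 : ∀ s t v, st s → st t → G.Adj s v → G.Adj t v → s = t
  tri : ∀ u v w, G.Adj u v → G.Adj v w → ¬ G.Adj u w
  ex : ∀ v, ∃ u, G.Adj v u
  two : ∀ v, ¬ st v → ∀ u w x, G.Adj v u → G.Adj v w → G.Adj v x → u = w ∨ u = x ∨ w = x
  cj_inj : ∀ s t i j, st s → st t → cj s i = cj t j → s = t ∧ i = j
  fr_symm : ∀ u v, fr u v = fr v u
  fr_inj : ∀ u v u' v', Fre G st u v → Fre G st u' v' → fr u v = fr u' v' → s(u, v) = s(u', v')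
  fr_cj : ∀ u v s i, Fre G st u v → st s → fr u v ≠ cj s i

/-- the three nodes of a star -/
def nu (K : Type u) [Field K] (x : Fin 3) : Fin 2 → K :=
  if x = 0 then ![1, 0] else if x = 1 then ![0, 1] else ![1, 1]

/-- the coefficients of the linear form that vanishes at `nu x` -/
def pp (K : Type u) [Field K] (x : Fin 3) : Fin 2 → K :=
  if x = 0 then ![0, 1] else if x = 1 then ![1, 0] else ![1, -1]

section

variable {V : Type} [Fintype V] {G : SimpleGraph V} {N : ℕ} (D : Dat G N) (K : Type u) [Field K]

/-- a vector supported on the two coordinates of the star `s` -/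
noncomputable def Dat.sv (s : V) (p : Fin 2 → K) : Fin N → K := ∑ j, p j • Pi.single (D.cj s j) 1

/-- the direction of the neighbour `v` of the star `s` -/
noncomputable def Dat.dir (s v : V) : Fin 3 := if h : ∃ x, D.arm s x = v then h.choose else 0

/-- the node of the edge `{u, v}` -/
noncomputable def Dat.nod (u v : V) : Fin N → K :=
  if D.st u then D.sv K u (nu K (D.dir u v)) else if D.st v then D.sv K v (nu K (D.dir v u))
    else Pi.single (D.fr u v) 1

/-- the line of the vertex `v` -/
noncomputable def Dat.L (v : V) : Submodule K (Fin N → K) :=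
  Submodule.span K ({z | ∃ u, G.Adj v u ∧ z = D.nod K v u} ∪ {z | Fre G D.st v v ∧ z = Pi.single (D.fr v v) 1})

/-- the block of `spn D.L A` at the star `s` -/
noncomputable def Dat.W (A : Finset V) (s : V) : Submodule K (Fin 2 → K) :=
  if s ∈ A then ⊤ else Submodule.span K {p | ∃ x, D.arm s x ∈ A ∧ p = nu K x}

/-- the linear form at the star `s` that vanishes at `nu x` -/
noncomputable def Dat.pf (s : V) (x : Fin 3) : MvPolynomial (Fin N) K := ∑ j, C (pp K x j) * X (D.cj s j)

/-- a coordinate that is `1` at the node `nod v w` of a vertex `v` which is not a star -/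
noncomputable def Dat.ec (v w : V) : Fin N :=
  if D.st w then D.cj w (if D.dir w v = 1 then 1 else 0) else D.fr v w

/-- the coordinate of the other end of `v` (not towards `u`), `v` not a star -/
noncomputable def Dat.oc (v u : V) : Fin N :=
  if h : ∃ w, G.Adj v w ∧ w ≠ u then D.ec v h.choose else D.fr v v

/-- the linear form at `v` that vanishes at the node `nod v u` -/
noncomputable def Dat.lin (v u : V) : MvPolynomial (Fin N) K :=
  if D.st v then D.pf K v (D.dir v u) else X (D.oc v u)

/-- the cutting form of the edge `{u, v}` -/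
noncomputable def Dat.cut (u v : V) : MvPolynomial (Fin N) K :=
  if D.st u then ∏ x ∈ Finset.univ.erase (D.dir u v), D.pf K u x
    else if D.st v then ∏ x ∈ Finset.univ.erase (D.dir v u), D.pf K v x else X (D.fr u v)

/-- the degree of the cutting form -/
noncomputable def Dat.cdeg (u v : V) : ℕ := if D.st u ∨ D.st v then 2 else 1

theorem Dat.arm_dir {s v : V} (hs : D.st s) (h : G.Adj s v) : D.arm s (D.dir s v) = v := by
  have h1 : ∃ x, D.arm s x = v := (D.adj_arm s hs v).1 h
  unfold Dat.dir
  rw [dif_pos h1]
  exact h1.choose_spec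

theorem Dat.dir_arm {s : V} (hs : D.st s) (x : Fin 3) : D.dir s (D.arm s x) = x :=
  D.arm_inj s hs (D.arm_dir hs ((D.adj_arm s hs _).2 ⟨x, rfl⟩))

theorem Dat.adj_arm' {s : V} (hs : D.st s) (x : Fin 3) : G.Adj s (D.arm s x) :=
  (D.adj_arm s hs _).2 ⟨x, rfl⟩

end

end Pool.Agent.H6.SC
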