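import Pool.Agent.H6.SC.Compat

/-!
# SC.DatLab : labelled graphs from data

PROOF. `isAdmissible_of`: `triangle_free` from `tri` (`SimpleGraph.is3Clique_iff`); `degree_le`: the neighbours of a star are the three arms, a vertex which is not a star has at most two neighbours (`two`);
`three_le_length` for all paths between different stars: length `1` is `far1`, length `2` is `far2`.
`isLabelling_of`: `trivalent` with `a, b, c = arm s 0, arm s 1, arm s 2`, `j, k = cj s 0, cj s 1` (`cj_inj`); `other`: an edge of `extEdges` without star is free: `Fre u v` (for the loop at `v` of degree one: all neighbours are equal), `lf`;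
`unused`: the indices of a free edge: `{fr u v}`; of a star edge at `s`: coordinates of `s`. Two different edges with a common index: both free is impossible (`fr_inj`), one free and one star edge is impossible (`fr_cj`), two star edges at `s` and `t`: `s = t`
(`cj_inj`), the common vertex `s`.
-/

set_option autoImplicit false

open MvPolynomial Pool.Agent.H74.Secant

namespace Pool.Agent.H6.SC

variable {V : Type} [Fintype V] {G : SimpleGraph V} [DecidableRel G.Adj] {N : ℕ} (D : Dat G N)

private theorem deg_le_two {v : V} (h : ¬ D.st v) : G.degree v ≤ 2 := by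
  by_contra hcon
  rw [not_le, ← SimpleGraph.card_neighborFinset_eq_degree, Finset.two_lt_card] at hcon
  obtain ⟨a, ha, b, hb, c, hc, hab, hac, hbc⟩ := hcon
  rw [SimpleGraph.mem_neighborFinset] at ha hb hc
  rcases D.two v h a b c ha hb hc with h1 | h1 | h1
  · exact hab h1
  · exact hac h1
  · exact hbc h1

private theorem walk_short (hst : ∀ v, D.st v ↔ G.degree v = 3) {u v : V} (huv : u ≠ v)
    (hu : G.degree u = 3) (hv : G.degree v = 3) (p : G.Walk u v) : 3 ≤ p.length := by
  have hu' := (hst u).2 hu
  have hv' := (hst v).2 hv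
  match p with
  | .nil => exact absurd rfl huv
  | .cons h .nil => exact absurd h (D.far1 u v hu' hv')
  | .cons (v := w) h (.cons h' .nil) => exact absurd (D.far2 u v w hu' hv' h h'.symm) huv
  | .cons h (.cons h' (.cons h'' q)) =>
    simp only [SimpleGraph.Walk.length_cons]
    omega

theorem isAdmissible_of (hst : ∀ v, D.st v ↔ G.degree v = 3) (hconn : G.Connected) (hex : ∃ v, ¬ D.st v) :
    IsAdmissible G where
  connected := hconn
  triangle_free := by
    classical
    intro s hs
    rw [SimpleGraph.is3Clique_iff] at hs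
    obtain ⟨a, b, c, hab, hac, hbc, -⟩ := hs
    exact D.tri a b c hab hbc hac
  degree_le := by
    intro v
    by_cases h : D.st v
    · exact ((hst v).1 h).le
    · exact (deg_le_two D h).trans (by norm_num)
  exists_degree_lt := by
    obtain ⟨v, hv⟩ := hex
    exact ⟨v, lt_of_le_of_lt (deg_le_two D hv) (by norm_num)⟩
  three_le_length := fun u v huv hu hv p _ => walk_short D hst huv hu hv p

private theorem fre_of_adj {u v : V} {lab : Sym2 V → Label N} (hc : Compat D lab) (h : G.Adj u v)
    (hu : G.degree u ≠ 3) (hv : G.degree v ≠ 3) : Fre G D.st u v :=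
  Or.inl ⟨h, fun h1 => hu ((hc.st_iff u).1 h1), fun h1 => hv ((hc.st_iff v).1 h1)⟩

private theorem fre_of_loop {v : V} {lab : Sym2 V → Label N} (hc : Compat D lab)
    (hv : G.degree v = 1) : Fre G D.st v v := by
  refine Or.inr ⟨rfl, fun h1 => ?_, fun w x hw hx => ?_⟩
  · have := (hc.st_iff v).1 h1
    omega
  · rw [← SimpleGraph.card_neighborFinset_eq_degree] at hv
    exact Finset.card_le_one.1 hv.le w ((SimpleGraph.mem_neighborFinset _ _ _).2 hw) x
      ((SimpleGraph.mem_neighborFinset _ _ _).2 hx)

private theorem free_case {lab : Sym2 V → Label N} (hc : Compat D lab) {e : Sym2 V}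
    (he : e ∈ extEdges G) (hn : ∀ v ∈ e, G.degree v ≠ 3) :
    ∃ u v, e = s(u, v) ∧ Fre G D.st u v := by
  rcases he with he | ⟨v, hv, rfl⟩
  · induction e using Sym2.ind with
    | _ u v =>
      rw [SimpleGraph.mem_edgeSet] at he
      exact ⟨u, v, rfl, fre_of_adj D hc he (hn u (Sym2.mem_mk_left u v)) (hn v (Sym2.mem_mk_right u v))⟩
  · exact ⟨v, v, rfl, fre_of_loop D hc hv⟩

private theorem star_case {lab : Sym2 V → Label N} (hc : Compat D lab) {e : Sym2 V}
    (he : e ∈ extEdges G) {s : V} (hs : s ∈ e) (h3 : G.degree s = 3) :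
    ∀ i ∈ (lab e).indices, ∃ j, i = D.cj s j := by
  have hst := (hc.st_iff s).2 h3
  rcases he with he | ⟨v, hv, rfl⟩
  · obtain ⟨w, rfl⟩ := Sym2.mem_iff_exists.1 hs
    rw [SimpleGraph.mem_edgeSet] at he
    obtain ⟨x, rfl⟩ := (D.adj_arm s hst w).1 he
    intro i hi
    have hx : x = 0 ∨ x = 1 ∨ x = 2 := by
      fin_cases x <;> simp
    rcases hx with rfl | rfl | rfl
    · rw [hc.l0 s hst] at hi
      exact ⟨0, by simpa [Label.indices] using hi⟩
    · rw [hc.l1 s hst] at hi
      exact ⟨1, by simpa [Label.indices] using hi⟩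
    · rw [hc.l2 s hst] at hi
      simp only [Label.indices, Finset.mem_insert, Finset.mem_singleton] at hi
      rcases hi with hi | hi
      · exact ⟨0, hi⟩
      · exact ⟨1, hi⟩
  · have : s = v := by simpa using hs
    subst this
    omega

private theorem cases_edge {lab : Sym2 V → Label N} (hc : Compat D lab) {e : Sym2 V}
    (he : e ∈ extEdges G) :
    (∃ u v, e = s(u, v) ∧ Fre G D.st u v ∧ ∀ i ∈ (lab e).indices, i = D.fr u v) ∨
      (∃ s ∈ e, D.st s ∧ ∀ i ∈ (lab e).indices, ∃ j, i = D.cj s j) := by
  by_cases hn : ∀ v ∈ e, G.degree v ≠ 3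
  · left
    obtain ⟨u, v, rfl, hf⟩ := free_case D hc he hn
    refine ⟨u, v, rfl, hf, fun i hi => ?_⟩
    rw [hc.lf u v hf] at hi
    simpa [Label.indices] using hi
  · right
    push Not at hn
    obtain ⟨s, hs, h3⟩ := hn
    exact ⟨s, hs, (hc.st_iff s).2 h3, star_case D hc he hs h3⟩

theorem isLabelling_of {lab : Sym2 V → Label N} (hc : Compat D lab)
    (hcard : N + G.edgeFinset.card = 2 * Fintype.card V) : IsLabelling G lab where
  card := hcard
  trivalent := by
    intro v hv
    have hst := (hc.st_iff v).2 hv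
    refine ⟨D.arm v 0, D.arm v 1, D.arm v 2, D.cj v 0, D.cj v 1, ?_, ?_, hc.l0 v hst, hc.l1 v hst,
      hc.l2 v hst⟩
    · intro w
      rw [D.adj_arm v hst w]
      constructor
      · rintro ⟨x, rfl⟩
        fin_cases x <;> simp
      · rintro (h | h | h)
        · exact ⟨0, h.symm⟩
        · exact ⟨1, h.symm⟩
        · exact ⟨2, h.symm⟩
    · intro h
      have := (D.cj_inj v v 0 1 hst hst h).2
      exact absurd this (by decide)
  other := by
    intro e he hn
    obtain ⟨u, v, rfl, hf⟩ := free_case D hc he hn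
    exact ⟨_, hc.lf u v hf⟩
  unused := by
    intro e he e' he' hne hi
    obtain ⟨i, hi1, hi2⟩ := hi
    rcases cases_edge D hc he with ⟨u, v, rfl, hf, h1⟩ | ⟨s, hs, hst, h1⟩
    · rcases cases_edge D hc he' with ⟨u', v', rfl, hf', h2⟩ | ⟨t, ht, htt, h2⟩
      · exact absurd (D.fr_inj u v u' v' hf hf' ((h1 i hi1).symm.trans (h2 i hi2))) hne
      · obtain ⟨j, hj⟩ := h2 i hi2
        exact absurd ((h1 i hi1).symm.trans hj) (D.fr_cj u v t j hf htt)
    · obtain ⟨j, hj⟩ := h1 i hi1
      rcases cases_edge D hc he' with ⟨u', v', rfl, hf', h2⟩ | ⟨t, ht, htt, h2⟩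
      · exact absurd ((h2 i hi2).symm.trans hj) (D.fr_cj u' v' s j hf' hst)
      · obtain ⟨j', hj'⟩ := h2 i hi2
        have h3 := (D.cj_inj s t j j' hst htt (hj.symm.trans hj')).1
        subst h3
        exact ⟨s, hs, ht, (hc.st_iff s).1 hst⟩

end Pool.Agent.H6.SC
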