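import Pool.Agent.H74.Secant.Poly

/-!
# SC.Defs : nodal arrangements of lines (project MP_6429ad_ag, secant varieties of graph curves)

`Arr K N G` : two-dimensional subspaces `L v` of `K^N` (projective lines), one for every vertex `v` of the graph `G`,
meeting in the node `nod u v` when `u`, `v` are adjacent, together with auxiliary forms:

* `lin v u` (`u ~ v`) : a linear form, zero at the node `nod v u` and on `L u`, not zero on `L v`; the product
  `bmp v` of the `lin v u` over all neighbours `u` of `v` vanishes on all other lines;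
* `cut u v` : a form of degree `cdeg u v ≤ 2` that vanishes on all lines except `L u`, `L v` and at all other nodes of
  these two lines, but not at `nod u v`; and `lin u v * cut u v = bmp u * g` on all lines with `g (nod u v) ≠ 0`;
* exposure (`expo`, `expo0`): `dn G B v w` says that `w` is a neighbour of `v` which lies in `B` or is a vertex of
  degree three all of whose neighbours lie in `B`. If `v ∈ B` has no such neighbour except `u` then
  `L v ⊓ ⨆ w ∈ B \ v, L w ≤ span (nod v u)`; if it has none then the intersection is zero.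

`Expos G n` : every nonempty set `B` of at most `n` vertices has an element with at most one `dn`-neighbour.
-/

set_option autoImplicit false

open MvPolynomial Pool.Agent.H74.Secant

namespace Pool.Agent.H6.SC

universe u

open scoped Classical

section

variable {V : Type} [Fintype V] (G : SimpleGraph V)

/-- the neighbours of `v` -/
noncomputable def nbs (v : V) : Finset V := Finset.univ.filter (fun u => G.Adj v u)

theorem mem_nbs {v u : V} : u ∈ nbs G v ↔ G.Adj v u := by
  unfold nbs
  simp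

/-- `w` is a neighbour of `v` in `B`, or a neighbour of degree three with all neighbours in `B` -/
def dn (B : Finset V) (v w : V) : Prop :=
  G.Adj v w ∧ (w ∈ B ∨ ((nbs G w).card = 3 ∧ ∀ x, G.Adj w x → x ∈ B))

/-- exposure property -/
def Expos (n : ℕ) : Prop :=
  ∀ B : Finset V, B.Nonempty → B.card ≤ n → ∃ v ∈ B, ∀ w w', dn G B v w → dn G B v w' → w = w'

end

/-- the sum of the lines in `A` -/
def spn {K : Type u} [Field K] {N : ℕ} {V : Type} (L : V → Submodule K (Fin N → K)) (A : Finset V) :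
    Submodule K (Fin N → K) := ⨆ v ∈ A, L v

/-- a nodal arrangement of lines with dual graph `G` -/
structure Arr (K : Type u) [Field K] (N : ℕ) {V : Type} [Fintype V] (G : SimpleGraph V) where
  L : V → Submodule K (Fin N → K)
  nod : V → V → (Fin N → K)
  lin : V → V → MvPolynomial (Fin N) K
  cut : V → V → MvPolynomial (Fin N) K
  cdeg : V → V → ℕ
  nb : ∀ v, ∃ u, G.Adj v u
  dim : ∀ v, Module.finrank K (L v) = 2
  nod_symm : ∀ u v, G.Adj u v → nod u v = nod v u
  nod_mem : ∀ u v, G.Adj u v → nod u v ∈ L u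
  nod_ne : ∀ u v, G.Adj u v → nod u v ≠ 0
  nod_ind : ∀ u v w, G.Adj u v → G.Adj u w → v ≠ w → nod u w ∉ Submodule.span K {nod u v}
  lin_hom : ∀ u v, G.Adj u v → (lin u v).IsHomogeneous 1
  lin_nod : ∀ u v, G.Adj u v → aeval (nod u v) (lin u v) = 0
  lin_ne : ∀ u v, G.Adj u v → ∃ z ∈ L u, aeval z (lin u v) ≠ 0
  lin_L : ∀ u v, G.Adj u v → ∀ z ∈ L v, aeval z (lin u v) = 0
  bump : ∀ u w, w ≠ u → ∀ z ∈ L w, aeval z (∏ v ∈ nbs G u, lin u v) = 0
  cut_symm : ∀ u v, G.Adj u v → cut u v = cut v u
  cdeg_symm : ∀ u v, G.Adj u v → cdeg u v = cdeg v u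
  cut_hom : ∀ u v, G.Adj u v → (cut u v).IsHomogeneous (cdeg u v)
  cdeg_le : ∀ u v, G.Adj u v → cdeg u v ≤ 2
  cut_L : ∀ u v, G.Adj u v → ∀ w, w ≠ u → w ≠ v → ∀ z ∈ L w, aeval z (cut u v) = 0
  cut_nod : ∀ u v, G.Adj u v → ∀ w, G.Adj u w → w ≠ v → aeval (nod u w) (cut u v) = 0
  cut_ne : ∀ u v, G.Adj u v → aeval (nod u v) (cut u v) ≠ 0
  card_le : ∀ u v, G.Adj u v → (nbs G u).card ≤ cdeg u v + 1
  cut_div : ∀ u v, G.Adj u v → ∃ g : MvPolynomial (Fin N) K,
    g.IsHomogeneous (cdeg u v + 1 - (nbs G u).card) ∧ aeval (nod u v) g ≠ 0 ∧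
      ∀ w, ∀ z ∈ L w, aeval z (lin u v * cut u v) = aeval z ((∏ v ∈ nbs G u, lin u v) * g)
  st_adj : ∀ u v, G.Adj u v → (nbs G u).card = 3 → (nbs G v).card ≠ 3
  expo : ∀ (B : Finset V) (v u : V), v ∈ B → G.Adj v u → (∀ w, dn G B v w → w = u) →
    L v ⊓ spn L (B.erase v) ≤ Submodule.span K {nod v u}
  expo0 : ∀ (B : Finset V) (v : V), v ∈ B → (∀ w, ¬ dn G B v w) → L v ⊓ spn L (B.erase v) = ⊥

section

variable {K : Type u} [Field K] {N : ℕ} {V : Type} [Fintype V] {G : SimpleGraph V} (a : Arr K N G)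

/-- the product of the linear forms at `v` -/
noncomputable def Arr.bmp (v : V) : MvPolynomial (Fin N) K := ∏ u ∈ nbs G v, a.lin v u

/-- the union of the lines -/
def Arr.crv : Set (Fin N → K) := ⋃ v, (a.L v : Set (Fin N → K))

/-- `f` vanishes on all lines -/
def Arr.Van (f : MvPolynomial (Fin N) K) : Prop := ∀ v, ∀ z ∈ a.L v, aeval z f = 0

theorem Arr.van_iff {f : MvPolynomial (Fin N) K} : a.Van f ↔ f ∈ vanishingIdeal K a.crv := by
  rw [mem_vanishingIdeal_iff]
  constructor
  · intro h z hz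
    obtain ⟨v, hv⟩ := Set.mem_iUnion.1 hz
    exact h v z hv
  · intro h v z hz
    exact h z (Set.mem_iUnion.2 ⟨v, hz⟩)

/-- the vector `(ω (X i * h))_i` -/
noncomputable def vec (ω : MvPolynomial (Fin N) K →ₗ[K] K) (h : MvPolynomial (Fin N) K) : Fin N → K :=
  fun i => ω (X i * h)

/-- functionals in degree `T + 1` orthogonal to the ideals of the arrangement and of `Λ` -/
structure Fnl (Λ : Submodule K (Fin N → K)) (T : ℕ) (ω : MvPolynomial (Fin N) K →ₗ[K] K) : Prop where
  hX : ∀ f, f.IsHomogeneous (T + 1) → a.Van f → ω f = 0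
  hL : ∀ h, h.IsHomogeneous T → vec ω h ∈ Λ

end

end Pool.Agent.H6.SC
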