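import Pool.Agent.H6.SC.Vec

/-!
# SC.Div : division on a line

PROOF. `div_line`: let `n` span the kernel of `ℓ` on `L`, `m ∈ L` with `aeval m ℓ ≠ 0`; `n, m` is a basis of `L`. Let `ℓ'` be
a linear form with `aeval n ℓ' = 1`, `aeval m ℓ' = 0` (`exists_form` and a functional, e.g. from
`LinearIndependent` of `n, m`). CLAIM: for every homogeneous `h` of degree `t` there are `c : K` and `g` with
`h = c ℓ'^t + ℓ g` on `L`, `g` homogeneous of degree `t - 1` (and `g = 0` if `t = 0`): induction on `t`, `h = ∑ X i * h_i` with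
`h_i` homogeneous (as in `hom_ext` of H74/Secant/Poly.lean: it is enough to treat monomials, or prove the claim for the span
of monomials), `X i = n_i ℓ' + (m_i / ℓ(m)) ℓ` on `L`. Evaluate at `n`: `c = aeval n h = 0`.
`div_bmp`: induction over the finset of neighbours (apply `div_line` once for every neighbour `u` with `ℓ = lin v u`,
`n = nod v u`; the values at the other nodes stay zero because `lin v u` is not zero at `nod v w`, `w ≠ u`: `lin_zero_iff`).
State and prove it for a subset `s ⊆ nbs G v` first. `lin_zero_iff`: `L v` has dimension two, `lin v u` is not zero on `L v`, so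
its kernel has dimension one and is spanned by `nod v u`. `bmp_ne`: product of nonzero factors.
-/

set_option autoImplicit false

open MvPolynomial Pool.Agent.H74.Secant

namespace Pool.Agent.H6.SC

universe u

variable {K : Type u} [Field K] {N : ℕ}

private theorem lf {g : MvPolynomial (Fin N) K} (hg : g.IsHomogeneous 1) :
    ∃ a : Fin N → K, ∀ z : Fin N → K, aeval z g = ∑ i, a i * z i := by
  have : g ∈ homogeneousSubmodule (Fin N) K 1 := hg
  rw [homogeneousSubmodule_one_eq_span_X, Submodule.mem_span_range_iff_exists_fun] at this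
  obtain ⟨a, ha⟩ := this
  refine ⟨a, fun z => ?_⟩
  rw [← ha, map_sum]
  refine Finset.sum_congr rfl fun i _ => ?_
  rw [map_smul, aeval_X, smul_eq_mul]

private theorem lf_comb {g : MvPolynomial (Fin N) K} (hg : g.IsHomogeneous 1) (a b : K) (x y : Fin N → K) :
    aeval (a • x + b • y) g = a * aeval x g + b * aeval y g := by
  obtain ⟨c, hc⟩ := lf hg
  rw [hc, hc, hc, Finset.mul_sum, Finset.mul_sum, ← Finset.sum_add_distrib]
  refine Finset.sum_congr rfl fun i _ => ?_
  simp only [Pi.add_apply, Pi.smul_apply, smul_eq_mul]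
  ring

private theorem lf_smul {g : MvPolynomial (Fin N) K} (hg : g.IsHomogeneous 1) (a : K) (x : Fin N → K) :
    aeval (a • x) g = a * aeval x g := by
  have := lf_comb hg a 0 x x
  simpa using this

private theorem comb {L : Submodule K (Fin N → K)} (hL : Module.finrank K L = 2) {n m : Fin N → K}
    (hn : n ∈ L) (hm : m ∈ L) (hi : ∀ a b : K, a • n + b • m = 0 → a = 0 ∧ b = 0) {z : Fin N → K}
    (hz : z ∈ L) : ∃ a b : K, z = a • n + b • m := by
  have li : LinearIndependent K ![n, m] := LinearIndependent.pair_iff.2 hi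
  have h1 : Module.finrank K (Submodule.span K (Set.range ![n, m])) = 2 := by
    rw [finrank_span_eq_card li]
    simp
  have h2 : Submodule.span K (Set.range ![n, m]) ≤ L := by
    rw [Submodule.span_le]
    rintro _ ⟨i, rfl⟩
    fin_cases i
    · exact hn
    · exact hm
  have h3 : Submodule.span K (Set.range ![n, m]) = L :=
    Submodule.eq_of_le_of_finrank_eq h2 (by rw [h1, hL])
  rw [← h3] at hz
  have h4 : Set.range ![n, m] = {n, m} := by
    ext y
    simp only [Set.mem_range, Set.mem_insert_iff, Set.mem_singleton_iff, Fin.exists_fin_two,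
      Matrix.cons_val_zero, Matrix.cons_val_one]
    constructor
    · rintro (h | h)
      · exact Or.inl h.symm
      · exact Or.inr h.symm
    · rintro (h | h)
      · exact Or.inl h.symm
      · exact Or.inr h.symm
  rw [h4, Submodule.mem_span_pair] at hz
  obtain ⟨a, b, h⟩ := hz
  exact ⟨a, b, h.symm⟩

/-- the basis `n, m` of the line and the coordinate forms -/
private theorem line_rep {L : Submodule K (Fin N → K)} (hL : Module.finrank K L = 2) {l : MvPolynomial (Fin N) K}
    (hl : l.IsHomogeneous 1) {n : Fin N → K} (hn : n ∈ L) (hn0 : n ≠ 0) (hln : aeval n l = 0)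
    (hne : ∃ z ∈ L, aeval z l ≠ 0) :
    ∃ m : Fin N → K, m ∈ L ∧ aeval m l = 1 ∧ ∀ z ∈ L, ∃ a : K, z = a • n + (aeval z l) • m := by
  obtain ⟨y, hy, hy0⟩ := hne
  have hm1 : aeval ((aeval y l)⁻¹ • y) l = 1 := by
    rw [lf_smul hl, inv_mul_cancel₀ hy0]
  refine ⟨(aeval y l)⁻¹ • y, L.smul_mem _ hy, hm1, fun z hz => ?_⟩
  obtain ⟨a, b, hab⟩ := comb hL hn (L.smul_mem (aeval y l)⁻¹ hy) (fun a b h => by
    have h1 : aeval (a • n + b • ((aeval y l)⁻¹ • y)) l = aeval (0 : Fin N → K) l := by rw [h]
    rw [lf_comb hl, hln, hm1] at h1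
    have h2 : aeval (0 : Fin N → K) l = 0 := by
      have := lf_smul hl 0 n
      simpa using this
    rw [h2] at h1
    have hb : b = 0 := by simpa using h1
    rw [hb, zero_smul, add_zero] at h
    exact ⟨(smul_eq_zero.1 h).resolve_right hn0, hb⟩) hz
  have hb : aeval z l = b := by
    rw [hab, lf_comb hl, hln, hm1]
    ring
  exact ⟨a, by rw [hb]; exact hab⟩

private theorem div_aux {L : Submodule K (Fin N → K)} {l lp : MvPolynomial (Fin N) K} {n m : Fin N → K}
    (hlp : lp.IsHomogeneous 1) (hrep : ∀ z ∈ L, z = (aeval z lp) • n + (aeval z l) • m) (t : ℕ) :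
    ∀ h : MvPolynomial (Fin N) K, h.IsHomogeneous t → ∃ (c : K) (g : MvPolynomial (Fin N) K),
      (t = 0 → g = 0) ∧ g.IsHomogeneous (t - 1) ∧
        ∀ z ∈ L, aeval z h = c * (aeval z lp) ^ t + aeval z l * aeval z g := by
  induction t with
  | zero =>
    intro h hh
    have h0 : h = C (coeff 0 h) := by
      rw [← totalDegree_eq_zero_iff_eq_C]
      exact Nat.le_zero.mp hh.totalDegree_le
    refine ⟨coeff 0 h, 0, fun _ => rfl, isHomogeneous_zero _ _ _, fun z _ => ?_⟩
    conv_lhs => rw [h0]
    simp
  | succ t ih =>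
    intro h hh
    rw [h.as_sum]
    refine Finset.sum_induction _ (fun h => ∃ (c : K) (g : MvPolynomial (Fin N) K),
      (t + 1 = 0 → g = 0) ∧ g.IsHomogeneous (t + 1 - 1) ∧
        ∀ z ∈ L, aeval z h = c * (aeval z lp) ^ (t + 1) + aeval z l * aeval z g) ?_ ?_ ?_
    · rintro a b ⟨c, g, -, hg, e⟩ ⟨c', g', -, hg', e'⟩
      refine ⟨c + c', g + g', fun h => absurd h (Nat.succ_ne_zero _), hg.add hg', fun z hz => ?_⟩
      rw [map_add, map_add, e z hz, e' z hz]
      ring
    · exact ⟨0, 0, fun _ => rfl, isHomogeneous_zero _ _ _, fun z _ => by simp⟩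
    · intro d hd
      have hdeg : d.degree = t + 1 := by
        have := hh (mem_support_iff.mp hd)
        rwa [Finsupp.degree_eq_weight_one, ← Pi.one_def]
      obtain ⟨i, hi⟩ : ∃ i, d i ≠ 0 := by
        by_contra hcon
        push Not at hcon
        have : d = 0 := by ext i; simpa using hcon i
        rw [this] at hdeg
        simp at hdeg
      have hle : Finsupp.single i 1 ≤ d := by
        rw [Finsupp.single_le_iff]
        omega
      have hm' : d = Finsupp.single i 1 + (d - Finsupp.single i 1) :=
        (add_tsub_cancel_of_le hle).symm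
      have key : monomial d (coeff d h) = X i * monomial (d - Finsupp.single i 1) (coeff d h) := by
        rw [X, monomial_mul, one_mul, ← hm']
      have hh' : (monomial (d - Finsupp.single i 1) (coeff d h) : MvPolynomial (Fin N) K).IsHomogeneous t := by
        apply isHomogeneous_monomial
        have : (Finsupp.single i 1 + (d - Finsupp.single i 1)).degree = t + 1 := by
          rw [← hm', hdeg]
        rw [map_add, Finsupp.degree_single] at this
        omega
      rw [key]
      generalize (monomial (d - Finsupp.single i 1) (coeff d h) : MvPolynomial (Fin N) K) = h' at hh'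
      obtain ⟨c, g, hg0, hg, e⟩ := ih h' hh'
      have hlg : (lp * g).IsHomogeneous t := by
        rcases Nat.eq_zero_or_pos t with ht | ht
        · rw [hg0 ht, mul_zero]
          exact isHomogeneous_zero _ _ _
        · have := hlp.mul hg
          have h2 : 1 + (t - 1) = t := by omega
          rwa [h2] at this
      refine ⟨n i * c, C (m i) * h' + C (n i) * (lp * g), fun h => absurd h (Nat.succ_ne_zero _), ?_,
        fun z hz => ?_⟩
      · rw [Nat.add_sub_cancel]
        refine IsHomogeneous.add ?_ ?_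
        · have := (isHomogeneous_C (Fin N) (m i)).mul hh'
          rwa [zero_add] at this
        · have := (isHomogeneous_C (Fin N) (n i)).mul hlg
          rwa [zero_add] at this
      · have hzi : z i = aeval z lp * n i + aeval z l * m i := by
          conv_lhs => rw [hrep z hz]
          simp
        rw [map_mul, aeval_X, map_add, map_mul, map_mul, map_mul, aeval_C, aeval_C]
        simp only [Algebra.algebraMap_self, RingHom.id_apply]
        have e1 := e z hz
        have : aeval z lp * n i * aeval z h' = aeval z lp * n i * (c * (aeval z lp) ^ t + aeval z l * aeval z g) := by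
          rw [e1]
        calc z i * aeval z h' = aeval z lp * n i * aeval z h' + aeval z l * m i * aeval z h' := by
              rw [hzi]; ring
          _ = _ := by rw [this]; ring

theorem div_line {L : Submodule K (Fin N → K)} (hL : Module.finrank K L = 2) {l : MvPolynomial (Fin N) K}
    (hl : l.IsHomogeneous 1) {n : Fin N → K} (hn : n ∈ L) (hn0 : n ≠ 0) (hln : aeval n l = 0)
    (hne : ∃ z ∈ L, aeval z l ≠ 0) {t : ℕ} {h : MvPolynomial (Fin N) K} (hh : h.IsHomogeneous (t + 1))
    (h0 : aeval n h = 0) :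
    ∃ g : MvPolynomial (Fin N) K, g.IsHomogeneous t ∧ ∀ z ∈ L, aeval z h = aeval z l * aeval z g := by
  obtain ⟨m, hm, hm1, hrep⟩ := line_rep hL hl hn hn0 hln hne
  obtain ⟨i, hi⟩ : ∃ i, n i ≠ 0 := by
    by_contra hcon
    push Not at hcon
    exact hn0 (funext hcon)
  set lp : MvPolynomial (Fin N) K := C (n i)⁻¹ * (X i - C (m i) * l) with hlp
  have hlp1 : lp.IsHomogeneous 1 := by
    have h1 : (C (m i) * l).IsHomogeneous 1 := by
      have := (isHomogeneous_C (Fin N) (m i)).mul hl
      rwa [zero_add] at this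
    have h2 : (X i - C (m i) * l : MvPolynomial (Fin N) K).IsHomogeneous 1 := (isHomogeneous_X K i).sub h1
    have := (isHomogeneous_C (Fin N) (n i)⁻¹).mul h2
    rwa [zero_add] at this
  have hev : ∀ z : Fin N → K, aeval z lp = (n i)⁻¹ * (z i - m i * aeval z l) := by
    intro z
    rw [hlp, map_mul, map_sub, map_mul, aeval_X, aeval_C, aeval_C]
    simp
  have hrep' : ∀ z ∈ L, z = (aeval z lp) • n + (aeval z l) • m := by
    intro z hz
    obtain ⟨a, ha⟩ := hrep z hz
    have : aeval z lp = a := by
      rw [hev]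
      have h1 := congrFun ha i
      simp only [Pi.add_apply, Pi.smul_apply, smul_eq_mul] at h1
      have h2 : z i - m i * aeval z l = a * n i := by
        linear_combination h1
      rw [h2]
      field_simp
    rw [this]
    exact ha
  obtain ⟨c, g, -, hg, e⟩ := div_aux hlp1 hrep' (t + 1) h hh
  have hc : c = 0 := by
    have h1 := e n hn
    rw [h0, hln, hev, hln, mul_zero, sub_zero, inv_mul_cancel₀ hi, one_pow, mul_one, zero_mul, add_zero] at h1
    exact h1.symm
  refine ⟨g, by simpa using hg, fun z hz => ?_⟩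
  rw [e z hz, hc, zero_mul, zero_add]

variable {V : Type} [Fintype V] {G : SimpleGraph V} (a : Arr K N G)

theorem lin_zero_iff {v u : V} (h : G.Adj v u) {z : Fin N → K} (hz : z ∈ a.L v) :
    aeval z (a.lin v u) = 0 ↔ z ∈ Submodule.span K {a.nod v u} := by
  constructor
  · intro h0
    obtain ⟨m, hm, hm1, hrep⟩ := line_rep (a.dim v) (a.lin_hom v u h) (a.nod_mem v u h) (a.nod_ne v u h)
      (a.lin_nod v u h) (a.lin_ne v u h)
    obtain ⟨c, hc⟩ := hrep z hz
    rw [h0, zero_smul, add_zero] at hc
    exact Submodule.mem_span_singleton.2 ⟨c, hc.symm⟩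
  · intro h0
    obtain ⟨c, hc⟩ := Submodule.mem_span_singleton.1 h0
    rw [← hc, lf_smul (a.lin_hom v u h), a.lin_nod v u h, mul_zero]

theorem bmp_hom (v : V) : (a.bmp v).IsHomogeneous (nbs G v).card := by
  unfold Arr.bmp
  have := IsHomogeneous.prod (nbs G v) (fun u => a.lin v u) (fun _ => 1)
    (fun u hu => a.lin_hom v u ((mem_nbs G).1 hu))
  simpa using this

theorem bmp_ne {v : V} {z : Fin N → K} (hz : z ∈ a.L v)
    (h : ∀ u, G.Adj v u → z ∉ Submodule.span K {a.nod v u}) : aeval z (a.bmp v) ≠ 0 := by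
  unfold Arr.bmp
  rw [map_prod]
  refine Finset.prod_ne_zero_iff.2 fun u hu => ?_
  have hu' := (mem_nbs G).1 hu
  exact fun h0 => h u hu' ((lin_zero_iff a hu' hz).1 h0)

private theorem div_sub (v : V) (s : Finset V) : s ⊆ nbs G v → ∀ (t : ℕ), s.card ≤ t →
    ∀ h : MvPolynomial (Fin N) K, h.IsHomogeneous t → (∀ u ∈ s, aeval (a.nod v u) h = 0) →
    ∃ g : MvPolynomial (Fin N) K, g.IsHomogeneous (t - s.card) ∧
      ∀ z ∈ a.L v, aeval z h = aeval z ((∏ u ∈ s, a.lin v u) * g) := by
  classical
  induction s using Finset.induction_on with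
  | empty =>
    intro _ t _ h hh _
    exact ⟨h, by simpa using hh, fun z _ => by simp⟩
  | insert u s hu ih =>
    intro hs t ht h hh h0
    rw [Finset.card_insert_of_notMem hu] at ht ⊢
    obtain ⟨t', rfl⟩ : ∃ t', t = t' + 1 := ⟨t - 1, by omega⟩
    have hvu : G.Adj v u := (mem_nbs G).1 (hs (Finset.mem_insert_self _ _))
    obtain ⟨g1, hg1, e1⟩ := div_line (a.dim v) (a.lin_hom v u hvu) (a.nod_mem v u hvu) (a.nod_ne v u hvu)
      (a.lin_nod v u hvu) (a.lin_ne v u hvu) hh (h0 u (Finset.mem_insert_self _ _))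
    obtain ⟨g, hg, e⟩ := ih (fun x hx => hs (Finset.mem_insert_of_mem hx)) t' (by omega) g1 hg1
      (fun w hw => by
        have hvw : G.Adj v w := (mem_nbs G).1 (hs (Finset.mem_insert_of_mem hw))
        have hne : u ≠ w := fun h => hu (h ▸ hw)
        have h1 := e1 _ (a.nod_mem v w hvw)
        rw [h0 w (Finset.mem_insert_of_mem hw)] at h1
        refine (mul_eq_zero.1 h1.symm).resolve_left fun h2 => ?_
        exact a.nod_ind v u w hvu hvw hne ((lin_zero_iff a hvu (a.nod_mem v w hvw)).1 h2))
    refine ⟨g, ?_, fun z hz => ?_⟩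
    · have h2 : t' + 1 - (s.card + 1) = t' - s.card := by omega
      rw [h2]
      exact hg
    · rw [e1 z hz, e z hz, Finset.prod_insert hu]
      simp only [map_mul]
      ring

theorem div_bmp (v : V) {t : ℕ} (ht : (nbs G v).card ≤ t) {h : MvPolynomial (Fin N) K} (hh : h.IsHomogeneous t)
    (h0 : ∀ u, G.Adj v u → aeval (a.nod v u) h = 0) :
    ∃ g : MvPolynomial (Fin N) K, g.IsHomogeneous (t - (nbs G v).card) ∧
      ∀ z ∈ a.L v, aeval z h = aeval z (a.bmp v * g) :=
  div_sub a v (nbs G v) (Finset.Subset.refl _) t ht h hh (fun u hu => h0 u ((mem_nbs G).1 hu))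

end Pool.Agent.H6.SC
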