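import Pool.Agent.H6.SC.Compat

/-!
# SC.ExLab : labels from data

PROOF. `lab e = ` if `e = s(s, arm s x)` for a star `s` and an `x` (both unique: if `s(s, arm s x) = s(t, arm t y)` with `s ≠ t` then `s = arm t y` is a neighbour of `t`, against `far1`; `x` by `arm_inj`) then `single (cj s 0)`, `single (cj s 1)`, `diff (cj s 0) (cj s 1)` for `x = 0, 1, 2`; otherwise, if `e = s(u, v)` with `Fre u v`, `single (fr u v)`
(unique by `fr_symm`); otherwise `single i₀`. (Definition with `if h : ∃ ..` and `Classical.choose`.) A free edge is not of the first form: it contains no star. `hst` gives `st_iff`.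
-/

set_option autoImplicit false

open Pool.Agent.H74.Secant

namespace Pool.Agent.H6.SC

private def lb {V : Type} [Fintype V] {G : SimpleGraph V} {N : ℕ} (D : Dat G N) (p : V × Fin 3) :
    Label N :=
  if p.2 = 0 then .single (D.cj p.1 0) else if p.2 = 1 then .single (D.cj p.1 1)
    else .diff (D.cj p.1 0) (D.cj p.1 1)

open scoped Classical in
private noncomputable def labf {V : Type} [Fintype V] {G : SimpleGraph V} {N : ℕ} (D : Dat G N)
    (hN : 0 < N) (e : Sym2 V) : Label N :=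
  if h : ∃ p : V × Fin 3, D.st p.1 ∧ e = s(p.1, D.arm p.1 p.2) then lb D h.choose
  else if h' : ∃ q : V × V, Fre G D.st q.1 q.2 ∧ e = s(q.1, q.2) then
    .single (D.fr h'.choose.1 h'.choose.2)
  else .single ⟨0, hN⟩

private lemma star_unique {V : Type} [Fintype V] {G : SimpleGraph V} {N : ℕ} (D : Dat G N)
    {s : V} (hs : D.st s) (x : Fin 3) (p : V × Fin 3) (h1 : D.st p.1)
    (h2 : s(s, D.arm s x) = s(p.1, D.arm p.1 p.2)) : p = (s, x) := by
  obtain ⟨t, y⟩ := p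
  simp only at h1 h2
  rcases Sym2.eq_iff.1 h2 with ⟨h3, h4⟩ | ⟨h3, h4⟩
  · subst h3
    rw [D.arm_inj s hs h4]
  · exact absurd ((D.adj_arm _ h1 _).2 ⟨y, h3.symm⟩) (D.far1 _ _ h1 hs)

private lemma labf_star {V : Type} [Fintype V] {G : SimpleGraph V} {N : ℕ} (D : Dat G N)
    (hN : 0 < N) {s : V} (hs : D.st s) (x : Fin 3) :
    labf D hN s(s, D.arm s x) = lb D (s, x) := by
  have h : ∃ p : V × Fin 3, D.st p.1 ∧ s(s, D.arm s x) = s(p.1, D.arm p.1 p.2) :=
    ⟨(s, x), hs, rfl⟩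
  unfold labf
  rw [dif_pos h, star_unique D hs x h.choose h.choose_spec.1 h.choose_spec.2]

private lemma labf_free {V : Type} [Fintype V] {G : SimpleGraph V} {N : ℕ} (D : Dat G N)
    (hN : 0 < N) {u v : V} (huv : Fre G D.st u v) :
    labf D hN s(u, v) = .single (D.fr u v) := by
  have hu : ¬ D.st u ∧ ¬ D.st v := by
    rcases huv with ⟨-, h1, h2⟩ | ⟨h1, h2, -⟩
    · exact ⟨h1, h2⟩
    · exact ⟨h1 ▸ h2, h2⟩
  have h : ¬ ∃ p : V × Fin 3, D.st p.1 ∧ s(u, v) = s(p.1, D.arm p.1 p.2) := by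
    rintro ⟨p, h1, h2⟩
    rcases Sym2.eq_iff.1 h2 with ⟨h3, -⟩ | ⟨-, h3⟩
    · exact hu.1 (h3 ▸ h1)
    · exact hu.2 (h3 ▸ h1)
  have h' : ∃ q : V × V, Fre G D.st q.1 q.2 ∧ s(u, v) = s(q.1, q.2) := ⟨(u, v), huv, rfl⟩
  unfold labf
  rw [dif_neg h, dif_pos h']
  congr 1
  rcases Sym2.eq_iff.1 h'.choose_spec.2 with ⟨h3, h4⟩ | ⟨h3, h4⟩
  · rw [← h3, ← h4]
  · rw [← h3, ← h4, D.fr_symm]

theorem exists_lab {V : Type} [Fintype V] {G : SimpleGraph V} [DecidableRel G.Adj] {N : ℕ} (D : Dat G N)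
    (hN : 0 < N) (hst : ∀ v, D.st v ↔ G.degree v = 3) : ∃ lab : Sym2 V → Label N, Compat D lab := by
  refine ⟨labf D hN, hst, ?_, ?_, ?_, ?_⟩
  · intro s hs
    rw [labf_star D hN hs]
    simp [lb]
  · intro s hs
    rw [labf_star D hN hs]
    simp [lb]
  · intro s hs
    rw [labf_star D hN hs]
    simp [lb]
  · intro u v huv
    exact labf_free D hN huv

end Pool.Agent.H6.SC
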