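import Pool.Agent.H6.SC.Cnt

/-!
# SC.Exc : the exceptional case

`k = 2`, `s ≠ t` stars, `π` as in `cnt`.

PROOF. `A` normal: its elements are arms of `s` and `t`; so it contains no star (`far1`) and no arm of another star (`far2`); `W A r = ⊥` for the other stars `r`; `W A s = span {nu x : arm s x ∈ A}`, the same for `t`; the sets `{x : arm s x ∈ A}` and `{x : arm t (π x) ∈ A}` are disjoint, so one of them has at most one element:
(E1) for some `x` every `y` with `arm s y ∈ A` is `x` (so `pf s x` vanishes on `W A s`), or the same for `t`.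
(E2) For every `x` the set `A = {arm s x} ∪ {arm t (π y) : y ≠ x}` is normal (three elements, `arm_inj`, `far2`; covers `S`: `fx t (π y) = fx s y` and `fx_spec`), with `W A s = span {nu x}` and `W A t = ⊤` (two different `nu`); symmetric: `{arm t (π x)} ∪ {arm s y : y ≠ x}`.
Write `f = f₀ + f₁`, `f₁` = the sum of the monomials of `f` that contain a coordinate `cj r j` of a star `r ≠ s, t`. Every monomial of `f₁` vanishes on `QS` (blocks at `r` are zero; `z i = 0` with `i ∈ S = α.support`: it contains `X i`), and it is a product of linear forms (`isprod_monomial`) times a constant; so `f₁ ∈ PQ`, and `f₀` vanishes on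
`QS`. `P = (∏ i ∈ S, X i) * (∏ x, pf s x) * ∏ x, pf t x` divides `f₀` by `prod_dvd` (index `Fin N ⊕ Fin 3 ⊕ Fin 3`): `f₀ z = 0` if `z i = 0`, `i ∈ S`; if `pf s x` vanishes at `z`: let `z'` be `z` with the coordinates of the other stars replaced by zero, `f₀ z = f₀ z'` (`f₀` does not contain them), `z' ∈ QS` by (E2) (`pf_zero_iff`). The same for `t`. `hsep`: `pf s x`
and `pf s y`: `pp_nu` with `z = sv s (nu y)`; different stars or coordinates: a vector with one nonzero block or coordinate (`cj_inj`, `S ⊆ Fr`: `fx_fr`). `P` vanishes on `QS` by (E1), and it is a product of linear forms.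
-/

set_option autoImplicit false

open MvPolynomial Pool.Agent.H74.Secant

namespace Pool.Agent.H6.SC

universe u

open scoped Classical

variable {V : Type} [Fintype V] {G : SimpleGraph V} {N : ℕ} (D : Dat G N) (K : Type u) [Field K]

/-- two different nodes span the block -/
private theorem nu_span {K : Type u} [Field K] {x y : Fin 3} (hxy : x ≠ y) (p : Fin 2 → K) :
    ∃ a b : K, p = a • nu K x + b • nu K y := by
  have h01 : p = p 0 • nu K 0 + p 1 • nu K 1 := by
    ext j
    fin_cases j <;> simp [nu]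
  have h02 : p = (p 0 - p 1) • nu K 0 + p 1 • nu K 2 := by
    ext j
    fin_cases j <;> simp [nu]
  have h12 : p = (p 1 - p 0) • nu K 1 + p 0 • nu K 2 := by
    ext j
    fin_cases j <;> simp [nu]
  have key : (x = 0 ∧ y = 1) ∨ (x = 1 ∧ y = 0) ∨ (x = 0 ∧ y = 2) ∨ (x = 2 ∧ y = 0) ∨ (x = 1 ∧ y = 2) ∨
      (x = 2 ∧ y = 1) := by
    revert x y
    decide
  rcases key with ⟨rfl, rfl⟩ | ⟨rfl, rfl⟩ | ⟨rfl, rfl⟩ | ⟨rfl, rfl⟩ | ⟨rfl, rfl⟩ | ⟨rfl, rfl⟩
  · exact ⟨_, _, h01⟩
  · exact ⟨_, _, by rw [add_comm]; exact h01⟩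
  · exact ⟨_, _, h02⟩
  · exact ⟨_, _, by rw [add_comm]; exact h02⟩
  · exact ⟨_, _, h12⟩
  · exact ⟨_, _, by rw [add_comm]; exact h12⟩

private theorem mono_zero {K : Type u} [Field K] {m : Fin N →₀ ℕ} (c : K) {z : Fin N → K} {i : Fin N}
    (hz : z i = 0) (hm : m i ≠ 0) : aeval z (monomial m c) = (0 : K) := by
  rw [aeval_monomial]
  apply mul_eq_zero_of_right
  exact Finset.prod_eq_zero (Finsupp.mem_support_iff.2 hm) (by
    show z i ^ m i = 0
    rw [hz]
    exact zero_pow hm)

private theorem mono_congr {K : Type u} [Field K] {m : Fin N →₀ ℕ} (c : K) {z z' : Fin N → K}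
    (h : ∀ i, m i ≠ 0 → z i = z' i) : (aeval z (monomial m c) : K) = aeval z' (monomial m c) := by
  rw [aeval_monomial, aeval_monomial]
  congr 1
  exact Finset.prod_congr rfl (fun i hi => by
    show z i ^ m i = z' i ^ m i
    rw [h i (Finsupp.mem_support_iff.1 hi)])

private theorem earm_ne {s t : V} (hs : D.st s) (ht : D.st t) (hst : s ≠ t) (x y : Fin 3) :
    D.arm s x ≠ D.arm t y := by
  intro h
  apply hst
  apply D.far2 s t (D.arm s x) hs ht (D.adj_arm' hs x)
  rw [h]
  exact D.adj_arm' ht y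

private theorem star_ne_arm {r s : V} (hr : D.st r) (hs : D.st s) (x : Fin 3) : r ≠ D.arm s x := by
  intro h
  apply D.far1 s r hs hr
  rw [h]
  exact D.adj_arm' hs x

/-- the normal sets of (E2) -/
private theorem nm_mk {s t : V} (hs : D.st s) (ht : D.st t) (hst : s ≠ t)
    {f : Fin 3 → Fin 3} (hf : Function.Injective f) {S : Finset (Fin N)}
    (hπ : ∀ x, D.fx t (f x) = D.fx s x) (hS : S = Finset.univ.image (D.fx s)) (x : Fin 3) :
    D.Nm 2 S (insert (D.arm s x) ((Finset.univ.erase x).image (fun y => D.arm t (f y)))) := by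
  have hSx : ∀ y, D.fx s y ∈ S := by
    intro y
    rw [hS]
    exact Finset.mem_image_of_mem _ (Finset.mem_univ _)
  refine ⟨?_, ?_, ?_⟩
  · refine (Finset.card_insert_le _ _).trans ?_
    have h1 : ((Finset.univ.erase x).image (fun y => D.arm t (f y))).card ≤ (Finset.univ.erase x).card :=
      Finset.card_image_le
    rw [Finset.card_erase_of_mem (Finset.mem_univ _), Finset.card_univ, Fintype.card_fin] at h1
    omega
  · intro i hi
    rw [hS] at hi
    obtain ⟨y, -, rfl⟩ := Finset.mem_image.1 hi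
    by_cases hyx : y = x
    · obtain ⟨v, hv, hv'⟩ := (fx_spec D hs y).1
      refine ⟨D.arm s y, v, hv, ?_, hv'⟩
      rw [hyx]
      exact Finset.mem_insert_self _ _
    · obtain ⟨v, hv, hv'⟩ := (fx_spec D ht (f y)).1
      refine ⟨D.arm t (f y), v, hv, ?_, ?_⟩
      · exact Finset.mem_insert_of_mem (Finset.mem_image.2 ⟨y, Finset.mem_erase.2 ⟨hyx, Finset.mem_univ _⟩, rfl⟩)
      · rw [← hv', hπ y]
  · intro r w hr hw
    rcases Finset.mem_insert.1 hw with h | h
    · have hrs : r = s := by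
        by_contra hne
        exact earm_ne D hr hs hne w x h
      subst hrs
      have := D.arm_inj r hr h
      rw [this]
      exact hSx x
    · obtain ⟨y, -, hy⟩ := Finset.mem_image.1 h
      have hy : D.arm t (f y) = D.arm r w := hy
      have hrt : r = t := by
        by_contra hne
        exact earm_ne D hr ht hne w (f y) hy.symm
      subst hrt
      have := D.arm_inj r hr hy
      rw [← this, hπ y]
      exact hSx y

/-- a point whose form `pf s x` vanishes and whose other blocks are zero -/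
private theorem qs_mk {s t : V} (hs : D.st s) (ht : D.st t) (hst : s ≠ t)
    {f : Fin 3 → Fin 3} (hf : Function.Injective f) {S : Finset (Fin N)}
    (hπ : ∀ x, D.fx t (f x) = D.fx s x) (hS : S = Finset.univ.image (D.fx s)) {x : Fin 3} {z : Fin N → K}
    (hz : aeval z (D.pf K s x) = (0 : K)) (hz' : ∀ r j, D.st r → r ≠ s → r ≠ t → z (D.cj r j) = 0) :
    z ∈ D.QS K 2 S := by
  left
  refine ⟨_, nm_mk D hs ht hst hf hπ hS x, ?_⟩
  intro r hr
  by_cases hrs : r = s
  · subst hrs
    have h1 := (pf_zero_iff D K r x z).1 hz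
    unfold Dat.W
    split_ifs with h2
    · exact Submodule.mem_top
    · refine Submodule.span_mono ?_ h1
      rintro p hp
      rw [Set.mem_singleton_iff] at hp
      exact ⟨x, Finset.mem_insert_self _ _, hp⟩
  by_cases hrt : r = t
  · subst hrt
    unfold Dat.W
    split_ifs with h2
    · exact Submodule.mem_top
    · have hex : ∀ x : Fin 3, ∃ y y' : Fin 3, y ≠ y' ∧ y ≠ x ∧ y' ≠ x := by
        decide
      obtain ⟨y, y', hyy, hy, hy'⟩ := hex x
      obtain ⟨a, b, hab⟩ := nu_span (fun h => hyy (hf h) : f y ≠ f y') (fun j => z (D.cj r j))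
      rw [hab]
      refine Submodule.add_mem _ (Submodule.smul_mem _ _ (Submodule.subset_span ⟨f y, ?_, rfl⟩))
        (Submodule.smul_mem _ _ (Submodule.subset_span ⟨f y', ?_, rfl⟩))
      · exact Finset.mem_insert_of_mem (Finset.mem_image.2 ⟨y, Finset.mem_erase.2 ⟨hy, Finset.mem_univ _⟩, rfl⟩)
      · exact Finset.mem_insert_of_mem (Finset.mem_image.2 ⟨y', Finset.mem_erase.2 ⟨hy', Finset.mem_univ _⟩, rfl⟩)
  · have h0 : (fun j => z (D.cj r j)) = 0 := by
      ext j
      exact hz' r j hr hrs hrt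
    rw [h0]
    exact Submodule.zero_mem _

theorem exc [Infinite K] {s t : V} (hs : D.st s) (ht : D.st t) (hst : s ≠ t)
    {π : Equiv.Perm (Fin 3)} {α : Fin N →₀ ℕ} (hπ : ∀ x, D.fx t (π x) = D.fx s x)
    (hS : α.support = Finset.univ.image (D.fx s))
    (hA : ∀ A, D.Nm 2 α.support A → (∀ v ∈ A, ∃ x, v = D.arm s x ∨ v = D.arm t (π x)) ∧
        ∀ x, ¬ (D.arm s x ∈ A ∧ D.arm t (π x) ∈ A))
    {f : MvPolynomial (Fin N) K} (hα : ∀ m ∈ f.support, m.filter (fun i => D.Fr i) = α)
    (hf : ∀ z ∈ D.QS K 2 α.support, aeval z f = (0 : K)) : f ∈ PQ (D.QS K 2 α.support) := by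
  have hSF : ∀ i ∈ α.support, D.Fr i := by
    intro i hi
    rw [hS] at hi
    obtain ⟨x, -, rfl⟩ := Finset.mem_image.1 hi
    exact fx_fr D hs x
  -- the same data with the roles of `s` and `t` exchanged
  have hπ' : ∀ x, D.fx s (π.symm x) = D.fx t x := by
    intro x
    rw [← hπ (π.symm x), Equiv.apply_symm_apply]
  have hS' : α.support = Finset.univ.image (D.fx t) := by
    rw [hS]
    ext i
    simp only [Finset.mem_image, Finset.mem_univ, true_and]
    constructor
    · rintro ⟨x, rfl⟩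
      exact ⟨π x, hπ x⟩
    · rintro ⟨x, rfl⟩
      exact ⟨π.symm x, hπ' x⟩
  -- stars are not in normal sets
  have hnst : ∀ A, D.Nm 2 α.support A → ∀ r, D.st r → r ∉ A := by
    intro A hAn r hr hrA
    obtain ⟨x, h | h⟩ := (hA A hAn).1 r hrA
    · exact star_ne_arm D hr hs x h
    · exact star_ne_arm D hr ht _ h
  have hW0 : ∀ A, D.Nm 2 α.support A → ∀ r, D.st r → r ≠ s → r ≠ t → D.W K A r = ⊥ := by
    intro A hAn r hr hrs hrt
    unfold Dat.W
    rw [if_neg (hnst A hAn r hr), Submodule.span_eq_bot]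
    rintro p ⟨x, hx, -⟩
    exfalso
    obtain ⟨y, h | h⟩ := (hA A hAn).1 _ hx
    · exact earm_ne D hr hs hrs _ _ h
    · exact earm_ne D hr ht hrt _ _ h
  have hE1 : ∀ A, D.Nm 2 α.support A → (∃ x, ∀ y, D.arm s y ∈ A → y = x) ∨ ∃ x, ∀ y, D.arm t y ∈ A → y = x := by
    intro A hAn
    by_contra hcon
    push Not at hcon
    obtain ⟨h1, h2⟩ := hcon
    have hX : 1 < (Finset.univ.filter (fun x => D.arm s x ∈ A)).card := by
      obtain ⟨y, hy, -⟩ := h1 0
      obtain ⟨y', hy', hne⟩ := h1 y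
      rw [Finset.one_lt_card]
      exact ⟨y, Finset.mem_filter.2 ⟨Finset.mem_univ _, hy⟩, y', Finset.mem_filter.2 ⟨Finset.mem_univ _, hy'⟩,
        Ne.symm hne⟩
    have hY : 1 < (Finset.univ.filter (fun x => D.arm t (π x) ∈ A)).card := by
      obtain ⟨y, hy, -⟩ := h2 0
      obtain ⟨y', hy', hne⟩ := h2 y
      rw [Finset.one_lt_card]
      refine ⟨π.symm y, Finset.mem_filter.2 ⟨Finset.mem_univ _, ?_⟩, π.symm y',
        Finset.mem_filter.2 ⟨Finset.mem_univ _, ?_⟩, ?_⟩
      · rw [Equiv.apply_symm_apply]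
        exact hy
      · rw [Equiv.apply_symm_apply]
        exact hy'
      · intro h
        exact hne (π.symm.injective h).symm
    have hd : Disjoint (Finset.univ.filter (fun x => D.arm s x ∈ A))
        (Finset.univ.filter (fun x => D.arm t (π x) ∈ A)) := by
      rw [Finset.disjoint_left]
      intro x hx hx'
      exact (hA A hAn).2 x ⟨(Finset.mem_filter.1 hx).2, (Finset.mem_filter.1 hx').2⟩
    have hc := Finset.card_le_univ (Finset.univ.filter (fun x => D.arm s x ∈ A) ∪
      Finset.univ.filter (fun x => D.arm t (π x) ∈ A))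
    rw [Finset.card_union_of_disjoint hd, Fintype.card_fin] at hc
    omega
  have hpf : ∀ (r : V), D.st r → ∀ A, D.Nm 2 α.support A → ∀ x, (∀ y, D.arm r y ∈ A → y = x) →
      ∀ z : Fin N → K, (fun j => z (D.cj r j)) ∈ D.W K A r → aeval z (D.pf K r x) = (0 : K) := by
    intro r hr A hAn x hx z hz
    rw [pf_zero_iff]
    unfold Dat.W at hz
    rw [if_neg (hnst A hAn r hr)] at hz
    refine Submodule.span_mono ?_ hz
    rintro p ⟨y, hy, rfl⟩
    rw [hx y hy]
    exact Set.mem_singleton _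
  -- the splitting
  set Bad : (Fin N →₀ ℕ) → Prop := fun m => ∃ r j, D.st r ∧ r ≠ s ∧ r ≠ t ∧ m (D.cj r j) ≠ 0 with hBad
  set f₁ : MvPolynomial (Fin N) K := ∑ m ∈ f.support.filter Bad, monomial m (coeff m f) with hf₁
  set f₀ : MvPolynomial (Fin N) K := ∑ m ∈ f.support.filter (fun m => ¬ Bad m), monomial m (coeff m f) with hf₀
  have hsplit : f = f₁ + f₀ := by
    rw [hf₁, hf₀, Finset.sum_filter_add_sum_filter_not]
    exact f.as_sum
  have hmono : ∀ m ∈ f.support, Bad m → ∀ c : K, ∀ z ∈ D.QS K 2 α.support, aeval z (monomial m c) = (0 : K) := by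
    intro m hm hb c z hz
    rcases hz with ⟨A, hAn, hzA⟩ | ⟨i, hi, hzi⟩
    · obtain ⟨r, j, hr, hrs, hrt, hmr⟩ := hb
      have h1 := hzA r hr
      rw [hW0 A hAn r hr hrs hrt] at h1
      have h2 : z (D.cj r j) = 0 := congrFun ((Submodule.mem_bot K).1 h1) j
      exact mono_zero c h2 hmr
    · refine mono_zero c hzi ?_
      have h1 := hα m hm
      have h2 := Finsupp.mem_support_iff.1 hi
      rw [← h1, Finsupp.filter_apply_pos (fun i => D.Fr i) m (hSF i hi)] at h2
      exact h2
  have hf₁Q : f₁ ∈ PQ (D.QS K 2 α.support) := by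
    rw [hf₁]
    refine Ideal.sum_mem _ ?_
    intro m hm
    obtain ⟨hm1, hm2⟩ := Finset.mem_filter.1 hm
    exact pq_monomial m _ (hmono m hm1 hm2 1)
  have hf₁0 : ∀ z ∈ D.QS K 2 α.support, aeval z f₁ = (0 : K) := by
    intro z hz
    rw [hf₁, map_sum]
    refine Finset.sum_eq_zero ?_
    intro m hm
    obtain ⟨hm1, hm2⟩ := Finset.mem_filter.1 hm
    exact hmono m hm1 hm2 _ z hz
  have hf₀0 : ∀ z ∈ D.QS K 2 α.support, aeval z f₀ = (0 : K) := by
    intro z hz
    have h1 := hf z hz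
    rw [hsplit, map_add, hf₁0 z hz, zero_add] at h1
    exact h1
  -- `f₀` does not see the other stars
  let cut : (Fin N → K) → (Fin N → K) := fun z i =>
    if ∃ r j, D.st r ∧ r ≠ s ∧ r ≠ t ∧ i = D.cj r j then 0 else z i
  have hcut : ∀ z, (aeval z f₀ : K) = aeval (cut z) f₀ := by
    intro z
    rw [hf₀, map_sum, map_sum]
    refine Finset.sum_congr rfl ?_
    intro m hm
    obtain ⟨hm1, hm2⟩ := Finset.mem_filter.1 hm
    apply mono_congr
    intro i hi
    simp only [cut]
    rw [if_neg]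
    rintro ⟨r, j, hr, hrs, hrt, rfl⟩
    exact hm2 ⟨r, j, hr, hrs, hrt, hi⟩
  have hcut0 : ∀ z r j, D.st r → r ≠ s → r ≠ t → cut z (D.cj r j) = 0 := by
    intro z r j hr hrs hrt
    simp only [cut]
    rw [if_pos ⟨r, j, hr, hrs, hrt, rfl⟩]
  have hcut1 : ∀ z r j, D.st r → (r = s ∨ r = t) → cut z (D.cj r j) = z (D.cj r j) := by
    intro z r j hr hrr
    simp only [cut]
    rw [if_neg]
    rintro ⟨r', j', hr', hrs, hrt, h⟩
    have h1 := (D.cj_inj r r' j j' hr hr' h).1
    rcases hrr with h2 | h2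
    · exact hrs (h1.symm.trans h2)
    · exact hrt (h1.symm.trans h2)
  have hvs : ∀ x, ∀ z : Fin N → K, aeval z (D.pf K s x) = (0 : K) → aeval z f₀ = (0 : K) := by
    intro x z hz
    rw [hcut z]
    apply hf₀0
    refine qs_mk D K hs ht hst π.injective hπ hS (x := x) ?_ (fun r j hr hrs hrt => hcut0 z r j hr hrs hrt)
    rw [aeval_pf] at hz ⊢
    rw [← hz]
    refine Finset.sum_congr rfl (fun j _ => ?_)
    rw [hcut1 z s j hs (Or.inl rfl)]
  have hvt : ∀ x, ∀ z : Fin N → K, aeval z (D.pf K t x) = (0 : K) → aeval z f₀ = (0 : K) := by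
    intro x z hz
    rw [hcut z]
    apply hf₀0
    refine qs_mk D K ht hs (Ne.symm hst) π.symm.injective hπ' hS' (x := x) ?_
      (fun r j hr hrt hrs => hcut0 z r j hr hrs hrt)
    rw [aeval_pf] at hz ⊢
    rw [← hz]
    refine Finset.sum_congr rfl (fun j _ => ?_)
    rw [hcut1 z t j ht (Or.inr rfl)]
  -- the product
  let l : Fin N ⊕ (Fin 3 ⊕ Fin 3) → MvPolynomial (Fin N) K :=
    Sum.elim (fun i => X i) (Sum.elim (fun x => D.pf K s x) (fun x => D.pf K t x))
  have hsv : ∀ r, D.st r → ∀ x y, (aeval (D.sv K r (nu K y)) (D.pf K r x) : K) = 0 ↔ x = y := by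
    intro r hr x y
    rw [aeval_pf]
    simp only [sv_cj D K hr]
    exact pp_nu K x y
  have hsv' : ∀ r r', D.st r → D.st r' → r ≠ r' → ∀ x y,
      (aeval (D.sv K r (nu K y)) (D.pf K r' x) : K) = 0 := by
    intro r r' hr hr' hne x y
    rw [aeval_pf]
    refine Finset.sum_eq_zero (fun j _ => ?_)
    rw [sv_ne D K, mul_zero]
    intro j' h
    exact hne (D.cj_inj r' r j j' hr' hr h).1.symm
  have hsing : ∀ i ∈ α.support, ∀ r, D.st r → ∀ x,
      (aeval (Pi.single i 1 : Fin N → K) (D.pf K r x) : K) = 0 := by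
    intro i hi r hr x
    rw [aeval_pf]
    refine Finset.sum_eq_zero (fun j _ => ?_)
    rw [Pi.single_eq_of_ne (Ne.symm (hSF i hi r j hr)), mul_zero]
  have hsvi : ∀ i ∈ α.support, ∀ r, D.st r → ∀ y, D.sv K r (nu K y) i = 0 := by
    intro i hi r hr y
    exact sv_ne D K _ (fun j => hSF i hi r j hr)
  have hoth : ∀ x : Fin 3, ∃ y, x ≠ y := by decide
  let I : Finset (Fin N ⊕ (Fin 3 ⊕ Fin 3)) := α.support.disjSum Finset.univ
  have hsep : ∀ x ∈ I, ∀ y ∈ I, x ≠ y → ∃ z : Fin N → K, aeval z (l y) = (0 : K) ∧ aeval z (l x) ≠ (0 : K) := by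
    rintro (i | (x | x)) hx (i' | (y | y)) hy hxy
    · refine ⟨Pi.single i 1, ?_, ?_⟩
      · simp only [l, Sum.elim_inl, aeval_X]
        exact Pi.single_eq_of_ne (fun h => hxy (by rw [h])) _
      · simp only [l, Sum.elim_inl, aeval_X, Pi.single_eq_same]
        exact one_ne_zero
    · refine ⟨Pi.single i 1, hsing i (by simpa [I] using hx) s hs y, ?_⟩
      simp only [l, Sum.elim_inl, aeval_X, Pi.single_eq_same]
      exact one_ne_zero
    · refine ⟨Pi.single i 1, hsing i (by simpa [I] using hx) t ht y, ?_⟩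
      simp only [l, Sum.elim_inl, aeval_X, Pi.single_eq_same]
      exact one_ne_zero
    · obtain ⟨y, hy'⟩ := hoth x
      refine ⟨D.sv K s (nu K y), ?_, fun h => hy' ((hsv s hs x y).1 h)⟩
      simp only [l, Sum.elim_inl, aeval_X]
      exact hsvi i' (by simpa [I] using hy) s hs y
    · refine ⟨D.sv K s (nu K y), (hsv s hs y y).2 rfl, fun h => hxy ?_⟩
      rw [(hsv s hs x y).1 h]
    · obtain ⟨w, hw⟩ := hoth x
      exact ⟨D.sv K s (nu K w), hsv' s t hs ht hst y w, fun h => hw ((hsv s hs x w).1 h)⟩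
    · obtain ⟨y, hy'⟩ := hoth x
      refine ⟨D.sv K t (nu K y), ?_, fun h => hy' ((hsv t ht x y).1 h)⟩
      simp only [l, Sum.elim_inl, aeval_X]
      exact hsvi i' (by simpa [I] using hy) t ht y
    · obtain ⟨w, hw⟩ := hoth x
      exact ⟨D.sv K t (nu K w), hsv' t s ht hs (Ne.symm hst) y w, fun h => hw ((hsv t ht x w).1 h)⟩
    · refine ⟨D.sv K t (nu K y), (hsv t ht y y).2 rfl, fun h => hxy ?_⟩
      rw [(hsv t ht x y).1 h]
  have hhom : ∀ x ∈ I, (l x).IsHomogeneous 1 := by
    rintro (i | (x | x)) -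
    · exact isHomogeneous_X K i
    · exact pf_hom D K s x
    · exact pf_hom D K t x
  have hne : ∀ x ∈ I, l x ≠ 0 := by
    rintro (i | (x | x)) hx h0
    · exact X_ne_zero i h0
    · obtain ⟨y, hy⟩ := hoth x
      have h1 : D.pf K s x = 0 := h0
      exact hy ((hsv s hs x y).1 (by rw [h1, map_zero]))
    · obtain ⟨y, hy⟩ := hoth x
      have h1 : D.pf K t x = 0 := h0
      exact hy ((hsv t ht x y).1 (by rw [h1, map_zero]))
  have hdvd : ∏ x ∈ I, l x ∣ f₀ := by
    refine prod_dvd I l hhom hne hsep ?_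
    rintro (i | (x | x)) hx z hz
    · apply hf₀0
      right
      refine ⟨i, by simpa [I] using hx, ?_⟩
      simpa only [l, Sum.elim_inl, aeval_X] using hz
    · exact hvs x z hz
    · exact hvt x z hz
  have hP : ∏ x ∈ I, l x ∈ PQ (D.QS K 2 α.support) := by
    apply pq_mem
    · exact isprod_prod I l (fun x hx => isprod_lin (hhom x hx))
    · intro z hz
      rw [map_prod]
      rcases hz with ⟨A, hAn, hzA⟩ | ⟨i, hi, hzi⟩
      · rcases hE1 A hAn with ⟨x, hx⟩ | ⟨x, hx⟩
        · refine Finset.prod_eq_zero (i := Sum.inr (Sum.inl x)) (by simp [I]) ?_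
          exact hpf s hs A hAn x hx z (hzA s hs)
        · refine Finset.prod_eq_zero (i := Sum.inr (Sum.inr x)) (by simp [I]) ?_
          exact hpf t ht A hAn x hx z (hzA t ht)
      · refine Finset.prod_eq_zero (i := Sum.inl i) (by simpa [I] using hi) ?_
        simpa only [l, Sum.elim_inl, aeval_X] using hzi
  rw [hsplit]
  refine Ideal.add_mem _ hf₁Q ?_
  obtain ⟨g, hg⟩ := hdvd
  rw [hg]
  exact Ideal.mul_mem_right _ _ hP

end Pool.Agent.H6.SC
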