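import Pool.Agent.H6.SC.DLin

/-!
# SC.Exp2 : every admissible graph has the exposure property for `n = 3`

PROOF. Suppose `B ≠ ∅` and every `v ∈ B` has two different `dn`-neighbours; we show `4 ≤ |B|`. (`(nbs G w).card = 3 ↔ st w`, `card_nbs_iff`.) A `dn`-neighbour which is not in `B` is a star (with all neighbours in `B`).
B contains a vertex that is not a star: if all elements of `B` are stars, take `v ∈ B` and a `dn`-neighbour `u`: `u ∈ B` is a star (`far1`) or `u` is a star: contradiction.
Let `v ∈ B` be not a star, with `dn`-neighbours `u ≠ w` (these are all its neighbours, `two`).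
(1) `u`, `w` not stars: `u, w ∈ B`. Let `u'` be a `dn`-neighbour of `u`, `u' ≠ v`; `u' ≠ w` (`tri`). If `u' ∈ B`: `{v, u, w, u'} ⊆ B`. Otherwise `u'` is a star with the three neighbours `u, p, q` in `B`; `p, q ≠ v` (`tri`), at most one of them is
`w`, so there are four elements `v, u, w` and one of `p, q`.
(2) one is a star, say `u` (then `w` is not a star, `far2`, so `w ∈ B`). If `u ∉ B`: the three neighbours of `u` are in `B`, and `w` is not one of them (`tri`): four elements. If `u ∈ B`: let `w'` be a `dn`-neighbour of `w`, `w' ≠ v`; `w' ≠ u` (`tri`).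
If `w' ∈ B`: `{v, w, u, w'}`. If not: `w'` is a star with three neighbours in `B`, one of them is `w`, none is `v` (`v` is a neighbour of `u`, `far2`, `w' ≠ u`), none is `u` (`far1`): at least `v, u` and three neighbours.
-/

set_option autoImplicit false

namespace Pool.Agent.H6.SC

open scoped Classical

theorem expos_mono {V : Type} [Fintype V] {G : SimpleGraph V} {m n : ℕ} (h : Expos G n) (hmn : m ≤ n) : Expos G m :=
  fun B hB hm => h B hB (hm.trans hmn)

/-- a vertex of degree three with all neighbours in `B`, and an element of `B` not adjacent to it -/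
private theorem exp2_star {V : Type} [Fintype V] {G : SimpleGraph V} {B : Finset V} {t x : V}
    (ht : (nbs G t).card = 3) (hB : ∀ y, G.Adj t y → y ∈ B) (hx : x ∈ B) (hn : ¬ G.Adj t x) :
    4 ≤ B.card := by
  have h1 : nbs G t ⊆ B.erase x := by
    intro y hy
    rw [mem_nbs] at hy
    rw [Finset.mem_erase]
    refine ⟨?_, hB y hy⟩
    rintro rfl
    exact hn hy
  have h2 := Finset.card_le_card h1
  rw [ht, Finset.card_erase_of_mem hx] at h2
  omega

private theorem exp2_four {V : Type} [Fintype V] {B : Finset V} {a b c d : V}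
    (ha : a ∈ B) (hb : b ∈ B) (hc : c ∈ B) (hd : d ∈ B) (hab : a ≠ b) (hac : a ≠ c) (had : a ≠ d)
    (hbc : b ≠ c) (hbd : b ≠ d) (hcd : c ≠ d) : 4 ≤ B.card := by
  have h1 : ({a, b, c, d} : Finset V) ⊆ B := by
    intro y hy
    simp only [Finset.mem_insert, Finset.mem_singleton] at hy
    rcases hy with rfl | rfl | rfl | rfl <;> assumption
  have h2 : ({a, b, c, d} : Finset V).card = 4 := by
    rw [Finset.card_insert_of_notMem, Finset.card_insert_of_notMem, Finset.card_insert_of_notMem,
      Finset.card_singleton]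
    · simpa using hcd
    · simp [hbc, hbd]
    · simp [hab, hac, had]
  rw [← h2]
  exact Finset.card_le_card h1

theorem expos_three {V : Type} [Fintype V] {G : SimpleGraph V} {N : ℕ} (D : Dat G N) : Expos G 3 := by
  intro B hB hcard
  by_contra hcon
  have hP : ∀ v ∈ B, ∃ w w', dn G B v w ∧ dn G B v w' ∧ w ≠ w' := by
    intro v hv
    by_contra h
    apply hcon
    refine ⟨v, hv, fun w w' hw hw' => ?_⟩
    by_contra hne
    exact h ⟨w, w', hw, hw', hne⟩
  have h4 : ¬ 4 ≤ B.card := by omega
  obtain ⟨v, hv⟩ := hB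
  obtain ⟨u, w, hu, hw, huw⟩ := hP v hv
  -- a dn neighbour outside `B`
  have key : ∀ a b : V, dn G B v a → dn G B v b → a ≠ b → a ∈ B := by
    intro a b ha hb hab
    by_contra haB
    have h1 := ha.2.resolve_left haB
    by_cases hbB : b ∈ B
    · exact h4 (exp2_star h1.1 h1.2 hbB (D.tri a v b ha.1.symm hb.1))
    · have h2 := hb.2.resolve_left hbB
      exact hab (D.far2 a b v ((card_nbs_iff D a).1 h1.1) ((card_nbs_iff D b).1 h2.1)
        ha.1.symm hb.1.symm)
  have huB := key u w hu hw huw
  have hwB := key w u hw hu huw.symm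
  obtain ⟨w', hw', hne⟩ : ∃ w', dn G B w w' ∧ w' ≠ v := by
    obtain ⟨x, y, hx, hy, hxy⟩ := hP w hwB
    by_cases h : x = v
    · exact ⟨y, hy, fun h' => hxy (h.trans h'.symm)⟩
    · exact ⟨x, hx, h⟩
  have hwu : w' ≠ u := by
    rintro rfl
    exact D.tri v w w' hw.1 hw'.1 hu.1
  by_cases hB' : w' ∈ B
  · exact h4 (exp2_four hv huB hwB hB' hu.1.ne hw.1.ne hne.symm huw hwu.symm hw'.1.ne)
  · have h1 := hw'.2.resolve_left hB'
    exact h4 (exp2_star h1.1 h1.2 hv (fun h => D.tri v w w' hw.1 hw'.1 h.symm))

end Pool.Agent.H6.SC
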