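import Pool.Agent.H6.SC.FamG

/-!
# SC.FamA : the graph `FG`

PROOFS. By cases on the constructors (`rcases` on `FE`), `subst`, `simp`, `omega`; `(hb.one x)`, `(hb.two)`.
-/

set_option autoImplicit false

namespace Pool.Agent.H6.SC

open FV

variable {b : Fin 3 → ℕ} {t : ℕ}

private lemma S_adj_P (s : Fin 2) (x : Fin 3) (i : ℕ) (h : i ≤ 2 * b x) :
    (FG b t).Adj (S s) (P x i h) ↔ (s = 0 ∧ i = 0) ∨ (s = 1 ∧ i = 2 * b x) := by
  simp [FG, FE]

private lemma P_adj_S (s : Fin 2) (x : Fin 3) (i : ℕ) (h : i ≤ 2 * b x) :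
    (FG b t).Adj (P x i h) (S s) ↔ (s = 0 ∧ i = 0) ∨ (s = 1 ∧ i = 2 * b x) := by
  simp [FG, FE]

private lemma S_adj_S (s s' : Fin 2) : ¬ (FG b t).Adj (S s) (S s') := by
  simp [FG, FE]

private lemma S_adj_T (s : Fin 2) (j : ℕ) (h : j ≤ t) : ¬ (FG b t).Adj (S s) (T j h) := by
  simp [FG, FE]

private lemma T_adj_S (s : Fin 2) (j : ℕ) (h : j ≤ t) : ¬ (FG b t).Adj (T j h) (S s) := by
  simp [FG, FE]

private lemma P_adj_P (x y : Fin 3) (i j : ℕ) (h : i ≤ 2 * b x) (h' : j ≤ 2 * b y) :
    (FG b t).Adj (P x i h) (P y j h') ↔ x = y ∧ (i + 1 = j ∨ j + 1 = i) := by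
  simp only [FG, FE]
  constructor
  · rintro (⟨h1, h2⟩ | ⟨h1, h2⟩)
    · exact ⟨h1, Or.inl h2⟩
    · exact ⟨h1.symm, Or.inr h2⟩
  · rintro ⟨h1, h2 | h2⟩
    · exact Or.inl ⟨h1, h2⟩
    · exact Or.inr ⟨h1.symm, h2⟩

private lemma P_adj_T (x : Fin 3) (i j : ℕ) (h : i ≤ 2 * b x) (h' : j ≤ t) :
    (FG b t).Adj (P x i h) (T j h') ↔ x = 2 ∧ i = 2 ∧ j = 0 := by
  simp [FG, FE]

private lemma T_adj_P (x : Fin 3) (i j : ℕ) (h : i ≤ 2 * b x) (h' : j ≤ t) :
    (FG b t).Adj (T j h') (P x i h) ↔ x = 2 ∧ i = 2 ∧ j = 0 := by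
  simp [FG, FE]

private lemma T_adj_T (i j : ℕ) (h : i ≤ t) (h' : j ≤ t) :
    (FG b t).Adj (T i h) (T j h') ↔ (i + 1 = j ∨ j + 1 = i) := by
  simp [FG, FE]

theorem fadj_arm (hb : FOk b) (s : FV b t) (hs : fst s) (v : FV b t) : (FG b t).Adj s v ↔ ∃ x, farm s x = v := by
  have h0 := hb.one 0
  have h1 := hb.one 1
  have h2 := hb.two
  cases s with
  | S s =>
    cases v with
    | S s' =>
      simp only [S_adj_S, false_iff, farm]
      rintro ⟨x, hx⟩
      split_ifs at hx
    | P y j h =>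
      rw [S_adj_P]
      simp only [farm]
      have hs2 : s = 0 ∨ s = 1 := by omega
      rcases hs2 with rfl | rfl
      · simp only [true_and, zero_ne_one, false_and, or_false, if_true]
        constructor
        · rintro rfl
          exact ⟨y, rfl⟩
        · rintro ⟨x, hx⟩
          injection hx with _ e2
          exact e2.symm
      · simp only [one_ne_zero, false_and, true_and, false_or, if_false]
        constructor
        · rintro rfl
          exact ⟨y, rfl⟩
        · rintro ⟨x, hx⟩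
          injection hx with e1 e2
          subst e1
          exact e2.symm
    | T j h =>
      simp only [S_adj_T, false_iff, farm]
      rintro ⟨x, hx⟩
      split_ifs at hx
  | P x i h =>
    obtain ⟨rfl, rfl⟩ : x = 2 ∧ i = 2 := hs
    cases v with
    | S s' =>
      rw [P_adj_S]
      simp only [farm]
      constructor
      · rintro (⟨_, h3⟩ | ⟨_, h3⟩) <;> omega
      · rintro ⟨y, hy⟩
        split_ifs at hy
    | P y j h' =>
      rw [P_adj_P]
      simp only [farm]
      constructor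
      · rintro ⟨rfl, h3 | h3⟩
        · refine ⟨1, ?_⟩
          simp only [one_ne_zero, if_false, if_true]
          subst h3
          congr 1
          omega
        · refine ⟨0, ?_⟩
          simp only [if_true]
          obtain rfl : j = 1 := by omega
          rfl
      · rintro ⟨z, hz⟩
        split_ifs at hz
        · injection hz with e1 e2
          exact ⟨e1, Or.inr (by omega)⟩
        · injection hz with e1 e2
          exact ⟨e1, Or.inl (by omega)⟩
    | T j h' =>
      rw [P_adj_T]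
      simp only [farm, true_and]
      constructor
      · rintro rfl
        exact ⟨2, by simp⟩
      · rintro ⟨z, hz⟩
        split_ifs at hz
        injection hz with e1
        exact e1.symm
  | T j h => exact absurd hs (by simp [fst])

theorem farm_inj (hb : FOk b) (s : FV b t) (hs : fst s) : Function.Injective (farm s) := by
  have h2 := hb.two
  intro x y hxy
  cases s with
  | S s =>
    simp only [farm] at hxy
    split_ifs at hxy
    · injection hxy
    · injection hxy
  | P z i h =>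
    obtain ⟨rfl, rfl⟩ : z = 2 ∧ i = 2 := hs
    simp only [farm] at hxy
    have hx : x = 0 ∨ x = 1 ∨ x = 2 := by omega
    have hy : y = 0 ∨ y = 1 ∨ y = 2 := by omega
    rcases hx with rfl | rfl | rfl <;> rcases hy with rfl | rfl | rfl <;> simp at hxy ⊢ <;> omega
  | T j h => exact absurd hs (by simp [fst])

theorem ffar1 (hb : FOk b) (s u : FV b t) (hs : fst s) (hu : fst u) : ¬ (FG b t).Adj s u := by
  have h2 := hb.two
  cases s with
  | S s =>
    cases u with
    | S s' => exact S_adj_S s s'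
    | P y j h =>
      obtain ⟨rfl, rfl⟩ : y = 2 ∧ j = 2 := hu
      rw [S_adj_P]
      omega
    | T j h => exact absurd hu (by simp [fst])
  | P x i h =>
    obtain ⟨rfl, rfl⟩ : x = 2 ∧ i = 2 := hs
    cases u with
    | S s' =>
      rw [P_adj_S]
      omega
    | P y j h' =>
      obtain ⟨rfl, rfl⟩ : y = 2 ∧ j = 2 := hu
      rw [P_adj_P]
      omega
    | T j h' => exact absurd hu (by simp [fst])
  | T j h => exact absurd hs (by simp [fst])

theorem ffar2 (hb : FOk b) (s u v : FV b t) (hs : fst s) (hu : fst u) (h1 : (FG b t).Adj s v)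
    (h2 : (FG b t).Adj u v) : s = u := by
  have k0 := hb.one 0
  have k1 := hb.one 1
  have k2 := hb.two
  have kk : ∀ x, 1 ≤ b x := hb.one
  cases s with
  | S s =>
    cases u with
    | S s' =>
      cases v with
      | S s'' => exact absurd h1 (S_adj_S _ _)
      | P y j h =>
        rw [S_adj_P] at h1 h2
        have := kk y
        have : s = s' := by omega
        rw [this]
      | T j h => exact absurd h1 (S_adj_T _ _ _)
    | P y j h =>
      obtain ⟨rfl, rfl⟩ : y = 2 ∧ j = 2 := hu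
      cases v with
      | S s'' => exact absurd h1 (S_adj_S _ _)
      | P y j h =>
        rw [S_adj_P] at h1
        rw [P_adj_P] at h2
        obtain ⟨rfl, h3⟩ := h2
        omega
      | T j h => exact absurd h1 (S_adj_T _ _ _)
    | T j h => exact absurd hu (by simp [fst])
  | P x i h =>
    obtain ⟨rfl, rfl⟩ : x = 2 ∧ i = 2 := hs
    cases u with
    | S s' =>
      cases v with
      | S s'' => exact absurd h2 (S_adj_S _ _)
      | P y j h =>
        rw [S_adj_P] at h2
        rw [P_adj_P] at h1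
        obtain ⟨rfl, h3⟩ := h1
        omega
      | T j h => exact absurd h2 (S_adj_T _ _ _)
    | P y j h' =>
      obtain ⟨rfl, rfl⟩ : y = 2 ∧ j = 2 := hu
      rfl
    | T j h' => exact absurd hu (by simp [fst])
  | T j h => exact absurd hs (by simp [fst])

theorem ftri (hb : FOk b) (u v w : FV b t) (h1 : (FG b t).Adj u v) (h2 : (FG b t).Adj v w) :
    ¬ (FG b t).Adj u w := by
  have k2 := hb.two
  have kk : ∀ x, 1 ≤ b x := hb.one
  intro h3
  cases u <;> cases v <;> cases w <;>
    simp only [S_adj_S, S_adj_T, T_adj_S, S_adj_P, P_adj_S, P_adj_P, P_adj_T, T_adj_P, T_adj_T] at h1 h2 h3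
  all_goals omega

theorem fex (hb : FOk b) (v : FV b t) : ∃ u, (FG b t).Adj v u := by
  have kk : ∀ x, 1 ≤ b x := hb.one
  cases v with
  | S s =>
    have hs2 : s = 0 ∨ s = 1 := by omega
    rcases hs2 with rfl | rfl
    · exact ⟨P 0 0 (Nat.zero_le _), (S_adj_P _ _ _ _).mpr (Or.inl ⟨rfl, rfl⟩)⟩
    · exact ⟨P 0 (2 * b 0) le_rfl, (S_adj_P _ _ _ _).mpr (Or.inr ⟨rfl, rfl⟩)⟩
  | P x i h =>
    have := kk x
    rcases Nat.eq_zero_or_pos i with h0 | h0
    · exact ⟨P x (i + 1) (by omega), (P_adj_P _ _ _ _ _ _).mpr ⟨rfl, Or.inl rfl⟩⟩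
    · exact ⟨P x (i - 1) (by omega), (P_adj_P _ _ _ _ _ _).mpr ⟨rfl, Or.inr (by omega)⟩⟩
  | T j h =>
    rcases Nat.eq_zero_or_pos j with h0 | h0
    · exact ⟨P 2 2 (by have := hb.two; omega), (T_adj_P _ _ _ _ _).mpr ⟨rfl, rfl, h0⟩⟩
    · exact ⟨T (j - 1) (by omega), (T_adj_T _ _ _ _).mpr (Or.inr (by omega))⟩

theorem ftwo (v : FV b t) (hv : ¬ fst v) (u w x : FV b t) (h1 : (FG b t).Adj v u) (h2 : (FG b t).Adj v w)
    (h3 : (FG b t).Adj v x) : u = w ∨ u = x ∨ w = x := by
  cases v with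
  | S s => exact absurd trivial hv
  | P y i h =>
    have hv' : ¬ (y = 2 ∧ i = 2) := hv
    cases u <;> cases w <;> cases x <;>
      simp only [S_adj_S, S_adj_T, T_adj_S, S_adj_P, P_adj_S, P_adj_P, P_adj_T, T_adj_P, T_adj_T] at h1 h2 h3 <;>
      simp only [FV.S.injEq, FV.P.injEq, FV.T.injEq, reduceCtorEq, false_or, or_false, false_and, and_false]
    all_goals first
      | omega
      | (obtain ⟨rfl, h3⟩ := h3; omega; done)
      | (obtain ⟨rfl, h2⟩ := h2; omega; done)
      | (obtain ⟨rfl, h1⟩ := h1; omega; done)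
      | (obtain ⟨rfl, h3⟩ := h3; obtain ⟨rfl, h2⟩ := h2; omega; done)
      | (obtain ⟨rfl, h3⟩ := h3; obtain ⟨rfl, h1⟩ := h1; omega; done)
      | (obtain ⟨rfl, h2⟩ := h2; obtain ⟨rfl, h1⟩ := h1; omega; done)
      | (obtain ⟨rfl, h3⟩ := h3; obtain ⟨rfl, h2⟩ := h2; obtain ⟨rfl, h1⟩ := h1; omega; done)
  | T j h =>
    cases u <;> cases w <;> cases x <;>
      simp only [S_adj_S, S_adj_T, T_adj_S, S_adj_P, P_adj_S, P_adj_P, P_adj_T, T_adj_P, T_adj_T] at h1 h2 h3 <;>
      simp only [FV.S.injEq, FV.P.injEq, FV.T.injEq, reduceCtorEq, false_or, or_false, false_and, and_false]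
    all_goals omega

end Pool.Agent.H6.SC
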