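import Pool.Agent.H6.SC.FamA
import Pool.Agent.H6.SC.Dat

/-!
# SC.FamC : the coordinates of the graph `FG`

PROOFS. `fre_cases`: an edge without star: `FE` gives `P x i, P x (i+1)` (not `P 2 2`) or `T i, T (i+1)`; a loop at `v`: all neighbours of `v` are equal; `P x i` has two different neighbours (`S 0` or `P x (i-1)`, and `S 1` or `P x (i+1)`; `S 0 ≠ S 1`), `T j` with `j < t` has the neighbours `T (j+1)` and `T (j-1)` or `P 2 2`; so
`v = T t`. The other statements: codes: `foff b x + i < foff b x + 2 b x`, the blocks of codes of the three paths and of the tail are disjoint (`fin_cases x`, `omega`); `toF_inj`.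
-/

set_option autoImplicit false

namespace Pool.Agent.H6.SC

open FV

variable {b : Fin 3 → ℕ} {t : ℕ}

private theorem foff0 : foff b 0 = 0 := rfl
private theorem foff1 : foff b 1 = 2 * b 0 := rfl
private theorem foff2 : foff b 2 = 2 * b 0 + 2 * b 1 := rfl

private theorem fe_cases (u v : FV b t) (h : FE u v) (hu : ¬ fst u) (hv : ¬ fst v) :
    (∃ x i, ∃ (h1 : i + 1 ≤ 2 * b x) (h0 : i ≤ 2 * b x), (x = 2 → i ≠ 1 ∧ i ≠ 2) ∧ u = P x i h0 ∧ v = P x (i + 1) h1) ∨
    (∃ i, ∃ (h1 : i + 1 ≤ t) (h0 : i ≤ t), u = T i h0 ∧ v = T (i + 1) h1) := by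
  cases u with
  | S s => exact absurd trivial hu
  | P x i hi =>
    cases v with
    | S s => exact absurd trivial hv
    | P y j hj =>
      obtain ⟨h1, h2⟩ := h
      subst h1 h2
      refine Or.inl ⟨x, i, hj, hi, ?_, rfl, rfl⟩
      intro hx
      refine ⟨fun h3 => hv ⟨hx, by omega⟩, fun h3 => hu ⟨hx, h3⟩⟩
    | T j hj =>
      obtain ⟨h1, h2, h3⟩ := h
      exact absurd ⟨h1, h2⟩ hu
  | T i hi =>
    cases v with
    | S s => exact absurd h id
    | P y j hj => exact absurd h id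
    | T j hj =>
      have h1 : i + 1 = j := h
      subst h1
      exact Or.inr ⟨i, hj, hi, rfl, rfl⟩

theorem fre_cases (hb : FOk b) (u v : FV b t) (h : Fre (FG b t) fst u v) :
    (∃ x i, ∃ (h1 : i + 1 ≤ 2 * b x) (h0 : i ≤ 2 * b x), (x = 2 → i ≠ 1 ∧ i ≠ 2) ∧
      ((u = P x i h0 ∧ v = P x (i + 1) h1) ∨ (v = P x i h0 ∧ u = P x (i + 1) h1))) ∨
    (∃ i, ∃ (h1 : i + 1 ≤ t) (h0 : i ≤ t),
      ((u = T i h0 ∧ v = T (i + 1) h1) ∨ (v = T i h0 ∧ u = T (i + 1) h1))) ∨
    (u = T t le_rfl ∧ v = T t le_rfl) := by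
  rcases h with ⟨hadj, hu, hv⟩ | ⟨huv, hv, hall⟩
  · rcases hadj with h | h
    · rcases fe_cases u v h hu hv with ⟨x, i, h1, h0, hx, h2, h3⟩ | ⟨i, h1, h0, h2, h3⟩
      · exact Or.inl ⟨x, i, h1, h0, hx, Or.inl ⟨h2, h3⟩⟩
      · exact Or.inr (Or.inl ⟨i, h1, h0, Or.inl ⟨h2, h3⟩⟩)
    · rcases fe_cases v u h hv hu with ⟨x, i, h1, h0, hx, h2, h3⟩ | ⟨i, h1, h0, h2, h3⟩
      · exact Or.inl ⟨x, i, h1, h0, hx, Or.inr ⟨h2, h3⟩⟩
      · exact Or.inr (Or.inl ⟨i, h1, h0, Or.inr ⟨h2, h3⟩⟩)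
  · subst huv
    cases u with
    | S s => exact absurd trivial hv
    | P x i hi =>
      exfalso
      have hbx := hb.one x
      by_cases hi0 : i = 0
      · subst hi0
        have h1 : (FG b t).Adj (P x 0 hi) (S 0) := Or.inr (Or.inl ⟨rfl, rfl⟩)
        have h2 : (FG b t).Adj (P x 0 hi) (P x 1 (by omega)) := Or.inl ⟨rfl, rfl⟩
        have := hall _ _ h1 h2
        cases this
      · have h1 : (FG b t).Adj (P x i hi) (P x (i - 1) (by omega)) := Or.inr ⟨rfl, by omega⟩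
        by_cases hi1 : i = 2 * b x
        · have h2 : (FG b t).Adj (P x i hi) (S 1) := Or.inr (Or.inr ⟨rfl, hi1⟩)
          have := hall _ _ h1 h2
          cases this
        · have h2 : (FG b t).Adj (P x i hi) (P x (i + 1) (by omega)) := Or.inl ⟨rfl, rfl⟩
          have h3 := hall _ _ h1 h2
          injection h3 with h4 h5
          omega
    | T j hj =>
      by_cases hjt : j = t
      · subst hjt
        exact Or.inr (Or.inr ⟨rfl, rfl⟩)
      · exfalso
        have h1 : (FG b t).Adj (T j hj) (T (j + 1) (by omega)) := Or.inl rfl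
        by_cases hj0 : j = 0
        · subst hj0
          have hb2 := hb.two
          have h2 : (FG b t).Adj (T 0 hj) (P 2 2 (by omega)) := Or.inr ⟨rfl, rfl, rfl⟩
          have := hall _ _ h1 h2
          cases this
        · have h2 : (FG b t).Adj (T j hj) (T (j - 1) (by omega)) := Or.inr (by show j - 1 + 1 = j; omega)
          have h3 := hall _ _ h1 h2
          injection h3 with h4
          omega

theorem fcj_lt (hb : FOk b) (s : FV b t) (hs : fst s) (j : Fin 2) : fcj s j < NN b t := by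
  have hb2 := hb.two
  have hj := j.isLt
  cases s with
  | S s =>
    have := s.isLt
    simp only [fcj, NN]
    omega
  | P x i hi =>
    obtain ⟨h1, h2⟩ := hs
    subst h1 h2
    simp only [fcj, NN, foff2]
    omega
  | T i hi => exact absurd hs id

private theorem ffr_PP (x : Fin 3) (i : ℕ) (h1 : i + 1 ≤ 2 * b x) (h0 : i ≤ 2 * b x) :
    ffr (P x i h0 : FV b t) (P x (i + 1) h1) = 4 + foff b x + i := by
  simp [ffr]

private theorem ffr_TT (i : ℕ) (h1 : i + 1 ≤ t) (h0 : i ≤ t) :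
    ffr (T i h0 : FV b t) (T (i + 1) h1) = 4 + 2 * (b 0 + b 1 + b 2) + i := by
  simp [ffr]

private theorem ffr_loop : ffr (T t le_rfl : FV b t) (T t le_rfl) = 4 + 2 * (b 0 + b 1 + b 2) + t := by
  simp [ffr]

theorem ffr_symm (u v : FV b t) : ffr u v = ffr v u := by
  cases u with
  | S s => cases v <;> rfl
  | P x i hi =>
    cases v with
    | S s => rfl
    | P y j hj =>
      simp only [ffr]
      by_cases hxy : x = y
      · subst hxy
        simp [min_comm]
      · rw [if_neg hxy, if_neg (Ne.symm hxy)]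
    | T j hj => rfl
  | T i hi =>
    cases v with
    | S s => rfl
    | P y j hj => rfl
    | T j hj => simp only [ffr, min_comm]

private theorem fre_code (hb : FOk b) (u v : FV b t) (h : Fre (FG b t) fst u v) :
    (∃ x i, ∃ (h1 : i + 1 ≤ 2 * b x) (h0 : i ≤ 2 * b x), (x = 2 → i ≠ 1 ∧ i ≠ 2) ∧
      s(u, v) = s(P x i h0, P x (i + 1) h1) ∧ ffr u v = 4 + foff b x + i) ∨
    (∃ i, ∃ (h1 : i + 1 ≤ t) (h0 : i ≤ t),
      s(u, v) = s(T i h0, T (i + 1) h1) ∧ ffr u v = 4 + 2 * (b 0 + b 1 + b 2) + i) ∨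
    (s(u, v) = s(T t le_rfl, T t le_rfl) ∧ ffr u v = 4 + 2 * (b 0 + b 1 + b 2) + t) := by
  rcases fre_cases hb u v h with ⟨x, i, h1, h0, hx, h2⟩ | ⟨i, h1, h0, h2⟩ | ⟨h2, h3⟩
  · left
    refine ⟨x, i, h1, h0, hx, ?_⟩
    rcases h2 with ⟨h2, h3⟩ | ⟨h2, h3⟩
    · rw [h2, h3]
      exact ⟨rfl, ffr_PP x i h1 h0⟩
    · rw [h2, h3]
      exact ⟨Sym2.eq_swap, by rw [ffr_symm]; exact ffr_PP x i h1 h0⟩
  · right; left
    refine ⟨i, h1, h0, ?_⟩
    rcases h2 with ⟨h2, h3⟩ | ⟨h2, h3⟩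
    · rw [h2, h3]
      exact ⟨rfl, ffr_TT i h1 h0⟩
    · rw [h2, h3]
      exact ⟨Sym2.eq_swap, by rw [ffr_symm]; exact ffr_TT i h1 h0⟩
  · right; right
    rw [h2, h3]
    exact ⟨rfl, ffr_loop⟩

private theorem foff_bd (x : Fin 3) {i : ℕ} (h : i + 1 ≤ 2 * b x) : foff b x + i + 1 ≤ 2 * (b 0 + b 1 + b 2) := by
  fin_cases x
  · simp only [Fin.zero_eta, foff0] at *; omega
  · simp only [Fin.mk_one, foff1] at *; omega
  · simp only [Fin.reduceFinMk, foff2] at *; omega

private theorem foff_inj (x y : Fin 3) {i j : ℕ} (h : i + 1 ≤ 2 * b x) (h' : j + 1 ≤ 2 * b y) (e : foff b x + i = foff b y + j) :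
    x = y ∧ i = j := by
  fin_cases x <;> fin_cases y <;>
    simp only [Fin.zero_eta, Fin.mk_one, Fin.reduceFinMk, foff0, foff1, foff2] at * <;>
    first
    | exact ⟨trivial, by omega⟩
    | omega

theorem ffr_lt (hb : FOk b) (u v : FV b t) (h : Fre (FG b t) fst u v) : ffr u v < NN b t := by
  unfold NN
  rcases fre_code hb u v h with ⟨x, i, h1, h0, hx, h2, h3⟩ | ⟨i, h1, h0, h2, h3⟩ | ⟨h2, h3⟩
  · have := foff_bd x h1
    omega
  · omega
  · omega

theorem fcj_inj (hb : FOk b) (s u : FV b t) (i j : Fin 2) (hs : fst s) (hu : fst u)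
    (h : toF b t (fcj s i) = toF b t (fcj u j)) : s = u ∧ i = j := by
  have h1 := toF_inj (fcj_lt hb s hs i) (fcj_lt hb u hu j) h
  have hi := i.isLt
  have hj := j.isLt
  cases s with
  | S s =>
    have hs' := s.isLt
    cases u with
    | S u =>
      have hu' := u.isLt
      simp only [fcj] at h1
      have h2 : s = u := by ext; omega
      have h3 : i = j := by ext; omega
      rw [h2, h3]
      exact ⟨rfl, rfl⟩
    | P x k hk =>
      simp only [fcj] at h1
      omega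
    | T k hk => exact absurd hu id
  | P x k hk =>
    obtain ⟨h2, h3⟩ := hs
    subst h2 h3
    cases u with
    | S u =>
      have hu' := u.isLt
      simp only [fcj] at h1
      omega
    | P y l hl =>
      obtain ⟨h2, h3⟩ := hu
      subst h2 h3
      simp only [fcj] at h1
      have h3 : i = j := by ext; omega
      rw [h3]
      exact ⟨rfl, rfl⟩
    | T k hk => exact absurd hu id
  | T k hk => exact absurd hs id

theorem ffr_inj (hb : FOk b) (u v u' v' : FV b t) (h1 : Fre (FG b t) fst u v) (h2 : Fre (FG b t) fst u' v')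
    (h : toF b t (ffr u v) = toF b t (ffr u' v')) : s(u, v) = s(u', v') := by
  have h := toF_inj (ffr_lt hb u v h1) (ffr_lt hb u' v' h2) h
  rcases fre_code hb u v h1 with ⟨x, i, a1, a0, ax, a2, a3⟩ | ⟨i, a1, a0, a2, a3⟩ | ⟨a2, a3⟩ <;>
    rcases fre_code hb u' v' h2 with ⟨y, j, c1, c0, cx, c2, c3⟩ | ⟨j, c1, c0, c2, c3⟩ | ⟨c2, c3⟩
  · obtain ⟨e1, e2⟩ := foff_inj x y a1 c1 (by omega)
    subst e1 e2
    rw [a2, c2]
  · have := foff_bd x a1
    omega
  · have := foff_bd x a1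
    omega
  · have := foff_bd y c1
    omega
  · have e : i = j := by omega
    subst e
    rw [a2, c2]
  · omega
  · have := foff_bd y c1
    omega
  · omega
  · rw [a2, c2]

theorem ffr_cj (hb : FOk b) (u v s : FV b t) (i : Fin 2) (h1 : Fre (FG b t) fst u v) (hs : fst s) :
    toF b t (ffr u v) ≠ toF b t (fcj s i) := by
  intro h
  have h := toF_inj (ffr_lt hb u v h1) (fcj_lt hb s hs i) h
  have hi := i.isLt
  have hb2 := hb.two
  cases s with
  | S s =>
    have hs' := s.isLt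
    simp only [fcj] at h
    rcases fre_code hb u v h1 with ⟨x, j, a1, a0, ax, a2, a3⟩ | ⟨j, a1, a0, a2, a3⟩ | ⟨a2, a3⟩ <;> omega
  | P y k hk =>
    obtain ⟨h2, h3⟩ := hs
    subst h2 h3
    simp only [fcj] at h
    rcases fre_code hb u v h1 with ⟨x, j, a1, a0, ax, a2, a3⟩ | ⟨j, a1, a0, a2, a3⟩ | ⟨a2, a3⟩
    · obtain ⟨e1, e2⟩ := foff_inj x 2 (j := 1 + i.val) a1 (by omega) (by omega)
      have := ax e1
      omega
    · rw [foff2] at h
      omega
    · rw [foff2] at h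
      omega
  | T k hk => exact absurd hs id

/-- the free path edges -/
theorem fre_path (hb : FOk b) (x : Fin 3) (i : ℕ) (h1 : i + 1 ≤ 2 * b x) (h0 : i ≤ 2 * b x)
    (hx : x = 2 → i ≠ 1 ∧ i ≠ 2) : Fre (FG b t) fst (P x i h0) (P x (i + 1) h1) := by
  refine Or.inl ⟨Or.inl ⟨rfl, rfl⟩, ?_, ?_⟩
  · rintro ⟨h2, h3⟩
    exact (hx h2).2 h3
  · rintro ⟨h2, h3⟩
    exact (hx h2).1 (by omega)

end Pool.Agent.H6.SC
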