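import Pool.Agent.H6.SC.FamC

/-!
# SC.FamD : the data of the graph `FG`
-/

set_option autoImplicit false

namespace Pool.Agent.H6.SC

open FV

variable {b : Fin 3 → ℕ} (t : ℕ)

/-- the data of the theta graph with a tail -/
def FD (hb : FOk b) : Dat (FG b t) (NN b t) where
  st := fst
  cj := fun v j => toF b t (fcj v j)
  arm := farm
  fr := fun u v => toF b t (ffr u v)
  adj_arm := fadj_arm hb
  arm_inj := farm_inj hb
  far1 := ffar1 hb
  far2 := ffar2 hb
  tri := ftri hb
  ex := fex hb
  two := ftwo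
  cj_inj := fcj_inj hb
  fr_symm := fun u v => congrArg _ (ffr_symm u v)
  fr_inj := ffr_inj hb
  fr_cj := ffr_cj hb

/-- the coordinate of the edge from `P x i` to `P x (i + 1)` -/
def pc (b : Fin 3 → ℕ) (t : ℕ) (x : Fin 3) (i : ℕ) : Fin (NN b t) := toF b t (4 + foff b x + i)

end Pool.Agent.H6.SC
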