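import Pool.Agent.H6.SC.FamD
import Pool.Agent.H6.SC.DLin

/-!
# SC.FamE : exposure for `FG`

PROOF. Suppose `B ≠ ∅` and every `v ∈ B` has two different `dn`-neighbours; we show `k + 2 ≤ |B|`, `k = b 0 + b 1 + b 2`. (`(nbs G w).card = 3` iff `fst w`: `card_nbs_iff` for `FD`.) A `dn`-neighbour which is not in `B` is a star with all its neighbours in `B`.
(1) No `T j` is in `B`: downward induction on `j` (from `t`): the neighbours of `T j` are `T (j+1)` (not in `B`, not a star, or it does not exist) and one other vertex, so `T j` has at most one `dn`-neighbour. (2) So `P 2 2` is a `dn`-neighbour only if it is in `B` (its neighbour `T 0` is not in `B`).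
(3) If `P x i ∈ B` then its path neighbours `P x (i±1)` are `dn`-neighbours (it has at most two neighbours apart from `T 0`, both must be `dn`; for `P 2 2`: `T 0` is not a `dn`-neighbour), so they are in `B` by (2) (they are not stars, or they are `P 2 2`); by induction the whole path `x` is in `B`, and `S 0`, `S 1` are
`dn`-neighbours of its ends. (4) If `S s ∈ B` then two of its arms are `dn`-neighbours, they are not stars, so they are in `B`: two whole paths are in `B`. (5) If `S s` is a `dn`-neighbour of `P x _ ∈ B` and not in `B` then all three arms are in `B`. So in all cases two different whole paths `x ≠ y` are in `B`: `|B| ≥ (2 b x + 1) + (2 b y + 1) ≥ k + 2`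
because `b z ≤ b x + b y` for the third index `z`.
-/

set_option autoImplicit false

namespace Pool.Agent.H6.SC

open FV

variable {b : Fin 3 → ℕ} {t : ℕ}

/-- neighbours of the vertices of the tail -/
private theorem adjT {j : ℕ} {h : j ≤ t} {w : FV b t} (hw : (FG b t).Adj (T j h) w) :
    (∃ h', w = T (j + 1) h') ∨ (∃ i h', j = i + 1 ∧ w = T i h') ∨ (j = 0 ∧ ∃ h', w = P 2 2 h') := by
  change FE _ _ ∨ FE _ _ at hw
  cases w with
  | S s => simp [FE] at hw
  | P x i h' =>
    simp only [FE, false_or] at hw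
    obtain ⟨h1, h2, h3⟩ := hw
    subst h1 h2
    exact Or.inr (Or.inr ⟨h3, h', rfl⟩)
  | T i h' =>
    simp only [FE] at hw
    rcases hw with h1 | h1
    · subst h1
      exact Or.inl ⟨h', rfl⟩
    · exact Or.inr (Or.inl ⟨i, h', h1.symm, rfl⟩)

/-- neighbours of the vertices of the paths -/
private theorem adjP {x : Fin 3} {i : ℕ} {h : i ≤ 2 * b x} {w : FV b t} (hw : (FG b t).Adj (P x i h) w) :
    ((i = 0 ∧ w = S 0) ∨ (∃ j h', i = j + 1 ∧ w = P x j h')) ∨
      ((i = 2 * b x ∧ w = S 1) ∨ (∃ h', w = P x (i + 1) h')) ∨ (∃ h', w = T 0 h') := by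
  change FE _ _ ∨ FE _ _ at hw
  cases w with
  | S s =>
    simp only [FE, false_or] at hw
    rcases hw with ⟨h1, h2⟩ | ⟨h1, h2⟩
    · subst h1
      exact Or.inl (Or.inl ⟨h2, rfl⟩)
    · subst h1
      exact Or.inr (Or.inl (Or.inl ⟨h2, rfl⟩))
  | P y j h' =>
    simp only [FE] at hw
    rcases hw with ⟨h1, h2⟩ | ⟨h1, h2⟩
    · subst h1 h2
      exact Or.inr (Or.inl (Or.inr ⟨h', rfl⟩))
    · subst h1
      exact Or.inl (Or.inr ⟨j, h', h2.symm, rfl⟩)
  | T j h' =>
    simp only [FE, or_false] at hw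
    obtain ⟨h1, h2, h3⟩ := hw
    subst h3
    exact Or.inr (Or.inr ⟨h', rfl⟩)

/-- neighbours of `S s` -/
private theorem adjS {s : Fin 2} {w : FV b t} (hw : (FG b t).Adj (S s) w) :
    ∃ x i h, w = P x i h ∧ ((s = 0 ∧ i = 0) ∨ (s = 1 ∧ i = 2 * b x)) := by
  change FE _ _ ∨ FE _ _ at hw
  cases w with
  | S s => simp [FE] at hw
  | P x i h' =>
    simp only [FE, or_false] at hw
    exact ⟨x, i, h', rfl, hw⟩
  | T j h' => simp [FE] at hw

/-- the vertices of the path `x` -/
private def pth (b : Fin 3 → ℕ) (t : ℕ) (x : Fin 3) : Finset (FV b t) :=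
  (Finset.univ : Finset (Fin (2 * b x + 1))).map
    ⟨fun i => P x i.val (Nat.le_of_lt_succ i.isLt), fun i j hij => by
      simp only [P.injEq, true_and] at hij
      exact Fin.ext hij⟩

private theorem card_pth (x : Fin 3) : (pth b t x).card = 2 * b x + 1 := by
  unfold pth
  rw [Finset.card_map, Finset.card_univ, Fintype.card_fin]

private theorem mem_pth {x : Fin 3} {v : FV b t} (hv : v ∈ pth b t x) : ∃ i h, v = P x i h := by
  unfold pth at hv
  rw [Finset.mem_map] at hv
  obtain ⟨i, -, hi⟩ := hv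
  exact ⟨i.val, Nat.le_of_lt_succ i.isLt, hi.symm⟩

/-- two whole paths have many vertices -/
private theorem two_paths {B : Finset (FV b t)} {x y : Fin 3} (hxy : x ≠ y)
    (hx : ∀ i h, P x i h ∈ B) (hy : ∀ i h, P y i h ∈ B) : 2 * b x + 2 * b y + 2 ≤ B.card := by
  classical
  have h1 : pth b t x ∪ pth b t y ⊆ B := by
    intro v hv
    rcases Finset.mem_union.1 hv with h | h
    · obtain ⟨i, h', rfl⟩ := mem_pth h
      exact hx i h'
    · obtain ⟨i, h', rfl⟩ := mem_pth h
      exact hy i h'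
  have h2 : Disjoint (pth b t x) (pth b t y) := by
    rw [Finset.disjoint_left]
    intro v hv hv'
    obtain ⟨i, h', rfl⟩ := mem_pth hv
    obtain ⟨j, h'', he⟩ := mem_pth hv'
    simp only [P.injEq] at he
    exact hxy he.1
  have h3 := Finset.card_le_card h1
  rw [Finset.card_union_of_disjoint h2, card_pth, card_pth] at h3
  omega

theorem fexpos (hb : FOk b) (h0 : b 0 ≤ b 1 + b 2) (h1 : b 1 ≤ b 0 + b 2) (h2 : b 2 ≤ b 0 + b 1) :
    Expos (FG b t) (b 0 + b 1 + b 2 + 1) := by
  intro B hne hcard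
  by_contra hcon
  push Not at hcon
  have hdn : ∀ v w, dn (FG b t) B v w → (FG b t).Adj v w ∧
      (w ∈ B ∨ (fst w ∧ ∀ x, (FG b t).Adj w x → x ∈ B)) := by
    intro v w h
    refine ⟨h.1, h.2.imp id fun h' => ⟨(card_nbs_iff (FD t hb) w).1 h'.1, h'.2⟩⟩
  -- the tail
  have hT : ∀ d j, (h : j ≤ t) → j + d = t → T j h ∉ B := by
    intro d
    induction d with
    | zero =>
      intro j h hj hB
      obtain ⟨w, w', hw, hw', hne'⟩ := hcon _ hB
      have key : ∀ w, dn (FG b t) B (T j h) w →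
          (∃ i h', j = i + 1 ∧ w = T i h') ∨ (j = 0 ∧ ∃ h', w = P 2 2 h') := by
        intro w hw
        rcases adjT (hdn _ _ hw).1 with ⟨h', rfl⟩ | h' | h'
        · omega
        · exact Or.inl h'
        · exact Or.inr h'
      rcases key w hw with ⟨i, hi, h3, rfl⟩ | ⟨h3, h4, rfl⟩
      · rcases key w' hw' with ⟨i', hi', h3', rfl⟩ | ⟨h3', h4', rfl⟩
        · have : i = i' := by omega
          subst this
          exact hne' rfl
        · omega
      · rcases key w' hw' with ⟨i', hi', h3', rfl⟩ | ⟨h3', h4', rfl⟩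
        · omega
        · exact hne' rfl
    | succ d ih =>
      intro j h hj hB
      obtain ⟨w, w', hw, hw', hne'⟩ := hcon _ hB
      have key : ∀ w, dn (FG b t) B (T j h) w →
          (∃ i h', j = i + 1 ∧ w = T i h') ∨ (j = 0 ∧ ∃ h', w = P 2 2 h') := by
        intro w hw
        rcases adjT (hdn _ _ hw).1 with ⟨h', rfl⟩ | h' | h'
        · rcases (hdn _ _ hw).2 with h5 | h5
          · exact absurd h5 (ih (j + 1) h' (by omega))
          · exact absurd h5.1 (by simp [fst])
        · exact Or.inl h'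
        · exact Or.inr h'
      rcases key w hw with ⟨i, hi, h3, rfl⟩ | ⟨h3, h4, rfl⟩
      · rcases key w' hw' with ⟨i', hi', h3', rfl⟩ | ⟨h3', h4', rfl⟩
        · have : i = i' := by omega
          subst this
          exact hne' rfl
        · omega
      · rcases key w' hw' with ⟨i', hi', h3', rfl⟩ | ⟨h3', h4', rfl⟩
        · omega
        · exact hne' rfl
  have hT0 : ∀ j h, T j h ∉ B := fun j h => hT (t - j) j h (by omega)
  -- a path vertex which is a neighbour is in `B`
  have hP : ∀ v x i h, dn (FG b t) B v (P x i h) → P x i h ∈ B := by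
    intro v x i h hv
    rcases (hdn _ _ hv).2 with h5 | ⟨h5, h6⟩
    · exact h5
    · exfalso
      obtain ⟨h7, h8⟩ : x = 2 ∧ i = 2 := h5
      subst h7 h8
      refine hT0 0 (Nat.zero_le _) (h6 _ (Or.inl ?_))
      exact ⟨rfl, rfl, rfl⟩
  -- both path neighbours
  have hLR : ∀ x i h, P x i h ∈ B →
      (∃ w, dn (FG b t) B (P x i h) w ∧ ((i = 0 ∧ w = S 0) ∨ (∃ j h', i = j + 1 ∧ w = P x j h'))) ∧
      (∃ w, dn (FG b t) B (P x i h) w ∧ ((i = 2 * b x ∧ w = S 1) ∨ (∃ h', w = P x (i + 1) h'))) := by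
    intro x i h hB
    obtain ⟨w, w', hw, hw', hne'⟩ := hcon _ hB
    have key : ∀ w, dn (FG b t) B (P x i h) w →
        ((i = 0 ∧ w = S 0) ∨ (∃ j h', i = j + 1 ∧ w = P x j h')) ∨
        ((i = 2 * b x ∧ w = S 1) ∨ (∃ h', w = P x (i + 1) h')) := by
      intro w hw
      rcases adjP (hdn _ _ hw).1 with h5 | h5 | ⟨h5, rfl⟩
      · exact Or.inl h5
      · exact Or.inr h5
      · rcases (hdn _ _ hw).2 with h6 | h6
        · exact absurd h6 (hT0 _ _)
        · exact absurd h6.1 (by simp [fst])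
    have hl : ∀ w w' : FV b t, ((i = 0 ∧ w = S 0) ∨ (∃ j h', i = j + 1 ∧ w = P x j h')) →
        ((i = 0 ∧ w' = S 0) ∨ (∃ j h', i = j + 1 ∧ w' = P x j h')) → w = w' := by
      intro w w' h5 h6
      rcases h5 with ⟨h5, rfl⟩ | ⟨j, h5, h7, rfl⟩
      · rcases h6 with ⟨h6, rfl⟩ | ⟨j', h6, h8, rfl⟩
        · rfl
        · omega
      · rcases h6 with ⟨h6, rfl⟩ | ⟨j', h6, h8, rfl⟩
        · omega
        · have : j = j' := by omega
          subst this
          rfl
    have hr : ∀ w w' : FV b t, ((i = 2 * b x ∧ w = S 1) ∨ (∃ h', w = P x (i + 1) h')) →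
        ((i = 2 * b x ∧ w' = S 1) ∨ (∃ h', w' = P x (i + 1) h')) → w = w' := by
      intro w w' h5 h6
      rcases h5 with ⟨h5, rfl⟩ | ⟨h5, rfl⟩
      · rcases h6 with ⟨h6, rfl⟩ | ⟨h6, rfl⟩
        · rfl
        · omega
      · rcases h6 with ⟨h6, rfl⟩ | ⟨h6, rfl⟩
        · omega
        · rfl
    rcases key w hw with h5 | h5
    · rcases key w' hw' with h6 | h6
      · exact absurd (hl _ _ h5 h6) hne'
      · exact ⟨⟨w, hw, h5⟩, ⟨w', hw', h6⟩⟩
    · rcases key w' hw' with h6 | h6
      · exact ⟨⟨w', hw', h6⟩, ⟨w, hw, h5⟩⟩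
      · exact absurd (hr _ _ h5 h6) hne'
  have hdown : ∀ x i h, P x i h ∈ B → P x 0 (Nat.zero_le _) ∈ B := by
    intro x i
    induction i with
    | zero =>
      intro h hB
      exact hB
    | succ i ih =>
      intro h hB
      obtain ⟨⟨w, hw, h5⟩, -⟩ := hLR _ _ _ hB
      rcases h5 with ⟨h5, -⟩ | ⟨j, hj, h5, rfl⟩
      · omega
      · have : j = i := by omega
        subst this
        exact ih hj (hP _ _ _ _ hw)
  have hup : ∀ x i h, P x 0 (Nat.zero_le _) ∈ B → P x i h ∈ B := by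
    intro x i
    induction i with
    | zero =>
      intro h hB
      exact hB
    | succ i ih =>
      intro h hB
      obtain ⟨-, ⟨w, hw, h5⟩⟩ := hLR _ _ _ (ih (by omega) hB)
      rcases h5 with ⟨h5, -⟩ | ⟨hj, rfl⟩
      · omega
      · exact hP _ _ _ _ hw
  have hall : ∀ x i h, P x i h ∈ B → ∀ j h', P x j h' ∈ B := fun x i h hB j h' => hup x j h' (hdown x i h hB)
  -- the final count
  have hfin : ∀ x y : Fin 3, x ≠ y → (∀ i h, P x i h ∈ B) → (∀ i h, P y i h ∈ B) → False := by
    intro x y hxy hx hy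
    have h5 := two_paths hxy hx hy
    fin_cases x <;> fin_cases y <;> simp at hxy h5 <;> omega
  have hS : ∀ s, S s ∈ B → False := by
    intro s hs
    obtain ⟨w, w', hw, hw', hne'⟩ := hcon _ hs
    obtain ⟨x, i, hi, rfl, h5⟩ := adjS (hdn _ _ hw).1
    obtain ⟨y, j, hj, rfl, h6⟩ := adjS (hdn _ _ hw').1
    have hxy : x ≠ y := by
      rintro rfl
      apply hne'
      have : i = j := by
        rcases h5 with ⟨h5, h7⟩ | ⟨h5, h7⟩
        · rcases h6 with ⟨h6, h8⟩ | ⟨h6, h8⟩
          · omega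
          · exact absurd (h5.symm.trans h6) (by decide)
        · rcases h6 with ⟨h6, h8⟩ | ⟨h6, h8⟩
          · exact absurd (h6.symm.trans h5) (by decide)
          · omega
      subst this
      rfl
    exact hfin x y hxy (hall x i hi (hP _ _ _ _ hw)) (hall y j hj (hP _ _ _ _ hw'))
  have hPn : ∀ x i h, P x i h ∈ B → False := by
    intro x i h hB
    obtain ⟨⟨w, hw, h5⟩, -⟩ := hLR _ _ _ (hdown x i h hB)
    rcases h5 with ⟨-, rfl⟩ | ⟨j, hj, h5, -⟩
    · rcases (hdn _ _ hw).2 with h6 | ⟨-, h6⟩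
      · exact hS 0 h6
      · have h7 : ∀ y : Fin 3, P y 0 (Nat.zero_le _) ∈ B := fun y =>
          h6 _ (Or.inl (Or.inl ⟨rfl, rfl⟩))
        exact hfin 0 1 (by decide) (hall 0 0 _ (h7 0)) (hall 1 0 _ (h7 1))
    · omega
  obtain ⟨v, hv⟩ := hne
  cases v with
  | S s => exact hS s hv
  | P x i h => exact hPn x i h hv
  | T j h => exact hT0 j h hv

end Pool.Agent.H6.SC
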