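import Pool.Agent.H6.SC.FamD

/-!
# SC.FamF : vertex covers of the paths

PROOF. Let `B = A` without the vertices `T j`, with `P 2 2` added if `T 0 ∈ A`: `|B| ≤ |A|` (if `T 0 ∈ A` it is removed and at most one vertex is added), every path edge has an end in `B`, and `S s`, `P x 0`, `P x (2 b x)` are in `B` iff they are in `A` (`2 ≠ 0`, `2 ≠ 2 b 2`). Let `n x` be the number of the vertices of `B` in the path `x`. `n x ≥ b x`: the edges
`{P x (2i), P x (2i+1)}`, `i < b x`, are disjoint. If `P x 0 ∈ B` then `n x ≥ b x + 1`: the edges `{P x (2i+1), P x (2i+2)}`, `i < b x`, and `P x 0`. If `P x (2 b x) ∈ B` then `n x ≥ b x + 1`: the edges `{P x (2i), P x (2i+1)}` and the last vertex. `n 0 + n 1 + n 2 + (number of the S s in B) = |B| ≤ b 0 + b 1 + b 2 + 1`. So at most one of the following five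
happens: an end of the path `0` / `1` / `2` is in `B`, `S 0 ∈ B`, `S 1 ∈ B`.
-/

set_option autoImplicit false

namespace Pool.Agent.H6.SC

open FV

open scoped Classical

variable {b : Fin 3 → ℕ} {t : ℕ}

/-- an end of the path `x` is in `A` -/
def endIn (A : Finset (FV b t)) (x : Fin 3) : Prop := P x 0 (Nat.zero_le _) ∈ A ∨ P x (2 * b x) le_rfl ∈ A

private theorem cov_last (f : ℕ → ℕ) (m : ℕ) (h : ∀ i, i + 1 ≤ 2 * m → 1 ≤ f i + f (i + 1)) :
    m ≤ ∑ j ∈ Finset.range (2 * m), f j := by
  induction m with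
  | zero => simp
  | succ m ih =>
    have h1 := ih (fun i hi => h i (by omega))
    have h2 := h (2 * m) (by omega)
    have h3 : 2 * (m + 1) = 2 * m + 1 + 1 := by ring
    rw [h3, Finset.sum_range_succ, Finset.sum_range_succ]
    omega

private theorem cov_first (f : ℕ → ℕ) (m : ℕ) (h : ∀ i, i + 1 ≤ 2 * m → 1 ≤ f i + f (i + 1)) :
    m + f 0 ≤ ∑ j ∈ Finset.range (2 * m + 1), f j := by
  induction m with
  | zero => simp
  | succ m ih =>
    have h1 := ih (fun i hi => h i (by omega))
    have h2 := h (2 * m + 1) (by omega)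
    have h3 : 2 * (m + 1) + 1 = 2 * m + 1 + 1 + 1 := by ring
    have h4 : 2 * m + 1 + 1 = 2 * m + 2 := by ring
    rw [h3, Finset.sum_range_succ, Finset.sum_range_succ]
    rw [h4] at h2 ⊢
    omega

private theorem cov_end (f : ℕ → ℕ) (m : ℕ) (h : ∀ i, i + 1 ≤ 2 * m → 1 ≤ f i + f (i + 1)) :
    m + f (2 * m) ≤ ∑ j ∈ Finset.range (2 * m + 1), f j := by
  rw [Finset.sum_range_succ]
  have := cov_last f m h
  omega

/-- the indicator of `A` on the path `x` -/
private noncomputable def ind (A : Finset (FV b t)) (x : Fin 3) (i : ℕ) : ℕ :=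
  if h : i ≤ 2 * b x then (if P x i h ∈ A then 1 else 0) else 0

private theorem ind_pos (A : Finset (FV b t)) (x : Fin 3) (i : ℕ) (h : i ≤ 2 * b x) (hA : P x i h ∈ A) :
    ind A x i = 1 := by
  unfold ind
  rw [dif_pos h, if_pos hA]

private theorem card_split (A : Finset (FV b t)) :
    A.card = (∑ s : Fin 2, if S s ∈ A then 1 else 0) +
      (∑ x : Fin 3, ∑ i ∈ Finset.range (2 * b x + 1), ind A x i) +
      ∑ j : Fin (t + 1), if T j.val (Nat.le_of_lt_succ j.isLt) ∈ A then 1 else 0 := by
  have h1 : A.card = ∑ v : FV b t, if v ∈ A then 1 else 0 := by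
    simp
  rw [h1, ← (fvEquiv b t).symm.sum_comp, Fintype.sum_sum_type, Fintype.sum_sum_type, ← add_assoc]
  congr 1
  congr 1
  rw [Fintype.sum_sigma]
  refine Finset.sum_congr rfl fun x _ => ?_
  rw [Finset.sum_range]
  refine Finset.sum_congr rfl fun i _ => ?_
  unfold ind
  rw [dif_pos (Nat.le_of_lt_succ i.isLt)]
  rfl

theorem fcover (hb : FOk b) (A : Finset (FV b t)) (hA : A.card ≤ b 0 + b 1 + b 2 + 1)
    (hc : ∀ x i, ∀ (h1 : i + 1 ≤ 2 * b x) (h0 : i ≤ 2 * b x), P x i h0 ∈ A ∨ P x (i + 1) h1 ∈ A ∨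
      (x = 2 ∧ (i = 1 ∨ i = 2) ∧ T 0 (Nat.zero_le _) ∈ A)) :
    (∀ x y, endIn A x → endIn A y → x = y) ∧ (∀ s x, S s ∈ A → ¬ endIn A x) ∧ ∀ s s', S s ∈ A → S s' ∈ A → s = s' := by
  set a : ℕ := if (T 0 (Nat.zero_le _) : FV b t) ∈ A then 1 else 0 with ha
  set g : Fin 3 → ℕ → ℕ := fun x i => ind A x i + if x = 2 ∧ i = 2 then a else 0 with hg
  have hb2 := hb.two
  -- the edges are covered
  have hcov : ∀ x i, i + 1 ≤ 2 * b x → 1 ≤ g x i + g x (i + 1) := by
    intro x i h1
    rcases hc x i h1 (by omega) with h | h | ⟨hx, hi, h⟩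
    · have := ind_pos A x i _ h
      simp only [hg]
      omega
    · have := ind_pos A x (i + 1) _ h
      simp only [hg]
      omega
    · have ha1 : a = 1 := by rw [ha, if_pos h]
      subst hx
      simp only [hg]
      rcases hi with rfl | rfl
      · simp only [ha1]
        simp
        omega
      · simp only [ha1]
        simp
        omega
  -- the ends
  have hends : ∀ x, endIn A x → b x + 1 ≤ ∑ i ∈ Finset.range (2 * b x + 1), g x i := by
    intro x hx
    rcases hx with h | h
    · have h1 := cov_first (g x) (b x) (hcov x)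
      have h2 : g x 0 = 1 := by
        simp only [hg]
        rw [ind_pos A x 0 _ h]
        simp
      omega
    · have h1 := cov_end (g x) (b x) (hcov x)
      have h2 : 1 ≤ g x (2 * b x) := by
        simp only [hg]
        rw [ind_pos A x (2 * b x) _ h]
        omega
      omega
  have hall : ∀ x, b x ≤ ∑ i ∈ Finset.range (2 * b x + 1), g x i := by
    intro x
    have := cov_first (g x) (b x) (hcov x)
    omega
  -- the total
  have htot : (∑ s : Fin 2, if (S s : FV b t) ∈ A then 1 else 0) +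
      ∑ x : Fin 3, ∑ i ∈ Finset.range (2 * b x + 1), g x i ≤ A.card := by
    rw [card_split A]
    have h1 : ∑ x : Fin 3, ∑ i ∈ Finset.range (2 * b x + 1), g x i =
        (∑ x : Fin 3, ∑ i ∈ Finset.range (2 * b x + 1), ind A x i) + a := by
      simp only [hg, Finset.sum_add_distrib]
      congr 1
      rw [Fin.sum_univ_three]
      simp
      intro h
      omega
    have h2 : a ≤ ∑ j : Fin (t + 1), if (T j.val (Nat.le_of_lt_succ j.isLt) : FV b t) ∈ A then 1 else 0 := by
      rw [Fin.sum_univ_succ]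
      exact Nat.le_add_right _ _
    omega
  simp only [Fin.sum_univ_two, Fin.sum_univ_three] at htot
  have hS : ∀ s : Fin 2, S s ∈ A → 1 ≤ (if (S 0 : FV b t) ∈ A then 1 else 0) + if (S 1 : FV b t) ∈ A then 1 else 0 := by
    intro s hs
    fin_cases s
    · simp only [Fin.zero_eta] at hs
      rw [if_pos hs]
      omega
    · simp only [Fin.mk_one] at hs
      rw [if_pos hs]
      omega
  have h0 := hall 0
  have h1 := hall 1
  have h2 := hall 2
  refine ⟨?_, ?_, ?_⟩
  · intro x y hx hy
    have e1 := hends x hx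
    have e2 := hends y hy
    by_contra hne
    fin_cases x <;> fin_cases y <;> first | exact hne rfl | (simp at e1 e2; omega)
  · intro s x hs hx
    have e1 := hends x hx
    have e2 := hS s hs
    fin_cases x <;> (simp at e1; omega)
  · intro s s' hs hs'
    by_contra hne
    have e : (if (S 0 : FV b t) ∈ A then 1 else 0) + (if (S 1 : FV b t) ∈ A then 1 else 0) = 2 := by
      fin_cases s <;> fin_cases s' <;> first | exact absurd rfl hne | (simp at hs hs'; simp [hs, hs'])
    omega

end Pool.Agent.H6.SC
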