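import Mathlib

/-!
# SC.FamG : theta graphs with a tail

Parameters `b : Fin 3 → ℕ`, `t`. Vertices: `S 0`, `S 1`; three paths `P x 0, ..., P x (2 b x)` from `S 0` to `S 1` (so the path from `S 0` to `S 1` has `2 b x + 2` edges);
a tail `T 0, ..., T t`, `T 0` is attached to `P 2 2`. `FE` : directed edges, `FG` : the graph. `fst` : the stars `S 0`, `S 1`, `P 2 2`. `farm` : the arms. Codes of the coordinates: `fcj v j` the coordinates of the star `v`,
`ffr u v` the coordinate of a free edge or loop: `0 .. 3` for `S 0`, `S 1`; `4 + foff b x + i` for the edge from `P x i` to `P x (i+1)`; `4 + 2 (b 0 + b 1 + b 2) + j` for the edge from `T j` to `T (j+1)` and, `j = t`, the loop at `T t`.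

PROOFS. By cases on the constructors; `simp [FE]`, `omega`.
-/

set_option autoImplicit false

namespace Pool.Agent.H6.SC

/-- vertices -/
inductive FV (b : Fin 3 → ℕ) (t : ℕ) : Type
  | S (s : Fin 2) : FV b t
  | P (x : Fin 3) (i : ℕ) (h : i ≤ 2 * b x) : FV b t
  | T (j : ℕ) (h : j ≤ t) : FV b t

open FV

variable {b : Fin 3 → ℕ} {t : ℕ}

/-- the vertices as a sum type -/
def fvEquiv (b : Fin 3 → ℕ) (t : ℕ) : FV b t ≃ Fin 2 ⊕ (Σ x : Fin 3, Fin (2 * b x + 1)) ⊕ Fin (t + 1) where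
  toFun v := match v with
    | S s => Sum.inl s
    | P x i h => Sum.inr (Sum.inl ⟨x, ⟨i, Nat.lt_succ_of_le h⟩⟩)
    | T j h => Sum.inr (Sum.inr ⟨j, Nat.lt_succ_of_le h⟩)
  invFun v := match v with
    | Sum.inl s => S s
    | Sum.inr (Sum.inl ⟨x, i⟩) => P x i.val (Nat.le_of_lt_succ i.isLt)
    | Sum.inr (Sum.inr j) => T j.val (Nat.le_of_lt_succ j.isLt)
  left_inv v := by cases v <;> rfl
  right_inv v := by
    match v with
    | Sum.inl s => rfl
    | Sum.inr (Sum.inl ⟨x, i⟩) => rfl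
    | Sum.inr (Sum.inr j) => rfl

instance (b : Fin 3 → ℕ) (t : ℕ) : Fintype (FV b t) := Fintype.ofEquiv _ (fvEquiv b t).symm

theorem card_FV : Fintype.card (FV b t) = 2 * (b 0 + b 1 + b 2) + t + 6 := by
  rw [Fintype.card_congr (fvEquiv b t)]
  simp only [Fintype.card_sum, Fintype.card_fin, Fintype.card_sigma, Fin.sum_univ_three]
  ring

/-- directed edges -/
def FE : FV b t → FV b t → Prop
  | S s, P x i _ => (s = 0 ∧ i = 0) ∨ (s = 1 ∧ i = 2 * b x)
  | P x i _, P y j _ => x = y ∧ i + 1 = j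
  | P x i _, T j _ => x = 2 ∧ i = 2 ∧ j = 0
  | T i _, T j _ => i + 1 = j
  | _, _ => False

theorem FE_irrefl (v : FV b t) : ¬ FE v v := by
  cases v <;> simp [FE]

/-- the graph -/
def FG (b : Fin 3 → ℕ) (t : ℕ) : SimpleGraph (FV b t) where
  Adj u v := FE u v ∨ FE v u
  symm := ⟨fun _ _ h => h.symm⟩
  loopless := ⟨fun v h => h.elim (FE_irrefl v) (FE_irrefl v)⟩

/-- the stars -/
def fst : FV b t → Prop
  | S _ => True
  | P x i _ => x = 2 ∧ i = 2
  | T _ _ => False

/-- the arms -/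
def farm : FV b t → Fin 3 → FV b t
  | S s, x => if s = 0 then P x 0 (Nat.zero_le _) else P x (2 * b x) le_rfl
  | P x i h, y => if y = 0 then P x (i - 1) ((Nat.sub_le _ _).trans h)
      else if y = 1 then P x (min (i + 1) (2 * b x)) (min_le_right _ _) else T 0 (Nat.zero_le _)
  | T j h, _ => T j h

/-- offset of the path `x` -/
def foff (b : Fin 3 → ℕ) (x : Fin 3) : ℕ := if x = 0 then 0 else if x = 1 then 2 * b 0 else 2 * b 0 + 2 * b 1

/-- number of coordinates -/
def NN (b : Fin 3 → ℕ) (t : ℕ) : ℕ := 4 + 2 * (b 0 + b 1 + b 2) + (t + 1)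

/-- codes of the coordinates of the stars -/
def fcj : FV b t → Fin 2 → ℕ
  | S s, j => 2 * s.val + j.val
  | P x i _, j => 4 + foff b x + (i - 1) + j.val
  | T _ _, _ => 0

/-- codes of the free edges and of the loop -/
def ffr : FV b t → FV b t → ℕ
  | P x i _, P y j _ => if x = y then 4 + foff b x + min i j else 0
  | T i _, T j _ => 4 + 2 * (b 0 + b 1 + b 2) + min i j
  | _, _ => 0

/-- the coordinate with a given code -/
def toF (b : Fin 3 → ℕ) (t : ℕ) (c : ℕ) : Fin (NN b t) := ⟨c % NN b t, Nat.mod_lt _ (by unfold NN; omega)⟩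

theorem toF_inj {c d : ℕ} (hc : c < NN b t) (hd : d < NN b t) (h : toF b t c = toF b t d) : c = d := by
  have h1 := congrArg Fin.val h
  simp only [toF] at h1
  rwa [Nat.mod_eq_of_lt hc, Nat.mod_eq_of_lt hd] at h1

/-- parameters -/
structure FOk (b : Fin 3 → ℕ) : Prop where
  one : ∀ x, 1 ≤ b x
  two : 2 ≤ b 2

end Pool.Agent.H6.SC
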