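import Pool.Agent.H6.SC.FamF
import Pool.Agent.H6.SC.DForm

/-!
# SC.FamV : the form `FF` vanishes on the sums of `k + 1` lines

`FF` = (product of all path coordinates) * (`x₀ x₃ - x₁ x₂`), `x₀, x₁` the coordinates of `S 0`, `x₂, x₃` those of `S 1`.

PROOF. Suppose `z ∈ spn A`, `|A| = k + 1` and the value is not zero. Then all path coordinates of `z` are nonzero, `z₀ z₃ ≠ z₁ z₂`. `mem_spn` for `FD`. (1) `A` satisfies the hypothesis `hc` of `fcover`: let `c = 4 + foff x + i` be the coordinate. If it is not a coordinate of the star `P 2 2` (i.e. not `x = 2`, `i ∈ {1, 2}`): it is `fr (P x i) (P x (i+1))`, `Fre` (`fre_path`), and the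
support condition gives (not a star coordinate by `fr_cj`) `u ∈ A` or `v ∈ A` with `Fre u v` and the same coordinate, so `s(u, v) = s(P x i, P x (i+1))` (`fr_inj`). If `x = 2`, `i = 1` or `2`: the block of `z` at `P 2 2` is in `W A (P 2 2)` and its component `j = i - 1` is not zero. If `P 2 2 ∈ A`: it is an end. Otherwise the block is in the span of the `nu y` with `arm y ∈ A`, so some `y` with `nu y j ≠ 0`
has its arm in `A`: `y = j` (the arm `P 2 1`, `P 2 3`, is the other end of the edge) or `y = 2` (`T 0 ∈ A`). (2) `fcover`. If `S 0 ∈ A`: no end of a path is in `A` and `S 1 ∉ A`, so `W A (S 1) = ⊥`, `z₂ = z₃ = 0`: contradiction. The same for `S 1`. If neither is in `A`: all ends in `A` belong to one path `x`, the blocks at `S 0` and `S 1` are in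
`span {nu x}` (or `0`), so `z₀ z₃ = z₁ z₂`: contradiction. (The arms of `S 0`, `S 1` are the ends `P x 0`, `P x (2 b x)`.)
-/

set_option autoImplicit false

open MvPolynomial

namespace Pool.Agent.H6.SC

universe u

open FV

variable {b : Fin 3 → ℕ}

/-- the form -/
noncomputable def FF (K : Type u) [Field K] (b : Fin 3 → ℕ) (t : ℕ) : MvPolynomial (Fin (NN b t)) K :=
  (∏ c ∈ Finset.range (2 * (b 0 + b 1 + b 2)), X (toF b t (4 + c))) *
    (X (toF b t 0) * X (toF b t 3) - X (toF b t 1) * X (toF b t 2))

private theorem fv_off (x : Fin 3) : foff b x + 2 * b x ≤ 2 * (b 0 + b 1 + b 2) := by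
  fin_cases x
  · show foff b 0 + 2 * b 0 ≤ _
    unfold foff
    rw [if_pos rfl]
    omega
  · show foff b 1 + 2 * b 1 ≤ _
    unfold foff
    rw [if_neg (by decide), if_pos rfl]
    omega
  · show foff b 2 + 2 * b 2 ≤ _
    unfold foff
    rw [if_neg (by decide), if_neg (by decide)]
    omega

private theorem fv_arm {t : ℕ} (A : Finset (FV b t)) (s : Fin 2) (y : Fin 3) (h : farm (S s) y ∈ A) :
    endIn A y := by
  change (if s = 0 then P y 0 (Nat.zero_le _) else P y (2 * b y) le_rfl : FV b t) ∈ A at h
  by_cases hs : s = 0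
  · rw [if_pos hs] at h
    exact Or.inl h
  · rw [if_neg hs] at h
    exact Or.inr h

private theorem fv_zero (K : Type u) [Field K] (M : Set (Fin 2 → K)) (j : Fin 2) (h : ∀ p ∈ M, p j = 0)
    {p : Fin 2 → K} (hp : p ∈ Submodule.span K M) : p j = 0 := by
  have h1 : Submodule.span K M ≤ LinearMap.ker (LinearMap.proj j : (Fin 2 → K) →ₗ[K] K) :=
    Submodule.span_le.2 fun q hq => h q hq
  exact h1 hp

theorem FF_van (K : Type u) [Field K] (t : ℕ) (hb : FOk b) (A : Finset (FV b t)) (hA : A.card = b 0 + b 1 + b 2 + 1)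
    (z : Fin (NN b t) → K) (hz : z ∈ spn ((FD t hb).L K) A) : aeval z (FF K b t) = (0 : K) := by
  classical
  obtain ⟨hz1, hz2⟩ := (mem_spn (FD t hb) K A z).1 hz
  have hval : aeval z (FF K b t) = (∏ c ∈ Finset.range (2 * (b 0 + b 1 + b 2)), z (toF b t (4 + c))) *
      (z (toF b t 0) * z (toF b t 3) - z (toF b t 1) * z (toF b t 2)) := by
    unfold FF
    simp only [map_mul, map_prod, map_sub, aeval_X]
  by_contra hne
  rw [hval] at hne
  have hp := left_ne_zero_of_mul hne
  have hq := right_ne_zero_of_mul hne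
  rw [Finset.prod_ne_zero_iff] at hp
  -- the path coordinates are not zero
  have hpc : ∀ (x : Fin 3) (i : ℕ), i + 1 ≤ 2 * b x → z (toF b t (4 + foff b x + i)) ≠ 0 := by
    intro x i hi
    have h1 := fv_off (b := b) x
    have h2 := hp (foff b x + i) (Finset.mem_range.2 (by omega))
    rw [← add_assoc] at h2
    exact h2
  have h22 : 2 ≤ 2 * b 2 := by have := hb.two; omega
  have hst : fst (P 2 2 h22 : FV b t) := ⟨rfl, rfl⟩
  have hc : ∀ x i, ∀ (h1 : i + 1 ≤ 2 * b x) (h0 : i ≤ 2 * b x), P x i h0 ∈ A ∨ P x (i + 1) h1 ∈ A ∨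
      (x = 2 ∧ (i = 1 ∨ i = 2) ∧ T 0 (Nat.zero_le _) ∈ A) := by
    intro x i h1 h0
    have hzc := hpc x i h1
    by_cases hx : x = 2 ∧ (i = 1 ∨ i = 2)
    · obtain ⟨rfl, hi⟩ := hx
      by_cases hin : (P 2 2 h22 : FV b t) ∈ A
      · rcases hi with rfl | rfl
        · exact Or.inr (Or.inl hin)
        · exact Or.inl hin
      · have hbl := hz2 (P 2 2 h22) hst
        unfold Dat.W at hbl
        rw [if_neg hin] at hbl
        by_contra hcon
        push Not at hcon
        obtain ⟨c1, c2, c3⟩ := hcon
        have hT : (T 0 (Nat.zero_le _) : FV b t) ∉ A := c3 rfl hi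
        have hb2 := hb.two
        rcases hi with rfl | rfl
        · have h3 := fv_zero K _ (0 : Fin 2) ?_ hbl
          · apply hzc
            exact h3
          · rintro p ⟨y, hy, rfl⟩
            fin_cases y
            · exfalso
              apply c1
              exact hy
            · rfl
            · exfalso
              apply hT
              exact hy
        · have h3 := fv_zero K _ (1 : Fin 2) ?_ hbl
          · apply hzc
            exact h3
          · rintro p ⟨y, hy, rfl⟩
            fin_cases y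
            · rfl
            · exfalso
              apply c2
              have h4 : farm (P 2 2 h22 : FV b t) 1 = P 2 (2 + 1) h1 := by
                show (P 2 (min (2 + 1) (2 * b 2)) (min_le_right _ _) : FV b t) = P 2 (2 + 1) h1
                congr 1
                omega
              have hy' : farm (P 2 2 h22 : FV b t) 1 ∈ A := hy
              rw [h4] at hy'
              exact hy'
            · exfalso
              apply hT
              exact hy
    · have hx' : x = 2 → i ≠ 1 ∧ i ≠ 2 := by
        intro h2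
        constructor
        · intro h3
          exact hx ⟨h2, Or.inl h3⟩
        · intro h3
          exact hx ⟨h2, Or.inr h3⟩
      have hfre := fre_path (t := t) hb x i h1 h0 hx'
      have hcode : toF b t (4 + foff b x + i) = toF b t (ffr (P x i h0 : FV b t) (P x (i + 1) h1)) := by
        have h5 : ffr (P x i h0 : FV b t) (P x (i + 1) h1) = 4 + foff b x + i := by
          show (if x = x then 4 + foff b x + min i (i + 1) else 0) = _
          rw [if_pos rfl, min_eq_left (Nat.le_succ i)]
        rw [h5]
      rcases hz1 _ hzc with ⟨s, j, hs, h3⟩ | ⟨u, v, hf, huv, h3⟩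
      · exfalso
        rw [hcode] at h3
        exact ffr_cj hb _ _ s j hfre hs h3
      · rw [hcode] at h3
        have h4 := ffr_inj hb _ _ _ _ hfre hf h3
        rw [Sym2.eq_iff] at h4
        rcases h4 with ⟨rfl, rfl⟩ | ⟨rfl, rfl⟩
        · rcases huv with h5 | h5
          · exact Or.inl h5
          · exact Or.inr (Or.inl h5)
        · rcases huv with h5 | h5
          · exact Or.inr (Or.inl h5)
          · exact Or.inl h5
  obtain ⟨k1, k2, k3⟩ := fcover hb A hA.le hc
  have hb0 := hz2 (S 0) trivial
  have hb1 := hz2 (S 1) trivial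
  have e00 : (fun j => z ((FD t hb).cj (S 0) j)) 0 = z (toF b t 0) := rfl
  have e01 : (fun j => z ((FD t hb).cj (S 0) j)) 1 = z (toF b t 1) := rfl
  have e10 : (fun j => z ((FD t hb).cj (S 1) j)) 0 = z (toF b t 2) := rfl
  have e11 : (fun j => z ((FD t hb).cj (S 1) j)) 1 = z (toF b t 3) := rfl
  -- no arm: the block is zero
  have hnone : ∀ s : Fin 2, (∀ x, ¬ endIn A x) → (S s : FV b t) ∉ A →
      ∀ j, (fun j => z ((FD t hb).cj (S s) j)) j = 0 := by
    intro s hno hs j
    have h1 := hz2 (S s) trivial
    unfold Dat.W at h1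
    rw [if_neg hs] at h1
    refine fv_zero K _ j ?_ h1
    rintro p ⟨y, hy, rfl⟩
    exact absurd (fv_arm A s y hy) (hno y)
  by_cases hS0 : (S 0 : FV b t) ∈ A
  · have hS1 : (S 1 : FV b t) ∉ A := fun h => absurd (k3 0 1 hS0 h) (by decide)
    have h2 := hnone 1 (fun x => k2 0 x hS0) hS1 0
    have h3 := hnone 1 (fun x => k2 0 x hS0) hS1 1
    rw [e10] at h2
    rw [e11] at h3
    apply hq
    rw [h2, h3]
    ring
  · by_cases hS1 : (S 1 : FV b t) ∈ A
    · have h2 := hnone 0 (fun x => k2 1 x hS1) hS0 0
      have h3 := hnone 0 (fun x => k2 1 x hS1) hS0 1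
      rw [e00] at h2
      rw [e01] at h3
      apply hq
      rw [h2, h3]
      ring
    · obtain ⟨x, hx⟩ : ∃ x, ∀ y, endIn A y → y = x := by
        by_cases h : ∃ x, endIn A x
        · obtain ⟨x, hx⟩ := h
          exact ⟨x, fun y hy => k1 y x hy hx⟩
        · exact ⟨0, fun y hy => absurd ⟨y, hy⟩ h⟩
      have hspan : ∀ s : Fin 2, (S s : FV b t) ∉ A →
          ∃ a : K, a • nu K x = fun j => z ((FD t hb).cj (S s) j) := by
        intro s hs
        have h1 := hz2 (S s) trivial
        unfold Dat.W at h1
        rw [if_neg hs] at h1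
        have h2 : Submodule.span K {p | ∃ x, (FD t hb).arm (S s) x ∈ A ∧ p = nu K x} ≤
            Submodule.span K {nu K x} := by
          refine Submodule.span_le.2 ?_
          rintro p ⟨y, hy, rfl⟩
          rw [hx y (fv_arm A s y hy)]
          exact Submodule.mem_span_singleton_self _
        exact Submodule.mem_span_singleton.1 (h2 h1)
      obtain ⟨a, ha⟩ := hspan 0 hS0
      obtain ⟨a', ha'⟩ := hspan 1 hS1
      have f00 : (a • nu K x) 0 = z (toF b t 0) := congrFun ha 0
      have f01 : (a • nu K x) 1 = z (toF b t 1) := congrFun ha 1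
      have f10 : (a' • nu K x) 0 = z (toF b t 2) := congrFun ha' 0
      have f11 : (a' • nu K x) 1 = z (toF b t 3) := congrFun ha' 1
      apply hq
      rw [← f00, ← f01, ← f10, ← f11]
      simp only [Pi.smul_apply, smul_eq_mul]
      ring

end Pool.Agent.H6.SC
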