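import Pool.Agent.H6.SC.FamM
import Pool.Agent.H6.SC.FamV
import Pool.Agent.H6.SC.Hyp
import Pool.Agent.H74.Secant.Defs

/-!
# SC.FamK : a homomorphism that separates `FF` from the products of linear forms

`kap` : path coordinates go to `1`, the tail coordinates to `0`, `x₀` and `x₃` to `X`, `x₁` and `x₂` to `0`.

PROOF. `kap_FF`: direct, `X * X - 0`. `kap_lin`: `l = ∑ c_i X_i` (`homogeneousSubmodule_one_eq_span_X`); if `l` vanishes on `MX x` then `c_i = 0` for the path coordinates (the unit vector is in `MX x`), and `c₀ nu_x(0) + c₁ nu_x(1) = 0`, `c₂ nu_x(0) + c₃ nu_x(1) = 0` (the vector with block `nu x` at `S 0` (or `S 1`)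
and zero elsewhere is in `MX x`: `pp_nu`). So `kap l = (c₀ + c₃) X`. `kap_two`: for `x ≠ y` the two conditions give `c₀ = c₁ = c₂ = c₃ = 0`, so `kap l = 0`. `kap_prod`: let `P = l.prod` vanish on `MX 0`, `MX 1`, `MX 2`. By `irr_list` there are members `p₀, p₁, p₂` of the list that vanish on `MX 0`, `MX 1`, `MX 2`. Choose indices `n₀, n₁, n₂` of the list. If two of them are equal, `kap p = 0` by `kap_two` and
`kap P = 0`. Otherwise the product of the list is divisible by the product of the three members (`List.prod` over `Fin l.length` as `∏ i, l.get i`; `Finset.prod_subset` / `Finset.dvd_prod_of_mem`), each `kap pᵢ` is divisible by `X`.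
-/

set_option autoImplicit false

open MvPolynomial Pool.Agent.H74.Secant

namespace Pool.Agent.H6.SC

universe u

open FV

variable {b : Fin 3 → ℕ} {t : ℕ}

/-- values of the coordinates -/
noncomputable def kval (K : Type u) [Field K] (b : Fin 3 → ℕ) (t : ℕ) (i : Fin (NN b t)) : Polynomial K :=
  if i.val = 0 ∨ i.val = 3 then Polynomial.X else if i.val < 4 then 0
    else if i.val < 4 + 2 * (b 0 + b 1 + b 2) then 1 else 0

noncomputable def kap (K : Type u) [Field K] (b : Fin 3 → ℕ) (t : ℕ) :
    MvPolynomial (Fin (NN b t)) K →ₐ[K] Polynomial K := aeval (kval K b t)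

private theorem toF_val {c : ℕ} (hc : c < NN b t) : (toF b t c).val = c := Nat.mod_eq_of_lt hc

private theorem kval_X (K : Type u) [Field K] {c : ℕ} (hc : c = 0 ∨ c = 3) : kval K b t (toF b t c) = Polynomial.X := by
  have h1 : (toF b t c).val = c := toF_val (by unfold NN; omega)
  unfold kval
  rw [if_pos (by rw [h1]; exact hc)]

private theorem kval_0 (K : Type u) [Field K] {c : ℕ} (hc : c = 1 ∨ c = 2) : kval K b t (toF b t c) = 0 := by
  have h1 : (toF b t c).val = c := toF_val (by unfold NN; omega)
  unfold kval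
  rw [if_neg (by rw [h1]; omega), if_pos (by rw [h1]; omega)]

private theorem kval_1 (K : Type u) [Field K] {c : ℕ} (hc : c < 2 * (b 0 + b 1 + b 2)) :
    kval K b t (toF b t (4 + c)) = 1 := by
  have h1 : (toF b t (4 + c)).val = 4 + c := toF_val (by unfold NN; omega)
  unfold kval
  rw [if_neg (by rw [h1]; omega), if_neg (by rw [h1]; omega), if_pos (by rw [h1]; omega)]

theorem kap_FF (K : Type u) [Field K] : kap K b t (FF K b t) = Polynomial.X ^ 2 := by
  unfold kap FF
  rw [map_mul, map_prod, map_sub, map_mul, map_mul, aeval_X, aeval_X, aeval_X, aeval_X,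
    kval_X K (Or.inl rfl), kval_X K (Or.inr rfl), kval_0 K (Or.inl rfl), kval_0 K (Or.inr rfl),
    Finset.prod_congr rfl (fun c hc => by rw [aeval_X, kval_1 K (Finset.mem_range.1 hc)])]
  rw [Finset.prod_const_one]
  ring

/-- linear forms are sums -/
private theorem lin_sum (K : Type u) [Field K] {N : ℕ} {l : MvPolynomial (Fin N) K} (hl : l.IsHomogeneous 1) :
    ∃ c : Fin N → K, l = ∑ i, c i • X i := by
  have h1 : l ∈ homogeneousSubmodule (Fin N) K 1 := hl
  rw [homogeneousSubmodule_one_eq_span_X, Submodule.mem_span_range_iff_exists_fun] at h1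
  obtain ⟨c, hc⟩ := h1
  exact ⟨c, hc.symm⟩

private theorem lin_ev (K : Type u) [Field K] {N : ℕ} (c : Fin N → K) (z : Fin N → K) :
    aeval z (∑ i, c i • X i : MvPolynomial (Fin N) K) = ∑ i, c i * z i := by
  rw [map_sum]
  refine Finset.sum_congr rfl (fun i _ => ?_)
  rw [map_smul, aeval_X, smul_eq_mul]

/-- the path coefficients vanish -/
private theorem path_zero (K : Type u) [Field K] (c : Fin (NN b t) → K) (x : Fin 3)
    (h : ∀ z ∈ MX K b t x, ∑ i, c i * z i = 0) (i : Fin (NN b t)) (h4 : 4 ≤ i.val)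
    (hi : i.val < 4 + 2 * (b 0 + b 1 + b 2)) : c i = 0 := by
  have h1 := h (Pi.single i 1) (by
    refine ⟨fun s => ?_, fun j hj => ?_⟩
    · refine Finset.sum_eq_zero (fun j _ => ?_)
      rw [Pi.single_eq_of_ne, mul_zero]
      intro h5
      have h6 := congrArg Fin.val h5
      have hs := s.isLt
      have hj := j.isLt
      rw [toF_val (by unfold NN; omega)] at h6
      omega
    · rw [Pi.single_eq_of_ne]
      intro h5
      have h6 := congrArg Fin.val h5
      rw [toF_val (by unfold NN; omega)] at h6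
      omega)
  rw [Finset.sum_eq_single i] at h1
  · simpa using h1
  · intro j _ hj
    rw [Pi.single_eq_of_ne hj, mul_zero]
  · intro h2
    exact absurd (Finset.mem_univ i) h2

private theorem pp_nu' (K : Type u) [Field K] (x : Fin 3) : pp K x 0 * nu K x 0 + pp K x 1 * nu K x 1 = 0 := by
  fin_cases x <;> simp [pp, nu]

/-- the relation at the star `S s` -/
private theorem star_rel (K : Type u) [Field K] (c : Fin (NN b t) → K) (x : Fin 3)
    (h : ∀ z ∈ MX K b t x, ∑ i, c i * z i = 0) (s : Fin 2) :
    c (toF b t (2 * s.val)) * nu K x 0 + c (toF b t (2 * s.val + 1)) * nu K x 1 = 0 := by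
  have hs := s.isLt
  have hne : toF b t (2 * s.val) ≠ toF b t (2 * s.val + 1) := by
    intro h5
    have h6 := toF_inj (by unfold NN; omega) (by unfold NN; omega) h5
    omega
  have h1 := h (nu K x 0 • Pi.single (toF b t (2 * s.val)) 1 + nu K x 1 • Pi.single (toF b t (2 * s.val + 1)) 1) (by
    refine ⟨fun s' => ?_, fun j hj => ?_⟩
    · have hs' := s'.isLt
      by_cases hss : s' = s
      · subst hss
        have e0 : ((2 * s'.val + (0 : Fin 2).val) : ℕ) = 2 * s'.val := by simp
        have e1 : ((2 * s'.val + (1 : Fin 2).val) : ℕ) = 2 * s'.val + 1 := by simp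
        rw [Fin.sum_univ_two, e0, e1]
        simp only [Pi.add_apply, Pi.smul_apply, Pi.single_eq_same, smul_eq_mul, mul_one,
          Pi.single_eq_of_ne hne, Pi.single_eq_of_ne hne.symm, mul_zero, add_zero, zero_add]
        exact pp_nu' K x
      · have hv : s'.val ≠ s.val := fun h5 => hss (Fin.ext h5)
        refine Finset.sum_eq_zero (fun j _ => ?_)
        have hj := j.isLt
        have n1 : toF b t (2 * s'.val + j.val) ≠ toF b t (2 * s.val) := by
          intro h5
          have h6 := toF_inj (by unfold NN; omega) (by unfold NN; omega) h5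
          omega
        have n2 : toF b t (2 * s'.val + j.val) ≠ toF b t (2 * s.val + 1) := by
          intro h5
          have h6 := toF_inj (by unfold NN; omega) (by unfold NN; omega) h5
          omega
        simp only [Pi.add_apply, Pi.smul_apply, smul_eq_mul, Pi.single_eq_of_ne n1, Pi.single_eq_of_ne n2,
          mul_zero, add_zero]
    · have n1 : toF b t (4 + 2 * (b 0 + b 1 + b 2) + j) ≠ toF b t (2 * s.val) := by
        intro h5
        have h6 := toF_inj (by unfold NN; omega) (by unfold NN; omega) h5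
        omega
      have n2 : toF b t (4 + 2 * (b 0 + b 1 + b 2) + j) ≠ toF b t (2 * s.val + 1) := by
        intro h5
        have h6 := toF_inj (by unfold NN; omega) (by unfold NN; omega) h5
        omega
      simp only [Pi.add_apply, Pi.smul_apply, smul_eq_mul, Pi.single_eq_of_ne n1, Pi.single_eq_of_ne n2,
        mul_zero, add_zero])
  have h2 : ∀ (w : K) (q : Fin (NN b t)), ∑ i, c i * (w * (Pi.single q (1 : K) : Fin (NN b t) → K) i) = c q * w := by
    intro w q
    rw [Finset.sum_eq_single q]
    · simp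
    · intro j _ hj
      rw [Pi.single_eq_of_ne hj, mul_zero, mul_zero]
    · intro h3
      exact absurd (Finset.mem_univ q) h3
  simp only [Pi.add_apply, Pi.smul_apply, smul_eq_mul, mul_add, Finset.sum_add_distrib, h2] at h1
  exact h1

private theorem kap_sum (K : Type u) [Field K] (c : Fin (NN b t) → K) :
    kap K b t (∑ i, c i • X i : MvPolynomial (Fin (NN b t)) K) = ∑ i, c i • kval K b t i := by
  unfold kap
  rw [map_sum]
  refine Finset.sum_congr rfl (fun i _ => ?_)
  rw [map_smul, aeval_X]

theorem kap_lin (K : Type u) [Field K] {l : MvPolynomial (Fin (NN b t)) K} (hl : l.IsHomogeneous 1) (x : Fin 3)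
    (h : ∀ z ∈ MX K b t x, aeval z l = (0 : K)) : Polynomial.X ∣ kap K b t l := by
  obtain ⟨c, rfl⟩ := lin_sum K hl
  have h' : ∀ z ∈ MX K b t x, ∑ i, c i * z i = 0 := fun z hz => by rw [← lin_ev]; exact h z hz
  rw [kap_sum]
  refine Finset.dvd_sum (fun i _ => ?_)
  unfold kval
  split_ifs with h1 h2 h3
  · rw [Polynomial.smul_eq_C_mul]
    exact Dvd.intro_left _ rfl
  · simp
  · rw [path_zero K c x h' i (by omega) h3]
    simp
  · simp

private theorem nu_indep (K : Type u) [Field K] {x y : Fin 3} (hxy : x ≠ y) {p q : K}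
    (h1 : p * nu K x 0 + q * nu K x 1 = 0) (h2 : p * nu K y 0 + q * nu K y 1 = 0) : p = 0 ∧ q = 0 := by
  fin_cases x <;> fin_cases y <;> simp [nu] at h1 h2 hxy ⊢
  all_goals first
    | exact ⟨h1, h2⟩
    | exact ⟨h2, h1⟩
    | (refine ⟨h1, ?_⟩; linear_combination h2 - h1)
    | (refine ⟨?_, h1⟩; linear_combination h2 - h1)
    | (refine ⟨h2, ?_⟩; linear_combination h1 - h2)
    | (refine ⟨?_, h2⟩; linear_combination h1 - h2)

theorem kap_two (K : Type u) [Field K] {l : MvPolynomial (Fin (NN b t)) K} (hl : l.IsHomogeneous 1) {x y : Fin 3}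
    (hxy : x ≠ y) (hx : ∀ z ∈ MX K b t x, aeval z l = (0 : K)) (hy : ∀ z ∈ MX K b t y, aeval z l = (0 : K)) :
    kap K b t l = 0 := by
  obtain ⟨c, rfl⟩ := lin_sum K hl
  have hx' : ∀ z ∈ MX K b t x, ∑ i, c i * z i = 0 := fun z hz => by rw [← lin_ev]; exact hx z hz
  have hy' : ∀ z ∈ MX K b t y, ∑ i, c i * z i = 0 := fun z hz => by rw [← lin_ev]; exact hy z hz
  rw [kap_sum]
  refine Finset.sum_eq_zero (fun i _ => ?_)
  unfold kval
  split_ifs with h1 h2 h3
  · have hc : c i = 0 := by
      rcases h1 with h1 | h1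
      · have h3 := (nu_indep K hxy (star_rel K c x hx' 0) (star_rel K c y hy' 0)).1
        have h4 : toF b t (2 * (0 : Fin 2).val) = i := Fin.ext (by
          rw [toF_val (by unfold NN; simp)]
          simp [h1])
        rwa [h4] at h3
      · have h3 := (nu_indep K hxy (star_rel K c x hx' 1) (star_rel K c y hy' 1)).2
        have h4 : toF b t (2 * (1 : Fin 2).val + 1) = i := Fin.ext (by
          rw [toF_val (by unfold NN; simp; omega)]
          simp [h1])
        rwa [h4] at h3
    rw [hc, zero_smul]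
  · simp
  · rw [path_zero K c x hx' i (by omega) h3]
    simp
  · simp

theorem kap_prod (K : Type u) [Field K] [Infinite K] {P : MvPolynomial (Fin (NN b t)) K}
    (hP : IsProductOfLinearForms P) (h : ∀ x, ∀ z ∈ MX K b t x, aeval z P = (0 : K)) :
    Polynomial.X ^ 3 ∣ kap K b t P := by
  obtain ⟨l, hl, rfl⟩ := hP
  have h1 : ∀ x, ∃ p ∈ l, ∀ z ∈ MX K b t x, aeval z p = (0 : K) := fun x => irr_list (MX K b t x) l (h x)
  choose p hpl hpv using h1
  by_cases hinj : ∃ x y, x ≠ y ∧ p x = p y
  · obtain ⟨x, y, hxy, hp⟩ := hinj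
    have h2 : kap K b t (p x) = 0 := kap_two K (hl _ (hpl x)) hxy (hpv x) (by rw [hp]; exact hpv y)
    have h3 : kap K b t l.prod = 0 := by
      have h4 : p x ∣ l.prod := List.dvd_prod (hpl x)
      have h5 := map_dvd (kap K b t) h4
      rw [h2] at h5
      exact zero_dvd_iff.1 h5
    rw [h3]
    exact dvd_zero _
  · push Not at hinj
    have h2 : [p 0, p 1, p 2].Nodup := by
      simp only [List.nodup_cons, List.mem_cons, List.not_mem_nil, or_false, not_or, List.nodup_nil, and_true,
        not_false_eq_true]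
      exact ⟨⟨hinj 0 1 (by decide), hinj 0 2 (by decide)⟩, hinj 1 2 (by decide)⟩
    have h3 : [p 0, p 1, p 2] ⊆ l := by
      intro q hq
      simp only [List.mem_cons, List.not_mem_nil, or_false] at hq
      rcases hq with rfl | rfl | rfl
      · exact hpl 0
      · exact hpl 1
      · exact hpl 2
    have h4 : (([p 0, p 1, p 2] : List _) : Multiset (MvPolynomial (Fin (NN b t)) K)) ≤ (l : Multiset _) :=
      Multiset.coe_le.2 (List.subperm_of_subset h2 h3)
    have h5 := Multiset.prod_dvd_prod_of_le h4
    rw [Multiset.prod_coe, Multiset.prod_coe] at h5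
    have h6 := map_dvd (kap K b t) h5
    refine dvd_trans ?_ h6
    rw [List.prod_cons, List.prod_cons, List.prod_cons, List.prod_nil, mul_one, map_mul, map_mul]
    have e : (Polynomial.X : Polynomial K) ^ 3 = Polynomial.X * (Polynomial.X * Polynomial.X) := by ring
    rw [e]
    exact mul_dvd_mul (kap_lin K (hl _ (hpl 0)) 0 (hpv 0))
      (mul_dvd_mul (kap_lin K (hl _ (hpl 1)) 1 (hpv 1)) (kap_lin K (hl _ (hpl 2)) 2 (hpv 2)))

end Pool.Agent.H6.SC
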