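import Pool.Agent.H6.SC.FamD
import Pool.Agent.H6.SC.DForm

/-!
# SC.FamM : large subspaces in the sums of lines

`AX x` : the vertices `P x i` with `i` even and `P y i`, `y ≠ x`, with `i` odd. `MX x` : the two star forms in direction `x` at `S 0`, `S 1` and the tail coordinates vanish.

PROOF. `card_AX`: `b x + 1` even indices in `0 .. 2 b x`, `b y` odd indices in `0 .. 2 b y`; sum `k + 1` (use `fvEquiv` or an injective image of `Σ`; `Finset.card_sigma`, `Nat.card_multiples`-type lemmas or an explicit bijection). `mem_spn_AX`: `mem_spn` for `FD`. Support: every coordinate `i` of `Fin (NN b t)` with `z i ≠ 0` has a code: `0 .. 3`: coordinates of `S 0`, `S 1`;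
`4 + foff x' + i`, `i < 2 b x'` (path): a coordinate of the star `P 2 2` if `x' = 2`, `i ∈ {1, 2}` (`fcj`), otherwise it is `fr (P x' i) (P x' (i+1))` (`fre_path`), one of `i`, `i + 1` is even and the other one odd, so one end is in `AX x`; tail codes: `z i = 0`. Blocks: at `S 0`: `arm (S 0) y = P y 0 ∈ AX x` iff `y = x`; `S 0 ∉ AX x`; the block is in
`span {nu x}` by `pf_zero_iff`; the same at `S 1` (`2 b x` is even). At `P 2 2`: if `x = 2` it is in `AX x`: `W = ⊤`. If `x ≠ 2`: its arms `P 2 1`, `P 2 3` are in `AX x`, so `nu 0`, `nu 1` are in the span: `W = ⊤`.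
-/

set_option autoImplicit false

open MvPolynomial

namespace Pool.Agent.H6.SC

universe u

open FV

open scoped Classical

variable {b : Fin 3 → ℕ} {t : ℕ}

/-- the code is an odd or even position -/
def inAX (x : Fin 3) : FV b t → Prop
  | P y i _ => if y = x then Even i else Odd i
  | _ => False

noncomputable def AX (b : Fin 3 → ℕ) (t : ℕ) (x : Fin 3) : Finset (FV b t) := Finset.univ.filter (inAX x)

private theorem aux_le {x y : Fin 3} (i : Fin (if y = x then b y + 1 else b y)) :
    2 * i.val + (if y = x then 0 else 1) ≤ 2 * b y := by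
  have h := i.isLt
  split_ifs at h ⊢ <;> omega

private theorem mem_AX_P {x y : Fin 3} {i : ℕ} {h : i ≤ 2 * b y} :
    (P y i h : FV b t) ∈ AX b t x ↔ if y = x then Even i else Odd i := by
  unfold AX
  simp [inAX]

private theorem mem_AX_S {x : Fin 3} {s : Fin 2} : (S s : FV b t) ∉ AX b t x := by
  unfold AX
  simp [inAX]

private theorem mem_AX_T {x : Fin 3} {j : ℕ} {h : j ≤ t} : (T j h : FV b t) ∉ AX b t x := by
  unfold AX
  simp [inAX]

theorem card_AX (x : Fin 3) : (AX b t x).card = b 0 + b 1 + b 2 + 1 := by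
  have h1 : (Finset.univ : Finset (Σ y : Fin 3, Fin (if y = x then b y + 1 else b y))).card = (AX b t x).card := by
    refine Finset.card_bij (fun p _ => P p.1 (2 * p.2.val + (if p.1 = x then 0 else 1)) (aux_le p.2)) ?_ ?_ ?_
    · rintro ⟨y, i⟩ -
      rw [mem_AX_P]
      by_cases h : y = x
      · simp only [if_pos h]
        exact ⟨i.val, by omega⟩
      · simp only [if_neg h]
        exact ⟨i.val, rfl⟩
    · rintro ⟨y, i⟩ - ⟨y', i'⟩ - h
      simp only [P.injEq] at h
      obtain ⟨h2, h3⟩ := h
      subst h2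
      have h4 : i.val = i'.val := by omega
      rw [Fin.ext h4]
    · intro v hv
      match v, hv with
      | S s, hv => exact absurd hv mem_AX_S
      | T j h, hv => exact absurd hv mem_AX_T
      | P y i h, hv =>
        rw [mem_AX_P] at hv
        by_cases hy : y = x
        · rw [if_pos hy] at hv
          obtain ⟨k, hk⟩ := hv
          refine ⟨⟨y, ⟨k, by rw [if_pos hy]; omega⟩⟩, Finset.mem_univ _, ?_⟩
          simp only [P.injEq, if_pos hy, true_and]
          omega
        · rw [if_neg hy] at hv
          obtain ⟨k, hk⟩ := hv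
          refine ⟨⟨y, ⟨k, by rw [if_neg hy]; omega⟩⟩, Finset.mem_univ _, ?_⟩
          simp only [P.injEq, if_neg hy, true_and]
          omega
  rw [← h1]
  simp only [Finset.card_univ, Fintype.card_sigma, Fintype.card_fin, Fin.sum_univ_three]
  fin_cases x <;> simp <;> omega

/-- the subspace `MX x` -/
def MX (K : Type u) [Field K] (b : Fin 3 → ℕ) (t : ℕ) (x : Fin 3) : Submodule K (Fin (NN b t) → K) where
  carrier := {z | (∀ s : Fin 2, ∑ j : Fin 2, pp K x j * z (toF b t (2 * s.val + j.val)) = 0) ∧
    ∀ j, j ≤ t → z (toF b t (4 + 2 * (b 0 + b 1 + b 2) + j)) = 0}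
  add_mem' := by
    rintro z w ⟨h1, h2⟩ ⟨h3, h4⟩
    refine ⟨fun s => ?_, fun j hj => ?_⟩
    · have h5 := h1 s
      have h6 := h3 s
      simp only [Fin.sum_univ_two, Pi.add_apply] at h5 h6 ⊢
      linear_combination h5 + h6
    · simp [h2 j hj, h4 j hj]
  zero_mem' := by
    refine ⟨fun s => ?_, fun j hj => ?_⟩ <;> simp
  smul_mem' := by
    rintro c z ⟨h1, h2⟩
    refine ⟨fun s => ?_, fun j hj => ?_⟩
    · have h5 := h1 s
      simp only [Fin.sum_univ_two, Pi.smul_apply, smul_eq_mul] at h5 ⊢
      linear_combination c * h5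
    · simp [h2 j hj]

private theorem toF_val (i : Fin (NN b t)) : toF b t i.val = i :=
  Fin.ext (Nat.mod_eq_of_lt i.isLt)

private theorem code_cases (c : ℕ) (hc : c < NN b t) :
    (∃ s j : Fin 2, c = 2 * s.val + j.val) ∨ (∃ y : Fin 3, ∃ k, k < 2 * b y ∧ c = 4 + foff b y + k) ∨
      ∃ j, j ≤ t ∧ c = 4 + 2 * (b 0 + b 1 + b 2) + j := by
  unfold NN at hc
  by_cases h1 : c < 4
  · refine Or.inl ⟨⟨c / 2, by omega⟩, ⟨c % 2, by omega⟩, ?_⟩
    simp only
    omega
  by_cases h2 : c < 4 + 2 * (b 0 + b 1 + b 2)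
  · refine Or.inr (Or.inl ?_)
    by_cases h3 : c < 4 + 2 * b 0
    · exact ⟨0, c - 4, by omega, by simp only [foff, if_true]; omega⟩
    by_cases h4 : c < 4 + 2 * b 0 + 2 * b 1
    · refine ⟨1, c - 4 - 2 * b 0, by omega, ?_⟩
      have h5 : foff b 1 = 2 * b 0 := by simp [foff]
      rw [h5]
      omega
    · refine ⟨2, c - 4 - 2 * b 0 - 2 * b 1, by omega, ?_⟩
      have h5 : foff b 2 = 2 * b 0 + 2 * b 1 := by simp [foff]
      rw [h5]
      omega
  · exact Or.inr (Or.inr ⟨c - (4 + 2 * (b 0 + b 1 + b 2)), by omega, by omega⟩)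

theorem mem_spn_AX (K : Type u) [Field K] (hb : FOk b) (x : Fin 3) {z : Fin (NN b t) → K} (hz : z ∈ MX K b t x) :
    z ∈ spn ((FD t hb).L K) (AX b t x) := by
  obtain ⟨hz1, hz2⟩ := hz
  rw [mem_spn]
  constructor
  · intro i hi
    rcases code_cases i.val i.isLt with ⟨s, j, h⟩ | ⟨y, k, hk, h⟩ | ⟨j, hj, h⟩
    · refine Or.inl ⟨S s, j, trivial, ?_⟩
      change i = toF b t (2 * s.val + j.val)
      rw [← h, toF_val]
    · by_cases hy : y = 2 ∧ (k = 1 ∨ k = 2)
      · obtain ⟨hy, hk2⟩ := hy
        subst hy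
        refine Or.inl ⟨P 2 2 (by have := hb.two; omega), ⟨k - 1, by omega⟩, ⟨rfl, rfl⟩, ?_⟩
        change i = toF b t (4 + foff b 2 + (2 - 1) + (k - 1))
        have h2 : 4 + foff b 2 + (2 - 1) + (k - 1) = i.val := by omega
        rw [h2, toF_val]
      · refine Or.inr ⟨P y k hk.le, P y (k + 1) hk, fre_path hb y k hk hk.le ?_, ?_, ?_⟩
        · intro hy2
          constructor
          · intro h3
            exact hy ⟨hy2, Or.inl h3⟩
          · intro h3
            exact hy ⟨hy2, Or.inr h3⟩
        · rw [mem_AX_P, mem_AX_P]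
          by_cases hx : y = x
          · simp only [if_pos hx]
            rcases Nat.even_or_odd k with h3 | h3
            · exact Or.inl h3
            · exact Or.inr h3.add_one
          · simp only [if_neg hx]
            rcases Nat.even_or_odd k with h3 | h3
            · exact Or.inr h3.add_one
            · exact Or.inl h3
        · change i = toF b t (if y = y then 4 + foff b y + min k (k + 1) else 0)
          rw [if_pos rfl, min_eq_left (Nat.le_succ k), ← h, toF_val]
    · refine absurd ?_ hi
      have h2 := hz2 j hj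
      rwa [← h, toF_val] at h2
  · intro s hs
    match s, hs with
    | S s, _ =>
      have h1 : (fun j => z ((FD t hb).cj (S s) j)) ∈ Submodule.span K {nu K x} := by
        rw [← pf_zero_iff, aeval_pf]
        exact hz1 s
      unfold Dat.W
      rw [if_neg mem_AX_S]
      refine Submodule.span_mono ?_ h1
      rintro p rfl
      refine ⟨x, ?_, rfl⟩
      change farm (S s) x ∈ AX b t x
      unfold farm
      by_cases h2 : s = 0
      · simp only [if_pos h2]
        rw [mem_AX_P, if_pos rfl]
        exact ⟨0, rfl⟩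
      · simp only [if_neg h2]
        rw [mem_AX_P, if_pos rfl]
        exact ⟨b x, by omega⟩
    | P y i h, hs =>
      obtain ⟨hy, hi⟩ := hs
      subst hy
      subst hi
      unfold Dat.W
      by_cases hx : (2 : Fin 3) = x
      · rw [if_pos (mem_AX_P.2 (by rw [if_pos hx]; exact ⟨1, rfl⟩))]
        trivial
      · rw [if_neg (fun h1 => by
          rw [mem_AX_P, if_neg hx] at h1
          exact absurd h1 (by decide))]
        have h0 : nu K 0 ∈ Submodule.span K {p | ∃ y, (FD t hb).arm (P 2 2 h) y ∈ AX b t x ∧ p = nu K y} := by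
          refine Submodule.subset_span ⟨0, ?_, rfl⟩
          change farm (P 2 2 h) 0 ∈ AX b t x
          simp only [farm, if_true]
          rw [mem_AX_P, if_neg hx]
          exact ⟨0, rfl⟩
        have h1 : nu K 1 ∈ Submodule.span K {p | ∃ y, (FD t hb).arm (P 2 2 h) y ∈ AX b t x ∧ p = nu K y} := by
          refine Submodule.subset_span ⟨1, ?_, rfl⟩
          change farm (P 2 2 h) 1 ∈ AX b t x
          have h3 : min (2 + 1) (2 * b 2) = 3 := min_eq_left (by have := hb.two; omega)
          simp only [farm, one_ne_zero, if_false, if_true]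
          rw [mem_AX_P, if_neg hx, h3]
          exact ⟨1, rfl⟩
        have h2 : (fun j => z ((FD t hb).cj (P 2 2 h) j)) =
            z ((FD t hb).cj (P 2 2 h) 0) • nu K 0 + z ((FD t hb).cj (P 2 2 h) 1) • nu K 1 := by
          funext j
          fin_cases j <;> simp [nu]
        rw [h2]
        exact Submodule.add_mem _ (Submodule.smul_mem _ _ h0) (Submodule.smul_mem _ _ h1)

end Pool.Agent.H6.SC
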