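import Pool.Agent.H6.SC.FamD
import Pool.Agent.H6.SC.DatLab

/-!
# SC.FamN : degrees, number of edges, connectedness of `FG`

PROOF. `fdeg`: `card_nbs_iff` for `FD` (`degree = (nbs G v).card`, `SimpleGraph.card_neighborFinset_eq_degree`, `neighborFinset` and `nbs` have the same elements). `fedges`: `sum_degrees_eq_twice_card_edges`; the degree is `3` for the three stars, `1` for `T t`, `2` for all other vertices (at most two by `ftwo` / `card_nbs_le`, and two different
neighbours exist as in `fre_cases`), so `2 m = 2 card V + 3 - 1`. `fconn`: every vertex is reachable from `S 0`: `P x i` by induction on `i`, `S 1` from `P 0 (2 b 0)`, `T j` by induction from `P 2 2`.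
-/

set_option autoImplicit false

open Pool.Agent.H74.Secant

namespace Pool.Agent.H6.SC

open FV

variable {b : Fin 3 → ℕ} {t : ℕ} [DecidableRel (FG b t).Adj]

omit [DecidableRel (FG b t).Adj] in
private theorem fn_adj (u v : FV b t) : (FG b t).Adj u v ↔ FE u v ∨ FE v u := Iff.rfl

theorem fdeg (hb : FOk b) (v : FV b t) : fst v ↔ (FG b t).degree v = 3 := by
  classical
  constructor
  · intro hv
    have h1 : (FG b t).neighborFinset v = Finset.univ.image (farm v) := by
      ext u
      rw [SimpleGraph.mem_neighborFinset, fadj_arm hb v hv u]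
      simp
    rw [← SimpleGraph.card_neighborFinset_eq_degree, h1,
      Finset.card_image_of_injective _ (farm_inj hb v hv)]
    simp
  · intro h3
    by_contra hv
    have h1 : 2 < ((FG b t).neighborFinset v).card := by
      rw [SimpleGraph.card_neighborFinset_eq_degree, h3]
      norm_num
    obtain ⟨x, hx, y, hy, z, hz, hxy, hxz, hyz⟩ := Finset.two_lt_card.1 h1
    rw [SimpleGraph.mem_neighborFinset] at hx hy hz
    rcases ftwo v hv x y z hx hy hz with h | h | h
    · exact hxy h
    · exact hxz h
    · exact hyz h

private theorem fn_le (v : FV b t) (hv : ¬ fst v) : (FG b t).degree v ≤ 2 := by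
  classical
  by_contra h
  push Not at h
  rw [← SimpleGraph.card_neighborFinset_eq_degree] at h
  obtain ⟨x, hx, y, hy, z, hz, hxy, hxz, hyz⟩ := Finset.two_lt_card.1 h
  rw [SimpleGraph.mem_neighborFinset] at hx hy hz
  rcases ftwo v hv x y z hx hy hz with h | h | h
  · exact hxy h
  · exact hxz h
  · exact hyz h

private theorem fn_two (v u w : FV b t) (hv : ¬ fst v) (hu : (FG b t).Adj v u) (hw : (FG b t).Adj v w)
    (h : u ≠ w) : (FG b t).degree v = 2 := by
  classical
  refine le_antisymm (fn_le v hv) ?_
  rw [← SimpleGraph.card_neighborFinset_eq_degree]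
  exact Finset.one_lt_card.2 ⟨u, by rwa [SimpleGraph.mem_neighborFinset], w,
    by rwa [SimpleGraph.mem_neighborFinset], h⟩

/-- the degrees -/
private def fdd (b : Fin 3 → ℕ) (t : ℕ) : FV b t → ℕ
  | S _ => 3
  | P x i _ => if x = 2 ∧ i = 2 then 3 else 2
  | T j _ => if j = t then 1 else 2

private theorem fn_deg (hb : FOk b) (v : FV b t) : (FG b t).degree v = fdd b t v := by
  classical
  rcases v with s | ⟨x, i, hi⟩ | ⟨j, hj⟩
  · exact (fdeg hb (S s)).1 trivial
  · by_cases h : x = 2 ∧ i = 2
    · have h1 := (fdeg (t := t) hb (P x i hi)).1 h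
      simp only [fdd, h, and_self, if_true]
      exact h1
    · have hv : ¬ fst (P x i hi : FV b t) := h
      simp only [fdd, h, if_false]
      have hx := hb.one x
      by_cases h0 : i = 0
      · subst h0
        refine fn_two _ (S 0) (P x 1 (by omega)) hv ?_ ?_ ?_
        · rw [fn_adj]
          simp [FE]
        · rw [fn_adj]
          simp [FE]
        · simp
      · by_cases h1 : i = 2 * b x
        · subst h1
          refine fn_two _ (S 1) (P x (2 * b x - 1) (by omega)) hv ?_ ?_ ?_
          · rw [fn_adj]
            simp [FE]
          · rw [fn_adj]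
            right
            exact ⟨rfl, by omega⟩
          · simp
        · refine fn_two _ (P x (i - 1) (by omega)) (P x (i + 1) (by omega)) hv ?_ ?_ ?_
          · rw [fn_adj]
            right
            exact ⟨rfl, by omega⟩
          · rw [fn_adj]
            left
            exact ⟨rfl, rfl⟩
          · simp
  · have hv : ¬ fst (T j hj : FV b t) := id
    have hpre : ∃ u : FV b t, (FG b t).Adj (T j hj) u ∧ ∀ w : FV b t, FE w (T j hj) → w = u := by
      by_cases h0 : j = 0
      · subst h0
        refine ⟨P 2 2 (by have := hb.two; omega), ?_, ?_⟩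
        · rw [fn_adj]
          right
          exact ⟨rfl, rfl, rfl⟩
        · intro w hw
          rcases w with s | ⟨y, k, hk⟩ | ⟨k, hk⟩
          · exact hw.elim
          · obtain ⟨h1, h2, -⟩ := hw
            subst h1 h2
            rfl
          · have h1 : k + 1 = 0 := hw
            omega
      · refine ⟨T (j - 1) (by omega), ?_, ?_⟩
        · rw [fn_adj]
          right
          show j - 1 + 1 = j
          omega
        · intro w hw
          rcases w with s | ⟨y, k, hk⟩ | ⟨k, hk⟩
          · exact hw.elim
          · obtain ⟨-, -, h3⟩ := hw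
            exact absurd h3 h0
          · have h1 : k + 1 = j := hw
            have h2 : k = j - 1 := by omega
            subst h2
            rfl
    obtain ⟨u, hu, hun⟩ := hpre
    by_cases h : j = t
    · simp only [fdd, h, if_true]
      rw [← SimpleGraph.card_neighborFinset_eq_degree, Finset.card_eq_one]
      subst h
      refine ⟨u, ?_⟩
      ext w
      rw [SimpleGraph.mem_neighborFinset, Finset.mem_singleton]
      constructor
      · intro hw
        rw [fn_adj] at hw
        rcases hw with hw | hw
        · rcases w with s | ⟨y, k, hk⟩ | ⟨k, hk⟩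
          · exact hw.elim
          · exact hw.elim
          · have h1 : j + 1 = k := hw
            omega
        · exact hun w hw
      · rintro rfl
        exact hu
    · simp only [fdd, h, if_false]
      refine fn_two _ u (T (j + 1) (by omega)) hv hu ?_ ?_
      · rw [fn_adj]
        left
        rfl
      · rintro rfl
        rw [fn_adj] at hu
        rcases hu with hu | hu
        · have h2 := hun
          by_cases h0 : j = 0
          · subst h0
            have h3 := h2 (P 2 2 (by have := hb.two; omega)) ⟨rfl, rfl, rfl⟩
            cases h3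
          · have h3 := h2 (T (j - 1) (by omega)) (by
              show j - 1 + 1 = j
              omega)
            simp at h3
        · have h1 : j + 1 + 1 = j := hu
          omega

omit [DecidableRel (FG b t).Adj] in
private theorem fn_sum (hb : FOk b) : ∑ v : FV b t, fdd b t v = 2 * (Fintype.card (FV b t) + 1) := by
  rw [← (fvEquiv b t).symm.sum_comp]
  rw [Fintype.sum_sum_type, Fintype.sum_sum_type, card_FV]
  have e1 : ∑ s : Fin 2, fdd b t ((fvEquiv b t).symm (Sum.inl s)) = 6 := by
    simp [fvEquiv, fdd]
  have e2 : ∑ w : (Σ x : Fin 3, Fin (2 * b x + 1)), fdd b t ((fvEquiv b t).symm (Sum.inr (Sum.inl w))) =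
      4 * (b 0 + b 1 + b 2) + 7 := by
    rw [Fintype.sum_sigma]
    have h1 : ∀ x : Fin 3, ∑ i : Fin (2 * b x + 1), fdd b t ((fvEquiv b t).symm (Sum.inr (Sum.inl ⟨x, i⟩))) =
        2 * (2 * b x + 1) + if x = 2 then 1 else 0 := by
      intro x
      have h2 : ∀ i : Fin (2 * b x + 1), fdd b t ((fvEquiv b t).symm (Sum.inr (Sum.inl ⟨x, i⟩))) =
          2 + if x = 2 ∧ i.val = 2 then 1 else 0 := by
        intro i
        show (if x = 2 ∧ i.val = 2 then 3 else 2) = _
        split_ifs <;> rfl
      rw [Finset.sum_congr rfl fun i _ => h2 i, Finset.sum_add_distrib]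
      congr 1
      · simp
        ring
      · by_cases hx : x = 2
        · subst hx
          have h3 : 2 < 2 * b 2 + 1 := by
            have := hb.two
            omega
          rw [Finset.sum_eq_single (⟨2, h3⟩ : Fin (2 * b 2 + 1))]
          · simp
          · intro i _ hi
            have : ¬ (i.val = 2) := fun h => hi (Fin.ext h)
            simp [this]
          · intro h
            exact absurd (Finset.mem_univ _) h
        · simp [hx]
    rw [Finset.sum_congr rfl fun x _ => h1 x, Fin.sum_univ_three]
    simp
    ring
  have e3 : ∑ j : Fin (t + 1), fdd b t ((fvEquiv b t).symm (Sum.inr (Sum.inr j))) = 2 * t + 1 := by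
    have h2 : ∀ j : Fin (t + 1), fdd b t ((fvEquiv b t).symm (Sum.inr (Sum.inr j))) =
        if j.val = t then 1 else 2 := fun j => rfl
    rw [Finset.sum_congr rfl fun j _ => h2 j, Fin.sum_univ_castSucc]
    have h3 : ∀ j : Fin t, (if (Fin.castSucc j).val = t then 1 else 2) = 2 := by
      intro j
      have : ¬ ((Fin.castSucc j).val = t) := by
        have := j.isLt
        simp
        omega
      rw [if_neg this]
    rw [Finset.sum_congr rfl fun j _ => h3 j]
    simp
    ring
  rw [e1, e2, e3]
  ring

theorem fedges (hb : FOk b) : (FG b t).edgeFinset.card = Fintype.card (FV b t) + 1 := by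
  have h1 := (FG b t).sum_degrees_eq_twice_card_edges
  rw [Finset.sum_congr rfl fun v _ => fn_deg hb v, fn_sum hb] at h1
  omega

theorem fconn (hb : FOk b) : (FG b t).Connected := by
  rw [SimpleGraph.connected_iff_exists_forall_reachable]
  refine ⟨S 0, ?_⟩
  have hP : ∀ (x : Fin 3) (i : ℕ) (h : i ≤ 2 * b x), (FG b t).Reachable (S 0) (P x i h) := by
    intro x i
    induction i with
    | zero =>
      intro h
      have : (FG b t).Adj (S 0) (P x 0 h) := by
        rw [fn_adj]
        left
        exact Or.inl ⟨rfl, rfl⟩
      exact this.reachable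
    | succ i ih =>
      intro h
      have : (FG b t).Adj (P x i (by omega)) (P x (i + 1) h) := by
        rw [fn_adj]
        left
        exact ⟨rfl, rfl⟩
      exact (ih (by omega)).trans this.reachable
  have h2 : 2 ≤ 2 * b 2 := by
    have := hb.two
    omega
  have hT : ∀ (j : ℕ) (h : j ≤ t), (FG b t).Reachable (S 0) (T j h) := by
    intro j
    induction j with
    | zero =>
      intro h
      have : (FG b t).Adj (P 2 2 h2) (T 0 h) := by
        rw [fn_adj]
        left
        exact ⟨rfl, rfl, rfl⟩
      exact (hP 2 2 h2).trans this.reachable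
    | succ j ih =>
      intro h
      have : (FG b t).Adj (T j (by omega)) (T (j + 1) h) := by
        rw [fn_adj]
        left
        rfl
      exact (ih (by omega)).trans this.reachable
  intro w
  rcases w with s | ⟨x, i, hi⟩ | ⟨j, hj⟩
  · by_cases hs : s = 0
    · subst hs
      exact SimpleGraph.Reachable.refl _
    · have hs1 : s = 1 := by
        have := s.isLt
        ext
        have h3 : s.val ≠ 0 := fun h => hs (Fin.ext h)
        show s.val = 1
        omega
      subst hs1
      have : (FG b t).Adj (P 0 (2 * b 0) le_rfl) (S 1) := by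
        rw [fn_adj]
        right
        exact Or.inr ⟨rfl, rfl⟩
      exact (hP 0 _ le_rfl).trans this.reachable
  · exact hP x i hi
  · exact hT j hj

theorem fadm (hb : FOk b) : IsAdmissible (FG b t) :=
  isAdmissible_of (FD t hb) (fdeg hb) (fconn hb) ⟨T 0 (Nat.zero_le _), id⟩

end Pool.Agent.H6.SC
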