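import Pool.Agent.H6.SC.Compat

/-!
# SC.LabD : the data of an admissible labelled graph with at least two vertices

PROOF. `st v := G.degree v = 3`. For a star `s` choose `a, b, c, j, k` from `trivalent`; `arm s = ![a, b, c]`, `cj s = ![j, k]`; for other vertices any values
(`Fin N` is nonempty: there is a vertex with a neighbour, and the label of this edge has an index). `fr u v := rep (lab s(u, v))` with
`rep (single i) = i`, `rep (diff j k) = j` (symmetric). `adj_arm`: `trivalent`. `arm_inj`: `{a, b, c}` is the neighbour set and has three elements (`degree = 3`). `far1`, `far2`: a walk of length one or two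
between different stars is a path, `three_le_length`. `tri`: `triangle_free`. `ex`: `connected` and `2 ≤ card V`. `two`: `degree_le`, `degree ≠ 3`: three different neighbours would give degree
`≥ 3`. If two different edges of `extEdges` share an index they share a vertex of degree three (`unused`). `cj_inj`: `cj s i` is an index of `s(s, arm s i)` (`i = 0, 1`; labels `single j`, `single k`), the
same for `t`; if `s ≠ t`: the two edges are different (otherwise `s ~ t`, `far1`), the common vertex of degree three is `s` and `t` (the arms are not stars), a contradiction; if `s = t` use `j ≠ k`.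
`fr_inj`: a free edge has label `single _` (`other`), contains no star; `unused`. It lies in `extEdges`: an edge, or a loop at `v` of degree `1` (`¬ st v`, all neighbours are equal, there is one). `fr_cj`: the same with a star edge.
`Compat`: by construction and `other`.
-/

set_option autoImplicit false

open MvPolynomial Pool.Agent.H74.Secant

namespace Pool.Agent.H6.SC

/-- an index of a label -/
private def rep {N : ℕ} : Label N → Fin N
  | .single i => i
  | .diff j _ => j

private theorem rep_mem {N : ℕ} (l : Label N) : rep l ∈ l.indices := by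
  cases l with
  | single i => simp [rep, Label.indices]
  | diff j k => simp [rep, Label.indices]

private theorem star_data {V : Type} [Fintype V] {G : SimpleGraph V} [DecidableRel G.Adj] {N : ℕ}
    {lab : Sym2 V → Label N} (hlab : IsLabelling G lab) (s : V) :
    ∃ (f : Fin 3 → V) (g : Fin 2 → Fin N), G.degree s = 3 →
      ((∀ w, G.Adj s w ↔ ∃ x, f x = w) ∧ Function.Injective f ∧ g 0 ≠ g 1 ∧
        lab s(s, f 0) = .single (g 0) ∧ lab s(s, f 1) = .single (g 1) ∧
        lab s(s, f 2) = .diff (g 0) (g 1)) := by
  classical
  by_cases h : G.degree s = 3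
  · obtain ⟨a, b, c, j, k, h1, h2, h3, h4, h5⟩ := hlab.trivalent s h
    have hadj : ∀ w, G.Adj s w ↔ ∃ x, (![a, b, c] : Fin 3 → V) x = w := by
      intro w
      rw [h1 w]
      constructor
      · rintro (rfl | rfl | rfl)
        · exact ⟨0, rfl⟩
        · exact ⟨1, rfl⟩
        · exact ⟨2, rfl⟩
      · rintro ⟨x, rfl⟩
        fin_cases x <;> simp
    refine ⟨![a, b, c], ![j, k], fun _ => ⟨hadj, ?_, h2, h3, h4, h5⟩⟩
    have him : G.neighborFinset s = Finset.univ.image (![a, b, c] : Fin 3 → V) := by
      ext w
      rw [SimpleGraph.mem_neighborFinset, hadj w]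
      simp
    have hcard : (Finset.univ.image (![a, b, c] : Fin 3 → V)).card = (Finset.univ : Finset (Fin 3)).card := by
      rw [← him, SimpleGraph.card_neighborFinset_eq_degree, h]
      rfl
    have := Finset.card_image_iff.1 hcard
    intro x y hxy
    exact this (Finset.mem_coe.2 (Finset.mem_univ x)) (Finset.mem_coe.2 (Finset.mem_univ y)) hxy
  · exact ⟨fun _ => s, fun _ => rep (lab s(s, s)), fun h' => absurd h' h⟩

theorem exists_dat {V : Type} [Fintype V] {G : SimpleGraph V} [DecidableRel G.Adj] {N : ℕ}
    {lab : Sym2 V → Label N} (hadm : IsAdmissible G) (hlab : IsLabelling G lab) (h2 : 2 ≤ Fintype.card V) :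
    ∃ D : Dat G N, Compat D lab := by
  classical
  have ex : ∀ v, ∃ u, G.Adj v u := by
    intro v
    have : Nontrivial V := Fintype.one_lt_card_iff_nontrivial.1 (by omega)
    have h := hadm.connected.preconnected.degree_pos_of_nontrivial v
    obtain ⟨u, hu⟩ := (G.degree_pos_iff_exists_adj v).1 h
    exact ⟨u, hu⟩
  have far1 : ∀ s t, G.degree s = 3 → G.degree t = 3 → ¬ G.Adj s t := by
    intro s t hs ht h
    have h3 := hadm.three_le_length s t h.ne hs ht (SimpleGraph.Walk.cons h SimpleGraph.Walk.nil)
      (by
        rw [SimpleGraph.Walk.cons_isPath_iff]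
        refine ⟨SimpleGraph.Walk.IsPath.nil, ?_⟩
        simp [h.ne])
    simp at h3
  have far2 : ∀ s t v, G.degree s = 3 → G.degree t = 3 → G.Adj s v → G.Adj t v → s = t := by
    intro s t v hs ht h1 h2
    by_contra hst
    have h3 := hadm.three_le_length s t hst hs ht
      (SimpleGraph.Walk.cons h1 (SimpleGraph.Walk.cons h2.symm SimpleGraph.Walk.nil))
      (by
        rw [SimpleGraph.Walk.cons_isPath_iff, SimpleGraph.Walk.cons_isPath_iff]
        refine ⟨⟨SimpleGraph.Walk.IsPath.nil, ?_⟩, ?_⟩
        · simp [h2.ne.symm]
        · simp [h1.ne, hst])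
    simp at h3
  have tri : ∀ u v w, G.Adj u v → G.Adj v w → ¬ G.Adj u w := by
    intro u v w h1 h2 h3
    exact hadm.triangle_free {u, v, w} (SimpleGraph.is3Clique_triple_iff.2 ⟨h1, h3, h2⟩)
  have two : ∀ v, ¬ G.degree v = 3 → ∀ u w x, G.Adj v u → G.Adj v w → G.Adj v x → u = w ∨ u = x ∨ w = x := by
    intro v hv u w x hu hw hx
    by_contra hcon
    push Not at hcon
    have hsub : ({u, w, x} : Finset V) ⊆ G.neighborFinset v := by
      intro y hy
      simp only [Finset.mem_insert, Finset.mem_singleton] at hy
      rw [SimpleGraph.mem_neighborFinset]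
      rcases hy with rfl | rfl | rfl
      · exact hu
      · exact hw
      · exact hx
    have hc := Finset.card_le_card hsub
    rw [SimpleGraph.card_neighborFinset_eq_degree, Finset.card_eq_three.2 ⟨u, w, x, hcon.1, hcon.2.1, hcon.2.2, rfl⟩] at hc
    exact hv (le_antisymm (hadm.degree_le v) hc)
  choose arm cj hst using star_data hlab
  -- free edges
  have fre_mem : ∀ u v, Fre G (fun v => G.degree v = 3) u v →
      s(u, v) ∈ extEdges G ∧ ∀ w ∈ s(u, v), G.degree w ≠ 3 := by
    intro u v h
    rcases h with ⟨h1, h2, h3⟩ | ⟨h1, h2, h3⟩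
    · refine ⟨Or.inl ((SimpleGraph.mem_edgeSet G).2 h1), ?_⟩
      intro w hw
      rcases Sym2.mem_iff.1 hw with rfl | rfl
      · exact h2
      · exact h3
    · subst h1
      obtain ⟨w, hw⟩ := ex u
      have hd : G.degree u = 1 := by
        rw [← SimpleGraph.card_neighborFinset_eq_degree, Finset.card_eq_one]
        refine ⟨w, ?_⟩
        ext x
        rw [SimpleGraph.mem_neighborFinset, Finset.mem_singleton]
        constructor
        · intro hx
          exact h3 x w hx hw
        · rintro rfl
          exact hw
      refine ⟨Or.inr ⟨u, hd, rfl⟩, ?_⟩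
      intro w hw
      rcases Sym2.mem_iff.1 hw with rfl | rfl
      · exact h2
      · exact h2
  have fre_lab : ∀ u v, Fre G (fun v => G.degree v = 3) u v → lab s(u, v) = .single (rep (lab s(u, v))) := by
    intro u v h
    obtain ⟨h1, h2⟩ := fre_mem u v h
    obtain ⟨i, hi⟩ := hlab.other _ h1 h2
    rw [hi]
    rfl
  -- star edges
  have st_mem : ∀ s, G.degree s = 3 → ∀ i : Fin 2, ∃ x : Fin 3, lab s(s, arm s x) = .single (cj s i) := by
    intro s hs i
    obtain ⟨h1, h2, h3, h4, h5, h6⟩ := hst s hs
    fin_cases i
    · exact ⟨0, h4⟩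
    · exact ⟨1, h5⟩
  have st_adj : ∀ s, G.degree s = 3 → ∀ x : Fin 3, G.Adj s (arm s x) := by
    intro s hs x
    exact ((hst s hs).1 _).2 ⟨x, rfl⟩
  have st_ext : ∀ s, G.degree s = 3 → ∀ x : Fin 3, s(s, arm s x) ∈ extEdges G := by
    intro s hs x
    exact Or.inl ((SimpleGraph.mem_edgeSet G).2 (st_adj s hs x))
  refine ⟨{ st := fun v => G.degree v = 3
            cj := cj
            arm := arm
            fr := fun u v => rep (lab s(u, v))
            adj_arm := fun s hs v => (hst s hs).1 v
            arm_inj := fun s hs => (hst s hs).2.1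
            far1 := far1
            far2 := far2
            tri := tri
            ex := ex
            two := two
            cj_inj := ?_
            fr_symm := ?_
            fr_inj := ?_
            fr_cj := ?_ }, ?_⟩
  · intro s t i j hs ht hij
    have hs3 : G.degree s = 3 := hs
    have ht3 : G.degree t = 3 := ht
    obtain ⟨x, hx⟩ := st_mem s hs3 i
    obtain ⟨y, hy⟩ := st_mem t ht3 j
    have hst' : s = t := by
      by_contra hne
      have hee : s(s, arm s x) ≠ s(t, arm t y) := by
        intro he
        have h1 : s ∈ s(t, arm t y) := by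
          rw [← he]
          exact Sym2.mem_mk_left _ _
        rcases Sym2.mem_iff.1 h1 with h | h
        · exact hne h
        · have := st_adj t ht3 y
          rw [← h] at this
          exact far1 t s ht3 hs3 this
      obtain ⟨v, hv1, hv2, hv3⟩ := hlab.unused _ (st_ext s hs3 x) _ (st_ext t ht3 y) hee
        ⟨cj s i, by rw [hx]; simp [Label.indices], by rw [hy, hij]; simp [Label.indices]⟩
      have e1 : v = s := by
        rcases Sym2.mem_iff.1 hv1 with h | h
        · exact h
        · exfalso
          have := st_adj s hs3 x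
          rw [← h] at this
          exact far1 s v hs3 hv3 this
      have e2 : v = t := by
        rcases Sym2.mem_iff.1 hv2 with h | h
        · exact h
        · exfalso
          have := st_adj t ht3 y
          rw [← h] at this
          exact far1 t v ht3 hv3 this
      exact hne (e1.symm.trans e2)
    refine ⟨hst', ?_⟩
    subst hst'
    have hne := (hst s hs3).2.2.1
    fin_cases i <;> fin_cases j
    · rfl
    · exact absurd hij hne
    · exact absurd hij.symm hne
    · rfl
  · intro u v
    show rep (lab s(u, v)) = rep (lab s(v, u))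
    rw [Sym2.eq_swap]
  · intro u v u' v' h h' he
    by_contra hne
    obtain ⟨h1, h2⟩ := fre_mem u v h
    obtain ⟨h1', h2'⟩ := fre_mem u' v' h'
    have he' : rep (lab s(u, v)) = rep (lab s(u', v')) := he
    obtain ⟨w, hw1, hw2, hw3⟩ := hlab.unused _ h1 _ h1' hne
      ⟨rep (lab s(u, v)), rep_mem _, by rw [he']; exact rep_mem _⟩
    exact h2 w hw1 hw3
  · intro u v s i h hs he
    have hs3 : G.degree s = 3 := hs
    obtain ⟨h1, h2⟩ := fre_mem u v h
    obtain ⟨x, hx⟩ := st_mem s hs3 i
    have he' : rep (lab s(u, v)) = cj s i := he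
    have hee : s(u, v) ≠ s(s, arm s x) := by
      intro hh
      exact h2 s (by rw [hh]; exact Sym2.mem_mk_left _ _) hs3
    obtain ⟨w, hw1, hw2, hw3⟩ := hlab.unused _ h1 _ (st_ext s hs3 x) hee
      ⟨rep (lab s(u, v)), rep_mem _, by rw [hx, he']; simp [Label.indices]⟩
    exact h2 w hw1 hw3
  · refine { st_iff := fun v => Iff.rfl, l0 := ?_, l1 := ?_, l2 := ?_, lf := ?_ }
    · intro s hs
      exact (hst s hs).2.2.2.1
    · intro s hs
      exact (hst s hs).2.2.2.2.1
    · intro s hs
      exact (hst s hs).2.2.2.2.2
    · intro u v h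
      exact fre_lab u v h

end Pool.Agent.H6.SC
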