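import Pool.Agent.H6.SC.Compat
import Pool.Agent.H6.SC.DSup

/-!
# SC.LabL : the line of `v` is the `lineCone` of the problem

PROOF (`mem_L`). An edge `e ∈ extEdges G` at `v` is `s(v, u)` with `u ~ v`, or the loop `s(v, v)` with `degree v = 1`. Its indices: if it is free (`Fre v u`) the index is `fr v u`; if it contains the star `s`
(then `e = s(s, arm s x)`) the indices are `{cj s 0}`, `{cj s 1}`, `{cj s 0, cj s 1}` for `x = 0, 1, 2`.
(→) `z` in the `lineCone`. First condition: `z i ≠ 0` gives an edge `e` at `v` with `i` among its indices. Blocks: `s = v`: `W {v} v = ⊤`. `s ≠ v`: if `z (cj s j) ≠ 0` there is an edge `e ∋ v` with the index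
`cj s j`, so `e` contains `s` (`cj_inj`, `fr_cj`): `e = s(s, v)`. So if `v` is not a neighbour of `s` the block is `0`. If `v = arm s x` the block has only coordinates from the label of `s(s, v)`:
`x = 0`: `(t, 0)`; `x = 1`: `(0, t)`; `x = 2`: `z (cj s 0) = z (cj s 1)` by the second condition (`degree v ≠ 3` by `far1`): `(t, t)`; in `span {nu x}`.
(←) First condition of `lineCone`: if `z i ≠ 0` then `i = fr v u` with `Fre v u` (an index of the edge or loop), or `i = cj s j` with the block of `z` at `s` in `W {v} s`, not zero, so `s = v` or `v = arm s x` and `nu x j ≠ 0`: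
`cj s j` is an index of an edge at `v`. Second condition: `degree v ≠ 3`, `lab e = diff j k`: `e` is not free, so `e = s(s, arm s x)` with `x = 2`, `v = arm s 2`, the block is in `span {nu 2}`.
-/

set_option autoImplicit false

open MvPolynomial Pool.Agent.H74.Secant

namespace Pool.Agent.H6.SC

universe u

section

variable {V : Type} [Fintype V] {G : SimpleGraph V} [DecidableRel G.Adj] {N : ℕ} {D : Dat G N}
  {lab : Sym2 V → Label N}

private theorem idx_fre (hc : Compat D lab) {u w : V} (h : Fre G D.st u w) (i : Fin N) :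
    i ∈ (lab s(u, w)).indices ↔ i = D.fr u w := by
  rw [hc.lf u w h]
  simp [Label.indices]

private theorem idx_arm (hc : Compat D lab) (K : Type u) [Field K] {s : V} (hs : D.st s) (x : Fin 3) (i : Fin N) :
    i ∈ (lab s(s, D.arm s x)).indices ↔ ∃ j, i = D.cj s j ∧ nu K x j ≠ 0 := by
  have h0 := hc.l0 s hs
  have h1 := hc.l1 s hs
  have h2 := hc.l2 s hs
  fin_cases x
  · show i ∈ (lab s(s, D.arm s 0)).indices ↔ ∃ j, i = D.cj s j ∧ nu K 0 j ≠ 0
    rw [h0]
    simp [Label.indices, nu, Fin.exists_fin_two]
  · show i ∈ (lab s(s, D.arm s 1)).indices ↔ ∃ j, i = D.cj s j ∧ nu K 1 j ≠ 0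
    rw [h1]
    simp [Label.indices, nu, Fin.exists_fin_two]
  · show i ∈ (lab s(s, D.arm s 2)).indices ↔ ∃ j, i = D.cj s j ∧ nu K 2 j ≠ 0
    rw [h2]
    simp [Label.indices, nu, Fin.exists_fin_two]

private theorem classify (hc : Compat D lab) {v : V} {e : Sym2 V} (he : e ∈ extEdges G) (hv : v ∈ e) :
    (∃ u, e = s(v, u) ∧ Fre G D.st v u) ∨
      ∃ s x, D.st s ∧ e = s(s, D.arm s x) ∧ (v = s ∨ v = D.arm s x) := by
  classical
  rcases he with he | ⟨w, hw, rfl⟩
  · obtain ⟨u, rfl⟩ := Sym2.mem_iff_exists.1 hv
    rw [SimpleGraph.mem_edgeSet] at he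
    by_cases h1 : D.st v
    · right
      obtain ⟨x, hx⟩ := (D.adj_arm v h1 u).1 he
      exact ⟨v, x, h1, by rw [hx], Or.inl rfl⟩
    · by_cases h2 : D.st u
      · right
        obtain ⟨x, hx⟩ := (D.adj_arm u h2 v).1 he.symm
        exact ⟨u, x, h2, by rw [hx, Sym2.eq_swap], Or.inr hx.symm⟩
      · left
        exact ⟨u, rfl, Or.inl ⟨he, h1, h2⟩⟩
  · left
    have hvw : v = w := by
      rcases Sym2.mem_iff.1 hv with h | h <;> exact h
    subst hvw
    refine ⟨v, rfl, Or.inr ⟨rfl, ?_, ?_⟩⟩
    · rw [hc.st_iff v, hw]
      norm_num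
    · intro a b ha hb
      rw [← SimpleGraph.card_neighborFinset_eq_degree, Finset.card_eq_one] at hw
      obtain ⟨c, hc'⟩ := hw
      have h1 : a ∈ G.neighborFinset v := (SimpleGraph.mem_neighborFinset G v a).2 ha
      have h2 : b ∈ G.neighborFinset v := (SimpleGraph.mem_neighborFinset G v b).2 hb
      rw [hc', Finset.mem_singleton] at h1 h2
      rw [h1, h2]

private theorem fre_ext {u v : V} (h : Fre G D.st u v) : s(u, v) ∈ extEdges G := by
  classical
  rcases h with ⟨h1, h2, h3⟩ | ⟨h1, h2, h3⟩
  · exact Or.inl ((SimpleGraph.mem_edgeSet G).2 h1)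
  · subst h1
    obtain ⟨w, hw⟩ := D.ex u
    refine Or.inr ⟨u, ?_, rfl⟩
    rw [← SimpleGraph.card_neighborFinset_eq_degree, Finset.card_eq_one]
    refine ⟨w, ?_⟩
    ext x
    rw [SimpleGraph.mem_neighborFinset, Finset.mem_singleton]
    constructor
    · intro hx
      exact h3 x w hx hw
    · rintro rfl
      exact hw

private theorem st_ext {s : V} (hs : D.st s) (x : Fin 3) : s(s, D.arm s x) ∈ extEdges G :=
  Or.inl ((SimpleGraph.mem_edgeSet G).2 (D.adj_arm' hs x))

omit [DecidableRel G.Adj] in
private theorem W_mem (K : Type u) [Field K] {s v : V} (hs : D.st s) (hsv : s ≠ v) {p : Fin 2 → K}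
    (hp : p ∈ D.W K {v} s) : p = 0 ∨ ∃ x, D.arm s x = v ∧ ∃ c : K, p = c • nu K x := by
  classical
  unfold Dat.W at hp
  rw [if_neg (by simpa using hsv)] at hp
  by_cases h : ∃ x, D.arm s x = v
  · obtain ⟨x, hx⟩ := h
    right
    refine ⟨x, hx, ?_⟩
    have hset : {p : Fin 2 → K | ∃ x, D.arm s x ∈ ({v} : Finset V) ∧ p = nu K x} = {nu K x} := by
      ext q
      simp only [Finset.mem_singleton, Set.mem_ofPred_eq, Set.mem_singleton_iff]
      constructor
      · rintro ⟨y, hy, rfl⟩
        have : y = x := D.arm_inj s hs (by rw [hy, hx])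
        rw [this]
      · rintro rfl
        exact ⟨x, hx, rfl⟩
    rw [hset, Submodule.mem_span_singleton] at hp
    obtain ⟨c, hc⟩ := hp
    exact ⟨c, hc.symm⟩
  · left
    have hset : {p : Fin 2 → K | ∃ x, D.arm s x ∈ ({v} : Finset V) ∧ p = nu K x} = ∅ := by
      ext q
      simp only [Finset.mem_singleton, Set.mem_ofPred_eq, Set.mem_empty_iff_false, iff_false]
      rintro ⟨y, hy, _⟩
      exact h ⟨y, hy⟩
    rw [hset, Submodule.span_empty] at hp
    exact (Submodule.mem_bot K).1 hp

end

theorem lineCone_eq {V : Type} [Fintype V] {G : SimpleGraph V} [DecidableRel G.Adj] {N : ℕ} (D : Dat G N)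
    {lab : Sym2 V → Label N} (hc : Compat D lab) (K : Type u) [Field K] (v : V) :
    lineCone G lab K v = (D.L K v : Set (Fin N → K)) := by
  classical
  ext z
  rw [SetLike.mem_coe, mem_L]
  unfold lineCone
  rw [Set.mem_ofPred_eq]
  constructor
  · rintro ⟨P1, P2⟩
    have P1' : ∀ i, z i ≠ 0 → ∃ e ∈ extEdges G, v ∈ e ∧ i ∈ (lab e).indices := by
      intro i hi
      by_contra hcon
      exact hi (P1 i (fun e he hv hi' => hcon ⟨e, he, hv, hi'⟩))
    refine ⟨?_, ?_⟩
    · intro i hi
      obtain ⟨e, he, hv, hi'⟩ := P1' i hi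
      rcases classify hc he hv with ⟨u, rfl, hf⟩ | ⟨s, x, hs, rfl, _⟩
      · right
        exact ⟨u, hf, (idx_fre hc hf i).1 hi'⟩
      · left
        obtain ⟨j, hj, _⟩ := (idx_arm hc K hs x i).1 hi'
        exact ⟨s, j, hs, hj⟩
    · intro s hs
      by_cases hsv : s = v
      · unfold Dat.W
        rw [if_pos (by simpa using hsv)]
        exact Submodule.mem_top
      · have claim : ∀ j, z (D.cj s j) ≠ 0 → ∃ x, v = D.arm s x ∧ nu K x j ≠ 0 := by
          intro j hj
          obtain ⟨e, he, hv, hi'⟩ := P1' _ hj
          rcases classify hc he hv with ⟨u, rfl, hf⟩ | ⟨s', x, hs', rfl, hv'⟩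
          · exact absurd ((idx_fre hc hf _).1 hi').symm (D.fr_cj _ _ _ _ hf hs)
          · obtain ⟨j', hj', hnu⟩ := (idx_arm hc K hs' x _).1 hi'
            obtain ⟨e1, e2⟩ := D.cj_inj s s' j j' hs hs' hj'
            subst e1
            subst e2
            rcases hv' with h | h
            · exact absurd h.symm hsv
            · exact ⟨x, h, hnu⟩
        by_cases harm : ∃ x, D.arm s x = v
        · obtain ⟨x, hx⟩ := harm
          have claim' : ∀ j, nu K x j = 0 → z (D.cj s j) = 0 := by
            intro j hj
            by_contra hz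
            obtain ⟨y, hy, hnu⟩ := claim j hz
            have : y = x := D.arm_inj s hs (by rw [← hy, hx])
            rw [this] at hnu
            exact hnu hj
          have hform : ∃ c : K, (fun j => z (D.cj s j)) = c • nu K x := by
            fin_cases x
            · refine ⟨z (D.cj s 0), ?_⟩
              have h1 := claim' 1 (by simp [nu])
              funext j
              fin_cases j
              · simp [nu]
              · simpa [nu] using h1
            · refine ⟨z (D.cj s 1), ?_⟩
              have h0 := claim' 0 (by simp [nu])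
              funext j
              fin_cases j
              · simpa [nu] using h0
              · simp [nu]
            · refine ⟨z (D.cj s 0), ?_⟩
              have hx' : D.arm s 2 = v := hx
              have hd : G.degree v ≠ 3 := by
                intro hd
                have := D.adj_arm' hs 2
                rw [hx'] at this
                exact D.far1 s v hs ((hc.st_iff v).2 hd) this
              have he := P2 hd _ (st_ext hs 2) (by rw [hx']; exact Sym2.mem_mk_right _ _) _ _ (hc.l2 s hs)
              funext j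
              fin_cases j
              · simp [nu]
              · simpa [nu] using he.symm
          obtain ⟨c, hcz⟩ := hform
          rw [hcz]
          unfold Dat.W
          rw [if_neg (by simpa using hsv)]
          exact Submodule.smul_mem _ _ (Submodule.subset_span ⟨x, by simpa using hx, rfl⟩)
        · have hz : (fun j => z (D.cj s j)) = 0 := by
            funext j
            by_contra hz
            obtain ⟨x, hx, _⟩ := claim j hz
            exact harm ⟨x, hx.symm⟩
          rw [hz]
          exact Submodule.zero_mem _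
  · rintro ⟨C1, C2⟩
    refine ⟨?_, ?_⟩
    · intro i hi
      by_contra hz
      rcases C1 i hz with ⟨s, j, hs, rfl⟩ | ⟨u, hf, rfl⟩
      · by_cases hsv : s = v
        · subst hsv
          have hx : ∃ x : Fin 3, nu K x j ≠ 0 := by
            fin_cases j
            · exact ⟨0, by simp [nu]⟩
            · exact ⟨1, by simp [nu]⟩
          obtain ⟨x, hx⟩ := hx
          exact hi _ (st_ext hs x) (Sym2.mem_mk_left _ _) ((idx_arm hc K hs x _).2 ⟨j, rfl, hx⟩)
        · rcases W_mem K hs hsv (C2 s hs) with h0 | ⟨x, hx, c, hcz⟩
          · exact hz (congrFun h0 j)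
          · have hj : z (D.cj s j) = c * nu K x j := congrFun hcz j
            have hnu : nu K x j ≠ 0 := by
              intro h
              rw [h, mul_zero] at hj
              exact hz hj
            exact hi _ (st_ext hs x) (by rw [hx]; exact Sym2.mem_mk_right _ _)
              ((idx_arm hc K hs x _).2 ⟨j, rfl, hnu⟩)
      · exact hi _ (fre_ext hf) (Sym2.mem_mk_left _ _) ((idx_fre hc hf _).2 rfl)
    · intro hd e he hv j k hlab
      rcases classify hc he hv with ⟨u, rfl, hf⟩ | ⟨s, x, hs, rfl, hv'⟩
      · rw [hc.lf _ _ hf] at hlab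
        cases hlab
      · have hsv : s ≠ v := by
          rintro rfl
          exact hd ((hc.st_iff s).1 hs)
        have hvx : v = D.arm s x := by
          rcases hv' with h | h
          · exact absurd h.symm hsv
          · exact h
        fin_cases x
        · have := hc.l0 s hs
          rw [show (lab s(s, D.arm s 0)) = .diff j k from hlab] at this
          cases this
        · have := hc.l1 s hs
          rw [show (lab s(s, D.arm s 1)) = .diff j k from hlab] at this
          cases this
        · have h2 := hc.l2 s hs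
          rw [show (lab s(s, D.arm s 2)) = .diff j k from hlab] at h2
          injection h2 with hj hk
          rw [hj, hk]
          have hvx' : v = D.arm s 2 := hvx
          rcases W_mem K hs hsv (C2 s hs) with h0 | ⟨y, hy, c, hcz⟩
          · have a0 : z (D.cj s 0) = 0 := congrFun h0 0
            have a1 : z (D.cj s 1) = 0 := congrFun h0 1
            rw [a0, a1]
          · have hy2 : y = 2 := D.arm_inj s hs (by rw [hy, hvx'])
            subst hy2
            have a0 : z (D.cj s 0) = c * nu K 2 0 := congrFun hcz 0
            have a1 : z (D.cj s 1) = c * nu K 2 1 := congrFun hcz 1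
            rw [a0, a1]
            simp [nu]

end Pool.Agent.H6.SC
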