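import Pool.Agent.H74.Secant.Poly

/-!
# SC.One : the graph with one vertex

PROOF. `extEdges G = ∅` (no edges; the degree of the vertex is zero), so `lineCone` is `{0}` for every vertex and `graphCurve = {0}`. The ideal `vanishingIdeal {0} ⊔ J` contains all homogeneous polynomials of positive degree, so `hilbertFn _ t = 0` for `t ≥ 1` (`hilbertFn`: `finrank` of the zero quotient) and `MeetsInLength` holds only for `ℓ = 0`
(`Filter.Eventually.and`, `exists`). As `k + 1 ≤ ℓ` is impossible, `secantUnion = ∅`, its vanishing ideal is `⊤`, `zeroLocus ⊤ = ∅`, and `vanishingIdeal ∅ = ⊤ = Ideal.span {1}`; `1` is the empty product.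
-/

set_option autoImplicit false

open MvPolynomial Pool.Agent.H74.Secant

namespace Pool.Agent.H6.SC

universe u

private theorem extEdges_one {V : Type} [Fintype V] {G : SimpleGraph V} [DecidableRel G.Adj]
    (h1 : Fintype.card V = 1) : extEdges G = ∅ := by
  haveI : Subsingleton V := Fintype.card_le_one_iff_subsingleton.mp h1.le
  have hadj : ∀ v w : V, ¬ G.Adj v w := fun v w h => h.ne (Subsingleton.elim _ _)
  have hdeg : ∀ v : V, G.degree v = 0 := by
    intro v
    rw [← SimpleGraph.card_neighborFinset_eq_degree, Finset.card_eq_zero]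
    ext w
    simp [hadj v w]
  ext e
  simp only [extEdges, Set.mem_union, Set.mem_setOf_eq, Set.mem_empty_iff_false, iff_false, not_or]
  constructor
  · induction e with
    | h x y => simpa using hadj x y
  · rintro ⟨v, hv, -⟩
    rw [hdeg v] at hv
    exact absurd hv (by norm_num)

private theorem graphCurve_one {V : Type} [Fintype V] {G : SimpleGraph V} [DecidableRel G.Adj] {N : ℕ}
    (lab : Sym2 V → Label N) (h1 : Fintype.card V = 1) (K : Type u) [Field K] :
    graphCurve G lab K = {0} := by
  haveI : Nonempty V := Fintype.card_pos_iff.mp (by omega)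
  have he := extEdges_one (G := G) h1
  have hl : ∀ v, lineCone G lab K v = {0} := by
    intro v
    ext z
    simp only [lineCone, he, Set.mem_setOf_eq, Set.mem_empty_iff_false, false_imp_iff,
      imp_true_iff, implies_true, forall_true_left, and_true, Set.mem_singleton_iff]
    exact ⟨fun h => funext fun i => h i, fun h i => by rw [h]; rfl⟩
  simp [graphCurve, hl]

private theorem hilbertFn_one {N : ℕ} (K : Type u) [Field K] (Λ : Ideal (MvPolynomial (Fin N) K))
    {t : ℕ} (ht : 1 ≤ t) :
    hilbertFn (vanishingIdeal K ({0} : Set (Fin N → K)) ⊔ Λ) t = 0 := by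
  rw [hilbertFn_eq]
  have htop : piece (vanishingIdeal K ({0} : Set (Fin N → K)) ⊔ Λ) t = ⊤ := by
    rw [eq_top_iff]
    rintro f -
    rw [mem_piece]
    refine Ideal.mem_sup_left ?_
    rw [mem_vanishingIdeal_singleton_iff]
    have hf : (f : MvPolynomial (Fin N) K).IsHomogeneous t := f.2
    have h0 : aeval (0 : Fin N → K) (f : MvPolynomial (Fin N) K)
        = constantCoeff (f : MvPolynomial (Fin N) K) := by
      rw [aeval_zero]
      rfl
    rw [h0, constantCoeff_eq]
    by_contra hne
    have := hf hne
    simp at this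
    omega
  rw [htop]
  haveI : Subsingleton (homogeneousSubmodule (Fin N) K t ⧸ (⊤ : Submodule K _)) :=
    Submodule.Quotient.subsingleton_iff.mpr rfl
  exact Module.finrank_zero_of_subsingleton

theorem pos_one {V : Type} [Fintype V] {G : SimpleGraph V} [DecidableRel G.Adj] {N : ℕ}
    (lab : Sym2 V → Label N) (h1 : Fintype.card V = 1) (K : Type u) [Field K] {k : ℕ} :
    GeneratedByProducts (vanishingIdeal K (secantVariety k (graphCurve G lab K))) := by
  have hU : secantUnion k (graphCurve G lab K) = ∅ := by
    rw [Set.eq_empty_iff_forall_notMem]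
    rintro z ⟨Λ, -, ⟨ℓ, hℓ, hm⟩, -⟩
    rw [graphCurve_one lab h1 K] at hm
    obtain ⟨t, ht, h⟩ := (hm.and (Filter.eventually_ge_atTop 1)).exists
    rw [hilbertFn_one K _ h] at ht
    omega
  have hV : vanishingIdeal K (secantVariety k (graphCurve G lab K)) = ⊤ := by
    rw [secantVariety, hU, vanishingIdeal_empty, zeroLocus_top]
    exact vanishingIdeal_empty
  rw [hV]
  refine ⟨{1}, ?_, Ideal.span_singleton_one⟩
  rintro f rfl
  exact ⟨[], by simp, by simp⟩

end Pool.Agent.H6.SC
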