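import Pool.Agent.H6.SC.Pos
import Pool.Agent.H6.SC.One
import Pool.Agent.H6.SC.LabD
import Pool.Agent.H6.SC.LabL

/-!
# SC.PosF : the positive theorem
-/

set_option autoImplicit false

open MvPolynomial Pool.Agent.H74.Secant

namespace Pool.Agent.H6.SC

universe u

theorem curve_eq {V : Type} [Fintype V] {G : SimpleGraph V} [DecidableRel G.Adj] {N : ℕ} (D : Dat G N)
    {lab : Sym2 V → Label N} (hc : Compat D lab) (K : Type u) [Field K] : graphCurve G lab K = D.crv K := by
  unfold graphCurve Dat.crv
  exact Set.iUnion_congr fun v => lineCone_eq D hc K v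

theorem pos {V : Type} [Fintype V] {G : SimpleGraph V} [DecidableRel G.Adj] {N : ℕ}
    {lab : Sym2 V → Label N} (hadm : IsAdmissible G) (hlab : IsLabelling G lab) (K : Type u) [Field K] [Infinite K]
    {k : ℕ} (hk : k ≤ 2) : GeneratedByProducts (vanishingIdeal K (secantVariety k (graphCurve G lab K))) := by
  by_cases h1 : Fintype.card V = 1
  · exact pos_one lab h1 K
  · have h0 : 0 < Fintype.card V := Fintype.card_pos_iff.2 hadm.connected.nonempty
    obtain ⟨D, hc⟩ := exists_dat hadm hlab (by omega)
    rw [curve_eq D hc K]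
    exact pos_dat D K hk

end Pool.Agent.H6.SC
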