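import Pool.Agent.H6.SC.FamK
import Pool.Agent.H6.SC.FamE
import Pool.Agent.H6.SC.FamN
import Pool.Agent.H6.SC.ExLab
import Pool.Agent.H6.SC.PosF

/-!
# SC.FamZ : for `k ≥ 4` there are counterexamples of every degree
-/

set_option autoImplicit false

open MvPolynomial Pool.Agent.H74.Secant

namespace Pool.Agent.H6.SC

universe u

open FV

theorem not_gen {b : Fin 3 → ℕ} (t : ℕ) (hb : FOk b) (h0 : b 0 ≤ b 1 + b 2) (h1 : b 1 ≤ b 0 + b 2)
    (h2 : b 2 ≤ b 0 + b 1) (K : Type u) [Field K] [Infinite K] :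
    ¬ GeneratedByProducts (vanishingIdeal K (secantVariety (b 0 + b 1 + b 2) ((FD t hb).crv K))) := by
  rintro ⟨T, hT, hJ⟩
  have hE := fexpos (t := t) hb h0 h1 h2
  have hF : FF K b t ∈ vanishingIdeal K (secantVariety (b 0 + b 1 + b 2) ((FD t hb).crv K)) := by
    rw [mem_sec (FD t hb) K hE]
    intro A hA z hz
    exact FF_van K t hb A hA z hz
  have hle : vanishingIdeal K (secantVariety (b 0 + b 1 + b 2) ((FD t hb).crv K)) ≤
      (Ideal.span {Polynomial.X ^ 3}).comap (kap K b t) := by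
    rw [← hJ, Ideal.span_le]
    intro P hPT
    have hPJ : P ∈ vanishingIdeal K (secantVariety (b 0 + b 1 + b 2) ((FD t hb).crv K)) := by
      rw [← hJ]
      exact Ideal.subset_span hPT
    rw [mem_sec (FD t hb) K hE] at hPJ
    show kap K b t P ∈ Ideal.span {Polynomial.X ^ 3}
    rw [Ideal.mem_span_singleton]
    exact kap_prod K (hT P hPT) fun x z hz => hPJ _ (card_AX x) z (mem_spn_AX K hb x hz)
  have h3 : kap K b t (FF K b t) ∈ Ideal.span {Polynomial.X ^ 3} := hle hF
  rw [kap_FF, Ideal.mem_span_singleton] at h3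
  have h4 := (Polynomial.X_pow_dvd_iff.1 h3) 2 (by norm_num)
  simp at h4

theorem neg (K : Type u) [Field K] [Infinite K] {k : ℕ} (hk : 4 ≤ k) (n : ℕ) :
    ∃ (V : Type) (_ : Fintype V) (G : SimpleGraph V) (_ : DecidableRel G.Adj) (N : ℕ) (lab : Sym2 V → Label N),
      IsAdmissible G ∧ IsLabelling G lab ∧ G.edgeFinset.card = Fintype.card V + 1 ∧ n ≤ Fintype.card V ∧
        ¬ GeneratedByProducts (vanishingIdeal K (secantVariety k (graphCurve G lab K))) := by
  classical
  let b : Fin 3 → ℕ := ![k / 3, (k + 1) / 3, (k + 2) / 3]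
  have hb0 : b 0 = k / 3 := rfl
  have hb1 : b 1 = (k + 1) / 3 := rfl
  have hb2 : b 2 = (k + 2) / 3 := rfl
  have hb : FOk b := by
    refine ⟨fun x => ?_, by omega⟩
    fin_cases x
    · show 1 ≤ b 0
      omega
    · show 1 ≤ b 1
      omega
    · show 1 ≤ b 2
      omega
  have hsum : b 0 + b 1 + b 2 = k := by omega
  have hst : ∀ v, (FD n hb).st v ↔ (FG b n).degree v = 3 := fdeg hb
  obtain ⟨lab, hc⟩ := exists_lab (FD n hb) (by unfold NN; omega) hst
  have he := fedges (t := n) hb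
  refine ⟨FV b n, inferInstance, FG b n, inferInstance, NN b n, lab, fadm hb, ?_, he, ?_, ?_⟩
  · refine isLabelling_of (FD n hb) hc ?_
    rw [he, card_FV]
    unfold NN
    omega
  · rw [card_FV]
    omega
  · rw [curve_eq (FD n hb) hc K]
    have h := not_gen n hb (by omega) (by omega) (by omega) K
    rwa [hsum] at h

end Pool.Agent.H6.SC
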