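import Pool.Agent.H6.SC.FamZ
import Pool.Agent.H74.Secant.Graph

/-!
# SC.Fin : the theorem
-/

set_option autoImplicit false

open MvPolynomial Pool.Agent.H74.Secant

namespace Pool.Agent.H6.SC

universe u

/-- the theta graph with three paths of four edges and `k = 3` (helper74) -/
theorem three (K : Type u) [Field K] [IsAlgClosed K] [CharZero K] :
    ∃ (V : Type) (_ : Fintype V) (G : SimpleGraph V) (_ : DecidableRel G.Adj) (N : ℕ) (lab : Sym2 V → Label N),
      IsAdmissible G ∧ IsLabelling G lab ∧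
        ¬ GeneratedByProducts (vanishingIdeal K (secantVariety 3 (graphCurve G lab K))) := by
  refine ⟨Vx, inferInstance, TG, inferInstance, 10, TL, adm, labelling, ?_⟩
  rw [graphCurve_eq]
  exact not_generated

theorem main (K : Type u) [Field K] [IsAlgClosed K] [CharZero K] :
    (∀ k : ℕ, 1 ≤ k →
      ((∀ (V : Type) [Fintype V] (G : SimpleGraph V) [DecidableRel G.Adj] (N : ℕ) (lab : Sym2 V → Label N),
        IsAdmissible G → IsLabelling G lab →
          GeneratedByProducts (vanishingIdeal K (secantVariety k (graphCurve G lab K)))) ↔ k ≤ 2)) ∧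
    ∀ k n : ℕ, 4 ≤ k →
      ∃ (V : Type) (_ : Fintype V) (G : SimpleGraph V) (_ : DecidableRel G.Adj) (N : ℕ) (lab : Sym2 V → Label N),
        IsAdmissible G ∧ IsLabelling G lab ∧ G.edgeFinset.card = Fintype.card V + 1 ∧ n ≤ Fintype.card V ∧
          ¬ GeneratedByProducts (vanishingIdeal K (secantVariety k (graphCurve G lab K))) := by
  refine ⟨fun k hk => ⟨fun h => ?_, fun h V _ G _ N lab hadm hlab => pos hadm hlab K h⟩, fun k n hk => neg K hk n⟩
  by_contra hk2
  rcases Nat.lt_or_ge k 4 with h4 | h4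
  · have h3 : k = 3 := by omega
    subst h3
    obtain ⟨V, i1, G, i2, N, lab, h5, h6, h7⟩ := three K
    exact h7 (@h V i1 G i2 N lab h5 h6)
  · obtain ⟨V, i1, G, i2, N, lab, h5, h6, _, _, h7⟩ := neg K h4 0
    exact h7 (@h V i1 G i2 N lab h5 h6)

end Pool.Agent.H6.SC
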