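import Pool.Agent.H6.SC.Rado
import Pool.Agent.H6.SC.Div

/-!
# SC.Gen : dimension of a sum of lines, generic points

PROOF. `finrank_spn`: induction on `|B|`; take `v ∈ B` from `Expos`; all its `dn`-neighbours are equal, so `L v ⊓ spn L (B.erase v)` has
dimension at most one (`expo` with the neighbour `u`, or `expo0`), hence
`finrank (spn L B) = finrank (L v ⊔ spn L (B.erase v)) ≥ 2 + finrank (spn L (B.erase v)) - 1` (`Submodule.finrank_sup_add_finrank_inf_eq`), which is
`≥ |B| + 1` by induction (for `B = {v}`: `finrank = 2`).
`exists_gen`: `rado` with `ι = Option {p : V × V // G.Adj p.1 p.2}`, `M none = ⊥`, `M (some p) = span {nod p}`. The hypothesis for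
`B = ∅` is clear; for `B ≠ ∅`, `|B| ≤ k + 1`: `1 + |B| ≤ finrank (spn L B) ≤ finrank (M ⊔ spn L B)`. The result for `none`: the span of the `q v` has
dimension `k + 1`; for `some p`: `span {nod p} ⊔ span (q '' A)` has dimension `k + 2`, so `nod p ∉ span (q '' A)`.
-/

set_option autoImplicit false

open MvPolynomial Pool.Agent.H74.Secant

namespace Pool.Agent.H6.SC

universe u

open scoped Classical

variable {K : Type u} [Field K] {N : ℕ} {V : Type} [Fintype V] {G : SimpleGraph V} (a : Arr K N G)

omit [Fintype V] in
private theorem spn_erase {L : V → Submodule K (Fin N → K)} {B : Finset V} {v : V} (hv : v ∈ B) :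
    spn L B = L v ⊔ spn L (B.erase v) := by
  unfold spn
  conv_lhs => rw [← Finset.insert_erase hv]
  rw [Finset.iSup_insert]

theorem finrank_spn {n : ℕ} (hE : Expos G n) {B : Finset V} (hB : B.Nonempty) (hn : B.card ≤ n) :
    B.card + 1 ≤ Module.finrank K (spn a.L B) := by
  induction B using Finset.strongInduction with
  | H B ih =>
    obtain ⟨v, hv, hu⟩ := hE B hB hn
    have hcard : (B.erase v).card + 1 = B.card := Finset.card_erase_add_one hv
    rw [spn_erase hv]
    by_cases he : (B.erase v).Nonempty
    · have h1 := ih (B.erase v) (Finset.erase_ssubset hv) he (by omega)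
      have h2 := Submodule.finrank_sup_add_finrank_inf_eq (a.L v) (spn a.L (B.erase v))
      have h3 : Module.finrank K (a.L v ⊓ spn a.L (B.erase v) : Submodule K (Fin N → K)) ≤ 1 := by
        by_cases hw : ∃ u, dn G B v u
        · obtain ⟨u, hu1⟩ := hw
          have h4 := a.expo B v u hv hu1.1 (fun w hw => hu w u hw hu1)
          refine (Submodule.finrank_mono h4).trans ?_
          exact (finrank_span_le_card _).trans (by simp)
        · push Not at hw
          rw [a.expo0 B v hv hw, finrank_bot]
          omega
      rw [a.dim v] at h2
      omega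
    · have h1 : Module.finrank K (a.L v) ≤
          Module.finrank K (a.L v ⊔ spn a.L (B.erase v) : Submodule K (Fin N → K)) :=
        Submodule.finrank_mono le_sup_left
      rw [a.dim v] at h1
      rw [Finset.not_nonempty_iff_eq_empty] at he
      rw [he, Finset.card_empty] at hcard
      rw [he] at h1 ⊢
      omega

theorem exists_gen [Infinite K] {n : ℕ} (hE : Expos G n) (A : Finset V) (hA : A.card ≤ n) :
    ∃ q : V → (Fin N → K), (∀ v ∈ A, q v ∈ a.L v) ∧
      LinearIndependent K (fun v : A => q v) ∧
      ∀ u v, G.Adj u v → LinearIndependent K (fun x : Option A => x.elim (a.nod u v) (fun w => q w)) := by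
  let M : Option {p : V × V // G.Adj p.1 p.2} → Submodule K (Fin N → K) := fun i =>
    match i with
    | none => ⊥
    | some p => Submodule.span K {a.nod p.1.1 p.1.2}
  have hdim : ∀ u v, G.Adj u v → Module.finrank K (Submodule.span K {a.nod u v}) = 1 :=
    fun u v h => finrank_span_singleton (a.nod_ne u v h)
  obtain ⟨q, hq1, hq2⟩ := rado a.L A M (by
    intro i B hBA
    have hc : B.card ≤ n := (Finset.card_le_card hBA).trans hA
    rcases B.eq_empty_or_nonempty with rfl | hne
    · rw [Finset.card_empty, add_zero]
      exact Submodule.finrank_mono le_sup_left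
    · have h1 := finrank_spn a hE hne hc
      have h2 : Module.finrank K (spn a.L B) ≤
          Module.finrank K (M i ⊔ ⨆ v ∈ B, a.L v : Submodule K (Fin N → K)) :=
        Submodule.finrank_mono le_sup_right
      have h3 : Module.finrank K (M i) ≤ 1 := by
        match i with
        | none =>
          change Module.finrank K (⊥ : Submodule K (Fin N → K)) ≤ 1
          rw [finrank_bot]
          omega
        | some p => exact (hdim _ _ p.2).le
      omega)
  refine ⟨q, hq1, ?_, ?_⟩
  · rw [linearIndependent_iff_card_eq_finrank_span]
    have h1 := hq2 none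
    change Module.finrank K (⊥ ⊔ Submodule.span K (q '' (A : Set V)) : Submodule K (Fin N → K)) =
      Module.finrank K (⊥ : Submodule K (Fin N → K)) + A.card at h1
    rw [bot_sup_eq, finrank_bot, zero_add] at h1
    have h2 : Set.range (fun v : A => q v) = q '' (A : Set V) := by
      ext z
      simp
    rw [h2, Fintype.card_coe]
    exact h1.symm
  · intro u v huv
    rw [linearIndependent_iff_card_eq_finrank_span]
    have h1 := hq2 (some ⟨(u, v), huv⟩)
    change Module.finrank K (Submodule.span K {a.nod u v} ⊔ Submodule.span K (q '' (A : Set V)) :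
      Submodule K (Fin N → K)) = Module.finrank K (Submodule.span K {a.nod u v}) + A.card at h1
    rw [hdim u v huv] at h1
    have h2 : Set.range (fun x : Option A => x.elim (a.nod u v) (fun w => q w)) =
        {a.nod u v} ∪ q '' (A : Set V) := by
      ext z
      simp only [Set.mem_range, Option.exists, Option.elim_none, Option.elim_some, Set.mem_union,
        Set.mem_singleton_iff, Set.mem_image, Finset.mem_coe, Subtype.exists, exists_prop]
      constructor
      · rintro (h | h)
        · exact Or.inl h.symm
        · exact Or.inr h
      · rintro (h | h)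
        · exact Or.inl h.symm
        · exact Or.inr h
    rw [h2, Set.finrank, Submodule.span_union, h1, Fintype.card_option, Fintype.card_coe, add_comm]

end Pool.Agent.H6.SC
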