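import Pool.Agent.H6.SC.Div

/-!
# SC.Ind : independence of the units

Data: `A₁` vertices without a node in `Λ`; `T₁`, `T₂` disjoint sets of ordered pairs `p` (`p.1 ~ p.2`, node in `Λ`, and `p.2` is not
of degree three: `hor`), at most one pair for each edge (`o p.1 < o p.2`). `y₁ v ∈ L v ⊓ Λ`, `y₂ p ∈ span (nod p)`, `y₃ p ∈ (L p.1 ⊔ L p.2) ⊓ Λ`. If the
sum of all these vectors is zero and `|A₁| + |T₁| + 2 |T₂| ≤ n`, `Expos G n`, then all are zero.

FACTS. (F1) Two different nodes of one line do not both lie in `Λ` (`nod_ind`, `dim`: they would span `L v ≤ Λ`). So the edges of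
`T₁ ∪ T₂` are pairwise disjoint and no vertex of `A₁` is an end of one of them. (F2) `L v ⊓ Λ ≤ span (nod v u)` if `nod v u ∈ Λ`
(`dim`, `L v` not contained in `Λ`).

PROOF by strong induction on `|A₁| + |T₁| + 2 |T₂|`. If one of the vectors is zero remove its index (for `p ∈ T₂` the sum of the
remaining ones is still zero) and use induction. If some `y₃ p ∈ span (nod p)` move `p` from `T₂` to `T₁` (the number decreases by one).
So assume that all vectors are nonzero and no `y₃ p` lies in `span (nod p)`; let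
`B = A₁ ∪ {p.1 : p ∈ T₁} ∪ {p.1, p.2 : p ∈ T₂}`, `|B| ≤ n`. If `B = ∅` we are done. Otherwise take `v ∈ B` from `Expos`: all `dn`-neighbours of `v` are
equal. Since the sum is zero, the part `x` of the sum that belongs to `v` lies in `spn L (B.erase v)`: for `v ∈ A₁`, `x = y₁ v`; for `v = p.1`, `p ∈ T₁`,
`x = y₂ p`; for `v ∈ {p.1, p.2}`, `p ∈ T₂`, write `y₃ p = x + x'`, `x ∈ L v`, `x'` in the line of the other end `v'`, which is in `B.erase v`.
In all cases `x ∈ L v ⊓ spn L (B.erase v)`.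
* `v ∈ A₁`: if `v` has a `dn`-neighbour `u` then `x ∈ span (nod v u)` (`expo`), `x ≠ 0`, `x ∈ Λ`, so `nod v u ∈ Λ`, a contradiction; if not, `expo0`.
* `v = p.1`, `p ∈ T₁`: `p.2 ∉ B` by (F1), and `p.2` is not of degree three, so `p.2` is not a `dn`-neighbour. If there is a `dn`-neighbour `u` then `u ≠ p.2`,
  `x ∈ span (nod v u) ⊓ span (nod v p.2) = 0`. If not, `expo0`: `x = 0`.
* `v ∈ {p.1, p.2}`, `p ∈ T₂`: the other end `v'` is in `B`, so it is the `dn`-neighbour and `x ∈ span (nod p)` (`expo`). Then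
  `y₃ p = x + x'` is in `Λ` and in the line of `v'` (`nod p` lies in both lines), so `y₃ p ∈ span (nod p)` by (F2), a contradiction.
-/

set_option autoImplicit false

open MvPolynomial Pool.Agent.H74.Secant

namespace Pool.Agent.H6.SC

universe u

open scoped Classical

variable {K : Type u} [Field K] {N : ℕ} {V : Type} [Fintype V] {G : SimpleGraph V} (a : Arr K N G)
  {Λ : Submodule K (Fin N → K)}

theorem nod_unique (hΛ : ∀ v, ¬ a.L v ≤ Λ) {v u w : V} (hu : G.Adj v u) (hw : G.Adj v w) (h1 : a.nod v u ∈ Λ)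
    (h2 : a.nod v w ∈ Λ) : u = w := by
  by_contra hne
  apply hΛ v
  have hind : LinearIndependent K ![a.nod v u, a.nod v w] := by
    rw [LinearIndependent.pair_iff' (a.nod_ne v u hu)]
    intro c hc
    exact a.nod_ind v u w hu hw hne (Submodule.mem_span_singleton.2 ⟨c, hc⟩)
  have hfr : Module.finrank K (Submodule.span K (Set.range ![a.nod v u, a.nod v w])) = 2 := by
    rw [finrank_span_eq_card hind]
    simp
  have hle : Submodule.span K (Set.range ![a.nod v u, a.nod v w]) ≤ a.L v := by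
    rw [Submodule.span_le]
    rintro _ ⟨i, rfl⟩
    fin_cases i
    · exact a.nod_mem v u hu
    · exact a.nod_mem v w hw
  have heq := Submodule.eq_of_le_of_finrank_eq hle (by rw [hfr, a.dim v])
  rw [← heq, Submodule.span_le]
  rintro _ ⟨i, rfl⟩
  fin_cases i
  · exact h1
  · exact h2

private theorem infle {v u : V} (hadj : G.Adj v u) (hn : a.nod v u ∈ Λ) (hv : ¬ a.L v ≤ Λ) :
    a.L v ⊓ Λ ≤ Submodule.span K {a.nod v u} := by
  have hlt : a.L v ⊓ Λ < a.L v := by
    refine lt_of_le_of_ne inf_le_left fun h => hv ?_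
    rw [← h]
    exact inf_le_right
  have h1 : Module.finrank K (a.L v ⊓ Λ : Submodule K (Fin N → K)) < 2 := by
    rw [← a.dim v]
    exact Submodule.finrank_lt_finrank_of_lt hlt
  have h2 : Submodule.span K {a.nod v u} ≤ a.L v ⊓ Λ := by
    rw [Submodule.span_singleton_le_iff_mem]
    exact ⟨a.nod_mem v u hadj, hn⟩
  have h3 : Module.finrank K (Submodule.span K {a.nod v u}) = 1 := finrank_span_singleton (a.nod_ne v u hadj)
  exact (Submodule.eq_of_le_of_finrank_le h2 (by omega)).ge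

private theorem le_spn_of_mem {L : V → Submodule K (Fin N → K)} {E : Finset V} {w : V} (hw : w ∈ E) :
    L w ≤ spn L E := by
  unfold spn
  exact le_iSup₂_of_le w hw le_rfl

/-- nonzero multiple -/
private theorem mem_of_smul {M : Submodule K (Fin N → K)} {x n : Fin N → K} (hx : x ∈ M) (hx0 : x ≠ 0)
    (h : x ∈ Submodule.span K {n}) : n ∈ M := by
  obtain ⟨c, hc⟩ := Submodule.mem_span_singleton.1 h
  have hc0 : c ≠ 0 := by
    rintro rfl
    exact hx0 (by rw [← hc, zero_smul])
  have : n = c⁻¹ • x := by rw [← hc, smul_smul, inv_mul_cancel₀ hc0, one_smul]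
  rw [this]
  exact M.smul_mem _ hx

theorem indep {n : ℕ} (hE : Expos G n) (hΛ : ∀ v, ¬ a.L v ≤ Λ) (o : V → ℕ) (A₁ : Finset V)
    (hA₁ : ∀ v ∈ A₁, ∀ u, G.Adj v u → a.nod v u ∉ Λ) (T₁ T₂ : Finset (V × V)) (hd : Disjoint T₁ T₂)
    (hT : ∀ p ∈ T₁ ∪ T₂, G.Adj p.1 p.2 ∧ o p.1 < o p.2 ∧ a.nod p.1 p.2 ∈ Λ ∧ (nbs G p.2).card ≠ 3)
    (hn : A₁.card + T₁.card + 2 * T₂.card ≤ n) (y₁ : V → (Fin N → K)) (y₂ y₃ : V × V → (Fin N → K))
    (h₁ : ∀ v ∈ A₁, y₁ v ∈ a.L v ⊓ Λ) (h₂ : ∀ p ∈ T₁, y₂ p ∈ Submodule.span K {a.nod p.1 p.2})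
    (h₃ : ∀ p ∈ T₂, y₃ p ∈ (a.L p.1 ⊔ a.L p.2) ⊓ Λ)
    (h0 : ∑ v ∈ A₁, y₁ v + ∑ p ∈ T₁, y₂ p + ∑ p ∈ T₂, y₃ p = 0) :
    (∀ v ∈ A₁, y₁ v = 0) ∧ (∀ p ∈ T₁, y₂ p = 0) ∧ ∀ p ∈ T₂, y₃ p = 0 := by
  induction hm : A₁.card + T₁.card + 2 * T₂.card using Nat.strong_induction_on generalizing A₁ T₁ T₂ y₁ y₂ y₃ with
  | _ m ih =>
  by_cases c1 : ∃ v ∈ A₁, y₁ v = 0
  · obtain ⟨v, hv, hv0⟩ := c1
    have hcard : (A₁.erase v).card = A₁.card - 1 := Finset.card_erase_of_mem hv
    have hpos : 0 < A₁.card := Finset.card_pos.2 ⟨v, hv⟩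
    have := ih ((A₁.erase v).card + T₁.card + 2 * T₂.card) (by omega) (A₁.erase v)
      (fun w hw => hA₁ w (Finset.mem_of_mem_erase hw)) T₁ T₂ hd hT (by omega) y₁ y₂ y₃
      (fun w hw => h₁ w (Finset.mem_of_mem_erase hw)) h₂ h₃
      (by rw [Finset.sum_erase _ hv0]; exact h0) rfl
    refine ⟨fun w hw => ?_, this.2.1, this.2.2⟩
    by_cases hwv : w = v
    · rw [hwv]; exact hv0
    · exact this.1 w (Finset.mem_erase.2 ⟨hwv, hw⟩)
  by_cases c2 : ∃ p ∈ T₁, y₂ p = 0
  · obtain ⟨p, hp, hp0⟩ := c2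
    have hcard : (T₁.erase p).card = T₁.card - 1 := Finset.card_erase_of_mem hp
    have hpos : 0 < T₁.card := Finset.card_pos.2 ⟨p, hp⟩
    have := ih (A₁.card + (T₁.erase p).card + 2 * T₂.card) (by omega) A₁ hA₁ (T₁.erase p) T₂
      (hd.mono_left (Finset.erase_subset _ _))
      (fun q hq => hT q (Finset.union_subset_union_left (Finset.erase_subset _ _) hq)) (by omega) y₁ y₂ y₃
      h₁ (fun q hq => h₂ q (Finset.mem_of_mem_erase hq)) h₃
      (by rw [Finset.sum_erase _ hp0]; exact h0) rfl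
    refine ⟨this.1, fun q hq => ?_, this.2.2⟩
    by_cases hqp : q = p
    · rw [hqp]; exact hp0
    · exact this.2.1 q (Finset.mem_erase.2 ⟨hqp, hq⟩)
  by_cases c3 : ∃ p ∈ T₂, y₃ p ∈ Submodule.span K {a.nod p.1 p.2}
  · obtain ⟨p, hp, hps⟩ := c3
    have hpT₁ : p ∉ T₁ := fun h => (Finset.disjoint_left.1 hd h) hp
    have hcard : (T₂.erase p).card = T₂.card - 1 := Finset.card_erase_of_mem hp
    have hpos : 0 < T₂.card := Finset.card_pos.2 ⟨p, hp⟩
    have hcard1 : (insert p T₁).card = T₁.card + 1 := Finset.card_insert_of_notMem hpT₁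
    have hd' : Disjoint (insert p T₁) (T₂.erase p) := by
      rw [Finset.disjoint_left]
      intro q hq hq2
      rcases Finset.mem_insert.1 hq with rfl | hq
      · exact (Finset.mem_erase.1 hq2).1 rfl
      · exact (Finset.disjoint_left.1 hd hq) (Finset.mem_of_mem_erase hq2)
    have hsum : ∑ q ∈ insert p T₁, (Function.update y₂ p (y₃ p)) q = y₃ p + ∑ q ∈ T₁, y₂ q := by
      rw [Finset.sum_insert hpT₁, Function.update_self]
      congr 1
      refine Finset.sum_congr rfl fun q hq => ?_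
      rw [Function.update_of_ne]
      rintro rfl
      exact hpT₁ hq
    have := ih (A₁.card + (insert p T₁).card + 2 * (T₂.erase p).card) (by omega) A₁ hA₁ (insert p T₁) (T₂.erase p)
      hd'
      (fun q hq => hT q (by
        rcases Finset.mem_union.1 hq with h | h
        · rcases Finset.mem_insert.1 h with rfl | h
          · exact Finset.mem_union_right _ hp
          · exact Finset.mem_union_left _ h
        · exact Finset.mem_union_right _ (Finset.mem_of_mem_erase h))) (by omega) y₁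
      (Function.update y₂ p (y₃ p)) y₃ h₁
      (fun q hq => by
        rcases Finset.mem_insert.1 hq with rfl | h
        · rw [Function.update_self]; exact hps
        · rw [Function.update_of_ne (by rintro rfl; exact hpT₁ h)]
          exact h₂ q h)
      (fun q hq => h₃ q (Finset.mem_of_mem_erase hq))
      (by
        rw [hsum, ← h0, ← Finset.add_sum_erase T₂ y₃ hp]
        abel) rfl
    have hp0 : y₃ p = 0 := by
      have := this.2.1 p (Finset.mem_insert_self _ _)
      rwa [Function.update_self] at this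
    refine ⟨this.1, fun q hq => ?_, fun q hq => ?_⟩
    · have h4 := this.2.1 q (Finset.mem_insert_of_mem hq)
      rwa [Function.update_of_ne (by rintro rfl; exact hpT₁ hq)] at h4
    · by_cases hqp : q = p
      · rw [hqp]; exact hp0
      · exact this.2.2 q (Finset.mem_erase.2 ⟨hqp, hq⟩)
  push_neg at c1 c2 c3
  -- two pairs with a common vertex are equal
  have share : ∀ p ∈ T₁ ∪ T₂, ∀ q ∈ T₁ ∪ T₂, ∀ v, (v = p.1 ∨ v = p.2) → (v = q.1 ∨ v = q.2) → p = q := by
    intro p hp q hq v h1 h2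
    obtain ⟨pa, po, pn, -⟩ := hT p hp
    obtain ⟨qa, qo, qn, -⟩ := hT q hq
    have pn' : a.nod p.2 p.1 ∈ Λ := by rw [a.nod_symm _ _ pa.symm]; exact pn
    have qn' : a.nod q.2 q.1 ∈ Λ := by rw [a.nod_symm _ _ qa.symm]; exact qn
    rcases h1 with h1 | h1 <;> rcases h2 with h2 | h2
    · have e1 : p.1 = q.1 := h1.symm.trans h2
      have e2 : p.2 = q.2 := by
        refine nod_unique a hΛ (v := p.1) pa ?_ pn ?_
        · rw [e1]; exact qa
        · rw [e1]; exact qn
      exact Prod.ext e1 e2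
    · exfalso
      have e1 : p.1 = q.2 := h1.symm.trans h2
      have e2 : p.2 = q.1 := by
        refine nod_unique a hΛ (v := p.1) pa ?_ pn ?_
        · rw [e1]; exact qa.symm
        · rw [e1]; exact qn'
      rw [e1, e2] at po
      omega
    · exfalso
      have e1 : p.2 = q.1 := h1.symm.trans h2
      have e2 : p.1 = q.2 := by
        refine nod_unique a hΛ (v := p.2) pa.symm ?_ pn' ?_
        · rw [e1]; exact qa
        · rw [e1]; exact qn
      rw [e1, e2] at po
      omega
    · have e1 : p.2 = q.2 := h1.symm.trans h2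
      have e2 : p.1 = q.1 := by
        refine nod_unique a hΛ (v := p.2) pa.symm ?_ pn' ?_
        · rw [e1]; exact qa.symm
        · rw [e1]; exact qn'
      exact Prod.ext e2 e1
  have noA : ∀ v ∈ A₁, ∀ p ∈ T₁ ∪ T₂, ¬ (v = p.1 ∨ v = p.2) := by
    intro v hv p hp h
    obtain ⟨pa, po, pn, -⟩ := hT p hp
    rcases h with h | h
    · exact hA₁ v hv p.2 (by rw [h]; exact pa) (by rw [h]; exact pn)
    · exact hA₁ v hv p.1 (by rw [h]; exact pa.symm) (by rw [h, a.nod_symm _ _ pa.symm]; exact pn)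
  let B : Finset V := A₁ ∪ T₁.image Prod.fst ∪ (T₂.image Prod.fst ∪ T₂.image Prod.snd)
  have memA : ∀ v ∈ A₁, v ∈ B := fun v hv => Finset.mem_union_left _ (Finset.mem_union_left _ hv)
  have mem1 : ∀ p ∈ T₁, p.1 ∈ B := fun p hp =>
    Finset.mem_union_left _ (Finset.mem_union_right _ (Finset.mem_image_of_mem _ hp))
  have mem2 : ∀ p ∈ T₂, p.1 ∈ B := fun p hp =>
    Finset.mem_union_right _ (Finset.mem_union_left _ (Finset.mem_image_of_mem _ hp))
  have mem3 : ∀ p ∈ T₂, p.2 ∈ B := fun p hp =>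
    Finset.mem_union_right _ (Finset.mem_union_right _ (Finset.mem_image_of_mem _ hp))
  have memB : ∀ v ∈ B, v ∈ A₁ ∨ (∃ p ∈ T₁, v = p.1) ∨ ∃ p ∈ T₂, v = p.1 ∨ v = p.2 := by
    intro v hv
    rcases Finset.mem_union.1 hv with h | h
    · rcases Finset.mem_union.1 h with h | h
      · exact Or.inl h
      · obtain ⟨p, hp, rfl⟩ := Finset.mem_image.1 h
        exact Or.inr (Or.inl ⟨p, hp, rfl⟩)
    · rcases Finset.mem_union.1 h with h | h
      · obtain ⟨p, hp, rfl⟩ := Finset.mem_image.1 h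
        exact Or.inr (Or.inr ⟨p, hp, Or.inl rfl⟩)
      · obtain ⟨p, hp, rfl⟩ := Finset.mem_image.1 h
        exact Or.inr (Or.inr ⟨p, hp, Or.inr rfl⟩)
  by_cases hB : B.Nonempty
  swap
  · rw [Finset.not_nonempty_iff_eq_empty] at hB
    refine ⟨fun v hv => ?_, fun p hp => ?_, fun p hp => ?_⟩
    · have := memA v hv
      rw [hB] at this
      exact absurd this (Finset.notMem_empty _)
    · have := mem1 p hp
      rw [hB] at this
      exact absurd this (Finset.notMem_empty _)
    · have := mem2 p hp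
      rw [hB] at this
      exact absurd this (Finset.notMem_empty _)
  exfalso
  have hBn : B.card ≤ n := by
    have e1 : B.card ≤ (A₁ ∪ T₁.image Prod.fst).card + (T₂.image Prod.fst ∪ T₂.image Prod.snd).card :=
      Finset.card_union_le _ _
    have e2 := Finset.card_union_le A₁ (T₁.image Prod.fst)
    have e3 := Finset.card_union_le (T₂.image Prod.fst) (T₂.image Prod.snd)
    have e4 : (T₁.image Prod.fst).card ≤ T₁.card := Finset.card_image_le
    have e5 : (T₂.image Prod.fst).card ≤ T₂.card := Finset.card_image_le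
    have e6 : (T₂.image Prod.snd).card ≤ T₂.card := Finset.card_image_le
    omega
  obtain ⟨v, hvB, hv⟩ := hE B hB hBn
  -- members of the sum away from `v`
  have inE : ∀ w ∈ B, w ≠ v → a.L w ≤ spn a.L (B.erase v) := fun w hw hwv =>
    le_spn_of_mem (Finset.mem_erase.2 ⟨hwv, hw⟩)
  have sA : ∀ w ∈ A₁, w ≠ v → y₁ w ∈ spn a.L (B.erase v) := fun w hw hwv =>
    inE w (memA w hw) hwv (h₁ w hw).1
  have s1 : ∀ p ∈ T₁, p.1 ≠ v → y₂ p ∈ spn a.L (B.erase v) := by
    intro p hp hpv
    have hle : Submodule.span K {a.nod p.1 p.2} ≤ a.L p.1 := by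
      rw [Submodule.span_singleton_le_iff_mem]
      exact a.nod_mem _ _ (hT p (Finset.mem_union_left _ hp)).1
    exact inE _ (mem1 p hp) hpv (hle (h₂ p hp))
  have s2 : ∀ p ∈ T₂, p.1 ≠ v → p.2 ≠ v → y₃ p ∈ spn a.L (B.erase v) := by
    intro p hp h1 h2
    exact (sup_le (inE _ (mem2 p hp) h1) (inE _ (mem3 p hp) h2)) (h₃ p hp).1
  have fin0 : ∀ x ∈ a.L v, x ∈ spn a.L (B.erase v) → x ≠ 0 →
      ∃ u, dn G B v u ∧ x ∈ Submodule.span K {a.nod v u} := by
    intro x hx hx' hx0
    by_cases hdn : ∃ u, dn G B v u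
    · obtain ⟨u, hu⟩ := hdn
      exact ⟨u, hu, a.expo B v u hvB hu.1 (fun w hw => hv w u hw hu) ⟨hx, hx'⟩⟩
    · exfalso
      have h4 := a.expo0 B v hvB (fun w hw => hdn ⟨w, hw⟩)
      have h5 : x ∈ a.L v ⊓ spn a.L (B.erase v) := ⟨hx, hx'⟩
      rw [h4] at h5
      exact hx0 ((Submodule.mem_bot K).1 h5)
  rcases memB v hvB with hvA | ⟨p, hp, hvp⟩ | ⟨p, hp, hvp⟩
  · -- `v ∈ A₁`
    have hx : y₁ v ∈ spn a.L (B.erase v) := by
      have e : y₁ v = -(∑ w ∈ A₁.erase v, y₁ w + ∑ p ∈ T₁, y₂ p + ∑ p ∈ T₂, y₃ p) := by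
        rw [← Finset.add_sum_erase A₁ y₁ hvA] at h0
        rw [eq_neg_iff_add_eq_zero, ← h0]
        abel
      rw [e]
      refine Submodule.neg_mem _ (Submodule.add_mem _ (Submodule.add_mem _ ?_ ?_) ?_)
      · exact Submodule.sum_mem _ fun w hw => sA w (Finset.mem_of_mem_erase hw) (Finset.ne_of_mem_erase hw)
      · refine Submodule.sum_mem _ fun q hq => s1 q hq ?_
        intro h
        exact noA v hvA q (Finset.mem_union_left _ hq) (Or.inl h.symm)
      · refine Submodule.sum_mem _ fun q hq => s2 q hq ?_ ?_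
        · intro h
          exact noA v hvA q (Finset.mem_union_right _ hq) (Or.inl h.symm)
        · intro h
          exact noA v hvA q (Finset.mem_union_right _ hq) (Or.inr h.symm)
    obtain ⟨u, hu, hxu⟩ := fin0 _ (h₁ v hvA).1 hx (c1 v hvA)
    exact hA₁ v hvA u hu.1 (mem_of_smul (h₁ v hvA).2 (c1 v hvA) hxu)
  · -- `v = p.1`, `p ∈ T₁`
    have hpU : p ∈ T₁ ∪ T₂ := Finset.mem_union_left _ hp
    obtain ⟨pa, po, pn, p3⟩ := hT p hpU
    have hx : y₂ p ∈ spn a.L (B.erase v) := by
      have e : y₂ p = -(∑ w ∈ A₁, y₁ w + ∑ q ∈ T₁.erase p, y₂ q + ∑ p ∈ T₂, y₃ p) := by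
        rw [← Finset.add_sum_erase T₁ y₂ hp] at h0
        rw [eq_neg_iff_add_eq_zero, ← h0]
        abel
      rw [e]
      refine Submodule.neg_mem _ (Submodule.add_mem _ (Submodule.add_mem _ ?_ ?_) ?_)
      · refine Submodule.sum_mem _ fun w hw => sA w hw ?_
        intro h
        exact noA w hw p hpU (Or.inl (h.trans hvp))
      · refine Submodule.sum_mem _ fun q hq => s1 q (Finset.mem_of_mem_erase hq) ?_
        intro h
        exact Finset.ne_of_mem_erase hq (share q (Finset.mem_union_left _ (Finset.mem_of_mem_erase hq)) p hpU v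
          (Or.inl h.symm) (Or.inl hvp))
      · refine Submodule.sum_mem _ fun q hq => s2 q hq ?_ ?_
        · intro h
          have := share q (Finset.mem_union_right _ hq) p hpU v (Or.inl h.symm) (Or.inl hvp)
          rw [this] at hq
          exact (Finset.disjoint_left.1 hd hp) hq
        · intro h
          have := share q (Finset.mem_union_right _ hq) p hpU v (Or.inr h.symm) (Or.inl hvp)
          rw [this] at hq
          exact (Finset.disjoint_left.1 hd hp) hq
    have hle : Submodule.span K {a.nod p.1 p.2} ≤ a.L p.1 := by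
      rw [Submodule.span_singleton_le_iff_mem]
      exact a.nod_mem _ _ pa
    have hLv : y₂ p ∈ a.L v := by
      rw [hvp]
      exact hle (h₂ p hp)
    obtain ⟨u, hu, hxu⟩ := fin0 _ hLv hx (c2 p hp)
    have hup : p.2 ≠ u := by
      intro h
      rcases hu.2 with h4 | h4
      · rw [← h] at h4
        rcases memB p.2 h4 with h5 | ⟨q, hq, h5⟩ | ⟨q, hq, h5⟩
        · exact noA _ h5 p hpU (Or.inr rfl)
        · have := share q (Finset.mem_union_left _ hq) p hpU p.2 (Or.inl h5) (Or.inr rfl)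
          rw [this] at h5
          exact pa.ne h5.symm
        · have := share q (Finset.mem_union_right _ hq) p hpU p.2 h5 (Or.inr rfl)
          rw [this] at hq
          exact (Finset.disjoint_left.1 hd hp) hq
      · rw [← h] at h4
        exact p3 h4.1
    have pa' : G.Adj v p.2 := by rw [hvp]; exact pa
    have h6 : y₂ p ∈ Submodule.span K {a.nod v p.2} := by
      rw [hvp]
      exact h₂ p hp
    exact a.nod_ind v p.2 u pa' hu.1 hup (mem_of_smul h6 (c2 p hp) hxu)
  · -- `v` is an end of `p ∈ T₂`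
    have hpU : p ∈ T₁ ∪ T₂ := Finset.mem_union_right _ hp
    obtain ⟨pa, po, pn, p3⟩ := hT p hpU
    -- the other end
    have key : ∀ v', G.Adj v v' → v' ∈ B → a.nod v v' ∈ Λ →
        Submodule.span K {a.nod v v'} = Submodule.span K {a.nod p.1 p.2} →
        (∃ x ∈ a.L v, ∃ x' ∈ a.L v', x + x' = y₃ p) → False := by
      rintro v' hadj hv'B hnn hspan ⟨x, hx, x', hx', hsum⟩
      have hdn : dn G B v v' := ⟨hadj, Or.inl hv'B⟩
      have hxE : x ∈ spn a.L (B.erase v) := by
        have e : x = -(∑ w ∈ A₁, y₁ w + ∑ q ∈ T₁, y₂ q + (x' + ∑ q ∈ T₂.erase p, y₃ q)) := by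
          rw [← Finset.add_sum_erase T₂ y₃ hp, ← hsum] at h0
          rw [eq_neg_iff_add_eq_zero, ← h0]
          abel
        rw [e]
        refine Submodule.neg_mem _ (Submodule.add_mem _ (Submodule.add_mem _ ?_ ?_) (Submodule.add_mem _ ?_ ?_))
        · refine Submodule.sum_mem _ fun w hw => sA w hw ?_
          intro h
          exact noA w hw p hpU (by rw [h]; exact hvp)
        · refine Submodule.sum_mem _ fun q hq => s1 q hq ?_
          intro h
          have := share q (Finset.mem_union_left _ hq) p hpU v (Or.inl h.symm) hvp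
          rw [this] at hq
          exact (Finset.disjoint_left.1 hd hq) hp
        · exact inE v' hv'B hadj.ne' hx'
        · refine Submodule.sum_mem _ fun q hq => s2 q (Finset.mem_of_mem_erase hq) ?_ ?_
          · intro h
            exact Finset.ne_of_mem_erase hq (share q (Finset.mem_union_right _ (Finset.mem_of_mem_erase hq)) p hpU v
              (Or.inl h.symm) hvp)
          · intro h
            exact Finset.ne_of_mem_erase hq (share q (Finset.mem_union_right _ (Finset.mem_of_mem_erase hq)) p hpU v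
              (Or.inr h.symm) hvp)
      have hxs : x ∈ Submodule.span K {a.nod v v'} :=
        a.expo B v v' hvB hadj (fun w hw => hv w v' hw hdn) ⟨hx, hxE⟩
      have hle : Submodule.span K {a.nod v v'} ≤ a.L v' := by
        rw [Submodule.span_singleton_le_iff_mem, a.nod_symm _ _ hadj]
        exact a.nod_mem _ _ hadj.symm
      have hy : y₃ p ∈ a.L v' ⊓ Λ := by
        refine ⟨?_, (h₃ p hp).2⟩
        rw [← hsum]
        exact Submodule.add_mem _ (hle hxs) hx'
      have hy2 := infle a hadj.symm (by rw [a.nod_symm _ _ hadj.symm]; exact hnn) (hΛ v') hy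
      rw [a.nod_symm _ _ hadj.symm, hspan] at hy2
      exact c3 p hp hy2
    obtain ⟨x, hx, x', hx', hsum⟩ := Submodule.mem_sup.1 (h₃ p hp).1
    rcases hvp with hvp | hvp
    · refine key p.2 (by rw [hvp]; exact pa) (mem3 p hp) (by rw [hvp]; exact pn) (by rw [hvp])
        ⟨x, by rw [hvp]; exact hx, x', hx', hsum⟩
    · refine key p.1 (by rw [hvp]; exact pa.symm) (mem2 p hp) (by rw [hvp, a.nod_symm _ _ pa.symm]; exact pn)
        (by rw [hvp, a.nod_symm _ _ pa.symm]) ⟨x', by rw [hvp]; exact hx', x, hx, by rw [add_comm]; exact hsum⟩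

end Pool.Agent.H6.SC
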