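import Pool.Agent.H6.SC.AbsA

/-!
# SC.Nrm : normal position

`Fr i` : `i` is not a coordinate of a star. `fx s x` : the other coordinate (free) of the line of the arm `arm s x`. `Cov A S` : every `i ∈ S` is the coordinate of a free edge (or loop) at a vertex of `A`.
`Nm k S A` : `A` has at most `k + 1` elements, covers `S`, and contains an arm `arm s x` only if `fx s x ∈ S`. `QS` : the points with all blocks in `W A s` for some `A` in `Nm k S` (no condition on the other
coordinates), and the points with a zero coordinate in `S`. `InI` : `f` vanishes on the sums of `k + 1` lines.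

PROOF. `fx_spec`: `arm s x` is not a star (`far1`); its neighbour `w ≠ s`, if it exists, is unique (`two`) and is not a star (`far2`), so `fx s x = ec (arm s x) w = fr (arm s x) w` and `Fre (arm s x) w`; if it does not exist, `fx s x = fr (arm s x) (arm s x)`, and
`Fre (arm s x) (arm s x)`. Conversely `Fre (arm s x) v` gives `v = w` (`v ≠ s` since `¬ st v`) or `v = arm s x` without other neighbour (if `v = arm s x` is a loop, all neighbours are equal to `s`).
`inI_of`: let `A.card = k + 1`, `z ∈ spn A`. (a) `A` does not cover some `i ∈ S` (`Fr i`): `z i = 0` by `mem_spn` (the free alternative gives a cover, by `fr_symm` and the symmetry of `Fre` one may take `u ∈ A`), so `z ∈ QS`. (b) `A` covers `S`: let `φ v = s` if `v = arm s x` for a star `s` and an `x` with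
`fx s x ∉ S` (`s`, `x` unique: `far2`, `arm_inj`), `φ v = v` otherwise; `A' = A.image φ`. `A'` covers `S`: if `i ∈ S` is covered by `u ∈ A` then `φ u = u`, otherwise `u = arm s x`, `i = fx s x ∉ S` by `fx_spec`. An arm `arm s x ∈ A'` is not a star,
so it is some `φ u = u`, and `fx s x ∈ S`. So `Nm k S A'`. Blocks: `W A s ≤ W A' s` (`s ∈ A` implies `s ∈ A'` since a star is not an arm; if `arm s x ∈ A` then `arm s x ∈ A'` or `s ∈ A'`). So `z ∈ QS`.
`van_of`: `z i = 0`, `i ∈ S = α.support`: every monomial of `f` contains `X i` (`α i = m i`, as `i` is in `Fr`: `α = m.filter _` is supported in `Fr`; if `f = 0` nothing to prove). `z` with blocks in `W A s`, `Nm k S A`: let `z' i = z i` if `i` is a star coordinate or `i ∈ S`, `0` otherwise. Then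
`f z = f z'` (the monomials of `f` contain only star coordinates and coordinates in `S`), `z' ∈ spn A` by `mem_spn` and `Cov`; `A ⊆ A''` with `A''.card = k + 1` (`Finset.exists_superset_card_eq`), `spn A ≤ spn A''`.
-/

set_option autoImplicit false

open MvPolynomial Pool.Agent.H74.Secant

namespace Pool.Agent.H6.SC

universe u

open scoped Classical

variable {V : Type} [Fintype V] {G : SimpleGraph V} {N : ℕ} (D : Dat G N) (K : Type u) [Field K]

/-- `i` is not a coordinate of a star -/
def Dat.Fr (i : Fin N) : Prop := ∀ s j, D.st s → i ≠ D.cj s j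

/-- the other coordinate of the line of an arm -/
noncomputable def Dat.fx (s : V) (x : Fin 3) : Fin N := D.oc (D.arm s x) s

/-- `A` covers `S` -/
def Dat.Cov (A : Finset V) (S : Finset (Fin N)) : Prop := ∀ i ∈ S, ∃ u v, Fre G D.st u v ∧ u ∈ A ∧ i = D.fr u v

/-- normal sets -/
def Dat.Nm (k : ℕ) (S : Finset (Fin N)) (A : Finset V) : Prop :=
  A.card ≤ k + 1 ∧ D.Cov A S ∧ ∀ s x, D.st s → D.arm s x ∈ A → D.fx s x ∈ S

/-- points with blocks in `W A s` for a normal `A`, or with a zero coordinate in `S` -/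
def Dat.QS (k : ℕ) (S : Finset (Fin N)) : Set (Fin N → K) :=
  {z | (∃ A, D.Nm k S A ∧ ∀ s, D.st s → (fun j => z (D.cj s j)) ∈ D.W K A s) ∨ ∃ i ∈ S, z i = 0}

/-- `f` vanishes on the sums of `k + 1` lines -/
def Dat.InI (k : ℕ) (f : MvPolynomial (Fin N) K) : Prop :=
  ∀ A : Finset V, A.card = k + 1 → ∀ z ∈ spn (D.L K) A, aeval z f = (0 : K)

/-- the free end of an arm -/
private theorem fx_cases {s : V} (hs : D.st s) (x : Fin 3) :
    (∃ w, G.Adj (D.arm s x) w ∧ w ≠ s ∧ ¬ D.st w ∧ D.fx s x = D.fr (D.arm s x) w) ∨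
      ((∀ w, G.Adj (D.arm s x) w → w = s) ∧ D.fx s x = D.fr (D.arm s x) (D.arm s x)) := by
  have hadj := D.adj_arm' hs x
  by_cases h : ∃ w, G.Adj (D.arm s x) w ∧ w ≠ s
  · have h1 := h.choose_spec
    have h2 : ¬ D.st h.choose := fun hst => h1.2 (D.far2 s _ _ hs hst hadj h1.1.symm).symm
    refine Or.inl ⟨h.choose, h1.1, h1.2, h2, ?_⟩
    unfold Dat.fx Dat.oc
    rw [dif_pos h]
    unfold Dat.ec
    rw [if_neg h2]
  · refine Or.inr ⟨fun w hw => ?_, ?_⟩
    · by_contra hne
      exact h ⟨w, hw, hne⟩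
    · unfold Dat.fx Dat.oc
      rw [dif_neg h]

private theorem arm_nst {s : V} (hs : D.st s) (x : Fin 3) : ¬ D.st (D.arm s x) :=
  fun h => D.far1 s _ hs h (D.adj_arm' hs x)

private theorem fre_symm {u v : V} (h : Fre G D.st u v) : Fre G D.st v u := by
  rcases h with ⟨h1, h2, h3⟩ | ⟨h1, h2, h3⟩
  · exact Or.inl ⟨h1.symm, h3, h2⟩
  · subst h1
    exact Or.inr ⟨rfl, h2, h3⟩

theorem fx_spec {s : V} (hs : D.st s) (x : Fin 3) :
    (∃ v, Fre G D.st (D.arm s x) v ∧ D.fx s x = D.fr (D.arm s x) v) ∧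
      ∀ v, Fre G D.st (D.arm s x) v → D.fr (D.arm s x) v = D.fx s x := by
  have hadj := D.adj_arm' hs x
  have hn := arm_nst D hs x
  rcases fx_cases D hs x with ⟨w, h1, h2, h3, h4⟩ | ⟨h1, h2⟩
  · refine ⟨⟨w, Or.inl ⟨h1, hn, h3⟩, h4⟩, fun v hv => ?_⟩
    rcases hv with ⟨h5, h6, h7⟩ | ⟨h5, h6, h7⟩
    · rcases D.two _ hn s v w hadj.symm h5 h1 with h | h | h
      · exact absurd (h ▸ hs) h7
      · exact absurd h.symm h2
      · rw [h, h4]
    · rw [← h5] at h7
      exact absurd (h7 w s h1 hadj.symm) h2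
  · refine ⟨⟨D.arm s x, Or.inr ⟨rfl, hn, fun w y hw hy => by rw [h1 w hw, h1 y hy]⟩, h2⟩, fun v hv => ?_⟩
    rcases hv with ⟨h5, h6, h7⟩ | ⟨h5, h6, h7⟩
    · exact absurd (h1 v h5 ▸ hs) h7
    · rw [← h5, h2]

theorem fx_fr {s : V} (hs : D.st s) (x : Fin 3) : D.Fr (D.fx s x) := by
  obtain ⟨v, hv, he⟩ := (fx_spec D hs x).1
  intro t j ht
  rw [he]
  exact D.fr_cj _ _ _ _ hv ht

theorem inI_of {k : ℕ} {S : Finset (Fin N)} (hS : ∀ i ∈ S, D.Fr i) {f : MvPolynomial (Fin N) K}
    (h : ∀ z ∈ D.QS K k S, aeval z f = (0 : K)) : D.InI K k f := by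
  intro A hA z hz
  apply h
  obtain ⟨hz1, hz2⟩ := (mem_spn D K A z).1 hz
  by_cases hc : D.Cov A S
  · left
    set P : V → Prop := fun v => ∃ s, D.st s ∧ ∃ x, D.arm s x = v ∧ D.fx s x ∉ S with hP
    set φ : V → V := fun v => if h : P v then h.choose else v with hφ
    have hφ1 : ∀ v, P v → D.st (φ v) ∧ ∃ x, D.arm (φ v) x = v ∧ D.fx (φ v) x ∉ S := by
      intro v hv
      have : φ v = hv.choose := by
        simp only [hφ]
        rw [dif_pos hv]
      rw [this]
      exact hv.choose_spec
    have hφ2 : ∀ v, ¬ P v → φ v = v := by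
      intro v hv
      simp only [hφ]
      rw [dif_neg hv]
    have hnP : ∀ s, D.st s → ¬ P s := by
      rintro s hs ⟨t, ht, x, hx, -⟩
      exact arm_nst D ht x (hx ▸ hs)
    refine ⟨A.image φ, ⟨?_, ?_, ?_⟩, ?_⟩
    · rw [← hA]
      exact Finset.card_image_le
    · intro i hi
      obtain ⟨u, v, h1, h2, h3⟩ := hc i hi
      refine ⟨u, v, h1, ?_, h3⟩
      rw [Finset.mem_image]
      refine ⟨u, h2, hφ2 u ?_⟩
      rintro ⟨s, hs, x, hx, hx2⟩
      apply hx2
      rw [← hx] at h1 h3
      rw [← (fx_spec D hs x).2 v h1, ← h3]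
      exact hi
    · intro s x hs hx
      rw [Finset.mem_image] at hx
      obtain ⟨u, hu, he⟩ := hx
      by_cases hPu : P u
      · have h1 := (hφ1 u hPu).1
        rw [he] at h1
        exact absurd h1 (arm_nst D hs x)
      · rw [hφ2 u hPu] at he
        by_contra hcon
        exact hPu ⟨s, hs, x, he.symm, hcon⟩
    · intro s hs
      have h1 := hz2 s hs
      by_cases hs1 : s ∈ A.image φ
      · unfold Dat.W
        rw [if_pos hs1]
        trivial
      · have hs2 : s ∉ A := fun hsA => hs1 (Finset.mem_image.2 ⟨s, hsA, hφ2 s (hnP s hs)⟩)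
        unfold Dat.W at h1 ⊢
        rw [if_neg hs2] at h1
        rw [if_neg hs1]
        refine Submodule.span_mono ?_ h1
        rintro p ⟨x, hx, hp⟩
        refine ⟨x, ?_, hp⟩
        rw [Finset.mem_image]
        refine ⟨_, hx, hφ2 _ fun hPx => ?_⟩
        obtain ⟨h2, y, h3, -⟩ := hφ1 _ hPx
        have h4 : D.arm (φ (D.arm s x)) y = D.arm s x := h3
        have h5 : s = φ (D.arm s x) := D.far2 s _ (D.arm s x) hs h2 (D.adj_arm' hs x) (by
          have := D.adj_arm' h2 y
          rwa [h4] at this)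
        exact hs1 (Finset.mem_image.2 ⟨_, hx, h5.symm⟩)
  · right
    unfold Dat.Cov at hc
    push Not at hc
    obtain ⟨i, hi, hi2⟩ := hc
    refine ⟨i, hi, ?_⟩
    by_contra hne
    rcases hz1 i hne with ⟨s, j, hs, he⟩ | ⟨u, v, h1, h2 | h2, h3⟩
    · exact hS i hi s j hs he
    · exact hi2 u v h1 h2 h3
    · exact hi2 v u (fre_symm D h1) h2 (by rw [D.fr_symm v u]; exact h3)

private theorem van_term {f : MvPolynomial (Fin N) K} (α : Fin N →₀ ℕ)
    (hα : ∀ m ∈ f.support, m.filter (fun i => D.Fr i) = α) {m : Fin N →₀ ℕ} (hm : m ∈ f.support) {i : Fin N}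
    (hi : D.Fr i) : m i = α i := by
  rw [← hα m hm, Finsupp.filter_apply_pos _ _ hi]

theorem van_of {k : ℕ} (hk : k + 1 ≤ Fintype.card V) {f : MvPolynomial (Fin N) K} (α : Fin N →₀ ℕ)
    (hα : ∀ m ∈ f.support, m.filter (fun i => D.Fr i) = α) (h : D.InI K k f) :
    ∀ z ∈ D.QS K k α.support, aeval z f = (0 : K) := by
  rintro z (⟨A, ⟨hA1, hA2, hA3⟩, hz⟩ | ⟨i, hi, hz⟩)
  · set z' : Fin N → K := fun i => if D.Fr i ∧ i ∉ α.support then 0 else z i with hz'
    have e : aeval z f = aeval z' f := by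
      rw [aeval_def, aeval_def, eval₂_eq', eval₂_eq']
      refine Finset.sum_congr rfl fun m hm => ?_
      congr 1
      refine Finset.prod_congr rfl fun i _ => ?_
      by_cases hi : D.Fr i ∧ i ∉ α.support
      · have h1 : m i = 0 := by
          rw [van_term D K α hα hm hi.1]
          exact Finsupp.notMem_support_iff.1 hi.2
        rw [h1, pow_zero, pow_zero]
      · simp only [hz']
        rw [if_neg hi]
    rw [e]
    obtain ⟨A', hA', hcard⟩ := Finset.exists_superset_card_eq hA1 hk
    apply h A' hcard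
    have hle : spn (D.L K) A ≤ spn (D.L K) A' := by
      unfold spn
      exact iSup₂_le fun v hv => le_iSup₂_of_le v (hA' hv) le_rfl
    apply hle
    rw [mem_spn]
    constructor
    · intro i hi
      by_cases hFr : D.Fr i
      · right
        have hiS : i ∈ α.support := by
          by_contra hcon
          apply hi
          simp only [hz']
          rw [if_pos ⟨hFr, hcon⟩]
        obtain ⟨u, v, h1, h2, h3⟩ := hA2 i hiS
        exact ⟨u, v, h1, Or.inl h2, h3⟩
      · left
        unfold Dat.Fr at hFr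
        push Not at hFr
        obtain ⟨s, j, hs, he⟩ := hFr
        exact ⟨s, j, hs, he⟩
    · intro s hs
      have h1 := hz s hs
      have h2 : (fun j => z' (D.cj s j)) = fun j => z (D.cj s j) := by
        funext j
        simp only [hz']
        rw [if_neg]
        rintro ⟨h3, -⟩
        exact h3 s j hs rfl
      rw [h2]
      exact h1
  · rw [aeval_def, eval₂_eq']
    refine Finset.sum_eq_zero fun m hm => ?_
    have hne : m i ≠ 0 := by
      have hαi : α i ≠ 0 := Finsupp.mem_support_iff.1 hi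
      intro h0
      apply hαi
      rw [← hα m hm, Finsupp.filter_apply, h0]
      simp
    rw [Finset.prod_eq_zero (Finset.mem_univ i), mul_zero]
    rw [hz, zero_pow hne]

end Pool.Agent.H6.SC
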