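import Pool.Agent.H6.SC.AbsA

/-!
# SC.Trn : linear substitutions

PROOF. Let `g = bind₁ φ f`. For `z ∈ Q`, `aeval (θ z) g = aeval (fun i => aeval (θ z) (φ i)) f` and `aeval (θ z) (φ i) = aeval z (bind₁ θ (φ i)) = z i`, so `g` vanishes on `θ Q` (`aeval_bind₁`, `θ z = fun i => aeval z (θ i)`). By `H`,
`g ∈ PQ (θ Q)`. The ring homomorphism `bind₁ θ` maps `PQ (θ Q)` into `PQ Q` (`Ideal.map_span`, `Ideal.mem_map_of_mem`, `Ideal.span_le`): a product of linear forms goes to a product of linear forms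
(`IsHomogeneous.aeval`, degree `1 * 1`; `map_list_prod`), and `aeval z (bind₁ θ P) = aeval (θ z) P`. Finally `bind₁ θ g = bind₁ (fun i => bind₁ θ (φ i)) f = f` (`bind₁_bind₁`, `bind₁_X_left`).
-/

set_option autoImplicit false

open MvPolynomial Pool.Agent.H74.Secant

namespace Pool.Agent.H6.SC

universe u

variable {K : Type u} [Field K] {N : ℕ}

theorem trn (θ φ : Fin N → MvPolynomial (Fin N) K) (hθ : ∀ i, (θ i).IsHomogeneous 1)
    (h : ∀ i, bind₁ θ (φ i) = X i) (Q : Set (Fin N → K))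
    (H : ∀ g : MvPolynomial (Fin N) K, (∀ z ∈ Q, aeval (fun i => aeval z (θ i)) g = (0 : K)) →
      g ∈ PQ ((fun z => fun i => aeval z (θ i)) '' Q))
    {f : MvPolynomial (Fin N) K} (hf : ∀ z ∈ Q, aeval z f = (0 : K)) : f ∈ PQ Q := by
  have key : ∀ (z : Fin N → K) (P : MvPolynomial (Fin N) K),
      aeval (fun i => aeval z (θ i)) P = aeval z (bind₁ θ P) := fun z P => (aeval_bind₁ z θ P).symm
  have hfg : bind₁ θ (bind₁ φ f) = f := by
    rw [bind₁_bind₁]
    simp only [h]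
    rw [bind₁_X_left]
    rfl
  have hg : bind₁ φ f ∈ PQ ((fun z => fun i => aeval z (θ i)) '' Q) := by
    refine H _ fun z hz => ?_
    rw [key, hfg]
    exact hf z hz
  have hmap : (bind₁ θ) (bind₁ φ f) ∈ PQ Q := by
    have h1 : (bind₁ θ) (bind₁ φ f) ∈
        (PQ ((fun z => fun i => aeval z (θ i)) '' Q)).map (bind₁ θ).toRingHom :=
      Ideal.mem_map_of_mem (bind₁ θ).toRingHom hg
    refine (?_ : (PQ ((fun z => fun i => aeval z (θ i)) '' Q)).map (bind₁ θ).toRingHom ≤ PQ Q) h1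
    unfold PQ
    rw [Ideal.map_span, Ideal.span_le]
    rintro _ ⟨P, ⟨hP1, hP2⟩, rfl⟩
    refine pq_mem ?_ fun z hz => ?_
    · obtain ⟨l, hl, rfl⟩ := hP1
      refine ⟨l.map (bind₁ θ), ?_, ?_⟩
      · intro g hg
        rw [List.mem_map] at hg
        obtain ⟨g', hg', rfl⟩ := hg
        exact (hl g' hg').aeval θ hθ
      · exact (map_list_prod (bind₁ θ) l).symm
    · have h2 := hP2 _ ⟨z, hz, rfl⟩
      rw [key] at h2
      exact h2
  rwa [hfg] at hmap

end Pool.Agent.H6.SC
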