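import Pool.Agent.H6.SC.StA
import Pool.Agent.H6.SC.AbsB
import Pool.Agent.H6.SC.Trn

/-!
# SC.StN : the normal case

`s₀` is a star; every other star `s` has directions `xx s ≠ yy s` such that normal sets contain only the arms `arm s (xx s)`, `arm s (yy s)` of `s`.

PROOF. `θ i = pf s (xx s)` if `i = cj s 0`, `θ i = pf s (yy s)` if `i = cj s 1`, for a star `s ≠ s₀` (unique by `cj_inj`), and `θ i = X i` for all other `i`. `φ`: by `pp_inv`, `φ (cj s j) = C (c j) * X (cj s 0) + C (d j) * X (cj s 1)` (`s ≠ s₀` a star), `φ i = X i` otherwise; `bind₁ θ (φ i) = X i`. Apply `trn` with `Q = QS`. For `H`: let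
`g` vanish on `θ (QS)`. Apply `abs_pos` with `b = cj s₀`, `ι = {A // Nm k S A} ⊕ {i // i ∈ S}`, `Z (inr i) = {i}`, `W (inr i) = ⊤`; `W (inl A) = D.W K A s₀`, `Z (inl A) = {i | for some star s ≠ s₀: i = cj s 0 and pp (xx s) vanishes on W A s, or i = cj s 1 and pp (yy s) vanishes on W A s}`; `hW` is `W_tri`.
CLAIM: `⋃ a, MZ b (Z a) (W a) = θ (QS)`. If `z` has blocks in `W A s` then `θ z ∈ MZ` (`mem_W` (→), the block at `s₀` is not changed: `θ (cj s₀ j) = X _`). If `z i = 0`, `i ∈ S` (`Fr i`), then `(θ z) i = z i = 0`. Conversely for `y ∈ MZ b (Z a) (W a)` let `z i = aeval y (φ i)`; then `θ z = y`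
(for the block of `s`: `z (cj s j) = c j * y (cj s 0) + d j * y (cj s 1)` and `pp (xx s) · z = y (cj s 0)`: `c`, `d` are the inverse matrix also from the other side, `Matrix.mul_eq_one_comm`, or determinants) and `z ∈ QS` by `mem_W` (←). So `g` vanishes on `⋃ MZ`, `g ∈ PQ (⋃ MZ) = PQ (θ (QS))`.
-/

set_option autoImplicit false

open MvPolynomial Pool.Agent.H74.Secant

namespace Pool.Agent.H6.SC

universe u

open scoped Classical

variable {V : Type} [Fintype V] {G : SimpleGraph V} {N : ℕ} (D : Dat G N) (K : Type u) [Field K]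

private theorem stn_fun (s₀ : V) (F : V → Fin 2 → MvPolynomial (Fin N) K) :
    ∃ θ : Fin N → MvPolynomial (Fin N) K, (∀ s j, D.st s → s ≠ s₀ → θ (D.cj s j) = F s j) ∧
      ∀ i, (∀ s j, D.st s → s ≠ s₀ → i ≠ D.cj s j) → θ i = X i := by
  refine ⟨fun i => if h : ∃ p : V × Fin 2, D.st p.1 ∧ p.1 ≠ s₀ ∧ i = D.cj p.1 p.2 then
    F h.choose.1 h.choose.2 else X i, ?_, ?_⟩
  · intro s j hs hne
    have h : ∃ p : V × Fin 2, D.st p.1 ∧ p.1 ≠ s₀ ∧ D.cj s j = D.cj p.1 p.2 := ⟨(s, j), hs, hne, rfl⟩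
    show (if h : ∃ p : V × Fin 2, D.st p.1 ∧ p.1 ≠ s₀ ∧ D.cj s j = D.cj p.1 p.2 then
      F h.choose.1 h.choose.2 else X (D.cj s j)) = F s j
    rw [dif_pos h]
    obtain ⟨h1, -, h2⟩ := h.choose_spec
    obtain ⟨h3, h4⟩ := D.cj_inj _ _ _ _ hs h1 h2
    rw [← h3, ← h4]
  · intro i hi
    show (if h : ∃ p : V × Fin 2, D.st p.1 ∧ p.1 ≠ s₀ ∧ i = D.cj p.1 p.2 then
      F h.choose.1 h.choose.2 else X i) = X i
    rw [dif_neg]
    rintro ⟨p, h1, h2, h3⟩
    exact hi _ _ h1 h2 h3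

private theorem stn_inv {x y : Fin 3} (hxy : x ≠ y) : ∃ c d : Fin 2 → K,
    (∀ i j : Fin 2, c i * pp K x j + d i * pp K y j = if i = j then 1 else 0) ∧
      ∑ j, pp K x j * c j = 1 ∧ ∑ j, pp K x j * d j = 0 ∧ ∑ j, pp K y j * c j = 0 ∧
        ∑ j, pp K y j * d j = 1 := by
  obtain ⟨c, d, h⟩ := pp_inv K hxy
  refine ⟨c, d, h, ?_⟩
  have h1 : !![c 0, d 0; c 1, d 1] * !![pp K x 0, pp K x 1; pp K y 0, pp K y 1] = 1 := by
    ext i j
    fin_cases i <;> fin_cases j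
    · simpa [Matrix.mul_apply, Fin.sum_univ_two] using h 0 0
    · simpa [Matrix.mul_apply, Fin.sum_univ_two] using h 0 1
    · simpa [Matrix.mul_apply, Fin.sum_univ_two] using h 1 0
    · simpa [Matrix.mul_apply, Fin.sum_univ_two] using h 1 1
  have h2 := mul_eq_one_comm.1 h1
  have e00 := congrFun (congrFun h2 0) 0
  have e01 := congrFun (congrFun h2 0) 1
  have e10 := congrFun (congrFun h2 1) 0
  have e11 := congrFun (congrFun h2 1) 1
  simp [Matrix.mul_apply, Fin.sum_univ_two] at e00 e01 e10 e11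
  simp only [Fin.sum_univ_two]
  exact ⟨e00, e01, e10, e11⟩

theorem stN [Infinite K] {k : ℕ} {S : Finset (Fin N)} (hS : ∀ i ∈ S, D.Fr i) {s₀ : V} (h₀ : D.st s₀)
    (xx yy : V → Fin 3) (hne : ∀ s, D.st s → s ≠ s₀ → xx s ≠ yy s)
    (hA : ∀ s, D.st s → s ≠ s₀ → ∀ A, D.Nm k S A → ∀ w, D.arm s w ∈ A → w = xx s ∨ w = yy s)
    {f : MvPolynomial (Fin N) K} (hf : ∀ z ∈ D.QS K k S, aeval z f = (0 : K)) : f ∈ PQ (D.QS K k S) := by
  -- inverse matrices
  have hcd : ∀ s : V, ∃ cd : (Fin 2 → K) × (Fin 2 → K), D.st s → s ≠ s₀ →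
      (∀ i j : Fin 2, cd.1 i * pp K (xx s) j + cd.2 i * pp K (yy s) j = if i = j then 1 else 0) ∧
      ∑ j, pp K (xx s) j * cd.1 j = 1 ∧ ∑ j, pp K (xx s) j * cd.2 j = 0 ∧
        ∑ j, pp K (yy s) j * cd.1 j = 0 ∧ ∑ j, pp K (yy s) j * cd.2 j = 1 := by
    intro s
    by_cases h : D.st s ∧ s ≠ s₀
    · obtain ⟨c, d, h1⟩ := stn_inv K (hne s h.1 h.2)
      exact ⟨(c, d), fun _ _ => h1⟩
    · exact ⟨(0, 0), fun h1 h2 => absurd ⟨h1, h2⟩ h⟩
  choose cd hcd using hcd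
  obtain ⟨θ, hθ, hθX⟩ := stn_fun D K s₀ (fun s j => if j = 0 then D.pf K s (xx s) else D.pf K s (yy s))
  obtain ⟨φ, hφ, hφX⟩ := stn_fun D K s₀
    (fun s j => C ((cd s).1 j) * X (D.cj s 0) + C ((cd s).2 j) * X (D.cj s 1))
  have hθ0 : ∀ s, D.st s → s ≠ s₀ → θ (D.cj s 0) = D.pf K s (xx s) := fun s h1 h2 => by
    rw [hθ s 0 h1 h2, if_pos rfl]
  have hθ1 : ∀ s, D.st s → s ≠ s₀ → θ (D.cj s 1) = D.pf K s (yy s) := fun s h1 h2 => by
    rw [hθ s 1 h1 h2, if_neg (by decide)]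
  have hb : D.cj s₀ 0 ≠ D.cj s₀ 1 := by
    intro h
    have h1 := (D.cj_inj _ _ _ _ h₀ h₀ h).2
    exact absurd h1 (by decide)
  -- the coordinates of the distinguished star are not changed
  have hθs : ∀ j, θ (D.cj s₀ j) = X (D.cj s₀ j) := fun j => hθX _ fun s j' h1 h2 h3 =>
    h2 (D.cj_inj _ _ _ _ h₀ h1 h3).1.symm
  have hφs : ∀ j, φ (D.cj s₀ j) = X (D.cj s₀ j) := fun j => hφX _ fun s j' h1 h2 h3 =>
    h2 (D.cj_inj _ _ _ _ h₀ h1 h3).1.symm
  have hθF : ∀ i, D.Fr i → θ i = X i := fun i hi => hθX _ fun s j h1 _ => hi s j h1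
  have hφF : ∀ i, D.Fr i → φ i = X i := fun i hi => hφX _ fun s j h1 _ => hi s j h1
  have hhom : ∀ i, (θ i).IsHomogeneous 1 := by
    intro i
    by_cases h : ∃ s j, D.st s ∧ s ≠ s₀ ∧ i = D.cj s j
    · obtain ⟨s, j, h1, h2, rfl⟩ := h
      rw [hθ s j h1 h2]
      split_ifs
      · exact pf_hom D K s _
      · exact pf_hom D K s _
    · rw [hθX i fun s j h1 h2 h3 => h ⟨s, j, h1, h2, h3⟩]
      exact isHomogeneous_X K i
  have hinv : ∀ i, bind₁ θ (φ i) = X i := by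
    intro i
    by_cases h : ∃ s j, D.st s ∧ s ≠ s₀ ∧ i = D.cj s j
    · obtain ⟨s, j, h1, h2, rfl⟩ := h
      rw [hφ s j h1 h2]
      obtain ⟨e, -⟩ := hcd s h1 h2
      simp only [map_add, map_mul, bind₁_C_right, bind₁_X_right, hθ0 s h1 h2, hθ1 s h1 h2]
      unfold Dat.pf
      have e0 := e j 0
      have e1 := e j 1
      simp only [Fin.sum_univ_two]
      have e2 : C ((cd s).1 j) * (C (pp K (xx s) 0) * X (D.cj s 0) + C (pp K (xx s) 1) * X (D.cj s 1)) +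
          C ((cd s).2 j) * (C (pp K (yy s) 0) * X (D.cj s 0) + C (pp K (yy s) 1) * X (D.cj s 1)) =
          (C ((cd s).1 j * pp K (xx s) 0 + (cd s).2 j * pp K (yy s) 0) * X (D.cj s 0) +
          C ((cd s).1 j * pp K (xx s) 1 + (cd s).2 j * pp K (yy s) 1) * X (D.cj s 1) :
            MvPolynomial (Fin N) K) := by
        simp only [map_add, map_mul]
        ring
      rw [e2, e0, e1]
      fin_cases j
      · simp
      · simp
    · have h3 : ∀ s j, D.st s → s ≠ s₀ → i ≠ D.cj s j := fun s j h1 h2 h3 => h ⟨s, j, h1, h2, h3⟩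
      rw [hφX i h3, bind₁_X_right, hθX i h3]
  -- the map on points
  have hT0 : ∀ (z : Fin N → K) s, D.st s → s ≠ s₀ →
      aeval z (θ (D.cj s 0)) = ∑ j, pp K (xx s) j * z (D.cj s j) := fun z s h1 h2 => by
    rw [hθ0 s h1 h2, aeval_pf]
  have hT1 : ∀ (z : Fin N → K) s, D.st s → s ≠ s₀ →
      aeval z (θ (D.cj s 1)) = ∑ j, pp K (yy s) j * z (D.cj s j) := fun z s h1 h2 => by
    rw [hθ1 s h1 h2, aeval_pf]
  refine trn θ φ hhom hinv (D.QS K k S) ?_ hf
  intro g hg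
  -- the arrangement
  obtain ⟨Z, hZ⟩ : ∃ Z : ({A // D.Nm k S A} ⊕ {i // i ∈ S}) → Set (Fin N), Z = fun a => match a with
      | Sum.inl A => {i | (∃ s, D.st s ∧ s ≠ s₀ ∧ i = D.cj s 0 ∧
            ∀ q ∈ D.W K A.1 s, ∑ j, pp K (xx s) j * q j = 0) ∨
          ∃ s, D.st s ∧ s ≠ s₀ ∧ i = D.cj s 1 ∧ ∀ q ∈ D.W K A.1 s, ∑ j, pp K (yy s) j * q j = 0}
      | Sum.inr i => {i.1} := ⟨_, rfl⟩
  obtain ⟨W, hWd⟩ : ∃ W : ({A // D.Nm k S A} ⊕ {i // i ∈ S}) → Submodule K (Fin 2 → K), W = fun a =>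
      match a with
      | Sum.inl A => D.W K A.1 s₀
      | Sum.inr _ => ⊤ := ⟨_, rfl⟩
  have hW3 : ∀ a, W a = ⊤ ∨ W a = ⊥ ∨ ∃ x, W a = Submodule.span K {nu K x} := by
    rintro (A | i)
    · rw [hWd]
      exact W_tri D K A.1 s₀
    · rw [hWd]
      exact Or.inl rfl
  -- the union of the pieces is the image
  have hsub1 : ((fun z => fun i => aeval z (θ i)) '' D.QS K k S) ⊆ ⋃ a, MZ (D.cj s₀) (Z a) (W a) := by
    rintro _ ⟨z, hz, rfl⟩
    rcases hz with ⟨A, hAn, hz⟩ | ⟨i, hi, hz⟩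
    · refine Set.mem_iUnion.2 ⟨Sum.inl ⟨A, hAn⟩, ?_, ?_⟩
      · intro i hi _
        rw [hZ] at hi
        rcases hi with ⟨s, h1, h2, rfl, h3⟩ | ⟨s, h1, h2, rfl, h3⟩
        · show aeval z (θ (D.cj s 0)) = 0
          rw [hT0 z s h1 h2]
          exact h3 _ (hz s h1)
        · show aeval z (θ (D.cj s 1)) = 0
          rw [hT1 z s h1 h2]
          exact h3 _ (hz s h1)
      · rw [hWd]
        show (fun j => aeval z (θ (D.cj s₀ j))) ∈ D.W K A s₀
        have e : (fun j => aeval z (θ (D.cj s₀ j))) = fun j => z (D.cj s₀ j) := by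
          funext j
          rw [hθs j, aeval_X]
        rw [e]
        exact hz s₀ h₀
    · refine Set.mem_iUnion.2 ⟨Sum.inr ⟨i, hi⟩, ?_, ?_⟩
      · intro i' hi' _
        rw [hZ] at hi'
        have hi'' : i' = i := hi'
        subst hi''
        show aeval z (θ i') = 0
        rw [hθF i' (hS i' hi), aeval_X]
        exact hz
      · rw [hWd]
        exact Submodule.mem_top
  have hsub2 : (⋃ a, MZ (D.cj s₀) (Z a) (W a)) ⊆ ((fun z => fun i => aeval z (θ i)) '' D.QS K k S) := by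
    intro y hy
    obtain ⟨a, hy1, hy2⟩ := Set.mem_iUnion.1 hy
    obtain ⟨z, hzd⟩ : ∃ z : Fin N → K, z = fun i => aeval y (φ i) := ⟨_, rfl⟩
    have hzs : ∀ s j, D.st s → s ≠ s₀ → z (D.cj s j) =
        (cd s).1 j * y (D.cj s 0) + (cd s).2 j * y (D.cj s 1) := by
      intro s j h1 h2
      rw [hzd]
      show aeval y (φ (D.cj s j)) = _
      rw [hφ s j h1 h2]
      simp
    have hx0 : ∀ s, D.st s → s ≠ s₀ → ∑ j, pp K (xx s) j * z (D.cj s j) = y (D.cj s 0) := by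
      intro s h1 h2
      obtain ⟨-, e1, e2, -, -⟩ := hcd s h1 h2
      have e3 : ∑ j, pp K (xx s) j * z (D.cj s j) =
          (∑ j, pp K (xx s) j * (cd s).1 j) * y (D.cj s 0) +
            (∑ j, pp K (xx s) j * (cd s).2 j) * y (D.cj s 1) := by
        simp only [Fin.sum_univ_two, hzs s _ h1 h2]
        ring
      rw [e3, e1, e2]
      ring
    have hx1 : ∀ s, D.st s → s ≠ s₀ → ∑ j, pp K (yy s) j * z (D.cj s j) = y (D.cj s 1) := by
      intro s h1 h2
      obtain ⟨-, -, -, e1, e2⟩ := hcd s h1 h2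
      have e3 : ∑ j, pp K (yy s) j * z (D.cj s j) =
          (∑ j, pp K (yy s) j * (cd s).1 j) * y (D.cj s 0) +
            (∑ j, pp K (yy s) j * (cd s).2 j) * y (D.cj s 1) := by
        simp only [Fin.sum_univ_two, hzs s _ h1 h2]
        ring
      rw [e3, e1, e2]
      ring
    have hzX : ∀ i, (∀ s j, D.st s → s ≠ s₀ → i ≠ D.cj s j) → z i = y i := by
      intro i hi
      rw [hzd]
      show aeval y (φ i) = y i
      rw [hφX i hi, aeval_X]
    refine ⟨z, ?_, ?_⟩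
    · rcases a with A | i
      · refine Or.inl ⟨A.1, A.2, ?_⟩
        intro s hs
        by_cases hss : s = s₀
        · subst hss
          have e : (fun j => z (D.cj s j)) = fun j => y (D.cj s j) := by
            funext j
            exact hzX _ fun t j' h1 h2 h3 => h2 (D.cj_inj _ _ _ _ hs h1 h3).1.symm
          rw [e]
          rw [hWd] at hy2
          exact hy2
        · rw [mem_W D K (hne s hs hss) (hA s hs hss A.1 A.2)]
          have hnb : ∀ j j', D.cj s j ≠ D.cj s₀ j' := fun j j' h3 =>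
            hss (D.cj_inj _ _ _ _ hs h₀ h3).1
          constructor
          · intro h3
            rw [hx0 s hs hss]
            refine hy1 _ ?_ fun j => hnb _ j
            rw [hZ]
            exact Or.inl ⟨s, hs, hss, rfl, h3⟩
          · intro h3
            rw [hx1 s hs hss]
            refine hy1 _ ?_ fun j => hnb _ j
            rw [hZ]
            exact Or.inr ⟨s, hs, hss, rfl, h3⟩
      · refine Or.inr ⟨i.1, i.2, ?_⟩
        have hFi := hS i.1 i.2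
        rw [hzX i.1 fun s j h1 _ => hFi s j h1]
        refine hy1 _ ?_ fun j => hFi s₀ j h₀
        rw [hZ]
        exact rfl
    · funext i
      show aeval z (θ i) = y i
      by_cases h : ∃ s j, D.st s ∧ s ≠ s₀ ∧ i = D.cj s j
      · obtain ⟨s, j, h1, h2, rfl⟩ := h
        fin_cases j
        · show aeval z (θ (D.cj s 0)) = y (D.cj s 0)
          rw [hT0 z s h1 h2, hx0 s h1 h2]
        · show aeval z (θ (D.cj s 1)) = y (D.cj s 1)
          rw [hT1 z s h1 h2, hx1 s h1 h2]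
      · have h3 : ∀ s j, D.st s → s ≠ s₀ → i ≠ D.cj s j := fun s j h1 h2 h3 => h ⟨s, j, h1, h2, h3⟩
        rw [hθX i h3, aeval_X, hzX i h3]
  refine pq_mono hsub1 (abs_pos hb Z W hW3 ?_)
  intro a y hy
  obtain ⟨z, hz, rfl⟩ := hsub2 (Set.mem_iUnion.2 ⟨a, hy⟩)
  exact hg z hz

end Pool.Agent.H6.SC
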