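import Pool.Agent.H6.SC.Exc
import Pool.Agent.H6.SC.StN
import Pool.Agent.H6.SC.Exp2
import Pool.Agent.H6.SC.DArr

/-!
# SC.Pos : for `k ≤ 2` the ideal is generated by products of linear forms

PROOF of `one_exp`: cases. (a) There are two different stars with all arms in normal sets (for `S = α.support`): `cnt` and `exc`. (b) There is a star: let `s₀` be a star with all arms in normal sets if there is one, otherwise any star. Every other star `s` has an arm `x₀` in no normal set; `xx s`, `yy s` = the two other directions; `stN` (`hS`: `α.support ⊆ Fr` if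
`f ≠ 0`; `f = 0` is trivial). (c) There is no star. If there is a normal set then `QS` is everything and `f = 0` (`MvPolynomial.funext`). If not, `P = ∏ i ∈ S, X i` divides `f` (`prod_dvd`) and vanishes on `QS`.
`pos_dat`: if `card V < k + 1` then `InI` holds for all `f` and the ideal is `⊤ = span {1}`. Otherwise for `f` in the ideal (`InI`) the components `cmp Fr α f` satisfy `InI` (`cmp_van` with `Z = spn A`, which is closed under scaling of the coordinates in `Fr`, by `mem_spn`), `van_of` and `one_exp` show that they lie in `PQ (QS)`, and `PQ (QS) ≤ PI` by `inI_of`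
(`hS`). So `f = ∑ cmp` is in `PI`, the ideal generated by the products of linear forms in the ideal.
-/

set_option autoImplicit false

open MvPolynomial Pool.Agent.H74.Secant

namespace Pool.Agent.H6.SC

universe u

open scoped Classical

variable {V : Type} [Fintype V] {G : SimpleGraph V} {N : ℕ} (D : Dat G N) (K : Type u) [Field K]

private theorem three_dir (x w : Fin 3) (h : w ≠ x) : w = x + 1 ∨ w = x + 2 := by
  revert x w
  decide

private theorem three_ne (x : Fin 3) : x + 1 ≠ x + 2 := by
  revert x
  decide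

private theorem no_star [Infinite K] {k : ℕ} {S : Finset (Fin N)} (hst : ¬ ∃ s, D.st s)
    {f : MvPolynomial (Fin N) K} (hf : ∀ z ∈ D.QS K k S, aeval z f = (0 : K)) :
    f ∈ PQ (D.QS K k S) := by
  by_cases hN : ∃ A, D.Nm k S A
  · obtain ⟨A, hA⟩ := hN
    have h0 : f = 0 := by
      apply MvPolynomial.funext
      intro z
      have h1 := hf z (Or.inl ⟨A, hA, fun s hs => absurd ⟨s, hs⟩ hst⟩)
      rw [map_zero]
      exact h1
    rw [h0]
    exact Ideal.zero_mem _
  · have hd : ∏ i ∈ S, (X i : MvPolynomial (Fin N) K) ∣ f := by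
      refine prod_dvd S (fun i => (X i : MvPolynomial (Fin N) K)) (fun i _ => isHomogeneous_X K i)
        (fun i _ => X_ne_zero i) (fun i _ j _ hij => ⟨Pi.single i 1, ?_, ?_⟩) (fun i hi z hz => ?_)
      · rw [aeval_X, Pi.single_eq_of_ne (Ne.symm hij)]
      · rw [aeval_X, Pi.single_eq_same]
        exact one_ne_zero
      · rw [aeval_X] at hz
        exact hf z (Or.inr ⟨i, hi, hz⟩)
    refine Ideal.mem_of_dvd _ hd (pq_mem (isprod_prod S _ fun i _ =>
      isprod_lin (isHomogeneous_X K i)) ?_)
    rintro z (⟨A, hA, _⟩ | ⟨i, hi, hz⟩)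
    · exact absurd ⟨A, hA⟩ hN
    · rw [map_prod]
      exact Finset.prod_eq_zero hi (by rw [aeval_X]; exact hz)

private theorem supp_fr {f : MvPolynomial (Fin N) K} {α : Fin N →₀ ℕ} (hf0 : f ≠ 0)
    (hα : ∀ m ∈ f.support, m.filter (fun i => D.Fr i) = α) : ∀ i ∈ α.support, D.Fr i := by
  intro i hi
  obtain ⟨m, hm⟩ := (support_nonempty (p := f)).2 hf0
  by_contra hcon
  rw [Finsupp.mem_support_iff] at hi
  apply hi
  rw [← hα m hm, Finsupp.filter_apply, if_neg hcon]

theorem one_exp [Infinite K] {k : ℕ} (hk : k ≤ 2) {f : MvPolynomial (Fin N) K} (α : Fin N →₀ ℕ)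
    (hα : ∀ m ∈ f.support, m.filter (fun i => D.Fr i) = α)
    (hf : ∀ z ∈ D.QS K k α.support, aeval z f = (0 : K)) : f ∈ PQ (D.QS K k α.support) := by
  by_cases hf0 : f = 0
  · rw [hf0]
    exact Ideal.zero_mem _
  have hS := supp_fr D K hf0 hα
  by_cases h2 : ∃ s t, D.st s ∧ D.st t ∧ s ≠ t ∧ (∀ x, ∃ A, D.Nm k α.support A ∧ D.arm s x ∈ A) ∧
      ∀ x, ∃ A, D.Nm k α.support A ∧ D.arm t x ∈ A
  · obtain ⟨s, t, hs, ht, hst, h3, h4⟩ := h2
    obtain ⟨hk2, π, hπ, hSe, hA⟩ := cnt D hk hs ht hst h3 h4
    subst hk2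
    exact exc D K hs ht hst hπ hSe hA hα hf
  by_cases h1 : ∃ s, D.st s
  · obtain ⟨s₀, h₀, hother⟩ : ∃ s₀, D.st s₀ ∧ ∀ s, D.st s → s ≠ s₀ →
        ∃ x, ∀ A, D.Nm k α.support A → D.arm s x ∉ A := by
      by_cases h5 : ∃ s, D.st s ∧ ∀ x, ∃ A, D.Nm k α.support A ∧ D.arm s x ∈ A
      · obtain ⟨s₀, h₀, h6⟩ := h5
        refine ⟨s₀, h₀, fun s hs hne => ?_⟩
        by_contra hcon
        push Not at hcon
        exact h2 ⟨s, s₀, hs, h₀, hne, hcon, h6⟩
      · obtain ⟨s₀, h₀⟩ := h1
        refine ⟨s₀, h₀, fun s hs _ => ?_⟩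
        by_contra hcon
        push Not at hcon
        exact h5 ⟨s, hs, hcon⟩
    let x0 : V → Fin 3 := fun s =>
      if h : ∃ x, ∀ A, D.Nm k α.support A → D.arm s x ∉ A then h.choose else 0
    refine stN D K hS h₀ (fun s => x0 s + 1) (fun s => x0 s + 2) (fun s _ _ => three_ne _) ?_ hf
    intro s hs hne A hA w hw
    apply three_dir
    rintro rfl
    have h7 := hother s hs hne
    have h8 : x0 s = h7.choose := dif_pos h7
    rw [h8] at hw
    exact h7.choose_spec A hA hw
  · exact no_star D K h1 hf

theorem pos_dat [Infinite K] {k : ℕ} (hk : k ≤ 2) :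
    GeneratedByProducts (vanishingIdeal K (secantVariety k (D.crv K))) := by
  have hE : Expos G (k + 1) := expos_mono (expos_three D) (by omega)
  refine ⟨{P | IsProductOfLinearForms P ∧ D.InI K k P}, fun P hP => hP.1, le_antisymm ?_ ?_⟩
  · rw [Ideal.span_le]
    rintro P ⟨_, hP⟩
    exact (mem_sec D K hE P).2 hP
  · intro f hf
    have hfI : D.InI K k f := (mem_sec D K hE f).1 hf
    rcases Nat.lt_or_ge (Fintype.card V) (k + 1) with hc | hc
    · have h1 : (1 : MvPolynomial (Fin N) K) ∈
          Ideal.span {P : MvPolynomial (Fin N) K | IsProductOfLinearForms P ∧ D.InI K k P} := by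
        refine Ideal.subset_span ⟨isprod_one, fun A hA => ?_⟩
        have h2 := Finset.card_le_univ A
        omega
      have h3 := Ideal.mul_mem_left _ f h1
      rwa [mul_one] at h3
    · obtain ⟨F, hF⟩ : ∃ F : Set (Fin N), F = {i | D.Fr i} := ⟨_, rfl⟩
      rw [← sum_cmp F f]
      refine Ideal.sum_mem _ fun α _ => ?_
      by_cases hg0 : cmp F α f = 0
      · rw [hg0]
        exact Ideal.zero_mem _
      have hα : ∀ m ∈ (cmp F α f).support, m.filter (fun i => D.Fr i) = α := by
        intro m hm
        rw [mem_support_iff, coeff_cmp] at hm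
        by_contra hcon
        apply hm
        rw [if_neg]
        subst hF
        exact hcon
      have hS := supp_fr D K hg0 hα
      have hI : D.InI K k (cmp F α f) := by
        intro A hA
        refine cmp_van F (spn (D.L K) A : Set (Fin N → K)) ?_ (hfI A hA) α
        intro z hz l
        rw [SetLike.mem_coe, mem_spn] at hz ⊢
        refine ⟨fun i hi => hz.1 i ?_, fun s hs => ?_⟩
        · intro h0
          apply hi
          simp only [h0, mul_zero, ite_self]
        · have h4 : (fun j => if D.cj s j ∈ F then l (D.cj s j) * z (D.cj s j) else z (D.cj s j)) =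
              fun j => z (D.cj s j) := by
            funext j
            rw [if_neg]
            subst hF
            intro h5
            exact h5 s j hs rfl
          rw [h4]
          exact hz.2 s hs
      have h5 := one_exp D K hk α hα (van_of D K hc α hα hI)
      refine (Ideal.span_mono ?_) h5
      rintro P ⟨hP1, hP2⟩
      exact ⟨hP1, inI_of D K hS hP2⟩

end Pool.Agent.H6.SC
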