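import Pool.Agent.H74.Secant.Defs

/-!
# SC.Prod : products of linear forms

`PQ Q` : the ideal generated by the products of linear forms that vanish on the set `Q`.

PROOF. `isprod_one`: the empty list. `isprod_mul`: append the lists. `isprod_prod`: induction. `isprod_monomial`: `monomial m 1 = ∏ i ∈ m.support, X i ^ m i` (`monomial_eq`), a power is a product of a constant family. `pq_monomial`: `monomial m c = C c * monomial m 1`. `pq_mono`: `Ideal.span_mono`.
-/

set_option autoImplicit false

open MvPolynomial Pool.Agent.H74.Secant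

namespace Pool.Agent.H6.SC

universe u

open scoped Classical

variable {K : Type u} [Field K] {N : ℕ}

theorem isprod_one : IsProductOfLinearForms (1 : MvPolynomial (Fin N) K) :=
  ⟨[], by simp, by simp⟩

theorem isprod_lin {p : MvPolynomial (Fin N) K} (hp : p.IsHomogeneous 1) : IsProductOfLinearForms p :=
  ⟨[p], by simpa using hp, by simp⟩

theorem isprod_mul {p q : MvPolynomial (Fin N) K} (hp : IsProductOfLinearForms p) (hq : IsProductOfLinearForms q) :
    IsProductOfLinearForms (p * q) := by
  obtain ⟨l, hl, rfl⟩ := hp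
  obtain ⟨l', hl', rfl⟩ := hq
  refine ⟨l ++ l', fun g hg => ?_, by simp⟩
  rcases List.mem_append.mp hg with h | h
  · exact hl g h
  · exact hl' g h

theorem isprod_prod {ι : Type} (s : Finset ι) (f : ι → MvPolynomial (Fin N) K)
    (h : ∀ x ∈ s, IsProductOfLinearForms (f x)) : IsProductOfLinearForms (∏ x ∈ s, f x) :=
  Finset.prod_induction f IsProductOfLinearForms (fun _ _ => isprod_mul) isprod_one h

private theorem isprod_pow {p : MvPolynomial (Fin N) K} (hp : IsProductOfLinearForms p) (n : ℕ) :
    IsProductOfLinearForms (p ^ n) := by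
  induction n with
  | zero => simpa using isprod_one
  | succ n ih => rw [pow_succ]; exact isprod_mul ih hp

theorem isprod_monomial (m : Fin N →₀ ℕ) : IsProductOfLinearForms (monomial m (1 : K)) := by
  rw [monomial_eq, map_one, one_mul, Finsupp.prod]
  exact isprod_prod _ _ fun i _ => isprod_pow (isprod_lin (isHomogeneous_X K i)) _

/-- the ideal generated by the products of linear forms that vanish on the set `Q` -/
noncomputable def PQ (Q : Set (Fin N → K)) : Ideal (MvPolynomial (Fin N) K) :=
  Ideal.span {P | IsProductOfLinearForms P ∧ ∀ z ∈ Q, aeval z P = (0 : K)}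

theorem pq_mem {Q : Set (Fin N → K)} {P : MvPolynomial (Fin N) K} (h1 : IsProductOfLinearForms P)
    (h2 : ∀ z ∈ Q, aeval z P = (0 : K)) : P ∈ PQ Q :=
  Ideal.subset_span ⟨h1, h2⟩

theorem pq_monomial {Q : Set (Fin N → K)} (m : Fin N →₀ ℕ) (c : K)
    (h : ∀ z ∈ Q, aeval z (monomial m (1 : K)) = (0 : K)) : monomial m c ∈ PQ Q := by
  have h1 : monomial m c = C c * monomial m (1 : K) := by
    rw [C_mul_monomial, mul_one]
  rw [h1]
  exact Ideal.mul_mem_left _ _ (pq_mem (isprod_monomial m) h)

theorem pq_mono {Q Q' : Set (Fin N → K)} (h : Q ⊆ Q') : PQ Q' ≤ PQ Q :=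
  Ideal.span_mono fun _ hP => ⟨hP.1, fun z hz => hP.2 z (h hz)⟩

end Pool.Agent.H6.SC
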