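import Mathlib

/-!
# SC.Rado : generic points on subspaces

PROOF of `rado`, by induction on `A` (`Finset.induction_on`, generalising `M`). `A = ∅`: nothing. Step `insert m A`: choose
`q m ∈ L m` outside the finitely many subspaces `M i ⊔ ⨆ v ∈ B, L v` (`i : ι`, `B ⊆ A`) that do not contain `L m`
(`Submodule.iUnion_ne_univ_of_forall_ne_top` or `Subspace.biUnion_ne_univ_of_top_notMem`, applied to the subspaces of
`L m`; `K` is infinite). Let `M' i = M i ⊔ span {q m}`. CLAIM: `finrank (M' i) + |B| ≤ finrank (M' i ⊔ ⨆ v ∈ B, L v)` for `B ⊆ A`.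
First `finrank (M' i) = finrank (M i) + 1`: the hypothesis for `B = {m}` shows `L m` is not contained in `M i`, so `q m ∉ M i`
(case `B = ∅`). If `L m ≤ M i ⊔ ⨆ v ∈ B, L v =: W` then `W = M i ⊔ ⨆ v ∈ insert m B, L v` has dimension `≥ finrank (M i) + |B| + 1`, and
`W ≤ M' i ⊔ ⨆ B`. Otherwise `q m ∉ W`, so `finrank (W ⊔ span {q m}) = finrank W + 1 ≥ finrank (M i) + |B| + 1`.
Induction gives `q` on `A` for `M'`; the final span is `M i ⊔ span (q '' insert m A) = M' i ⊔ span (q '' A)`.

`li_line`: `w i τ = c i + τ • d i` (`i` in a finite type). If the family is independent at `τ = 1` then it is independent for all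
but finitely many `τ`. PROOF: choose linear functionals `φ j` with `φ j (w i 1) = δ_ij` (`LinearIndependent.extend` /
`Basis.extend`, `Basis.coord`, or `Module.exists_dual...`); the determinant of `(φ j (w i τ))` is a polynomial in `τ` with value `1` at
`τ = 1`, so it has finitely many roots; where it is not zero the family is independent
(`Matrix.linearIndependent_rows_iff_isUnit` or `LinearIndependent.of_comp`).
-/

set_option autoImplicit false

namespace Pool.Agent.H6.SC

universe u

theorem rado {K : Type u} [Field K] [Infinite K] {W : Type u} [AddCommGroup W] [Module K W] [FiniteDimensional K W]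
    {V ι : Type} [Finite ι] (L : V → Submodule K W) (A : Finset V) (M : ι → Submodule K W)
    (h : ∀ i, ∀ B ⊆ A, Module.finrank K (M i) + B.card ≤ Module.finrank K (M i ⊔ ⨆ v ∈ B, L v : Submodule K W)) :
    ∃ q : V → W, (∀ v ∈ A, q v ∈ L v) ∧
      ∀ i, Module.finrank K (M i ⊔ Submodule.span K (q '' (A : Set V)) : Submodule K W) =
        Module.finrank K (M i) + A.card := by
  classical
  induction A using Finset.induction_on generalizing M with
  | empty =>
    refine ⟨fun _ => 0, by simp, ?_⟩
    intro i
    have e : M i ⊔ Submodule.span K ((fun _ => (0 : W)) '' ((∅ : Finset V) : Set V)) = M i := by simp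
    rw [e, Finset.card_empty, add_zero]
  | insert m A hm ih =>
    obtain ⟨q0, hq0L, hq0⟩ : ∃ q0 ∈ L m, ∀ i, ∀ B ⊆ A, ¬ L m ≤ M i ⊔ (⨆ v ∈ B, L v) →
        q0 ∉ M i ⊔ ⨆ v ∈ B, L v := by
      by_contra hcon
      push Not at hcon
      let J := {x : ι × {B : Finset V // B ∈ A.powerset} // ¬ L m ≤ M x.1 ⊔ ⨆ v ∈ x.2.1, L v}
      let p : J → Submodule K (L m) :=
        fun x => Submodule.comap (L m).subtype (M x.1.1 ⊔ ⨆ v ∈ x.1.2.1, L v)
      have hcov : ⋃ x, (p x : Set (L m)) = Set.univ := by
        rw [Set.eq_univ_iff_forall]
        intro z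
        obtain ⟨i, B, hB, h1, h2⟩ := hcon z.1 z.2
        exact Set.mem_iUnion.2 ⟨⟨(i, ⟨B, Finset.mem_powerset.2 hB⟩), h1⟩, h2⟩
      obtain ⟨x, hx⟩ := Subspace.exists_eq_top_of_iUnion_eq_univ hcov
      apply x.2
      intro z hz
      have hz' : (⟨z, hz⟩ : L m) ∈ p x := by
        rw [hx]
        trivial
      exact hz'
    have hMi : ∀ i, q0 ∉ M i := by
      intro i
      have h1 := hq0 i ∅ (Finset.empty_subset _)
      simp only [Finset.notMem_empty, iSup_false, iSup_bot, sup_bot_eq] at h1
      apply h1
      intro hle
      have h2 := h i {m} (by simp)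
      have e : M i ⊔ ⨆ v ∈ ({m} : Finset V), L v = M i := by simpa using hle
      rw [Finset.card_singleton, e] at h2
      omega
    obtain ⟨q, hq1, hq2⟩ := ih (fun i => M i ⊔ Submodule.span K {q0}) (by
      intro i B hB
      show Module.finrank K (M i ⊔ Submodule.span K {q0} : Submodule K W) + B.card ≤
        Module.finrank K ((M i ⊔ Submodule.span K {q0}) ⊔ ⨆ v ∈ B, L v : Submodule K W)
      rw [Submodule.finrank_sup_span_singleton (hMi i)]
      have hmB : m ∉ B := fun hmB => hm (hB hmB)
      by_cases hle : L m ≤ M i ⊔ ⨆ v ∈ B, L v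
      · have h1 := h i (insert m B) (Finset.insert_subset_insert m hB)
        rw [Finset.card_insert_of_notMem hmB, Finset.iSup_insert] at h1
        have h2 : M i ⊔ (L m ⊔ ⨆ v ∈ B, L v) ≤ (M i ⊔ Submodule.span K {q0}) ⊔ ⨆ v ∈ B, L v := by
          refine sup_le (le_sup_left.trans le_sup_left) (sup_le (hle.trans ?_) le_sup_right)
          exact sup_le (le_sup_left.trans le_sup_left) le_sup_right
        have h3 := Submodule.finrank_mono h2
        omega
      · have h1 := hq0 i B hB hle
        have h2 := h i B (hB.trans (Finset.subset_insert m A))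
        rw [sup_right_comm, Submodule.finrank_sup_span_singleton h1]
        omega)
    refine ⟨Function.update q m q0, ?_, ?_⟩
    · intro v hv
      by_cases hvm : v = m
      · subst hvm
        rw [Function.update_self]
        exact hq0L
      · rw [Function.update_of_ne hvm]
        exact hq1 v ((Finset.mem_insert.1 hv).resolve_left hvm)
    · intro i
      have e : Function.update q m q0 '' ((insert m A : Finset V) : Set V) = insert q0 (q '' (A : Set V)) := by
        rw [Finset.coe_insert, Set.image_insert_eq, Function.update_self]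
        congr 1
        apply Set.image_congr
        intro v hv
        rw [Function.update_of_ne]
        rintro rfl
        exact hm hv
      have h1 := hq2 i
      rw [e, Submodule.span_insert, ← sup_assoc, h1, Submodule.finrank_sup_span_singleton (hMi i),
        Finset.card_insert_of_notMem hm]
      ring

theorem li_line {K : Type u} [Field K] {W : Type u} [AddCommGroup W] [Module K W]
    {ι : Type} [Finite ι] (c d : ι → W) (h : LinearIndependent K (fun i => c i + (1 : K) • d i)) :
    {τ : K | ¬ LinearIndependent K (fun i => c i + τ • d i)}.Finite := by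
  classical
  have := Fintype.ofFinite ι
  obtain ⟨f, hf⟩ := LinearMap.exists_leftInverse_of_injective
    (Fintype.linearCombination K (fun i => c i + (1 : K) • d i))
    (LinearMap.ker_eq_bot.2 (linearIndependent_iff_injective_fintypeLinearCombination.1 h))
  have hf1 : ∀ i, f (c i + (1 : K) • d i) = Pi.single i 1 := by
    intro i
    have h1 := LinearMap.congr_fun hf (Pi.single i 1)
    simpa [Fintype.linearCombination_apply_single] using h1
  let P : Polynomial K := Matrix.det (Matrix.of fun i j => Polynomial.C (f (c i) j) +
    Polynomial.X * Polynomial.C (f (d i) j))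
  have hP : ∀ τ : K, P.eval τ = Matrix.det (Matrix.of fun i j => f (c i + τ • d i) j) := by
    intro τ
    show Polynomial.eval τ (Matrix.det _) = _
    rw [← Polynomial.coe_evalRingHom, RingHom.map_det]
    congr 1
    ext i j
    simp
    ring
  have hP1 : P.eval 1 = 1 := by
    rw [hP]
    have e : (Matrix.of fun i j => f (c i + (1 : K) • d i) j) = (1 : Matrix ι ι K) := by
      ext i j
      rw [Matrix.of_apply, hf1]
      by_cases hij : i = j
      · subst hij
        simp
      · rw [Matrix.one_apply_ne hij, Pi.single_eq_of_ne (Ne.symm hij)]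
    rw [e, Matrix.det_one]
  have hP0 : P ≠ 0 := by
    intro h0
    rw [h0, Polynomial.eval_zero] at hP1
    exact zero_ne_one hP1
  refine (Polynomial.finite_setOfPred_isRoot hP0).subset ?_
  intro τ hτ
  by_contra hr
  apply hτ
  have hd : Matrix.det (Matrix.of fun i j => f (c i + τ • d i) j) ≠ 0 := by
    rw [← hP]
    exact hr
  have h1 := Matrix.linearIndependent_rows_of_det_ne_zero hd
  exact LinearIndependent.of_comp f h1

end Pool.Agent.H6.SC
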