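import Pool.Agent.H6.SC.Nrm

/-!
# SC.StA : blocks with at most two active arms

PROOF. `W_tri`: if `s ∈ A`, `⊤`; otherwise the span of the `nu x` with `arm s x ∈ A`: no such `x`: `⊥`; exactly one: `span {nu x}`; at least two: `⊤` (two different `nu` are independent in `K²`; e.g. `pp x · nu y ≠ 0`: `p = a nu x + b nu y`).
`mem_W`: (→) clear. (←) if `s ∈ A` clear. Otherwise the arms of `s` in `A` are among `x, y`. Both: `W = ⊤`. Only `x`: `W = span {nu x}`, `pp x` vanishes on it, so `pp x · p = 0` and `p ∈ span {nu x}` (as `pf_zero_iff`: `pp x · p = 0` iff `p ∈ span {nu x}`). Only `y`: the same. None: `W = ⊥`, both conditions give `pp x · p = pp y · p = 0`,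
so `p = 0`. `pp_inv`: the two forms `pp x`, `pp y` (`x ≠ y`) are independent: `fin_cases x, y` and explicit coefficients.
-/

set_option autoImplicit false

open MvPolynomial Pool.Agent.H74.Secant

namespace Pool.Agent.H6.SC

universe u

open scoped Classical

variable {V : Type} [Fintype V] {G : SimpleGraph V} {N : ℕ} (D : Dat G N) (K : Type u) [Field K]

omit [Fintype V] in
private theorem ker_pp (x : Fin 3) (p : Fin 2 → K) :
    ∑ j, pp K x j * p j = 0 ↔ p ∈ Submodule.span K {nu K x} := by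
  rw [Submodule.mem_span_singleton, Fin.sum_univ_two]
  fin_cases x
  · constructor
    · intro h
      have h1 : p 1 = 0 := by simpa [pp] using h
      refine ⟨p 0, ?_⟩
      funext j
      fin_cases j
      · simp [nu]
      · simp [nu, h1]
    · rintro ⟨a, rfl⟩
      simp [pp, nu]
  · constructor
    · intro h
      have h1 : p 0 = 0 := by simpa [pp] using h
      refine ⟨p 1, ?_⟩
      funext j
      fin_cases j
      · simp [nu, h1]
      · simp [nu]
    · rintro ⟨a, rfl⟩
      simp [pp, nu]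
  · constructor
    · intro h
      have h1 : p 0 + -p 1 = 0 := by simpa [pp] using h
      have h2 : p 0 = p 1 := by
        rw [← sub_eq_add_neg] at h1
        exact sub_eq_zero.1 h1
      refine ⟨p 0, ?_⟩
      funext j
      fin_cases j
      · simp [nu]
      · simp [nu, h2]
    · rintro ⟨a, rfl⟩
      simp [pp, nu]

private theorem two {x y : Fin 3} (hxy : x ≠ y) {S : Submodule K (Fin 2 → K)}
    (hx : nu K x ∈ S) (hy : nu K y ∈ S) : S = ⊤ := by
  rw [Submodule.eq_top_iff']
  intro p
  have key : ∃ a b : K, p = a • nu K x + b • nu K y := by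
    fin_cases x <;> fin_cases y
    · exact absurd rfl hxy
    · refine ⟨p 0, p 1, ?_⟩
      funext j
      fin_cases j <;> simp [nu]
    · refine ⟨p 0 - p 1, p 1, ?_⟩
      funext j
      fin_cases j <;> simp [nu]
    · refine ⟨p 1, p 0, ?_⟩
      funext j
      fin_cases j <;> simp [nu]
    · exact absurd rfl hxy
    · refine ⟨p 1 - p 0, p 0, ?_⟩
      funext j
      fin_cases j <;> simp [nu]
    · refine ⟨p 1, p 0 - p 1, ?_⟩
      funext j
      fin_cases j <;> simp [nu]
    · refine ⟨p 0, p 1 - p 0, ?_⟩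
      funext j
      fin_cases j <;> simp [nu]
    · exact absurd rfl hxy
  obtain ⟨a, b, rfl⟩ := key
  exact S.add_mem (S.smul_mem _ hx) (S.smul_mem _ hy)

private theorem W_one {A : Finset V} {s : V} (hs : s ∉ A) {x : Fin 3}
    (hx : D.arm s x ∈ A) (h : ∀ y, D.arm s y ∈ A → y = x) :
    D.W K A s = Submodule.span K {nu K x} := by
  unfold Dat.W
  rw [if_neg hs]
  congr 1
  ext p
  constructor
  · rintro ⟨y, hy, rfl⟩
    rw [h y hy]
    rfl
  · rintro rfl
    exact ⟨x, hx, rfl⟩

private theorem W_none {A : Finset V} {s : V} (hs : s ∉ A) (h : ∀ y, D.arm s y ∉ A) :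
    D.W K A s = ⊥ := by
  unfold Dat.W
  rw [if_neg hs, Submodule.span_eq_bot]
  rintro p ⟨y, hy, rfl⟩
  exact absurd hy (h y)

private theorem nu_mem_W {A : Finset V} {s : V} (hs : s ∉ A) {x : Fin 3} (hx : D.arm s x ∈ A) :
    nu K x ∈ D.W K A s := by
  unfold Dat.W
  rw [if_neg hs]
  exact Submodule.subset_span ⟨x, hx, rfl⟩

private theorem W_top {A : Finset V} {s : V} (hs : s ∈ A) : D.W K A s = ⊤ := by
  unfold Dat.W
  rw [if_pos hs]

theorem W_tri (A : Finset V) (s : V) :
    D.W K A s = ⊤ ∨ D.W K A s = ⊥ ∨ ∃ x, D.W K A s = Submodule.span K {nu K x} := by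
  by_cases hs : s ∈ A
  · exact Or.inl (W_top D K hs)
  by_cases h1 : ∃ x, D.arm s x ∈ A
  · obtain ⟨x, hx⟩ := h1
    by_cases h2 : ∃ y, y ≠ x ∧ D.arm s y ∈ A
    · obtain ⟨y, hyx, hy⟩ := h2
      exact Or.inl (two K hyx (nu_mem_W D K hs hy) (nu_mem_W D K hs hx))
    · refine Or.inr (Or.inr ⟨x, W_one D K hs hx fun y hy => ?_⟩)
      by_contra hne
      exact h2 ⟨y, hne, hy⟩
  · exact Or.inr (Or.inl (W_none D K hs fun y hy => h1 ⟨y, hy⟩))

theorem pp_inv {x y : Fin 3} (hxy : x ≠ y) : ∃ c d : Fin 2 → K, ∀ i j : Fin 2,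
    c i * pp K x j + d i * pp K y j = if i = j then 1 else 0 := by
  fin_cases x <;> fin_cases y
  · exact absurd rfl hxy
  · exact ⟨![0, 1], ![1, 0], fun i j => by fin_cases i <;> fin_cases j <;> simp [pp]⟩
  · exact ⟨![1, 1], ![1, 0], fun i j => by fin_cases i <;> fin_cases j <;> simp [pp]⟩
  · exact ⟨![1, 0], ![0, 1], fun i j => by fin_cases i <;> fin_cases j <;> simp [pp]⟩
  · exact absurd rfl hxy
  · exact ⟨![1, 1], ![0, -1], fun i j => by fin_cases i <;> fin_cases j <;> simp [pp]⟩
  · exact ⟨![1, 0], ![1, 1], fun i j => by fin_cases i <;> fin_cases j <;> simp [pp]⟩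
  · exact ⟨![0, -1], ![1, 1], fun i j => by fin_cases i <;> fin_cases j <;> simp [pp]⟩
  · exact absurd rfl hxy

private theorem zero_of {x y : Fin 3} (hxy : x ≠ y) {p : Fin 2 → K}
    (h1 : ∑ j, pp K x j * p j = 0) (h2 : ∑ j, pp K y j * p j = 0) : p = 0 := by
  obtain ⟨c, d, h⟩ := pp_inv K hxy
  funext i
  have h3 : ∑ j, (c i * pp K x j + d i * pp K y j) * p j = 0 := by
    have h4 : ∑ j, (c i * pp K x j + d i * pp K y j) * p j =
        c i * ∑ j, pp K x j * p j + d i * ∑ j, pp K y j * p j := by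
      rw [Finset.mul_sum, Finset.mul_sum, ← Finset.sum_add_distrib]
      refine Finset.sum_congr rfl fun j _ => ?_
      ring
    rw [h4, h1, h2, mul_zero, mul_zero, add_zero]
  simp only [h, ite_mul, one_mul, zero_mul, Finset.sum_ite_eq, Finset.mem_univ, if_true] at h3
  exact h3

theorem mem_W {A : Finset V} {s : V} {x y : Fin 3} (hxy : x ≠ y)
    (hA : ∀ w, D.arm s w ∈ A → w = x ∨ w = y) (p : Fin 2 → K) :
    p ∈ D.W K A s ↔ ((∀ q ∈ D.W K A s, ∑ j, pp K x j * q j = 0) → ∑ j, pp K x j * p j = 0) ∧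
      ((∀ q ∈ D.W K A s, ∑ j, pp K y j * q j = 0) → ∑ j, pp K y j * p j = 0) := by
  constructor
  · intro hp
    exact ⟨fun h => h p hp, fun h => h p hp⟩
  rintro ⟨h1, h2⟩
  by_cases hs : s ∈ A
  · rw [W_top D K hs]
    trivial
  by_cases hx : D.arm s x ∈ A
  · by_cases hy : D.arm s y ∈ A
    · rw [two K hxy (nu_mem_W D K hs hx) (nu_mem_W D K hs hy)]
      trivial
    · have hW : D.W K A s = Submodule.span K {nu K x} := W_one D K hs hx fun w hw => by
        rcases hA w hw with h | h
        · exact h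
        · rw [h] at hw
          exact absurd hw hy
      rw [hW] at h1 ⊢
      exact (ker_pp K x p).1 (h1 fun q hq => (ker_pp K x q).2 hq)
  · by_cases hy : D.arm s y ∈ A
    · have hW : D.W K A s = Submodule.span K {nu K y} := W_one D K hs hy fun w hw => by
        rcases hA w hw with h | h
        · rw [h] at hw
          exact absurd hw hx
        · exact h
      rw [hW] at h2 ⊢
      exact (ker_pp K y p).1 (h2 fun q hq => (ker_pp K y q).2 hq)
    · have hW : D.W K A s = ⊥ := W_none D K hs fun w hw => by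
        rcases hA w hw with h | h
        · rw [h] at hw
          exact hx hw
        · rw [h] at hw
          exact hy hw
      rw [hW] at h1 h2 ⊢
      have h3 : ∀ z : Fin 3, ∀ q ∈ (⊥ : Submodule K (Fin 2 → K)), ∑ j, pp K z j * q j = 0 := by
        intro z q hq
        rw [(Submodule.mem_bot K).1 hq]
        simp
      rw [Submodule.mem_bot]
      exact zero_of K hxy (h1 (h3 x)) (h2 (h3 y))

end Pool.Agent.H6.SC
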