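import Pool.Agent.H6.SC.Div

/-!
# SC.Theta : the functionals `g ↦ ω (bmp v * g)`

`β = (nbs G v).card ≤ 3 ≤ T`. PROOF. `theta_vec`: for `g` homogeneous of degree `T - β` the form `bmp v * g` vanishes on all lines
except `L v` (`bump`), so `vec ω (bmp v * g) ∈ L v ⊓ Λ` (`vec_mem_L`, `hL`). `theta_zero`: `L v ⊓ Λ ≤ span {q}`; the functional
`θ = ω ∘ (bmp v * ·)` satisfies `(θ (X i * g))_i = vec ω (bmp v * g) ∈ span {q}` for `g` of degree `T - β`, so
`q j * θ (X i * g) = q i * θ (X j * g)`. If `q = 0` then all `θ (X i * g) = 0` (`zero_of_mul_zero`). Otherwise choose `j` with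
`q j ≠ 0`: `ev_aux` (H74/Secant/Poly.lean, `n = T - β`) gives `q j ^ (T + 1 - β) * θ f = aeval q f * θ (X j ^ (T + 1 - β))` for all
homogeneous `f` of degree `T + 1 - β`; with `f = g₀`: `θ (X j ^ _) = 0`, hence `θ = 0`.
`theta_cut`: `h = cut u v * X i ^ (T - cdeg u v)`, `vec ω h = 0`. By `cut_div` the forms `lin u v * h` and
`bmp u * (g * X i ^ (T - cdeg))` agree on all lines; both are homogeneous of degree `T + 1`, so `ω` has the same value (`hX` for the
difference), and `ω (lin u v * h) = 0` (`vec_form`). Apply `theta_zero` with `q = nod u v`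
(`L u ⊓ Λ ≤ span {nod u v}`: `nod u v ∈ L u ⊓ Λ`, which is not `L u`, so it has dimension one),
`g₀ = g * X i ^ (T - cdeg)`.
-/

set_option autoImplicit false

open MvPolynomial Pool.Agent.H74.Secant

namespace Pool.Agent.H6.SC

universe u

variable {K : Type u} [Field K] {N : ℕ} {V : Type} [Fintype V] {G : SimpleGraph V} (a : Arr K N G)
  {Λ : Submodule K (Fin N → K)} {T : ℕ} {ω : MvPolynomial (Fin N) K →ₗ[K] K}

theorem nbs_le {K : Type u} [Field K] {N : ℕ} {V : Type} [Fintype V] {G : SimpleGraph V} (a : Arr K N G) (v : V) :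
    (nbs G v).card ≤ 3 := by
  obtain ⟨u, hu⟩ := a.nb v
  have h1 := a.card_le v u hu
  have h2 := a.cdeg_le v u hu
  omega

theorem inf_le_span {v u : V} (h : G.Adj v u) (hn : a.nod v u ∈ Λ) (hv : ¬ a.L v ≤ Λ) :
    a.L v ⊓ Λ ≤ Submodule.span K {a.nod v u} := by
  have h1 : Submodule.span K {a.nod v u} ≤ a.L v ⊓ Λ := by
    rw [Submodule.span_singleton_le_iff_mem]
    exact ⟨a.nod_mem v u h, hn⟩
  have h2 : a.L v ⊓ Λ < a.L v := lt_of_le_of_ne inf_le_left fun hc => hv (inf_eq_left.1 hc)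
  have h3 : Module.finrank K (a.L v ⊓ Λ : Submodule K (Fin N → K)) < 2 := by
    rw [← a.dim v]
    exact Submodule.finrank_lt_finrank_of_lt h2
  have h4 : Module.finrank K (Submodule.span K {a.nod v u}) = 1 := finrank_span_singleton (a.nod_ne v u h)
  exact (Submodule.eq_of_le_of_finrank_le h1 (by omega)).ge

private theorem bmp_hom' (v : V) : (a.bmp v).IsHomogeneous (nbs G v).card := by
  have h1 := IsHomogeneous.prod (nbs G v) (fun u => a.lin v u) (fun _ => 1)
    (fun u hu => a.lin_hom v u ((mem_nbs G).1 hu))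
  simpa [Arr.bmp] using h1

theorem theta_vec (hω : Fnl a Λ T ω) (hT : 3 ≤ T) (v : V) {g : MvPolynomial (Fin N) K}
    (hg : g.IsHomogeneous (T - (nbs G v).card)) : vec ω (a.bmp v * g) ∈ a.L v ⊓ Λ := by
  have h3 := nbs_le a v
  have hh : (a.bmp v * g).IsHomogeneous T := by
    have h1 := (bmp_hom' a v).mul hg
    rwa [show (nbs G v).card + (T - (nbs G v).card) = T by omega] at h1
  refine ⟨vec_mem_L a hω hh v fun w hw z hz => ?_, hω.hL _ hh⟩
  rw [map_mul]
  have h1 : aeval z (a.bmp v) = 0 := a.bump v w hw z hz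
  rw [h1, zero_mul]

theorem theta_zero (hω : Fnl a Λ T ω) (hT : 3 ≤ T) (v : V) {q : Fin N → K}
    (hq : a.L v ⊓ Λ ≤ Submodule.span K {q}) {g₀ : MvPolynomial (Fin N) K}
    (hg₀ : g₀.IsHomogeneous (T + 1 - (nbs G v).card)) (h1 : q = 0 ∨ aeval q g₀ ≠ 0) (h2 : ω (a.bmp v * g₀) = 0) :
    ∀ g : MvPolynomial (Fin N) K, g.IsHomogeneous (T + 1 - (nbs G v).card) → ω (a.bmp v * g) = 0 := by
  intro g hg
  have h3 := nbs_le a v
  set n := T - (nbs G v).card with hn
  have hn1 : T + 1 - (nbs G v).card = n + 1 := by omega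
  rw [hn1] at hg hg₀
  set θ : MvPolynomial (Fin N) K →ₗ[K] K := ω.comp (LinearMap.mulLeft K (a.bmp v)) with hθ
  have hθa : ∀ f, θ f = ω (a.bmp v * f) := fun f => rfl
  have hvec : ∀ f : MvPolynomial (Fin N) K, f.IsHomogeneous n →
      ∃ c : K, ∀ i, θ (X i * f) = c * q i := by
    intro f hf
    obtain ⟨c, hc⟩ := Submodule.mem_span_singleton.1 (hq (theta_vec a hω hT v hf))
    refine ⟨c, fun i => ?_⟩
    have h4 := congrFun hc i
    rw [Pi.smul_apply, smul_eq_mul] at h4
    rw [h4, hθa]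
    unfold vec
    congr 1
    ring
  by_cases hq0 : q = 0
  · have h4 := zero_of_mul_zero n θ (fun f hf i => by
      obtain ⟨c, hc⟩ := hvec f hf
      rw [hc i, hq0]
      simp) g hg
    exact h4
  · obtain ⟨j, hj⟩ : ∃ j, q j ≠ 0 := by
      by_contra hcon
      push Not at hcon
      exact hq0 (funext hcon)
    have H : ∀ f : MvPolynomial (Fin N) K, f.IsHomogeneous n → ∀ i,
        q j * θ (X i * f) = q i * θ (X j * f) := by
      intro f hf i
      obtain ⟨c, hc⟩ := hvec f hf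
      rw [hc i, hc j]
      ring
    have h4 := ev_aux q j n θ H g₀ hg₀
    rw [hθa g₀, h2, mul_zero] at h4
    have h5 : θ (X j ^ (n + 1)) = 0 := by
      rcases mul_eq_zero.1 h4.symm with h6 | h6
      · exact absurd h6 (h1.resolve_left hq0)
      · exact h6
    exact ev_zero q j hj n θ H h5 g hg

theorem theta_cut (hω : Fnl a Λ T ω) (hT : 3 ≤ T) {u v : V} (h : G.Adj u v) (hn : a.nod u v ∈ Λ)
    (hu : ¬ a.L u ≤ Λ) {i : Fin N} (hi : a.nod u v i ≠ 0)
    (h0 : vec ω (a.cut u v * X i ^ (T - a.cdeg u v)) = 0) :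
    ∀ g : MvPolynomial (Fin N) K, g.IsHomogeneous (T + 1 - (nbs G u).card) → ω (a.bmp u * g) = 0 := by
  obtain ⟨g1, hg1, hg1n, hg1e⟩ := a.cut_div u v h
  have hc2 := a.cdeg_le u v h
  have hcl := a.card_le u v h
  have hX := isHomogeneous_X_pow (R := K) i (T - a.cdeg u v)
  have hg0 : (g1 * X i ^ (T - a.cdeg u v)).IsHomogeneous (T + 1 - (nbs G u).card) := by
    have h1 := hg1.mul hX
    rwa [show a.cdeg u v + 1 - (nbs G u).card + (T - a.cdeg u v) = T + 1 - (nbs G u).card by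
      omega] at h1
  refine theta_zero a hω hT u (inf_le_span a h hn hu) hg0 (Or.inr ?_) ?_
  · rw [map_mul, map_pow, aeval_X]
    exact mul_ne_zero hg1n (pow_ne_zero _ hi)
  · have e1 : ω (a.lin u v * (a.cut u v * X i ^ (T - a.cdeg u v))) = 0 := by
      rw [vec_form ω _ (a.lin_hom u v h), h0]
      rw [aeval_zero, constantCoeff_eq, (a.lin_hom u v h).coeff_eq_zero (by simp), map_zero]
    have hlh : (a.lin u v * (a.cut u v * X i ^ (T - a.cdeg u v))).IsHomogeneous (T + 1) := by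
      have h1 := (a.lin_hom u v h).mul ((a.cut_hom u v h).mul hX)
      rwa [show 1 + (a.cdeg u v + (T - a.cdeg u v)) = T + 1 by omega] at h1
    have hbh : (a.bmp u * (g1 * X i ^ (T - a.cdeg u v))).IsHomogeneous (T + 1) := by
      have h1 := (bmp_hom' a u).mul hg0
      rwa [show (nbs G u).card + (T + 1 - (nbs G u).card) = T + 1 by omega] at h1
    have e2 : ω (a.lin u v * (a.cut u v * X i ^ (T - a.cdeg u v)) -
        a.bmp u * (g1 * X i ^ (T - a.cdeg u v))) = 0 := by
      refine hω.hX _ (hlh.sub hbh) fun w z hz => ?_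
      have h1 := hg1e w z hz
      rw [map_sub, ← mul_assoc, ← mul_assoc, map_mul, map_mul (aeval z) (a.bmp u * g1), h1]
      exact sub_self _
    rw [map_sub, e1, zero_sub, neg_eq_zero] at e2
    exact e2

end Pool.Agent.H6.SC
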