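import Pool.Agent.H6.SC.Defs

/-!
# SC.Vec : the vectors `vec ω h`

PROOF. `vec_form`: `ξ = ∑ c_i X_i` (`homogeneousSubmodule_one_eq_span_X`, as `linear_form` in H74/Secant/Final.lean);
`ω (ξ * h) = ∑ c_i ω (X i * h) = aeval (vec ω h) ξ`. `vec_mem_of`: if `vec ω h ∉ M` there is a linear functional `w` with
`w (vec ω h) ≠ 0` and `w = 0` on `M` (`Submodule.exists_dual_map_eq_bot_of_notMem`, see `fnl_of` in
H74/Secant/Bound.lean); let `ξ = ∑ w (e_i) X_i`, then `aeval z ξ = w z` for every `z` (write `z = ∑ z_i e_i`), so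
`w (vec ω h) = ω (ξ * h) = 0`. `vec_mem_L`, `vec_mem_sup`: `ξ * h` vanishes on all lines (degree `T + 1`), use `hX` and
`vec_mem_of`.
-/

set_option autoImplicit false

open MvPolynomial Pool.Agent.H74.Secant

namespace Pool.Agent.H6.SC

universe u

variable {K : Type u} [Field K] {N : ℕ}

private theorem lin_form' {g : MvPolynomial (Fin N) K} (hg : g.IsHomogeneous 1) :
    ∃ a : Fin N → K, g = ∑ i, C (a i) * X i := by
  have : g ∈ homogeneousSubmodule (Fin N) K 1 := hg
  rw [homogeneousSubmodule_one_eq_span_X, Submodule.mem_span_range_iff_exists_fun] at this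
  obtain ⟨a, ha⟩ := this
  refine ⟨a, ?_⟩
  rw [← ha]
  exact Finset.sum_congr rfl fun i _ => by rw [smul_eq_C_mul]

theorem vec_form (ω : MvPolynomial (Fin N) K →ₗ[K] K) (h : MvPolynomial (Fin N) K) {ξ : MvPolynomial (Fin N) K}
    (hξ : ξ.IsHomogeneous 1) : ω (ξ * h) = aeval (vec ω h) ξ := by
  obtain ⟨a, rfl⟩ := lin_form' hξ
  rw [Finset.sum_mul, map_sum, map_sum]
  refine Finset.sum_congr rfl fun i _ => ?_
  have h1 : aeval (vec ω h) (C (a i) * X i : MvPolynomial (Fin N) K) = a i * ω (X i * h) := by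
    rw [map_mul, aeval_X, aeval_C]
    rfl
  rw [h1, mul_assoc, ← smul_eq_C_mul, map_smul, smul_eq_mul]

/-- a linear functional is the evaluation of a linear form -/
theorem exists_form (w : (Fin N → K) →ₗ[K] K) :
    ∃ ξ : MvPolynomial (Fin N) K, ξ.IsHomogeneous 1 ∧ ∀ z, aeval z ξ = w z := by
  refine ⟨∑ i, C (w (Pi.single i 1)) * X i, ?_, fun z => ?_⟩
  · refine IsHomogeneous.sum _ _ _ fun i _ => ?_
    have := (isHomogeneous_C (Fin N) (w (Pi.single i 1))).mul (isHomogeneous_X K i)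
    simpa using this
  · conv_rhs => rw [← Finset.univ_sum_single z]
    rw [map_sum, map_sum]
    refine Finset.sum_congr rfl fun i _ => ?_
    have h1 : (Pi.single i (z i) : Fin N → K) = z i • Pi.single i 1 := by
      rw [← Pi.single_smul, smul_eq_mul, mul_one]
    rw [h1, map_smul, smul_eq_mul, map_mul, aeval_X, aeval_C, mul_comm]
    rfl

theorem vec_mem_of (M : Submodule K (Fin N → K)) (ω : MvPolynomial (Fin N) K →ₗ[K] K) (h : MvPolynomial (Fin N) K)
    (H : ∀ ξ : MvPolynomial (Fin N) K, ξ.IsHomogeneous 1 → (∀ z ∈ M, aeval z ξ = 0) → ω (ξ * h) = 0) :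
    vec ω h ∈ M := by
  by_contra hmem
  obtain ⟨w, h1, h2⟩ := Submodule.exists_dual_map_eq_bot_of_notMem hmem inferInstance
  apply h1
  obtain ⟨ξ, hξ1, hξ2⟩ := exists_form w
  rw [← hξ2, ← vec_form ω h hξ1]
  refine H ξ hξ1 fun z hz => ?_
  rw [hξ2]
  have : w z ∈ Submodule.map w M := Submodule.mem_map_of_mem hz
  rw [h2, Submodule.mem_bot] at this
  exact this

variable {V : Type} [Fintype V] {G : SimpleGraph V} (a : Arr K N G) {Λ : Submodule K (Fin N → K)} {T : ℕ}
  {ω : MvPolynomial (Fin N) K →ₗ[K] K}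

theorem vec_mem_L (hω : Fnl a Λ T ω) {h : MvPolynomial (Fin N) K} (hh : h.IsHomogeneous T) (v : V)
    (hv : ∀ w, w ≠ v → ∀ z ∈ a.L w, aeval z h = 0) : vec ω h ∈ a.L v := by
  refine vec_mem_of _ ω h fun ξ hξ hz => hω.hX _ ?_ fun w z hzw => ?_
  · have := hξ.mul hh
    rwa [add_comm] at this
  · rw [map_mul]
    by_cases hw : w = v
    · rw [hz z (by rw [← hw]; exact hzw), zero_mul]
    · rw [hv w hw z hzw, mul_zero]

theorem vec_mem_sup (hω : Fnl a Λ T ω) {h : MvPolynomial (Fin N) K} (hh : h.IsHomogeneous T) (u v : V)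
    (hv : ∀ w, w ≠ u → w ≠ v → ∀ z ∈ a.L w, aeval z h = 0) : vec ω h ∈ a.L u ⊔ a.L v := by
  refine vec_mem_of _ ω h fun ξ hξ hz => hω.hX _ ?_ fun w z hzw => ?_
  · have := hξ.mul hh
    rwa [add_comm] at this
  · rw [map_mul]
    by_cases hu : w = u
    · have h1 : a.L u ≤ a.L u ⊔ a.L v := le_sup_left
      rw [hz z (h1 (by rw [← hu]; exact hzw)), zero_mul]
    · by_cases hw : w = v
      · have h1 : a.L v ≤ a.L u ⊔ a.L v := le_sup_right
        rw [hz z (h1 (by rw [← hw]; exact hzw)), zero_mul]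
      · rw [hv w hu hw z hzw, mul_zero]

end Pool.Agent.H6.SC
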