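import Pool.Agent.H6.SC.Theta

/-!
# SC.Zero : a functional is zero if all its local values are zero

`hp u v i T = cut u v * X i ^ (T - cdeg u v)` (`nod u v i ≠ 0`) is homogeneous of degree `T ≥ 2`, vanishes at all nodes except
`nod u v` (`cut_L`, `cut_nod`: a node lies on a line different from `L u`, `L v`, or it is a node `nod u w`, `w ≠ v`, or `nod v w`,
`w ≠ u`, use `cut_symm`), and not at `nod u v`.

PROOF of `fnl_zero`. (1) If `f` is homogeneous of degree `T + 1` and vanishes at all nodes then `ω f = 0`: for every `v` there is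
`g_v` with `f = bmp v * g_v` on `L v` (`div_bmp`); `f - ∑ v, bmp v * g_v` vanishes on all lines (`bump`), so
`ω f = ∑ ω (bmp v * g_v) = 0`. (2) `vec ω (hp u v i T) = 0` for all adjacent `u, v`: if `nod u v ∈ Λ` this is the hypothesis (`hcut`,
for one of the two orders; `cut_symm`, `nod_symm`, `cdeg_symm` and the index `i` chosen for the pair: the hypothesis is given for
ordered pairs with `o u < o v` and the index `i u v`; for the other order use the same `i`). If `nod u v ∉ Λ`: `n = nod u v`,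
`n_i X_j hp - n_j X_i hp` vanishes at all nodes, so `n_i vec_j = n_j vec_i`, `vec` is a multiple of `n`, it lies in `Λ` (`hL`), so it is `0`.
(3) For `f` homogeneous of degree `T + 1` let `f' = f - ∑ over the pairs o u < o v of (f (nod) / (X_i hp) (nod)) • (X_i * hp)`; `f'`
vanishes at all nodes, `ω (X_i * hp) = (vec ω hp)_i = 0`, so `ω f = ω f' = 0`.
-/

set_option autoImplicit false

open MvPolynomial Pool.Agent.H74.Secant

namespace Pool.Agent.H6.SC

universe u

variable {K : Type u} [Field K] {N : ℕ} {V : Type} [Fintype V] {G : SimpleGraph V} (a : Arr K N G)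
  {Λ : Submodule K (Fin N → K)} {T : ℕ} {ω : MvPolynomial (Fin N) K →ₗ[K] K}

private theorem hp_homX {u v : V} (h : G.Adj u v) (hT : 2 ≤ T) (i j : Fin N) :
    (X j * (a.cut u v * X i ^ (T - a.cdeg u v))).IsHomogeneous (T + 1) := by
  have h1 : (a.cut u v).IsHomogeneous (a.cdeg u v) := a.cut_hom u v h
  have h2 : ((X i : MvPolynomial (Fin N) K) ^ (T - a.cdeg u v)).IsHomogeneous (1 * (T - a.cdeg u v)) :=
    (isHomogeneous_X K i).pow _
  have h3 := (isHomogeneous_X K j).mul (h1.mul h2)
  have h4 := a.cdeg_le u v h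
  have h5 : 1 + (a.cdeg u v + 1 * (T - a.cdeg u v)) = T + 1 := by omega
  rw [h5] at h3
  exact h3

theorem hp_hom {u v : V} (h : G.Adj u v) (hT : 2 ≤ T) (i : Fin N) :
    (a.cut u v * X i ^ (T - a.cdeg u v)).IsHomogeneous T := by
  have h1 : (a.cut u v).IsHomogeneous (a.cdeg u v) := a.cut_hom u v h
  have h2 : ((X i : MvPolynomial (Fin N) K) ^ (T - a.cdeg u v)).IsHomogeneous (1 * (T - a.cdeg u v)) :=
    (isHomogeneous_X K i).pow _
  have h3 := h1.mul h2
  have h4 := a.cdeg_le u v h
  have h5 : a.cdeg u v + 1 * (T - a.cdeg u v) = T := by omega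
  rw [h5] at h3
  exact h3

theorem hp_nod {u v u' v' : V} (h : G.Adj u v) (h' : G.Adj u' v') (hne : s(u, v) ≠ s(u', v')) (i : Fin N) (n : ℕ) :
    aeval (a.nod u' v') (a.cut u v * X i ^ n) = 0 := by
  have key : aeval (a.nod u' v') (a.cut u v) = 0 := by
    by_cases h1 : u' ≠ u ∧ u' ≠ v
    · exact a.cut_L u v h u' h1.1 h1.2 _ (a.nod_mem u' v' h')
    · by_cases h2 : v' ≠ u ∧ v' ≠ v
      · rw [a.nod_symm u' v' h']
        exact a.cut_L u v h v' h2.1 h2.2 _ (a.nod_mem v' u' h'.symm)
      · exfalso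
        apply hne
        have h3 : u' = u ∨ u' = v := by
          by_contra hc
          push Not at hc
          exact h1 hc
        have h4 : v' = u ∨ v' = v := by
          by_contra hc
          push Not at hc
          exact h2 hc
        have h5 : u' ≠ v' := h'.ne
        rcases h3 with rfl | rfl <;> rcases h4 with rfl | rfl
        · exact absurd rfl h5
        · rfl
        · exact Sym2.eq_swap
        · exact absurd rfl h5
  rw [map_mul, key, zero_mul]

private theorem fnl_nodes (hω : Fnl a Λ T ω) (hT : 3 ≤ T)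
    (hth : ∀ v, ∀ g : MvPolynomial (Fin N) K, g.IsHomogeneous (T + 1 - (nbs G v).card) → ω (a.bmp v * g) = 0)
    (f : MvPolynomial (Fin N) K) (hf : f.IsHomogeneous (T + 1))
    (h0 : ∀ u v, G.Adj u v → aeval (a.nod u v) f = 0) : ω f = 0 := by
  classical
  have hle : ∀ v, (nbs G v).card ≤ T + 1 := fun v => by
    have := nbs_le a v
    omega
  choose g hg1 hg2 using fun v => div_bmp a v (hle v) hf (fun u hu => h0 v u hu)
  have hhom : ∀ v, (a.bmp v * g v).IsHomogeneous (T + 1) := by
    intro v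
    have h1 := (bmp_hom a v).mul (hg1 v)
    have h2 : (nbs G v).card + (T + 1 - (nbs G v).card) = T + 1 := by
      have := hle v
      omega
    rw [h2] at h1
    exact h1
  have hhom' : (f - ∑ v, a.bmp v * g v).IsHomogeneous (T + 1) :=
    hf.sub (IsHomogeneous.sum _ _ _ (fun v _ => hhom v))
  have hvan : a.Van (f - ∑ v, a.bmp v * g v) := by
    intro w z hz
    rw [map_sub, map_sum, Finset.sum_eq_single w]
    · rw [hg2 w z hz, sub_self]
    · intro v _ hvw
      rw [map_mul]
      have : aeval z (a.bmp v) = 0 := a.bump v w hvw.symm z hz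
      rw [this, zero_mul]
    · intro hw
      exact absurd (Finset.mem_univ w) hw
  have h1 := hω.hX _ hhom' hvan
  rw [map_sub, map_sum, Finset.sum_eq_zero (fun v _ => hth v _ (hg1 v)), sub_zero] at h1
  exact h1

private theorem vec_zero (hω : Fnl a Λ T ω) (hT : 3 ≤ T)
    (hth : ∀ v, ∀ g : MvPolynomial (Fin N) K, g.IsHomogeneous (T + 1 - (nbs G v).card) → ω (a.bmp v * g) = 0)
    {u v : V} (h : G.Adj u v) {i : Fin N} (hi : a.nod u v i ≠ 0) (hn : a.nod u v ∉ Λ) :
    vec ω (a.cut u v * X i ^ (T - a.cdeg u v)) = 0 := by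
  have key : ∀ j k, a.nod u v j * vec ω (a.cut u v * X i ^ (T - a.cdeg u v)) k =
      a.nod u v k * vec ω (a.cut u v * X i ^ (T - a.cdeg u v)) j := by
    intro j k
    have h1 : ω (a.nod u v j • (X k * (a.cut u v * X i ^ (T - a.cdeg u v))) -
        a.nod u v k • (X j * (a.cut u v * X i ^ (T - a.cdeg u v)))) = 0 := by
      refine fnl_nodes a hω hT hth _ ?_ ?_
      · have h2 : ∀ (c : K) (q : MvPolynomial (Fin N) K), q.IsHomogeneous (T + 1) → (c • q).IsHomogeneous (T + 1) := by
          intro c q hq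
          exact (homogeneousSubmodule (Fin N) K (T + 1)).smul_mem c hq
        exact (h2 _ _ (hp_homX a h (by omega) i k)).sub (h2 _ _ (hp_homX a h (by omega) i j))
      · intro u' v' h'
        by_cases hs : s(u, v) = s(u', v')
        · have h3 : a.nod u' v' = a.nod u v := by
            rcases Sym2.eq_iff.1 hs with ⟨e1, e2⟩ | ⟨e1, e2⟩
            · rw [e1, e2]
            · rw [e1, e2]
              exact a.nod_symm u' v' h'
          rw [h3]
          simp only [map_sub, map_smul, map_mul, aeval_X, smul_eq_mul]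
          ring
        · have h3 := hp_nod a h h' hs i (T - a.cdeg u v)
          rw [map_sub, map_smul, map_smul, map_mul _ (X k), map_mul _ (X j), h3]
          simp
    rw [map_sub, map_smul, map_smul, sub_eq_zero] at h1
    simpa only [smul_eq_mul, vec] using h1
  have hL := hω.hL _ (hp_hom a h (by omega : 2 ≤ T) i)
  set w := vec ω (a.cut u v * X i ^ (T - a.cdeg u v)) with hw
  have h4 : w = (w i / a.nod u v i) • a.nod u v := by
    funext k
    have h5 := key i k
    simp only [Pi.smul_apply, smul_eq_mul]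
    field_simp
    linear_combination h5
  by_cases hc : w i / a.nod u v i = 0
  · rw [h4, hc, zero_smul]
  · exfalso
    apply hn
    have h6 : a.nod u v = (w i / a.nod u v i)⁻¹ • w := by
      conv_rhs => rw [h4]
      rw [smul_smul]
      have : (((w i / a.nod u v i) • a.nod u v) i / a.nod u v i) = w i / a.nod u v i := by
        simp only [Pi.smul_apply, smul_eq_mul]
        field_simp
      rw [this, inv_mul_cancel₀ hc, one_smul]
    rw [h6]
    exact Submodule.smul_mem _ _ hL

theorem fnl_zero (hω : Fnl a Λ T ω) (hT : 3 ≤ T)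
    (hth : ∀ v, ∀ g : MvPolynomial (Fin N) K, g.IsHomogeneous (T + 1 - (nbs G v).card) → ω (a.bmp v * g) = 0)
    (o : V → ℕ) (ho : Function.Injective o) (i : V → V → Fin N)
    (hi : ∀ u v, G.Adj u v → o u < o v → a.nod u v (i u v) ≠ 0)
    (hcut : ∀ u v, G.Adj u v → o u < o v → a.nod u v ∈ Λ → vec ω (a.cut u v * X (i u v) ^ (T - a.cdeg u v)) = 0)
    (f : MvPolynomial (Fin N) K) (hf : f.IsHomogeneous (T + 1)) : ω f = 0 := by
  classical
  have hvec : ∀ u v, G.Adj u v → o u < o v → vec ω (a.cut u v * X (i u v) ^ (T - a.cdeg u v)) = 0 := by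
    intro u v h hlt
    by_cases hn : a.nod u v ∈ Λ
    · exact hcut u v h hlt hn
    · exact vec_zero a hω hT hth h (hi u v h hlt) hn
  let q : V × V → MvPolynomial (Fin N) K := fun p =>
    X (i p.1 p.2) * (a.cut p.1 p.2 * X (i p.1 p.2) ^ (T - a.cdeg p.1 p.2))
  let c : V × V → K := fun p => aeval (a.nod p.1 p.2) f / aeval (a.nod p.1 p.2) (q p)
  let E : Finset (V × V) := Finset.univ.filter (fun p : V × V => G.Adj p.1 p.2 ∧ o p.1 < o p.2)
  have hE : ∀ p, p ∈ E ↔ G.Adj p.1 p.2 ∧ o p.1 < o p.2 := fun p => by simp [E]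
  have hq0 : ∀ p ∈ E, aeval (a.nod p.1 p.2) (q p) ≠ 0 := by
    intro p hp
    obtain ⟨h1, h2⟩ := (hE p).1 hp
    have h3 := hi p.1 p.2 h1 h2
    have h4 := a.cut_ne p.1 p.2 h1
    simp only [q, map_mul, map_pow, aeval_X]
    exact mul_ne_zero h3 (mul_ne_zero h4 (pow_ne_zero _ h3))
  have hqn : ∀ p ∈ E, ∀ p' ∈ E, p ≠ p' → aeval (a.nod p'.1 p'.2) (q p) = 0 := by
    intro p hp p' hp' hne
    obtain ⟨h1, h2⟩ := (hE p).1 hp
    obtain ⟨h1', h2'⟩ := (hE p').1 hp'
    have hs : s(p.1, p.2) ≠ s(p'.1, p'.2) := by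
      intro hs
      rcases Sym2.eq_iff.1 hs with ⟨e1, e2⟩ | ⟨e1, e2⟩
      · exact hne (Prod.ext e1 e2)
      · rw [e1, e2] at h2
        omega
    have h3 := hp_nod a h1 h1' hs (i p.1 p.2) (T - a.cdeg p.1 p.2)
    simp only [q]
    rw [map_mul, h3, mul_zero]
  have hqhom : ∀ p ∈ E, (q p).IsHomogeneous (T + 1) := by
    intro p hp
    exact hp_homX a ((hE p).1 hp).1 (by omega) _ _
  have hsm : ∀ (c : K) (q : MvPolynomial (Fin N) K), q.IsHomogeneous (T + 1) → (c • q).IsHomogeneous (T + 1) := by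
    intro c q hq
    exact (homogeneousSubmodule (Fin N) K (T + 1)).smul_mem c hq
  have hhom : (f - ∑ p ∈ E, c p • q p).IsHomogeneous (T + 1) :=
    hf.sub (IsHomogeneous.sum _ _ _ (fun p hp => hsm _ _ (hqhom p hp)))
  have hval : ∀ p' ∈ E, aeval (a.nod p'.1 p'.2) (f - ∑ p ∈ E, c p • q p) = 0 := by
    intro p' hp'
    rw [map_sub, map_sum, Finset.sum_eq_single_of_mem p' hp']
    · rw [map_smul, smul_eq_mul]
      simp only [c]
      rw [div_mul_cancel₀ _ (hq0 p' hp'), sub_self]
    · intro p hp hne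
      rw [map_smul, hqn p hp p' hp' hne, smul_zero]
  have hzero : ∀ u v, G.Adj u v → aeval (a.nod u v) (f - ∑ p ∈ E, c p • q p) = 0 := by
    intro u v h
    rcases lt_trichotomy (o u) (o v) with h1 | h1 | h1
    · exact hval (u, v) ((hE _).2 ⟨h, h1⟩)
    · exact absurd (ho h1) h.ne
    · rw [a.nod_symm u v h]
      exact hval (v, u) ((hE _).2 ⟨h.symm, h1⟩)
  have h1 := fnl_nodes a hω hT hth _ hhom hzero
  rw [map_sub, map_sum, Finset.sum_eq_zero, sub_zero] at h1
  · exact h1
  · intro p hp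
    obtain ⟨h2, h3⟩ := (hE p).1 hp
    have h4 := congrFun (hvec p.1 p.2 h2 h3) (i p.1 p.2)
    simp only [vec, Pi.zero_apply] at h4
    rw [map_smul]
    simp only [q]
    rw [h4, smul_zero]

end Pool.Agent.H6.SC
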